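import Pool.Agent.ACY.Defs

/-!
# ACY-Ba: rank functions, closures, flats

Contractions, unit increase, closures as flats, flats of a restriction.
-/

set_option autoImplicit false

namespace ACY

open Finset

variable {α : Type} [DecidableEq α] {r : Finset α → ℕ} {S A B C D F G W X Z : Finset α} {e f x : α} {k j : ℕ}

theorem RK.con (hr : RK r) (C : Finset α) : RK (con r C) := by
  have key : ∀ A : Finset α, r C ≤ r (A ∪ C) := fun A => hr.mono _ _ subset_union_right
  refine ⟨?_, ?_, ?_, ?_⟩
  · show r (∅ ∪ C) - r C = 0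
    rw [empty_union, Nat.sub_self]
  · intro A B h
    exact Nat.sub_le_sub_right (hr.mono _ _ (union_subset_union_left h)) _
  · intro A x
    show r (insert x A ∪ C) - r C ≤ r (A ∪ C) - r C + 1
    rw [insert_union]
    have h1 := hr.one (A ∪ C) x
    have h2 := key A
    omega
  · intro A B
    show r (A ∪ B ∪ C) - r C + (r (A ∩ B ∪ C) - r C) ≤ r (A ∪ C) - r C + (r (B ∪ C) - r C)
    have h1 := hr.sub (A ∪ C) (B ∪ C)
    have h2 : A ∪ C ∪ (B ∪ C) = A ∪ B ∪ C := by
      ext y
      simp only [mem_union]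
      tauto
    have h3 : (A ∪ C) ∩ (B ∪ C) = A ∩ B ∪ C := by
      ext y
      simp only [mem_union, mem_inter]
      tauto
    rw [h2, h3] at h1
    have h4 := key A
    have h5 := key B
    have h6 := key (A ∪ B)
    have h7 := key (A ∩ B)
    omega

theorem con_add (hr : RK r) (C A : Finset α) : ACY.con r C A + r C = r (A ∪ C) := by
  have h1 : r C ≤ r (A ∪ C) := hr.mono _ _ subset_union_right
  show r (A ∪ C) - r C + r C = r (A ∪ C)
  omega

theorem con_con (hr : RK r) (C D A : Finset α) : ACY.con (ACY.con r C) D A = ACY.con r (D ∪ C) A := by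
  show (r (A ∪ D ∪ C) - r C) - (r (D ∪ C) - r C) = r (A ∪ (D ∪ C)) - r (D ∪ C)
  have h1 : r C ≤ r (D ∪ C) := hr.mono _ _ subset_union_right
  rw [union_assoc]
  omega

theorem RK.ins (hr : RK r) (A : Finset α) (x : α) : r (insert x A) = r A ∨ r (insert x A) = r A + 1 := by
  have h1 := hr.mono _ _ (subset_insert x A)
  have h2 := hr.one A x
  omega

theorem RK.cl_mono (hr : RK r) (hAB : A ⊆ B) (h : r (insert x A) = r A) : r (insert x B) = r B := by
  by_cases hx : x ∈ B
  · rw [insert_eq_of_mem hx]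
  · have h1 := hr.sub (insert x A) B
    have h2 : insert x A ∪ B = insert x B := by
      rw [insert_union, union_eq_right.2 hAB]
    have h3 : r A ≤ r (insert x A ∩ B) :=
      hr.mono _ _ (subset_inter (subset_insert x A) hAB)
    rw [h2] at h1
    have h4 := hr.mono _ _ (subset_insert x B)
    omega

theorem RK.cl_union (hr : RK r) (h : ∀ x ∈ B, r (insert x A) = r A) : r (A ∪ B) = r A := by
  induction B using Finset.induction_on with
  | empty => rw [union_empty]
  | insert b B hb ih =>
    have h1 := ih fun x hx => h x (mem_insert_of_mem hx)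
    rw [union_insert, hr.cl_mono subset_union_left (h b (mem_insert_self b B)), h1]

theorem RK.le_card (hr : RK r) (A : Finset α) : r A ≤ A.card := by
  induction A using Finset.induction_on with
  | empty => rw [hr.empty, card_empty]
  | insert a A ha ih =>
    rw [card_insert_of_notMem ha]
    have h1 := hr.one A a
    omega

theorem RK.sing (hr : RK r) (x : α) : r {x} = 0 ∨ r {x} = 1 := by
  have h1 := hr.le_card {x}
  rw [card_singleton] at h1
  omega

theorem mem_flats : F ∈ flats r S ↔ F ⊆ S ∧ ∀ x ∈ S, x ∉ F → r F < r (insert x F) := by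
  unfold flats
  rw [mem_filter, mem_powerset]

theorem mem_lev : F ∈ lev r S k ↔ F ∈ flats r S ∧ r F + k = r S := by
  unfold lev
  rw [mem_filter]

theorem mem_of_flat (hr : RK r) (hF : F ∈ flats r S) (hA : A ⊆ F) (hx : x ∈ S) (h : r (insert x A) = r A) :
    x ∈ F := by
  by_contra hc
  have h1 := (mem_flats.1 hF).2 x hx hc
  rw [hr.cl_mono hA h] at h1
  exact lt_irrefl _ h1

theorem self_flat : S ∈ flats r S :=
  mem_flats.2 ⟨Subset.refl _, fun _ hx hx' => absurd hx hx'⟩

theorem flat_eq (hr : RK r) (hF : F ∈ flats r S) (hG : G ⊆ S) (h : F ⊆ G) (hr' : r F = r G) : F = G := by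
  refine Subset.antisymm h fun x hx => ?_
  by_contra hc
  have h1 := (mem_flats.1 hF).2 x (hG hx) hc
  have h2 := hr.mono (insert x F) G (insert_subset hx h)
  omega

theorem cl_sub : cl r S A ⊆ S := filter_subset _ _

theorem sub_cl (hA : A ⊆ S) : A ⊆ cl r S A := by
  intro x hx
  unfold cl
  rw [mem_filter]
  exact ⟨hA hx, by rw [insert_eq_of_mem hx]⟩

theorem r_cl (hr : RK r) (hA : A ⊆ S) : r (cl r S A) = r A := by
  have h1 : r (A ∪ cl r S A) = r A := hr.cl_union fun x hx => by
    unfold cl at hx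
    exact (mem_filter.1 hx).2
  rwa [union_eq_right.2 (sub_cl hA)] at h1

theorem cl_flat (hr : RK r) (hA : A ⊆ S) : cl r S A ∈ flats r S := by
  refine mem_flats.2 ⟨cl_sub, fun x hx hxc => ?_⟩
  rcases hr.ins (cl r S A) x with h | h
  · exfalso
    apply hxc
    unfold cl
    rw [mem_filter]
    refine ⟨hx, ?_⟩
    have h1 := hr.mono (insert x A) (insert x (cl r S A)) (insert_subset_insert x (sub_cl hA))
    have h2 := hr.mono A (insert x A) (subset_insert x A)
    rw [h, r_cl hr hA] at h1
    omega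
  · omega

theorem cl_min (hr : RK r) (hF : F ∈ flats r S) (hA : A ⊆ F) : cl r S A ⊆ F := by
  intro x hx
  unfold cl at hx
  rw [mem_filter] at hx
  exact mem_of_flat hr hF hA hx.1 hx.2

theorem flats_restrict (hr : RK r) (hX : X ∈ flats r S) : flats r X = (flats r S).filter fun F => F ⊆ X := by
  ext F
  rw [mem_filter]
  constructor
  · intro hF
    have h1 := mem_flats.1 hF
    refine ⟨mem_flats.2 ⟨h1.1.trans (mem_flats.1 hX).1, fun x hx hxF => ?_⟩, h1.1⟩
    by_cases hxX : x ∈ X
    · exact h1.2 x hxX hxF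
    · rcases hr.ins F x with h | h
      · exact absurd (mem_of_flat hr hX h1.1 hx h) hxX
      · omega
  · rintro ⟨hF, hFX⟩
    exact mem_flats.2 ⟨hFX, fun x hx hxF => (mem_flats.1 hF).2 x ((mem_flats.1 hX).1 hx) hxF⟩

theorem lev_restrict (hr : RK r) (hX : X ∈ lev r S k) :
    lev r X j = (lev r S (k + j)).filter fun F => F ⊆ X := by
  have h0 := mem_lev.1 hX
  ext F
  rw [mem_filter, mem_lev, mem_lev, flats_restrict hr h0.1, mem_filter]
  have h1 := h0.2
  constructor
  · rintro ⟨⟨h2, h3⟩, h4⟩
    exact ⟨⟨h2, by omega⟩, h3⟩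
  · rintro ⟨⟨h2, h4⟩, h3⟩
    exact ⟨⟨h2, h3⟩, by omega⟩

end ACY
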