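import Pool.Agent.ACY.Td

/-!
# ACY-Be: the beta invariant

The subsets of `X` are split by the element `f`: `bet r X` is the alternating sum of `r A - r (insert f A)` over the subsets `A` of
`X.erase f`.
-/

set_option autoImplicit false

namespace ACY

open Finset

variable {α : Type} [DecidableEq α] {r : Finset α → ℕ} {S A B C D F G W X Z : Finset α} {e f x : α} {k j : ℕ}

private theorem Be_split (r : Finset α → ℕ) (hf : f ∈ X) :
    bet r X = ∑ A ∈ (X.erase f).powerset, (-1 : ℝ) ^ (A.card + r X) * ((r A : ℝ) - (r (insert f A) : ℝ)) := by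
  unfold bet
  have h1 : ∑ A ∈ X.powerset, (-1 : ℝ) ^ (A.card + r X) * (r A : ℝ) =
      ∑ A ∈ (insert f (X.erase f)).powerset, (-1 : ℝ) ^ (A.card + r X) * (r A : ℝ) := by
    rw [Finset.insert_erase hf]
  rw [h1, Finset.sum_powerset_insert (Finset.notMem_erase f X), ← Finset.sum_add_distrib]
  refine Finset.sum_congr rfl fun A hA => ?_
  have h2 : f ∉ A := fun h => Finset.notMem_erase f X (Finset.mem_powerset.1 hA h)
  rw [Finset.card_insert_of_notMem h2]
  have h3 : A.card + 1 + r X = (A.card + r X) + 1 := by ring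
  rw [h3, pow_succ]
  ring

private theorem Be_zero (hY : X.Nonempty) (n : ℕ) : ∑ A ∈ X.powerset, (-1 : ℝ) ^ (A.card + n) = 0 := by
  have h1 : ∑ A ∈ X.powerset, (-1 : ℤ) ^ A.card = 0 := Finset.sum_powerset_neg_one_pow_card_of_nonempty hY
  have h2 : ∑ A ∈ X.powerset, (-1 : ℝ) ^ A.card = 0 := by
    have h3 : ((∑ A ∈ X.powerset, (-1 : ℤ) ^ A.card : ℤ) : ℝ) = 0 := by rw [h1, Int.cast_zero]
    rw [← h3]
    push_cast
    rfl
  have h4 : ∑ A ∈ X.powerset, (-1 : ℝ) ^ (A.card + n) = (∑ A ∈ X.powerset, (-1 : ℝ) ^ A.card) * (-1 : ℝ) ^ n := by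
    rw [Finset.sum_mul]
    exact Finset.sum_congr rfl fun A _ => pow_add _ _ _
  rw [h4, h2, zero_mul]

theorem bet_congr {r' : Finset α → ℕ} (h : ∀ A, A ⊆ X → r A = r' A) : bet r X = bet r' X := by
  unfold bet
  rw [h X (Finset.Subset.refl X)]
  exact Finset.sum_congr rfl fun A hA => by rw [h A (Finset.mem_powerset.1 hA)]

theorem bet_del (hr : RK r) (hf : f ∈ X) (h1 : r {f} = 1) (h2 : r (X.erase f) = r X) :
    bet r X = bet r (X.erase f) + bet (con r {f}) (X.erase f) := by
  have hX : 1 ≤ r X := by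
    rw [← h1]
    exact hr.mono _ _ (Finset.singleton_subset_iff.2 hf)
  have hY : (X.erase f).Nonempty := by
    rw [Finset.nonempty_iff_ne_empty]
    intro h3
    rw [h3, hr.empty] at h2
    omega
  have hc : ∀ A : Finset α, (con r {f} A : ℝ) = (r (insert f A) : ℝ) - 1 := by
    intro A
    have h3 := con_add hr {f} A
    rw [h1, Finset.union_comm, ← Finset.insert_eq] at h3
    have h4 : ((con r {f} A : ℕ) : ℝ) + 1 = (r (insert f A) : ℝ) := by exact_mod_cast h3
    linarith
  have hcY : con r {f} (X.erase f) + 1 = r X := by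
    have h3 := con_add hr {f} (X.erase f)
    rw [h1, Finset.union_comm, ← Finset.insert_eq, Finset.insert_erase hf] at h3
    exact h3
  have hz := Be_zero hY (r X)
  rw [Be_split r hf]
  unfold bet
  rw [h2]
  have h5 : ∀ A : Finset α, (-1 : ℝ) ^ (A.card + con r {f} (X.erase f)) = -(-1 : ℝ) ^ (A.card + r X) := by
    intro A
    rw [← hcY, ← add_assoc, pow_succ]
    ring
  have h6 : ∑ A ∈ (X.erase f).powerset, (-1 : ℝ) ^ (A.card + con r {f} (X.erase f)) * (con r {f} A : ℝ) =
      ∑ A ∈ (X.erase f).powerset, (-(-1 : ℝ) ^ (A.card + r X) * (r (insert f A) : ℝ) + (-1 : ℝ) ^ (A.card + r X)) := by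
    refine Finset.sum_congr rfl fun A _ => ?_
    rw [h5, hc]
    ring
  rw [h6, Finset.sum_add_distrib, hz, add_zero, ← Finset.sum_add_distrib]
  refine Finset.sum_congr rfl fun A _ => ?_
  ring

theorem bet_col (hr : RK r) (hf : f ∈ X) (he : e ∈ X) (hef : e ≠ f) (h2 : r (X.erase f) < r X) : bet r X = 0 := by
  have hY : (X.erase f).Nonempty := ⟨e, Finset.mem_erase.2 ⟨hef, he⟩⟩
  rw [Be_split r hf]
  have h3 : ∑ A ∈ (X.erase f).powerset, (-1 : ℝ) ^ (A.card + r X) * ((r A : ℝ) - (r (insert f A) : ℝ)) =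
      ∑ A ∈ (X.erase f).powerset, -(-1 : ℝ) ^ (A.card + r X) := by
    refine Finset.sum_congr rfl fun A hA => ?_
    have h4 : r (insert f A) = r A + 1 := by
      rcases hr.ins A f with h5 | h5
      · have h6 := hr.cl_mono (Finset.mem_powerset.1 hA) h5
        rw [Finset.insert_erase hf] at h6
        omega
      · exact h5
    rw [h4]
    push_cast
    ring
  rw [h3, Finset.sum_neg_distrib, Be_zero hY, neg_zero]

theorem bet_loop (hr : RK r) (hx : x ∈ X) (h : r {x} = 0) : bet r X = 0 := by
  rw [Be_split r hx]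
  refine Finset.sum_eq_zero fun A _ => ?_
  have h1 : r (insert x (∅ : Finset α)) = r ∅ := by
    rw [hr.empty]
    exact h
  have h2 := hr.cl_mono (Finset.empty_subset A) h1
  rw [h2, sub_self, mul_zero]

theorem bet_sing (hr : RK r) (h : r {x} = 1) : bet r {x} = 1 := by
  rw [Be_split r (Finset.mem_singleton_self x)]
  have h1 : ({x} : Finset α).erase x = ∅ := by simp
  have h2 : r (insert x (∅ : Finset α)) = 1 := h
  rw [h1, Finset.powerset_empty, Finset.sum_singleton, h2, hr.empty, h]
  norm_num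

private theorem Be_nonneg (n : ℕ) : ∀ (r : Finset α → ℕ), RK r → ∀ X : Finset α, X.card = n → 0 ≤ bet r X := by
  induction n using Nat.strong_induction_on with
  | _ n ih =>
    intro r hr X hX
    rcases Finset.eq_empty_or_nonempty X with h0 | ⟨f, hf⟩
    · rw [h0]
      unfold bet
      rw [Finset.powerset_empty, Finset.sum_singleton, hr.empty]
      norm_num
    · rcases hr.sing f with h1 | h1
      · rw [bet_loop hr hf h1]
      · have hcard : (X.erase f).card < n := by
          rw [← hX]
          exact Finset.card_erase_lt_of_mem hf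
        have hle : r (X.erase f) ≤ r X := hr.mono _ _ (Finset.erase_subset f X)
        rcases Nat.eq_or_lt_of_le hle with h2 | h2
        · rw [bet_del hr hf h1 h2]
          exact add_nonneg (ih _ hcard r hr _ rfl) (ih _ hcard _ (hr.con {f}) _ rfl)
        · by_cases h3 : ∃ e ∈ X, e ≠ f
          · obtain ⟨e, he, hef⟩ := h3
            rw [bet_col hr hf he hef h2]
          · have h4 : X = {f} := by
              refine Finset.eq_singleton_iff_unique_mem.2 ⟨hf, fun e he => ?_⟩
              by_contra h5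
              exact h3 ⟨e, he, h5⟩
            rw [h4, bet_sing hr h1]
            norm_num

theorem bet_nonneg (hr : RK r) (X : Finset α) : 0 ≤ bet r X := Be_nonneg X.card r hr X rfl

end ACY
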