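import Pool.Agent.ACY.Be

/-!
# ACY-Bp: the beta invariant of a matroid with a spanning circuit is positive

Induction on the number of elements outside the circuit `C`. For `X = C` the rank of a subset `A` is `|A|`, except for `A = C` (`|C| - 1`),
and the alternating sum of `|A|` over all subsets vanishes (`Bp_sum`), so `bet r C = 1`. In the step one uses `bet_del` and `bet_nonneg`.
-/

set_option autoImplicit false

namespace ACY

open Finset

variable {α : Type} [DecidableEq α] {r : Finset α → ℕ} {S A B C D F G W X Z : Finset α} {e f x : α} {k j : ℕ}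

omit [DecidableEq α] in
private theorem Bp_alt (h : C.Nonempty) : ∑ A ∈ C.powerset, (-1 : ℝ) ^ A.card = 0 := by
  have h1 := Finset.sum_powerset_neg_one_pow_card_of_nonempty h
  have h2 : ((∑ A ∈ C.powerset, (-1 : ℤ) ^ A.card : ℤ) : ℝ) = 0 := by rw [h1]; simp
  push_cast at h2
  exact h2

private theorem Bp_sum (h : 2 ≤ C.card) : ∑ A ∈ C.powerset, (-1 : ℝ) ^ A.card * (A.card : ℝ) = 0 := by
  obtain ⟨x, hx⟩ : C.Nonempty := Finset.card_pos.1 (by omega)
  have hC : C = insert x (C.erase x) := (Finset.insert_erase hx).symm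
  have hne : (C.erase x).Nonempty := Finset.card_pos.1 (by rw [Finset.card_erase_of_mem hx]; omega)
  have hx' : x ∉ C.erase x := Finset.notMem_erase x C
  rw [hC, Finset.sum_powerset_insert hx', ← Finset.sum_add_distrib]
  have h1 : ∀ A ∈ (C.erase x).powerset, (-1 : ℝ) ^ A.card * (A.card : ℝ) +
      (-1 : ℝ) ^ (insert x A).card * ((insert x A).card : ℝ) = -(-1 : ℝ) ^ A.card := fun A hA => by
    have hxA : x ∉ A := fun h => hx' (Finset.mem_powerset.1 hA h)
    rw [Finset.card_insert_of_notMem hxA, pow_succ]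
    push_cast
    ring
  rw [Finset.sum_congr rfl h1, Finset.sum_neg_distrib, Bp_alt hne, neg_zero]

private theorem Bp_indep (hr : RK r) (hAB : A ⊆ B) (h : r B = B.card) : r A = A.card := by
  have h1 := hr.sub A (B \ A)
  rw [Finset.union_sdiff_of_subset hAB] at h1
  have h2 := hr.le_card (B \ A)
  have h3 := hr.le_card A
  have h4 := Finset.card_sdiff_add_card_eq_card hAB
  omega

private theorem Bp_base (hr : RK r) (hc : r C + 1 = C.card)
    (hc2 : 2 ≤ C.card) (hC' : ∀ x ∈ C, r (C.erase x) = r C) : bet r C = 1 := by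
  have h1 : ∀ A ∈ C.powerset, (-1 : ℝ) ^ (A.card + r C) * (r A : ℝ) =
      (-1 : ℝ) ^ r C * ((-1 : ℝ) ^ A.card * (A.card : ℝ)) + (if A = C then 1 else 0) := fun A hA => by
    by_cases h : A = C
    · rw [if_pos h, h, ← hc]
      have h2 : (-1 : ℝ) ^ r C * (-1 : ℝ) ^ r C = 1 := by
        rw [← mul_pow]; simp
      push_cast
      rw [pow_add, pow_add]
      calc (-1 : ℝ) ^ r C * (-1) ^ 1 * (-1) ^ r C * (r C : ℝ) = -((-1 : ℝ) ^ r C * (-1 : ℝ) ^ r C) * (r C : ℝ) := by ring
        _ = -((-1 : ℝ) ^ r C * (-1 : ℝ) ^ r C) * ((r C : ℝ) + 1) + 1 := by rw [h2]; ring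
        _ = _ := by ring
    · rw [if_neg h, add_zero]
      have hsub := Finset.mem_powerset.1 hA
      obtain ⟨x, hxC, hxA⟩ : ∃ x ∈ C, x ∉ A := by
        by_contra hcon
        push Not at hcon
        exact h (Finset.Subset.antisymm hsub hcon)
      have h2 : r A = A.card := by
        refine Bp_indep hr (B := C.erase x) (fun y hy => Finset.mem_erase.2 ⟨fun he => hxA (he ▸ hy), hsub hy⟩) ?_
        rw [hC' x hxC, Finset.card_erase_of_mem hxC]
        omega
      rw [h2, pow_add]
      ring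
  rw [bet, Finset.sum_congr rfl h1, Finset.sum_add_distrib, ← Finset.mul_sum, Bp_sum hc2, mul_zero, zero_add,
    Finset.sum_ite_eq', if_pos (Finset.mem_powerset_self C)]

theorem bet_circuit (hr : RK r) (hX : ∀ x ∈ X, r {x} = 1) (hC : C ⊆ X) (hCX : r C = r X) (hc : r C + 1 = C.card)
    (hc2 : 2 ≤ C.card) (hC' : ∀ x ∈ C, r (C.erase x) = r C) : 0 < bet r X := by
  induction hn : (X \ C).card generalizing X with
  | zero =>
    have h : X = C := Finset.Subset.antisymm (Finset.sdiff_eq_empty_iff_subset.1 (Finset.card_eq_zero.1 hn)) hC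
    rw [h, Bp_base hr hc hc2 hC']
    exact one_pos
  | succ n ih =>
    obtain ⟨g, hg⟩ : (X \ C).Nonempty := Finset.card_pos.1 (by omega)
    rw [Finset.mem_sdiff] at hg
    have hCg : C ⊆ X.erase g := fun y hy => Finset.mem_erase.2 ⟨fun he => hg.2 (he ▸ hy), hC hy⟩
    have h1 : r (X.erase g) = r X :=
      le_antisymm (hr.mono _ _ (Finset.erase_subset g X)) (hCX ▸ hr.mono _ _ hCg)
    rw [bet_del hr hg.1 (hX g hg.1) h1]
    have h2 : 0 < bet r (X.erase g) := by
      refine ih (fun x hx => hX x (Finset.mem_of_mem_erase hx)) hCg (by rw [h1, hCX]) ?_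
      rw [Finset.erase_sdiff_comm, Finset.card_erase_of_mem (Finset.mem_sdiff.2 hg), hn]
      rfl
    exact add_pos_of_pos_of_nonneg h2 (bet_nonneg (hr.con _) _)

end ACY
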