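import Pool.Agent.ACY.Ba

/-!
# ACY-Ci: a circuit through `e`

A set `D` without `e` which is minimal with `e` in its closure is independent, and `insert e D` is a circuit.
-/

set_option autoImplicit false

namespace ACY

open Finset

variable {α : Type} [DecidableEq α] {r : Finset α → ℕ} {S A B C D F G W X Z : Finset α} {e f x : α} {k j : ℕ}

private theorem Ci_indep (hr : RK r) (h : ∀ x ∈ D, r (D.erase x) < r D) : ∀ A : Finset α, A ⊆ D → r A = A.card := by
  intro A
  induction A using Finset.induction_on with
  | empty => intro _; rw [hr.empty, Finset.card_empty]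
  | insert x A hx ih =>
      intro hA
      have hxD : x ∈ D := hA (Finset.mem_insert_self x A)
      have hAD : A ⊆ D := fun y hy => hA (Finset.mem_insert_of_mem hy)
      have hAx : A ⊆ D.erase x := fun y hy =>
        Finset.mem_erase.2 ⟨fun h' => hx (h' ▸ hy), hAD hy⟩
      rw [Finset.card_insert_of_notMem hx, ← ih hAD]
      rcases hr.ins A x with h1 | h1
      · have h2 := hr.cl_mono hAx h1
        rw [Finset.insert_erase hxD] at h2
        have h3 := h x hxD
        omega
      · exact h1

theorem circuit (hr : RK r) (he : e ∈ S) (h1 : r {e} = 1) (h2 : r (S.erase e) = r S) :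
    ∃ C ⊆ S, ∃ f ∈ C, e ∈ C ∧ f ≠ e ∧ r C + 1 = C.card ∧ ∀ x ∈ C, r (C.erase x) = r C := by
  obtain ⟨D, hD, hmin⟩ := Finset.exists_min_image
    ((S.erase e).powerset.filter fun D => r (insert e D) = r D) Finset.card
    ⟨S.erase e, Finset.mem_filter.2 ⟨Finset.mem_powerset_self _, by
      rw [Finset.insert_erase he, h2]⟩⟩
  rw [Finset.mem_filter, Finset.mem_powerset] at hD
  obtain ⟨hDS, hDe⟩ := hD
  have heD : e ∉ D := fun h => Finset.notMem_erase e S (hDS h)
  have hne : D.Nonempty := by
    rw [Finset.nonempty_iff_ne_empty]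
    intro h
    rw [h, hr.empty] at hDe
    have h3 : insert e (∅ : Finset α) = {e} := rfl
    rw [h3, h1] at hDe
    exact one_ne_zero hDe
  have hst : ∀ x ∈ D, r (insert e (D.erase x)) = r (D.erase x) + 1 := by
    intro x hx
    rcases hr.ins (D.erase x) e with h3 | h3
    · exfalso
      have h4 := hmin (D.erase x) (Finset.mem_filter.2 ⟨Finset.mem_powerset.2
        (fun y hy => hDS (Finset.mem_of_mem_erase hy)), h3⟩)
      exact absurd (Finset.card_erase_lt_of_mem hx) (not_lt.2 h4)
    · exact h3
  have hlt : ∀ x ∈ D, r (D.erase x) < r D := by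
    intro x hx
    have h3 := hst x hx
    have h4 := hr.mono (insert e (D.erase x)) (insert e D)
      (Finset.insert_subset_insert e (Finset.erase_subset x D))
    omega
  have hDc : r D = D.card := Ci_indep hr hlt D (Finset.Subset.refl D)
  obtain ⟨f, hf⟩ := hne
  refine ⟨insert e D, ?_, f, Finset.mem_insert_of_mem hf, Finset.mem_insert_self e D,
    fun h => heD (h ▸ hf), ?_, ?_⟩
  · intro y hy
    rcases Finset.mem_insert.1 hy with h | h
    · exact h ▸ he
    · exact Finset.mem_of_mem_erase (hDS h)
  · rw [Finset.card_insert_of_notMem heD, hDe, hDc]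
  · intro x hx
    rcases Finset.mem_insert.1 hx with h | h
    · rw [h, Finset.erase_insert heD, hDe]
    · have hxe : x ≠ e := fun h' => heD (h' ▸ h)
      have h3 : (insert e D).erase x = insert e (D.erase x) := by
        rw [Finset.erase_insert_of_ne (Ne.symm hxe)]
      have h4 := hst x h
      have h5 := hlt x h
      have h6 := hr.one (D.erase x) x
      rw [Finset.insert_erase h] at h6
      rw [h3, hDe]
      omega

end ACY
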