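import Pool.Agent.ACY.Tp

/-!
# ACY-Mu: the numbers `mu r F X`

`mu r F X = T (con r F) (X \ F)`: values, positivity, Weisner's theorem for intervals, and the behaviour under deletion and
contraction of an element.
-/

set_option autoImplicit false

namespace ACY

open Finset

variable {α : Type} [DecidableEq α] {r : Finset α → ℕ} {S A B C D F G W X Z : Finset α} {e f x : α} {k j : ℕ}

private theorem Mu_er (X F : Finset α) (f : α) : (X \ F).erase f = X.erase f \ F := by
  ext x
  simp only [Finset.mem_erase, Finset.mem_sdiff]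
  tauto

private theorem Mu_one (hr : RK r) (hF : F ∈ flats r S) (hx : x ∈ S) (hxF : x ∉ F) : con r F {x} = 1 := by
  have h1 := (mem_flats.1 hF).2 x hx hxF
  have h2 := hr.one F x
  have h3 := con_add hr F {x}
  rw [← Finset.insert_eq] at h3
  omega

theorem mu_self (hr : RK r) (F : Finset α) : mu r F F = 1 := by
  unfold mu
  rw [Finset.sdiff_self]
  exact T_empty (hr.con F)

theorem mu_pos (hr : RK r) (hF : F ∈ flats r S) (hX : X ⊆ S) : 0 < mu r F X := by
  refine T_pos (hr.con F) fun x hx => ?_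
  rw [Finset.mem_sdiff] at hx
  exact Mu_one hr hF (hX hx.1) hx.2

theorem mu_bot (hr : RK r) (X : Finset α) : mu r ∅ X = T r X := by
  unfold mu
  rw [Finset.sdiff_empty]
  refine T_congr fun A _ => ?_
  unfold con
  rw [Finset.union_empty, hr.empty, Nat.sub_zero]

theorem mu_weisner (hr : RK r) (hF : F ∈ flats r S) (hf : f ∈ S) (hfF : f ∉ F) :
    mu r F S = ∑ Z ∈ (lev r S 1).filter (fun Z => F ⊆ Z ∧ f ∉ Z), mu r F Z := by
  have hFS := (mem_flats.1 hF).1
  have hS : (S \ F) ∪ F = S := Finset.sdiff_union_of_subset hFS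
  unfold mu
  rw [weisner (hr.con F) (Finset.mem_sdiff.2 ⟨hf, hfF⟩)]
  have hd : ∀ Z' ⊆ S \ F, (Z' ∪ F) \ F = Z' := by
    intro Z' hZ'
    ext x
    rw [Finset.mem_sdiff, Finset.mem_union]
    constructor
    · rintro ⟨h1 | h1, h2⟩
      · exact h1
      · exact absurd h1 h2
    · intro h1
      exact ⟨Or.inl h1, (Finset.mem_sdiff.1 (hZ' h1)).2⟩
  refine Finset.sum_nbij' (fun Z' => Z' ∪ F) (fun Z => Z \ F) ?_ ?_ ?_ ?_ ?_
  · intro Z' hZ'
    rw [Finset.mem_filter, mem_lev, mem_flats] at hZ'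
    obtain ⟨⟨⟨h1, h2⟩, h3⟩, h4⟩ := hZ'
    have e1 := con_add hr F Z'
    have e2 := con_add hr F (S \ F)
    rw [hS] at e2
    rw [Finset.mem_filter, mem_lev, mem_flats]
    refine ⟨⟨⟨Finset.union_subset (h1.trans Finset.sdiff_subset) hFS, fun x hx hxn => ?_⟩, by omega⟩,
      Finset.subset_union_right, ?_⟩
    · rw [Finset.mem_union, not_or] at hxn
      have h5 := h2 x (Finset.mem_sdiff.2 ⟨hx, hxn.2⟩) hxn.1
      have e3 := con_add hr F (insert x Z')
      rw [Finset.insert_union] at e3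
      omega
    · rw [Finset.mem_union, not_or]
      exact ⟨h4, hfF⟩
  · intro Z hZ
    rw [Finset.mem_filter, mem_lev, mem_flats] at hZ
    obtain ⟨⟨⟨h1, h2⟩, h3⟩, h4, h5⟩ := hZ
    have hZF : (Z \ F) ∪ F = Z := Finset.sdiff_union_of_subset h4
    have e1 := con_add hr F (Z \ F)
    have e2 := con_add hr F (S \ F)
    rw [hS] at e2
    rw [hZF] at e1
    rw [Finset.mem_filter, mem_lev, mem_flats]
    refine ⟨⟨⟨Finset.sdiff_subset_sdiff h1 le_rfl, fun x hx hxn => ?_⟩, by omega⟩, fun h6 =>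
      h5 (Finset.mem_sdiff.1 h6).1⟩
    rw [Finset.mem_sdiff] at hx hxn
    have h6 : x ∉ Z := fun h7 => hxn ⟨h7, hx.2⟩
    have h7 := h2 x hx.1 h6
    have e3 := con_add hr F (insert x (Z \ F))
    rw [Finset.insert_union, hZF] at e3
    omega
  · intro Z' hZ'
    rw [Finset.mem_filter, mem_lev, mem_flats] at hZ'
    exact hd Z' hZ'.1.1.1
  · intro Z hZ
    rw [Finset.mem_filter] at hZ
    exact Finset.sdiff_union_of_subset hZ.2.1
  · intro Z' hZ'
    rw [Finset.mem_filter, mem_lev, mem_flats] at hZ'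
    show T (con r F) Z' = T (con r F) ((Z' ∪ F) \ F)
    rw [hd Z' hZ'.1.1.1]

theorem mu1 (hr : RK r) (hf : f ∈ F) (h : r (F.erase f) = r F) (hFX : F ⊆ X) :
    mu r (F.erase f) (X.erase f) = mu r F X := by
  unfold mu
  have h1 : X.erase f \ F.erase f = X \ F := by
    ext x
    simp only [Finset.mem_sdiff, Finset.mem_erase]
    constructor
    · rintro ⟨⟨h2, h3⟩, h4⟩
      exact ⟨h3, fun h5 => h4 ⟨h2, h5⟩⟩
    · rintro ⟨h2, h3⟩
      have h4 : x ≠ f := fun h5 => h3 (h5 ▸ hf)
      exact ⟨⟨h4, h2⟩, fun h5 => h3 h5.2⟩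
  rw [h1]
  refine T_congr fun A _ => ?_
  have h2 : r (insert f (A ∪ F.erase f)) = r (A ∪ F.erase f) :=
    hr.cl_mono (A := F.erase f) Finset.subset_union_right (by rw [Finset.insert_erase hf, h])
  rw [← Finset.union_insert, Finset.insert_erase hf] at h2
  unfold con
  rw [h2, h]

theorem mu2 (hr : RK r) (hf : f ∈ F) (hFX : F ⊆ X) : mu (con r {f}) (F.erase f) (X.erase f) = mu r F X := by
  unfold mu
  have h1 : X.erase f \ F.erase f = X \ F := by
    ext x
    simp only [Finset.mem_sdiff, Finset.mem_erase]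
    constructor
    · rintro ⟨⟨h2, h3⟩, h4⟩
      exact ⟨h3, fun h5 => h4 ⟨h2, h5⟩⟩
    · rintro ⟨h2, h3⟩
      have h4 : x ≠ f := fun h5 => h3 (h5 ▸ hf)
      exact ⟨⟨h4, h2⟩, fun h5 => h3 h5.2⟩
  rw [h1]
  refine T_congr fun A _ => ?_
  rw [con_con hr, Finset.union_comm, ← Finset.insert_eq, Finset.insert_erase hf]

theorem mu5 (hr : RK r) (hF : F ⊆ X) (hf : f ∈ X) (hfF : f ∉ F) (h : r (X.erase f) < r X) :
    mu r F X = mu r F (X.erase f) := by
  unfold mu
  have hF' : F ⊆ X.erase f := fun x hx => Finset.mem_erase.2 ⟨fun h1 => hfF (h1 ▸ hx), hF hx⟩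
  have e1 := con_add hr F (X \ F)
  rw [Finset.sdiff_union_of_subset hF] at e1
  have e2 := con_add hr F (X.erase f \ F)
  rw [Finset.sdiff_union_of_subset hF'] at e2
  have h1 := (T_col (hr.con F) (X := X \ F) (Finset.mem_sdiff.2 ⟨hf, hfF⟩) (by
    rw [Mu_er]
    omega)).2
  rw [h1, Mu_er]

theorem mu4 (hr : RK r) (hF : F ∈ flats r S) (hX : X ∈ flats r S) (hFX : F ⊆ X) (hf : f ∈ X) (hfF : f ∉ F) :
    mu r F X = (if r (X.erase f) = r X then mu r F (X.erase f) else 0) +
      (if insert f F ∈ flats r S then mu (con r {f}) F (X.erase f) else 0) := by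
  have hXS := (mem_flats.1 hX).1
  have hFS := (mem_flats.1 hF).1
  have hF' : F ⊆ X.erase f := fun x hx => Finset.mem_erase.2 ⟨fun h1 => hfF (h1 ▸ hx), hFX hx⟩
  have e1 := con_add hr F (X \ F)
  rw [Finset.sdiff_union_of_subset hFX] at e1
  have e2 := con_add hr F (X.erase f \ F)
  rw [Finset.sdiff_union_of_subset hF'] at e2
  have h2 : (if insert f F ∈ flats r S then mu (con r {f}) F (X.erase f) else 0) =
      T (con (con r F) {f}) ((X \ F).erase f) := by
    rw [Mu_er]
    split_ifs with h3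
    · unfold mu
      refine T_congr fun A _ => ?_
      rw [con_con hr, con_con hr, Finset.union_comm]
    · rw [mem_flats, not_and] at h3
      have h4 := h3 (Finset.insert_subset (hXS hf) hFS)
      push Not at h4
      obtain ⟨x, hx, hxn, hle⟩ := h4
      have h5 : r (insert x (insert f F)) = r (insert f F) :=
        le_antisymm hle (hr.mono _ _ (Finset.subset_insert _ _))
      have hxX : x ∈ X := mem_of_flat hr hX (Finset.insert_subset hf hFX) hx h5
      rw [Finset.mem_insert, not_or] at hxn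
      refine (T_loop ((hr.con F).con {f}) (x := x) ?_ ?_).symm
      · exact Finset.mem_sdiff.2 ⟨Finset.mem_erase.2 ⟨hxn.1, hxX⟩, hxn.2⟩
      · rw [con_con hr, ← Finset.insert_eq]
        unfold con
        rw [← Finset.insert_eq, h5, Nat.sub_self]
  rw [h2]
  have hfY : f ∈ X \ F := Finset.mem_sdiff.2 ⟨hf, hfF⟩
  split_ifs with h3
  · have h4 := T_del (hr.con F) hfY (Mu_one hr hF (hXS hf) hfF) (by
      rw [Mu_er]
      omega)
    unfold mu
    rw [h4, Mu_er]
  · have h4 : r (X.erase f) < r X := lt_of_le_of_ne (hr.mono _ _ (Finset.erase_subset _ _)) h3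
    rw [zero_add]
    exact (T_col (hr.con F) hfY (by
      rw [Mu_er]
      omega)).1

end ACY
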