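import Pool.Agent.ACY.Be
import Pool.Agent.ACY.Mu

/-!
# ACY-Co: the case that `e` is a coloop

`Y = S.erase e`; the flats of `S` are the flats `F` of `Y` and the sets `insert e F`. With `a = v Y`, `w = v H`, `b = v (insert e H)` the linear form is `T Y (a + g {e})` and
the quadratic form becomes `- ∑_H T H (w - a - b)^2`.
-/

set_option autoImplicit false

namespace ACY

open Finset

variable {α : Type} [DecidableEq α] {r : Finset α → ℕ} {S A B C D F G W X Z : Finset α} {e f x : α} {k j : ℕ}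

private theorem Co_ins (hr : RK r) (he : e ∈ S) (h : r (S.erase e) < r S) (hA : A ⊆ S.erase e) :
    r (insert e A) = r A + 1 := by
  rcases hr.ins A e with h1 | h1
  · have h2 := hr.cl_mono hA h1
    rw [insert_erase he] at h2
    omega
  · exact h1

private theorem Co_r (hr : RK r) (he : e ∈ S) (h : r (S.erase e) < r S) : r S = r (S.erase e) + 1 := by
  have h1 := Co_ins hr he h (Subset.refl _)
  rwa [insert_erase he] at h1

private theorem Co_flat (hr : RK r) (he : e ∈ S) (h : r (S.erase e) < r S) (heF : e ∉ F) :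
    F ∈ flats r S ↔ F ∈ flats r (S.erase e) := by
  rw [mem_flats, mem_flats]
  constructor
  · rintro ⟨h1, h2⟩
    exact ⟨subset_erase.2 ⟨h1, heF⟩, fun x hx hxF => h2 x (erase_subset _ _ hx) hxF⟩
  · rintro ⟨h1, h2⟩
    refine ⟨h1.trans (erase_subset _ _), fun x hx hxF => ?_⟩
    by_cases hxe : x = e
    · subst hxe
      rw [Co_ins hr he h h1]
      exact Nat.lt_succ_self _
    · exact h2 x (mem_erase.2 ⟨hxe, hx⟩) hxF

private theorem Co_flat' (hr : RK r) (he : e ∈ S) (h : r (S.erase e) < r S) (heF : e ∉ F) :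
    insert e F ∈ flats r S ↔ F ∈ flats r (S.erase e) := by
  rw [mem_flats, mem_flats]
  constructor
  · rintro ⟨h1, h2⟩
    have hF : F ⊆ S.erase e := subset_erase.2 ⟨(subset_insert _ _).trans h1, heF⟩
    refine ⟨hF, fun x hx hxF => ?_⟩
    have hx' := mem_erase.1 hx
    have h3 := h2 x hx'.2 (by rw [mem_insert]; rintro (h4 | h4); exacts [hx'.1 h4, hxF h4])
    rw [insert_comm, Co_ins hr he h hF, Co_ins hr he h (insert_subset hx hF)] at h3
    omega
  · rintro ⟨h1, h2⟩
    refine ⟨insert_subset he (h1.trans (erase_subset _ _)), fun x hx hxF => ?_⟩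
    rw [mem_insert, not_or] at hxF
    have hx' : x ∈ S.erase e := mem_erase.2 ⟨hxF.1, hx⟩
    rw [insert_comm, Co_ins hr he h h1, Co_ins hr he h (insert_subset hx' h1)]
    have := h2 x hx' hxF.2
    omega

private theorem Co_lev1 (hr : RK r) (he : e ∈ S) (h : r (S.erase e) < r S) :
    (lev r S 1).filter (fun Z => e ∉ Z) = {S.erase e} := by
  ext Z
  rw [mem_filter, mem_singleton, mem_lev]
  constructor
  · rintro ⟨⟨h1, h2⟩, h3⟩
    have h4 := (Co_flat hr he h h3).1 h1
    refine flat_eq hr h4 (Subset.refl _) (mem_flats.1 h4).1 ?_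
    have := Co_r hr he h
    omega
  · rintro rfl
    have h3 : e ∉ S.erase e := notMem_erase _ _
    exact ⟨⟨(Co_flat hr he h h3).2 self_flat, (Co_r hr he h).symm⟩, h3⟩

private theorem Co_lev2 (hr : RK r) (he : e ∈ S) (h : r (S.erase e) < r S) :
    (lev r S 2).filter (fun Z => e ∉ Z) = lev r (S.erase e) 1 := by
  have h0 := Co_r hr he h
  ext Z
  rw [mem_filter, mem_lev, mem_lev]
  constructor
  · rintro ⟨⟨h1, h2⟩, h3⟩
    exact ⟨(Co_flat hr he h h3).1 h1, by omega⟩
  · rintro ⟨h1, h2⟩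
    have h3 : e ∉ Z := fun h4 => notMem_erase e S ((mem_flats.1 h1).1 h4)
    exact ⟨⟨(Co_flat hr he h h3).2 h1, by omega⟩, h3⟩

private theorem Co_notMem (hZ : Z ∈ lev r (S.erase e) k) : e ∉ Z :=
  fun h4 => notMem_erase e S ((mem_flats.1 (mem_lev.1 hZ).1).1 h4)

private theorem Co_sum (hr : RK r) (he : e ∈ S) (h : r (S.erase e) < r S) (φ : Finset α → ℝ) :
    ∑ Z ∈ (lev r S 1).filter (fun Z => e ∈ Z), φ Z = ∑ H ∈ lev r (S.erase e) 1, φ (insert e H) := by
  have h0 := Co_r hr he h
  symm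
  refine sum_bij (fun H _ => insert e H) ?_ ?_ ?_ (fun _ _ => rfl)
  · intro H hH
    have h1 := Co_notMem hH
    have h2 := mem_lev.1 hH
    rw [mem_filter, mem_lev]
    refine ⟨⟨(Co_flat' hr he h h1).2 h2.1, ?_⟩, mem_insert_self _ _⟩
    rw [Co_ins hr he h (mem_flats.1 h2.1).1]
    omega
  · intro H hH H' hH' hE
    have h3 : (insert e H).erase e = (insert e H').erase e := by rw [hE]
    rwa [erase_insert (Co_notMem hH), erase_insert (Co_notMem hH')] at h3
  · intro Z hZ
    rw [mem_filter, mem_lev] at hZ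
    obtain ⟨⟨h1, h2⟩, h3⟩ := hZ
    have h4 : e ∉ Z.erase e := notMem_erase _ _
    have h5 : insert e (Z.erase e) = Z := insert_erase h3
    have h6 : Z.erase e ∈ flats r (S.erase e) := (Co_flat' hr he h h4).1 (by rw [h5]; exact h1)
    refine ⟨Z.erase e, mem_lev.2 ⟨h6, ?_⟩, h5⟩
    have h7 := Co_ins hr he h (mem_flats.1 h6).1
    rw [h5] at h7
    omega

private theorem Co_con (hr : RK r) (hl : r {e} = 1) (he : e ∈ S) (h : r (S.erase e) < r S) (hX : X ⊆ S.erase e) :
    T (con r {e}) X = T r X := by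
  refine T_congr fun A hA => ?_
  have h1 := Co_ins hr he h (hA.trans hX)
  rw [con, hl, union_comm, ← insert_eq, h1, Nat.add_sub_cancel]

theorem coloop (hr : RK r) (hl : ∀ x ∈ S, r {x} = 1) (he : e ∈ S) (h : r (S.erase e) < r S) (v g : Finset α → ℝ)
    (hL : L r S e v g = 0) : Q r S e v g ≤ 0 := by
  have h0 := Co_r hr he h
  set Y := S.erase e with hY
  have hYs : ∀ H ∈ lev r Y 1, H ⊆ Y := fun H hH => (mem_flats.1 (mem_lev.1 hH).1).1
  have heY : e ∉ Y := notMem_erase _ _
  have hse : ({e} : Finset α) ∈ flats r S := by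
    have h1 : (∅ : Finset α) ∈ flats r Y := by
      rw [mem_flats]
      refine ⟨empty_subset _, fun x hx _ => ?_⟩
      rw [hr.empty, insert_empty_eq, hl x (erase_subset _ _ hx)]
      exact Nat.one_pos
    have h2 := (Co_flat' hr he h (notMem_empty e)).2 h1
    rwa [insert_empty_eq] at h2
  have hbet : ∀ F ∈ (flats r S).filter (fun F => e ∈ F), F ≠ {e} → bet r F = 0 := by
    intro F hF hFe
    rw [mem_filter] at hF
    obtain ⟨x, hx, hxe⟩ : ∃ x ∈ F, x ≠ e := by
      by_contra hcon
      push Not at hcon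
      exact hFe (Subset.antisymm (fun y hy => mem_singleton.2 (hcon y hy)) (singleton_subset_iff.2 hF.2))
    refine bet_col hr hF.2 hx hxe ?_
    have h1 : F.erase e ⊆ S.erase e := erase_subset_erase _ (mem_flats.1 hF.1).1
    have h2 := Co_ins hr he h h1
    rw [insert_erase hF.2] at h2
    omega
  have hmS : mu r {e} S = T r Y := by
    rw [mu, sdiff_singleton_eq_erase]
    exact Co_con hr (hl e he) he h (Subset.refl _)
  have hmH : ∀ H ∈ lev r Y 1, mu r {e} (insert e H) = T r H := by
    intro H hH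
    rw [mu, sdiff_singleton_eq_erase, erase_insert (Co_notMem hH)]
    exact Co_con hr (hl e he) he h (hYs H hH)
  -- the linear form
  have hL1 : L r S e v g = T r Y * (v Y + g {e}) := by
    unfold L
    rw [Co_lev1 hr he h, sum_singleton, sum_eq_single_of_mem {e} (mem_filter.2 ⟨hse, mem_singleton_self e⟩)
      (fun F hF hne => by rw [hbet F hF hne, zero_mul, zero_mul]), bet_sing hr (hl e he), hmS]
    ring
  have hTY : 0 < T r Y := T_pos hr fun x hx => hl x (erase_subset _ _ hx)
  have hg : g {e} = - v Y := by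
    rw [hL1] at hL
    rcases mul_eq_zero.1 hL with h1 | h1
    · exact absurd h1 hTY.ne'
    · linarith
  have ha : Qa r S e v = T r Y * v Y ^ 2 - ∑ H ∈ lev r Y 1, T r H * (v H - v Y) ^ 2 := by
    unfold Qa
    rw [Co_lev1 hr he h, sum_singleton, Co_lev2 hr he h]
    congr 1
    refine sum_congr rfl fun H hH => ?_
    have h1 : (lev r S 1).filter (fun Z => e ∉ Z ∧ H ⊆ Z) = {Y} := by
      have h2 : (lev r S 1).filter (fun Z => e ∉ Z ∧ H ⊆ Z) = ((lev r S 1).filter (fun Z => e ∉ Z)).filter (fun Z => H ⊆ Z) := by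
        rw [filter_filter]
      rw [h2, Co_lev1 hr he h, filter_singleton, if_pos (hYs H hH)]
    rw [h1, sum_singleton]
  have hb : Qb r S e v = ∑ H ∈ lev r Y 1, (2 * T r H * v H * v (insert e H) - T r H * v (insert e H) ^ 2) := by
    unfold Qb
    rw [Co_sum hr he h]
    refine sum_congr rfl fun H hH => ?_
    have h1 : (lev r S 2).filter (fun W => e ∉ W ∧ W ⊆ insert e H) = {H} := by
      ext W
      rw [← filter_filter, mem_filter, Co_lev2 hr he h, mem_singleton]
      constructor
      · rintro ⟨h2, h3⟩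
        have h4 : W ⊆ H := (subset_insert_iff_of_notMem (Co_notMem h2)).1 h3
        refine flat_eq hr (mem_lev.1 h2).1 (hYs H hH) h4 ?_
        have h5 : r W + 1 = r Y := (mem_lev.1 h2).2
        have h6 : r H + 1 = r Y := (mem_lev.1 hH).2
        omega
      · rintro rfl
        exact ⟨hH, subset_insert _ _⟩
    have h2 : T r (insert e H) = T r H := by
      have h3 := (T_col hr (f := e) (X := insert e H) (mem_insert_self _ _) ?_).2
      · rwa [erase_insert (Co_notMem hH)] at h3
      · rw [erase_insert (Co_notMem hH), Co_ins hr he h (hYs H hH)]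
        exact Nat.lt_succ_self _
    rw [h1, sum_singleton, h2]
  have hc : Qc r S e v g = 2 * g {e} * ∑ H ∈ lev r Y 1, T r H * v (insert e H) - T r Y * g {e} ^ 2 := by
    unfold Qc
    rw [sum_eq_single_of_mem {e} (mem_filter.2 ⟨hse, mem_singleton_self e⟩)
      (fun F hF hne => by rw [hbet F hF hne, zero_mul]), bet_sing hr (hl e he), hmS, one_mul]
    congr 2
    have h1 : (lev r S 1).filter (fun Z => ({e} : Finset α) ⊆ Z) = (lev r S 1).filter (fun Z => e ∈ Z) := by
      refine filter_congr fun Z _ => ?_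
      rw [singleton_subset_iff]
    rw [h1, Co_sum hr he h]
    exact sum_congr rfl fun H hH => by rw [hmH H hH]
  have hfin : Q r S e v g = - ∑ H ∈ lev r Y 1, T r H * (v H - v Y - v (insert e H)) ^ 2 := by
    unfold Q
    rw [ha, hb, hc, hg, ← sum_neg_distrib, mul_sum, sub_eq_add_neg, ← sum_neg_distrib]
    have h1 : ∀ x₁ x₂ x₃ x₄ x₅ : ℝ, x₁ + x₂ + x₃ + (x₄ - x₅) = (x₂ + x₃ + x₄) + (x₁ - x₅) := fun _ _ _ _ _ => by ring
    rw [h1, ← sum_add_distrib, ← sum_add_distrib]
    have h2 : T r Y * v Y ^ 2 - T r Y * (- v Y) ^ 2 = 0 := by ring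
    rw [h2, add_zero]
    refine sum_congr rfl fun H _ => ?_
    ring
  rw [hfin, neg_nonpos]
  exact sum_nonneg fun H _ => mul_nonneg (T_nonneg hr H) (sq_nonneg _)

end ACY
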