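import Pool.Agent.ACY.Ba

/-!
# ACY-Cv: covers

A flat `W` and an element `x` outside `W` are contained in exactly one flat of rank `r W + 1`, the closure of `insert x W`;
the counting form is used for the twist.
-/

set_option autoImplicit false

namespace ACY

open Finset

variable {α : Type} [DecidableEq α] {r : Finset α → ℕ} {S A B C D F G W X Z : Finset α} {e f x : α} {k j : ℕ}

theorem cover (hr : RK r) (hW : W ∈ lev r S (k + 1)) (hx : x ∈ S) (hxW : x ∉ W) :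
    ∃ Z0 ∈ lev r S k, W ⊆ Z0 ∧ x ∈ Z0 ∧ ∀ Z ∈ lev r S k, W ⊆ Z → x ∈ Z → Z = Z0 := by
  obtain ⟨hWf, hWr⟩ := mem_lev.1 hW
  obtain ⟨hWS, hWx⟩ := mem_flats.1 hWf
  have h1 : r (insert x W) = r W + 1 := by
    have h2 := hWx x hx hxW
    rcases hr.ins W x with h3 | h3
    · omega
    · exact h3
  have hS : insert x W ⊆ S := Finset.insert_subset hx hWS
  have hsub := sub_cl (r := r) hS
  have hfl := cl_flat hr hS
  have hrk : r (cl r S (insert x W)) = r W + 1 := (r_cl hr hS).trans h1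
  refine ⟨cl r S (insert x W), mem_lev.2 ⟨hfl, by omega⟩, (Finset.subset_insert x W).trans hsub,
    hsub (Finset.mem_insert_self x W), fun Z hZ hWZ hxZ => ?_⟩
  obtain ⟨hZf, hZr⟩ := mem_lev.1 hZ
  exact (flat_eq hr hfl (mem_flats.1 hZf).1 (cl_min hr hZf (Finset.insert_subset hxZ hWZ))
    (by omega)).symm

theorem cover_sum (hr : RK r) (hW : W ∈ lev r S 2) (hx : x ∈ S) (hxW : x ∉ W) (c : ℝ) :
    ∑ _Z ∈ (lev r S 1).filter (fun Z => x ∈ Z ∧ W ⊆ Z), c = c := by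
  obtain ⟨Z0, h0, h1, h2, h3⟩ := cover (k := 1) hr hW hx hxW
  have h4 : (lev r S 1).filter (fun Z => x ∈ Z ∧ W ⊆ Z) = {Z0} := by
    ext Z
    rw [Finset.mem_filter, Finset.mem_singleton]
    constructor
    · rintro ⟨h5, h6, h7⟩
      exact h3 Z h5 h7 h6
    · rintro rfl
      exact ⟨h0, h2, h1⟩
  rw [h4, Finset.sum_singleton]

private theorem Cv_split (P : Finset α → Prop) [DecidablePred P] (s : Finset (Finset α)) (e : α) (c : ℝ) :
    ∑ _Z ∈ s.filter (fun Z => e ∉ Z ∧ P Z), c =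
      ∑ _Z ∈ s.filter (fun Z => P Z), c - ∑ _Z ∈ s.filter (fun Z => e ∈ Z ∧ P Z), c := by
  have h1 := Finset.sum_filter_add_sum_filter_not (s.filter fun Z => P Z) (fun Z => e ∈ Z)
    (fun _ => c)
  rw [Finset.filter_filter, Finset.filter_filter] at h1
  have h2 : s.filter (fun Z => e ∈ Z ∧ P Z) = s.filter (fun Z => P Z ∧ e ∈ Z) :=
    Finset.filter_congr fun Z _ => and_comm
  have h3 : s.filter (fun Z => e ∉ Z ∧ P Z) = s.filter (fun Z => P Z ∧ ¬ e ∈ Z) :=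
    Finset.filter_congr fun Z _ => and_comm
  rw [h2, h3]
  linarith

/-- the numbers of covers containing `f` and not `e`, and `e` and not `f`, agree -/
theorem cover_swap (hr : RK r) (hW : W ∈ lev r S 2) (he : e ∈ S) (hf : f ∈ S) (heW : e ∉ W) (hfW : f ∉ W) (c : ℝ) :
    ∑ _Z ∈ (lev r S 1).filter (fun Z => e ∉ Z ∧ f ∈ Z ∧ W ⊆ Z), c =
      ∑ _Z ∈ (lev r S 1).filter (fun Z => f ∉ Z ∧ e ∈ Z ∧ W ⊆ Z), c := by
  rw [Cv_split (fun Z => f ∈ Z ∧ W ⊆ Z), Cv_split (fun Z => e ∈ Z ∧ W ⊆ Z), cover_sum hr hW hf hfW,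
    cover_sum hr hW he heW]
  have h1 : (lev r S 1).filter (fun Z => e ∈ Z ∧ f ∈ Z ∧ W ⊆ Z) =
      (lev r S 1).filter (fun Z => f ∈ Z ∧ e ∈ Z ∧ W ⊆ Z) :=
    Finset.filter_congr fun Z _ => and_left_comm
  rw [h1]

end ACY
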