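import Mathlib

/-!
# ACY (MP_e767af_lc): FPRAS for `T(G; 1, 0)`; definitions for inequality (III)

A matroid is given by its rank function `r : Finset α → ℕ` (`RK r`) and a ground set `S : Finset α`. Restriction to `X`:
the ground set `X`; contraction of `C`: the rank function `con r C`.
-/

set_option autoImplicit false

namespace ACY

open Finset

variable {α : Type} [DecidableEq α]

/-- rank function of a matroid -/
structure RK (r : Finset α → ℕ) : Prop where
  empty : r ∅ = 0
  mono : ∀ A B : Finset α, A ⊆ B → r A ≤ r B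
  one : ∀ (A : Finset α) (x : α), r (insert x A) ≤ r A + 1
  sub : ∀ A B : Finset α, r (A ∪ B) + r (A ∩ B) ≤ r A + r B

/-- contraction of `C` -/
def con (r : Finset α → ℕ) (C A : Finset α) : ℕ := r (A ∪ C) - r C

/-- closure of `A` in `S` -/
def cl (r : Finset α → ℕ) (S A : Finset α) : Finset α := S.filter fun x => r (insert x A) = r A

/-- flats of the restriction to `S` -/
def flats (r : Finset α → ℕ) (S : Finset α) : Finset (Finset α) :=
  S.powerset.filter fun F => ∀ x ∈ S, x ∉ F → r F < r (insert x F)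

/-- flats of corank `k` of the restriction to `S` -/
def lev (r : Finset α → ℕ) (S : Finset α) (k : ℕ) : Finset (Finset α) :=
  (flats r S).filter fun F => r F + k = r S

/-- `T(M|X; 1, 0)`, that is `|μ(∅, X)|` for a flat `X` -/
noncomputable def T (r : Finset α → ℕ) (X : Finset α) : ℝ :=
  ∑ A ∈ X.powerset.filter (fun A => r A = r X), (-1 : ℝ) ^ (A.card + r X)

/-- beta invariant of `M|X` -/
noncomputable def bet (r : Finset α → ℕ) (X : Finset α) : ℝ :=
  ∑ A ∈ X.powerset, (-1 : ℝ) ^ (A.card + r X) * (r A : ℝ)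

/-- `|μ(F, X)|` -/
noncomputable def mu (r : Finset α → ℕ) (F X : Finset α) : ℝ := T (con r F) (X \ F)

/-- first part of the quadratic form -/
noncomputable def Qa (r : Finset α → ℕ) (S : Finset α) (e : α) (v : Finset α → ℝ) : ℝ :=
  ∑ Z ∈ (lev r S 1).filter (fun Z => e ∉ Z), T r Z * v Z ^ 2 -
    ∑ W ∈ (lev r S 2).filter (fun W => e ∉ W), ∑ Z ∈ (lev r S 1).filter (fun Z => e ∉ Z ∧ W ⊆ Z),
      T r W * (v W - v Z) ^ 2

/-- second part of the quadratic form -/
noncomputable def Qb (r : Finset α → ℕ) (S : Finset α) (e : α) (v : Finset α → ℝ) : ℝ :=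
  ∑ Z ∈ (lev r S 1).filter (fun Z => e ∈ Z),
    (∑ W ∈ (lev r S 2).filter (fun W => e ∉ W ∧ W ⊆ Z), 2 * T r W * v W * v Z - T r Z * v Z ^ 2)

/-- third part of the quadratic form -/
noncomputable def Qc (r : Finset α → ℕ) (S : Finset α) (e : α) (v g : Finset α → ℝ) : ℝ :=
  ∑ F ∈ (flats r S).filter (fun F => e ∈ F), bet r F *
    (2 * g F * ∑ Z ∈ (lev r S 1).filter (fun Z => F ⊆ Z), mu r F Z * v Z - mu r F S * g F ^ 2)

/-- the quadratic form -/
noncomputable def Q (r : Finset α → ℕ) (S : Finset α) (e : α) (v g : Finset α → ℝ) : ℝ :=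
  Qa r S e v + Qb r S e v + Qc r S e v g

/-- the linear form -/
noncomputable def L (r : Finset α → ℕ) (S : Finset α) (e : α) (v g : Finset α → ℝ) : ℝ :=
  ∑ Z ∈ (lev r S 1).filter (fun Z => e ∉ Z), T r Z * v Z +
    ∑ F ∈ (flats r S).filter (fun F => e ∈ F), bet r F * mu r F S * g F

/-- `v` on the deletion of `f`, twisted by `t` -/
noncomputable def vA (r : Finset α → ℕ) (e f : α) (t : ℝ) (v : Finset α → ℝ) (G : Finset α) : ℝ :=
  if r (insert f G) = r G then v (insert f G) - (if e ∈ G then 0 else t)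
  else v G + (if e ∈ G then t else 0)

/-- `v` on the contraction of `f`, twisted by `t` -/
noncomputable def vB (e f : α) (t : ℝ) (v : Finset α → ℝ) (G : Finset α) : ℝ :=
  v (insert f G) - (if e ∈ G then 0 else t)

/-- `g` on the deletion and on the contraction of `f`, twisted by `t` -/
noncomputable def gA (r : Finset α → ℕ) (f : α) (t : ℝ) (g : Finset α → ℝ) (G : Finset α) : ℝ :=
  if r (insert f G) = r G then g (insert f G) else g G + t

/-- `f` is a coloop of `F` -/
def Col (r : Finset α → ℕ) (f : α) (F : Finset α) : Prop := f ∈ F ∧ r (F.erase f) < r F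

instance (r : Finset α → ℕ) (f : α) : DecidablePred (Col r f) := fun F => by
  unfold Col
  infer_instance

/-- derivative of `L` of the deletion in the twist -/
noncomputable def kap (r : Finset α → ℕ) (S : Finset α) (e f : α) : ℝ :=
  ∑ F ∈ (flats r S).filter (fun F => e ∈ F ∧ f ∈ F ∧ ¬ Col r f F), bet (con r {f}) (F.erase f) * mu r F S

end ACY
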