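import Pool.Agent.ACY.GMv

/-!
# ACY-GDi: the Dirichlet form of the moves

`dir0`: the sum over the flags is regrouped by the second flat `W`, and the sum over the proposals at the site 0 is computed by
`mv_sum0`. `dirS`: induction on the rank; the sites `i + 1` of a flag below `X` are the sites `i` of its tail.
-/

set_option autoImplicit false

namespace ACY

open Finset

variable {α : Type} [DecidableEq α] {r : Finset α → ℕ} {w : α → ℕ} {S A B C D G W X Y Z : Finset α} {e x : α}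
  {k j n N N0 : ℕ}

private theorem GDi_cM (h : Gd r w X) (hW : W ∈ lev r X 2) (hZ : Z ∈ lev r X 1) (hWZ : W ⊆ Z) (Y : Finset α) :
    PP r w X Z * PP r w Z W * ((om w (Y \ W) : ℝ) * ((om w (X \ Y) : ℝ) * (om w Z : ℝ))) = cM r w X W Z Y := by
  have h1 := PP_two h hZ (lev_in h.rk hZ hW hWZ)
  have h2 : PP r w X Z * PP r w Z W * ((om w (Y \ W) : ℝ) * ((om w (X \ Y) : ℝ) * (om w Z : ℝ))) =
      (PP r w X Z * PP r w Z W * (om w Z : ℝ)) * ((om w (Y \ W) : ℝ) * (om w (X \ Y) : ℝ)) := by ring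
  rw [h2, h1]
  unfold cM
  ring

private theorem GDi_Ex2 (n : ℕ) (hr : RK r) (X : Finset α) (Ψ : List (Finset α) → ℝ) :
    Ex r w (n + 2) X Ψ = ∑ W ∈ lev r X 2, ∑ Z ∈ (lev r X 1).filter (fun Z => W ⊆ Z),
      PP r w X Z * PP r w Z W * Ex r w n W (fun l => Ψ (Z :: W :: l)) := by
  rw [← sum_lev2 hr X (fun Z W => PP r w X Z * PP r w Z W * Ex r w n W (fun l => Ψ (Z :: W :: l)))]
  show ∑ Z ∈ lev r X 1, PP r w X Z * ∑ W ∈ lev r Z 1, PP r w Z W * Ex r w n W (fun l => Ψ (Z :: W :: l)) = _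
  refine Finset.sum_congr rfl fun Z _ => ?_
  rw [Finset.mul_sum]
  exact Finset.sum_congr rfl fun W _ => by ring

private theorem GDi_lin (n : ℕ) (W : Finset α) (s : Finset (Finset α)) (k : Finset α → ℝ)
    (Φ : Finset α → List (Finset α) → ℝ) :
    Ex r w n W (fun l => ∑ Y ∈ s, k Y * Φ Y l) = ∑ Y ∈ s, k Y * Ex r w n W (Φ Y) := by
  rw [Ex_sum s n W (fun Y l => k Y * Φ Y l)]
  exact Finset.sum_congr rfl fun Y _ => Ex_smul n W (k Y) (Φ Y)

private theorem GDi_nil (i : ℕ) (X : Finset α) (g : α) (v : ℕ) : mv r w i X [] g v = [] := by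
  cases i <;> rw [mv] <;> simp

private theorem GDi_one (i : ℕ) (X Z : Finset α) (g : α) (v : ℕ) : mv r w i X [Z] g v = [Z] := by
  cases i with
  | zero => rw [mv] <;> simp
  | succ i => rw [mv, GDi_nil]

theorem dir0 (h : Gd r w X) (hn : r X = n + 2) (hXS : X ⊆ S)
    (hN : ∀ g ∈ X, w g * (om w X * om w X) ≤ N) (f : List (Finset α) → ℝ) :
    Ex r w (n + 2) X (fun l => ∑ g ∈ S, ∑ v ∈ Finset.range N, (f (mv r w 0 X l g v) - f l) ^ 2) =
      2 * E1 r w n X f := by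
  rw [GDi_Ex2 n h.rk]
  have h2 : 2 * E1 r w n X f = ∑ W ∈ lev r X 2, ∑ Z ∈ (lev r X 1).filter (fun Z => W ⊆ Z),
      ∑ Y ∈ (lev r X 1).filter (fun Y => W ⊆ Y),
        cM r w X W Z Y * Ex r w n W (fun l => (f (Z :: W :: l) - f (Y :: W :: l)) ^ 2) := by
    unfold E1
    ring
  rw [h2]
  refine Finset.sum_congr rfl fun W hW => Finset.sum_congr rfl fun Z hZ => ?_
  obtain ⟨hZ1, hWZ⟩ := Finset.mem_filter.1 hZ
  have h3 : (fun l => ∑ g ∈ S, ∑ v ∈ Finset.range N,
      (f (mv r w 0 X (Z :: W :: l) g v) - f (Z :: W :: l)) ^ 2) =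
      fun l => ∑ Y ∈ (lev r X 1).filter (fun Y => W ⊆ Y),
        ((om w (Y \ W) : ℝ) * ((om w (X \ Y) : ℝ) * (om w Z : ℝ))) *
          (f (Z :: W :: l) - f (Y :: W :: l)) ^ 2 := by
    funext l
    have h4 := mv_sum0 h hXS hW hZ1 hWZ hN (fun Y => (f (Y :: W :: l) - f (Z :: W :: l)) ^ 2)
    have h5 : ∀ (g : α) (v : ℕ), mv r w 0 X (Z :: W :: l) g v = mv0 r w X Z W g v :: W :: l :=
      fun g v => by rw [mv]
    simp only [h5]
    rw [h4, sub_self, zero_pow (two_ne_zero), mul_zero, zero_add]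
    refine Finset.sum_congr rfl fun Y _ => ?_
    rw [sub_zero, ← neg_sub (f (Z :: W :: l)) (f (Y :: W :: l)), neg_sq]
  rw [h3, GDi_lin n W ((lev r X 1).filter (fun Y => W ⊆ Y))
    (fun Y => (om w (Y \ W) : ℝ) * ((om w (X \ Y) : ℝ) * (om w Z : ℝ)))
    (fun Y l => (f (Z :: W :: l) - f (Y :: W :: l)) ^ 2), Finset.mul_sum]
  refine Finset.sum_congr rfl fun Y _ => ?_
  rw [← mul_assoc, GDi_cM h hW hZ1 hWZ Y]

theorem dirS (h : Gd r w X) (hn : r X = n) (hXS : X ⊆ S) (hN0 : n ≤ N0 + 1)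
    (hN : ∀ g ∈ X, w g * (om w X * om w X) ≤ N) (f : List (Finset α) → ℝ) :
    Ex r w n X (fun l => ∑ i ∈ Finset.range N0, ∑ g ∈ S, ∑ v ∈ Finset.range N,
      (f (mv r w i X l g v) - f l) ^ 2) = 2 * Es r w n X f := by
  induction n generalizing X f N0 with
  | zero =>
    show ∑ i ∈ Finset.range N0, ∑ g ∈ S, ∑ v ∈ Finset.range N, (f (mv r w i X [] g v) - f []) ^ 2 = 2 * 0
    simp only [GDi_nil, sub_self, zero_pow (two_ne_zero), Finset.sum_const_zero, mul_zero]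
  | succ n ih =>
    rcases n with _ | n
    · show ∑ Z ∈ lev r X 1, PP r w X Z * ∑ i ∈ Finset.range N0, ∑ g ∈ S, ∑ v ∈ Finset.range N,
        (f (mv r w i X [Z] g v) - f [Z]) ^ 2 = 2 * 0
      simp only [GDi_one, sub_self, zero_pow (two_ne_zero), Finset.sum_const_zero, mul_zero]
    · obtain ⟨M, rfl⟩ : ∃ M, N0 = M + 1 := ⟨N0 - 1, by omega⟩
      simp only [Finset.sum_range_succ']
      rw [Ex_add (n + 1 + 1) X (fun l => ∑ i ∈ Finset.range M, ∑ g ∈ S, ∑ v ∈ Finset.range N,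
          (f (mv r w (i + 1) X l g v) - f l) ^ 2)
        (fun l => ∑ g ∈ S, ∑ v ∈ Finset.range N, (f (mv r w 0 X l g v) - f l) ^ 2),
        dir0 h hn hXS hN f]
      have h1 : Ex r w (n + 1 + 1) X (fun l => ∑ i ∈ Finset.range M, ∑ g ∈ S, ∑ v ∈ Finset.range N,
          (f (mv r w (i + 1) X l g v) - f l) ^ 2) =
          2 * ∑ Z ∈ lev r X 1, PP r w X Z * Es r w (n + 1) Z (fun l => f (Z :: l)) := by
        show ∑ Z ∈ lev r X 1, PP r w X Z * Ex r w (n + 1) Z (fun l => ∑ i ∈ Finset.range M,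
          ∑ g ∈ S, ∑ v ∈ Finset.range N, (f (mv r w (i + 1) X (Z :: l) g v) - f (Z :: l)) ^ 2) = _
        rw [Finset.mul_sum]
        refine Finset.sum_congr rfl fun Z hZ => ?_
        have hmv : ∀ (i : ℕ) (l : List (Finset α)) (g : α) (v : ℕ),
            mv r w (i + 1) X (Z :: l) g v = Z :: mv r w i Z l g v := fun i l g v => by rw [mv]
        simp only [hmv]
        have h2 := ih (X := Z) (N0 := M) (h.lev hZ) (by
          have := lev_rank hZ
          omega) ((lev_sub hZ).trans hXS) (by omega) (by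
          intro g hg
          have h1 : om w Z ≤ om w X := om_mono (lev_sub hZ)
          exact (Nat.mul_le_mul_left _ (Nat.mul_le_mul h1 h1)).trans (hN g (lev_sub hZ hg)))
          (fun l => f (Z :: l))
        rw [h2]
        ring
      rw [h1]
      show _ = 2 * (E1 r w n X f + ∑ Z ∈ lev r X 1, PP r w X Z * Es r w (n + 1) Z (fun l => f (Z :: l)))
      ring

end ACY
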