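import Pool.Agent.ACY.GDefs

/-!
# ACY-GEl: sums over the positions of a list without repetitions

The sum of `Φ (E[j]?)` over `j < N1` is the sum of `Φ (some g)` over the members `g` of `E` plus the contribution of the
positions behind the end of the list.
-/

set_option autoImplicit false

namespace ACY

open Finset

variable {α : Type} [DecidableEq α]

private theorem GEl_in (E : List α) (hE : E.Nodup) (Φ : Option α → ℝ) :
    ∑ j ∈ Finset.range E.length, Φ (E[j]?) = ∑ g ∈ E.toFinset, Φ (some g) := by
  rw [List.sum_toFinset _ hE]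
  clear hE
  induction E with
  | nil => simp
  | cons a E ih =>
    rw [List.length_cons, Finset.sum_range_succ', List.map_cons, List.sum_cons, ← ih]
    simp only [List.getElem?_cons_succ, List.getElem?_cons_zero]
    ring

theorem sum_getElem (E : List α) (hE : E.Nodup) {N1 : ℕ} (hN : E.length ≤ N1) (Φ : Option α → ℝ) :
    ∑ j ∈ Finset.range N1, Φ (E[j]?) = ∑ g ∈ E.toFinset, Φ (some g) + ((N1 - E.length : ℕ) : ℝ) * Φ none := by
  obtain ⟨k, rfl⟩ := Nat.exists_eq_add_of_le hN
  rw [Finset.sum_range_add, GEl_in E hE Φ, Nat.add_sub_cancel_left]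
  congr 1
  have h : ∀ j ∈ Finset.range k, Φ (E[E.length + j]?) = Φ none := by
    intro j _
    rw [List.getElem?_eq_none (by omega)]
  rw [Finset.sum_congr rfl h, Finset.sum_const, Finset.card_range, nsmul_eq_mul]

end ACY
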