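import Pool.Agent.ACY.GMv

/-!
# ACY-GLz: laziness

A move with a large number `v` changes nothing: the acceptance condition bounds `v` by `w g * (om w S * om w S)`, for an element `g` of `S`. The moves
proposed by the elements of a list keep flags.
-/

set_option autoImplicit false

namespace ACY

open Finset

variable {α : Type} [DecidableEq α] {r : Finset α → ℕ} {w : α → ℕ} {S A B C D F G W X Y Z : Finset α} {e x : α}
  {k j n N : ℕ}

theorem mv_small (i : ℕ) (hXS : X ⊆ S) (hN : ∀ g ∈ S, w g * (om w S * om w S) ≤ N) {l : List (Finset α)}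
    (hl : Flg r n X l) (g : α) (v : ℕ) (hv : N ≤ v) : mv r w i X l g v = l := by
  induction i generalizing n X l with
  | zero =>
    match n, l, hl with
    | 0, [], hl => rfl
    | 1, [Z], hl => rfl
    | n + 2, Z :: W :: l, hl =>
      obtain ⟨hZ, hW, hl⟩ := hl
      have h1 : mv0 r w X Z W g v = Z := by
        unfold mv0
        rw [if_neg]
        rintro ⟨hg, _, h2⟩
        have h3 : w g * (om w (X \ cl r X (insert g W)) * om w Z) ≤ w g * (om w S * om w S) := by
          refine Nat.mul_le_mul_left _ (Nat.mul_le_mul ?_ ?_)
          · exact om_mono (Finset.sdiff_subset.trans hXS)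
          · exact om_mono ((lev_sub hZ).trans hXS)
        have h4 := hN g (hXS hg)
        omega
      show mv0 r w X Z W g v :: W :: l = Z :: W :: l
      rw [h1]
  | succ i ih =>
    match n, l, hl with
    | 0, [], hl => rfl
    | n + 1, Z :: l, hl =>
      obtain ⟨hZ, hl⟩ := hl
      show Z :: mv r w i Z l g v = Z :: l
      rw [ih ((lev_sub hZ).trans hXS) hl]

theorem lazyE {E : List α} (hE : E.toFinset = S) (hN : ∀ g ∈ S, w g * (om w S * om w S) ≤ N) {l : List (Finset α)}
    (hl : Flg r n S l) (i j v : ℕ) (hv : N ≤ v) : mvE r w E S i j v l = l := by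
  unfold mvE
  cases E[j]? with
  | none => rfl
  | some g => exact mv_small i subset_rfl hN hl g v hv

theorem mvE_flg (h : Gd r w X) {E : List α} {l : List (Finset α)} (hl : Flg r n X l) (i j v : ℕ) :
    Flg r n X (mvE r w E X i j v l) := by
  unfold mvE
  cases E[j]? with
  | none => exact hl
  | some g => exact mv_flg h i hl g v

end ACY
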