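import Mathlib

/-!
# ACY-GMc: an abstract Markov chain

`Λ` states, `U` finite set of moves, `μ` a positive normalised linear functional on the functions of the states (positivity is needed on the set `Ω` only).
`K f x = (∑ u, f (step u x)) / |U|`. `hrev` with `F x y = f y`: `μ (K f) = μ f`. With `F x y = f x * f y`..., `D(f) := μ (∑ u (f (step u x) - f x)^2) / (2 |U|) = μ (f^2) - μ (f * K f)` (`hrev` with `F x y = f y ^ 2`). Laziness:
`(K f x - f x)^2 = ((∑_{u moves x} (f (step u x) - f x)) / |U|)^2 ≤ (#moving / |U|) * (∑ u (f (step u x) - f x)^2) / |U| ≤ (1/2) (∑ u …^2) / |U|`, so `μ ((K f - f)^2) ≤ D(f)` and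
`μ ((K f)^2) = μ (f^2) + 2 μ (f (K f - f)) + μ ((K f - f)^2) ≤ μ (f^2) - D(f)`. With `hP`: `Var (K f) ≤ (1 - 1/C) Var f`. Iterate; `Var f ≤ μ (f^2) ≤ 1`; finally `hp` for the function `(K^t f - μ f)^2`.
-/

set_option autoImplicit false

namespace ACY

open Finset

/-- the Markov operator -/
noncomputable def KK {Λ U : Type} [Fintype U] (step : U → Λ → Λ) (f : Λ → ℝ) (x : Λ) : ℝ :=
  (∑ u, f (step u x)) / Fintype.card U

private theorem GMc_N {U : Type} [Fintype U] [Nonempty U] : (0 : ℝ) < Fintype.card U := by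
  exact_mod_cast Fintype.card_pos

private theorem GMc_sq {Λ U : Type} [Fintype U] [Nonempty U] (step : U → Λ → Λ) (f : Λ → ℝ) (x : Λ) :
    ∑ u, (f (step u x) - f x) ^ 2 = (∑ u, f (step u x) ^ 2) +
      ((-2 * (Fintype.card U : ℝ)) * (f x * KK step f x) + (Fintype.card U : ℝ) * f x ^ 2) := by
  have hN := GMc_N (U := U)
  have h1 : ∀ u ∈ (Finset.univ : Finset U), (f (step u x) - f x) ^ 2 =
      f (step u x) ^ 2 + (-2 * f x) * f (step u x) + f x ^ 2 := fun u _ => by ring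
  rw [Finset.sum_congr rfl h1, Finset.sum_add_distrib, Finset.sum_add_distrib, ← Finset.mul_sum, Finset.sum_const,
    Finset.card_univ, nsmul_eq_mul]
  unfold KK
  have h2 : -2 * (Fintype.card U : ℝ) * (f x * ((∑ u, f (step u x)) / Fintype.card U)) =
      -2 * f x * (∑ u, f (step u x)) * (Fintype.card U / Fintype.card U) := by ring
  rw [h2, div_self hN.ne', mul_one]
  ring

private theorem GMc_lazy {Λ U : Type} [Fintype U] [Nonempty U] (step : U → Λ → Λ) (mvs : U → Prop)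
    [DecidablePred mvs] (f : Λ → ℝ) (x : Λ) (hst : ∀ u, ¬ mvs u → step u x = x)
    (hlazy : 2 * (Finset.univ.filter mvs).card ≤ Fintype.card U) :
    (KK step f x - f x) ^ 2 ≤ 1 / (2 * (Fintype.card U : ℝ)) * ∑ u, (f (step u x) - f x) ^ 2 := by
  have hN := GMc_N (U := U)
  have h1 : KK step f x - f x = (∑ u ∈ Finset.univ.filter mvs, (f (step u x) - f x)) / Fintype.card U := by
    have h2 : ∑ u, (f (step u x) - f x) = ∑ u ∈ Finset.univ.filter mvs, (f (step u x) - f x) := by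
      symm
      refine Finset.sum_subset (Finset.filter_subset _ _) ?_
      intro u _ hu
      rw [hst u (fun h => hu (Finset.mem_filter.2 ⟨Finset.mem_univ u, h⟩)), sub_self]
    rw [← h2, Finset.sum_sub_distrib, Finset.sum_const, Finset.card_univ, nsmul_eq_mul]
    unfold KK
    rw [sub_div, mul_comm (Fintype.card U : ℝ) (f x), mul_div_assoc, div_self hN.ne', mul_one]
  have h3 : (∑ u ∈ Finset.univ.filter mvs, (f (step u x) - f x)) ^ 2 ≤
      (Finset.univ.filter mvs).card * ∑ u ∈ Finset.univ.filter mvs, (f (step u x) - f x) ^ 2 :=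
    sq_sum_le_card_mul_sum_sq
  have h4 : ∑ u ∈ Finset.univ.filter mvs, (f (step u x) - f x) ^ 2 ≤ ∑ u, (f (step u x) - f x) ^ 2 :=
    Finset.sum_le_sum_of_subset_of_nonneg (Finset.filter_subset _ _) (fun _ _ _ => sq_nonneg _)
  have h5 : (0 : ℝ) ≤ ∑ u, (f (step u x) - f x) ^ 2 := Finset.sum_nonneg fun _ _ => sq_nonneg _
  have h6 : (2 : ℝ) * (Finset.univ.filter mvs).card ≤ Fintype.card U := by exact_mod_cast hlazy
  have h7 := h3.trans (mul_le_mul_of_nonneg_left h4 (Nat.cast_nonneg _))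
  have h8 : 2 * (∑ u ∈ Finset.univ.filter mvs, (f (step u x) - f x)) ^ 2 ≤
      Fintype.card U * ∑ u, (f (step u x) - f x) ^ 2 := by
    have h9 := mul_le_mul_of_nonneg_right h6 h5
    linarith
  rw [h1, div_pow, one_div_mul_eq_div, div_le_div_iff₀ (by positivity) (by positivity)]
  have h9 := mul_le_mul_of_nonneg_right h8 hN.le
  linarith

private theorem GMc_step {Λ U : Type} [Fintype U] [Nonempty U] (Ω : Set Λ) (μ : (Λ → ℝ) → ℝ)
    (hadd : ∀ f g : Λ → ℝ, μ (fun x => f x + g x) = μ f + μ g)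
    (hsmul : ∀ (c : ℝ) (f : Λ → ℝ), μ (fun x => c * f x) = c * μ f)
    (hpos : ∀ f : Λ → ℝ, (∀ x ∈ Ω, 0 ≤ f x) → 0 ≤ μ f)
    (step : U → Λ → Λ)
    (hrev : ∀ F : Λ → Λ → ℝ, μ (fun x => ∑ u, F x (step u x)) = μ (fun x => ∑ u, F (step u x) x))
    (mvs : U → Prop) [DecidablePred mvs] (hst : ∀ u, ¬ mvs u → ∀ x ∈ Ω, step u x = x)
    (hlazy : 2 * (Finset.univ.filter mvs).card ≤ Fintype.card U) {C : ℝ} (hC : 1 ≤ C)
    (hP : ∀ f : Λ → ℝ, μ (fun x => f x ^ 2) - μ f ^ 2 ≤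
      C * (μ (fun x => ∑ u, (f (step u x) - f x) ^ 2) / (2 * Fintype.card U))) (f : Λ → ℝ) :
    μ (KK step f) = μ f ∧ μ (fun x => KK step f x ^ 2) - μ (KK step f) ^ 2 ≤
      (1 - 1 / C) * (μ (fun x => f x ^ 2) - μ f ^ 2) := by
  have hN := GMc_N (U := U)
  have e1 : μ (fun x => ∑ u, f (step u x)) = Fintype.card U * μ f := by
    have h1 := hrev fun _ y => f y
    rw [h1, ← hsmul]
    congr 1
    funext x
    rw [Finset.sum_const, Finset.card_univ, nsmul_eq_mul]
  have e2 : μ (fun x => ∑ u, f (step u x) ^ 2) = Fintype.card U * μ (fun x => f x ^ 2) := by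
    have h1 := hrev fun _ y => f y ^ 2
    rw [h1, ← hsmul]
    congr 1
    funext x
    rw [Finset.sum_const, Finset.card_univ, nsmul_eq_mul]
  have e3 : μ (KK step f) = μ f := by
    have h1 : KK step f = fun x => (1 / (Fintype.card U : ℝ)) * ∑ u, f (step u x) := by
      funext x
      unfold KK
      rw [one_div_mul_eq_div]
    rw [h1, hsmul, e1, one_div_mul_eq_div, mul_comm, mul_div_assoc, div_self hN.ne', mul_one]
  have e4 : μ (fun x => ∑ u, (f (step u x) - f x) ^ 2) =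
      2 * Fintype.card U * (μ (fun x => f x ^ 2) - μ (fun x => f x * KK step f x)) := by
    have h1 : (fun x => ∑ u, (f (step u x) - f x) ^ 2) = fun x => (∑ u, f (step u x) ^ 2) +
      ((-2 * (Fintype.card U : ℝ)) * (f x * KK step f x) + (Fintype.card U : ℝ) * f x ^ 2) :=
      funext fun x => GMc_sq step f x
    rw [h1, hadd, hadd, hsmul, hsmul, e2]
    ring
  have e5 : μ (fun x => (KK step f x - f x) ^ 2) = μ (fun x => KK step f x ^ 2) -
      2 * μ (fun x => f x * KK step f x) + μ (fun x => f x ^ 2) := by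
    have h1 : (fun x => (KK step f x - f x) ^ 2) = fun x => KK step f x ^ 2 +
        ((-2) * (f x * KK step f x) + f x ^ 2) := funext fun x => by ring
    rw [h1, hadd, hadd, hsmul]
    ring
  have e6 : μ (fun x => (KK step f x - f x) ^ 2) ≤
      1 / (2 * (Fintype.card U : ℝ)) * μ (fun x => ∑ u, (f (step u x) - f x) ^ 2) := by
    have h1 := hpos (fun x => 1 / (2 * (Fintype.card U : ℝ)) * (∑ u, (f (step u x) - f x) ^ 2) +
      (-1) * (KK step f x - f x) ^ 2) fun x hx => by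
        have := GMc_lazy step mvs f x (fun u hu => hst u hu x hx) hlazy
        linarith
    rw [hadd, hsmul, hsmul] at h1
    linarith
  have e7 : 1 / (2 * (Fintype.card U : ℝ)) * μ (fun x => ∑ u, (f (step u x) - f x) ^ 2) =
      μ (fun x => f x ^ 2) - μ (fun x => f x * KK step f x) := by
    rw [e4]
    field_simp
  have e8 := hP f
  have e9 : μ (fun x => ∑ u, (f (step u x) - f x) ^ 2) / (2 * Fintype.card U) =
      μ (fun x => f x ^ 2) - μ (fun x => f x * KK step f x) := by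
    rw [← e7]
    ring
  rw [e9] at e8
  have hC0 : 0 < C := by linarith
  refine ⟨e3, ?_⟩
  rw [e3]
  have e10 : (μ (fun x => f x ^ 2) - μ f ^ 2) / C ≤ μ (fun x => f x ^ 2) - μ (fun x => f x * KK step f x) := by
    rw [div_le_iff₀ hC0]
    linarith
  have e11 : (1 - 1 / C) * (μ (fun x => f x ^ 2) - μ f ^ 2) =
      (μ (fun x => f x ^ 2) - μ f ^ 2) - (μ (fun x => f x ^ 2) - μ f ^ 2) / C := by ring
  rw [e11]
  linarith

theorem mc_main {Λ U : Type} [Fintype U] [Nonempty U] (Ω : Set Λ) (μ : (Λ → ℝ) → ℝ)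
    (hadd : ∀ f g : Λ → ℝ, μ (fun x => f x + g x) = μ f + μ g)
    (hsmul : ∀ (c : ℝ) (f : Λ → ℝ), μ (fun x => c * f x) = c * μ f)
    (hpos : ∀ f : Λ → ℝ, (∀ x ∈ Ω, 0 ≤ f x) → 0 ≤ μ f) (hone : μ (fun _ => 1) = 1)
    (step : U → Λ → Λ) (hcl : ∀ u, ∀ x ∈ Ω, step u x ∈ Ω)
    (hrev : ∀ F : Λ → Λ → ℝ, μ (fun x => ∑ u, F x (step u x)) = μ (fun x => ∑ u, F (step u x) x))
    (mvs : U → Prop) [DecidablePred mvs] (hst : ∀ u, ¬ mvs u → ∀ x ∈ Ω, step u x = x)
    (hlazy : 2 * (Finset.univ.filter mvs).card ≤ Fintype.card U) {C : ℝ} (hC : 1 ≤ C)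
    (hP : ∀ f : Λ → ℝ, μ (fun x => f x ^ 2) - μ f ^ 2 ≤
      C * (μ (fun x => ∑ u, (f (step u x) - f x) ^ 2) / (2 * Fintype.card U)))
    {x0 : Λ} (hx0 : x0 ∈ Ω) {p : ℝ} (hp : ∀ f : Λ → ℝ, (∀ x ∈ Ω, 0 ≤ f x) → p * f x0 ≤ μ f)
    {f : Λ → ℝ} (hf : ∀ x ∈ Ω, |f x| ≤ 1) (t : ℕ) :
    p * ((KK step)^[t] f x0 - μ f) ^ 2 ≤ (1 - 1 / C) ^ t := by
  have hC0 : 0 < C := by linarith
  have h1C : 0 ≤ 1 - 1 / C := by
    rw [sub_nonneg, div_le_one hC0]
    exact hC
  have hit : ∀ t : ℕ, μ ((KK step)^[t] f) = μ f ∧ μ (fun x => (KK step)^[t] f x ^ 2) - μ f ^ 2 ≤ (1 - 1 / C) ^ t := by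
    intro t
    induction t with
    | zero =>
      refine ⟨rfl, ?_⟩
      rw [pow_zero]
      have h1 := hpos (fun x => (fun _ => 1) x + (-1) * f x ^ 2) fun x hx => by
        have h2 := abs_le.1 (hf x hx)
        have h3 : f x ^ 2 ≤ 1 := by nlinarith [h2.1, h2.2]
        show 0 ≤ 1 + (-1) * f x ^ 2
        linarith
      rw [hadd, hsmul, hone] at h1
      have h4 : (fun x => (KK step)^[0] f x ^ 2) = fun x => f x ^ 2 := rfl
      rw [h4]
      nlinarith [sq_nonneg (μ f)]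
    | succ t ih =>
      obtain ⟨ih1, ih2⟩ := ih
      obtain ⟨h1, h2⟩ := GMc_step Ω μ hadd hsmul hpos step hrev mvs hst hlazy hC hP ((KK step)^[t] f)
      have h3 : (KK step)^[t + 1] f = KK step ((KK step)^[t] f) := Function.iterate_succ_apply' _ _ _
      rw [h3]
      refine ⟨h1.trans ih1, ?_⟩
      rw [h1, ih1] at h2
      refine h2.trans ?_
      rw [pow_succ (1 - 1 / C) t, mul_comm ((1 - 1 / C) ^ t)]
      exact mul_le_mul_of_nonneg_left ih2 h1C
  obtain ⟨h1, h2⟩ := hit t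
  have h3 := hp (fun x => ((KK step)^[t] f x - μ f) ^ 2) fun x _ => sq_nonneg _
  have h4 : μ (fun x => ((KK step)^[t] f x - μ f) ^ 2) = μ (fun x => (KK step)^[t] f x ^ 2) - μ f ^ 2 := by
    have h5 : (fun x => ((KK step)^[t] f x - μ f) ^ 2) = fun x => (KK step)^[t] f x ^ 2 +
        ((-2 * μ f) * (KK step)^[t] f x + (μ f ^ 2) * (fun _ => 1) x) := funext fun x => by
      show _ = (KK step)^[t] f x ^ 2 + ((-2 * μ f) * (KK step)^[t] f x + (μ f ^ 2) * 1)
      ring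
    rw [h5, hadd, hadd, hsmul, hsmul, hone, h1]
    ring
  rw [h4] at h3
  exact h3.trans h2

end ACY
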