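import Pool.Agent.ACY.GMv

/-!
# ACY-GRv: reversibility of the moves

Induction on the site. At the site 0 the sum over the flags is regrouped by the second flat `W` (`sum_lev2`), the sum over
the proposals is computed by `mv_sum0`, and the conductance `cM X W Z Y` is symmetric in `Z`, `Y` (`GRv_base`).
-/

set_option autoImplicit false

namespace ACY

open Finset

variable {α : Type} [DecidableEq α] {r : Finset α → ℕ} {w : α → ℕ} {S A B C D G W X Y Z : Finset α} {e x : α}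
  {k j n N : ℕ}

private theorem GRv_lin (n : ℕ) (W : Finset α) (s : Finset (Finset α)) (c : ℝ) (k : Finset α → ℝ)
    (Φ : Finset α → List (Finset α) → ℝ) (Z : Finset α) :
    Ex r w n W (fun l => c * Φ Z l + ∑ Y ∈ s, k Y * (Φ Y l - Φ Z l)) =
      c * Ex r w n W (Φ Z) + ∑ Y ∈ s, k Y * (Ex r w n W (Φ Y) - Ex r w n W (Φ Z)) := by
  rw [Ex_add n W (fun l => c * Φ Z l) (fun l => ∑ Y ∈ s, k Y * (Φ Y l - Φ Z l)), Ex_smul,
    Ex_sum s n W (fun Y l => k Y * (Φ Y l - Φ Z l))]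
  refine congrArg _ (Finset.sum_congr rfl fun Y _ => ?_)
  rw [Ex_smul n W (k Y) (fun l => Φ Y l - Φ Z l)]
  refine congrArg _ ?_
  have h1 : (fun l => Φ Y l - Φ Z l) = fun l => Φ Y l + (-1) * Φ Z l := by
    funext l
    ring
  rw [h1, Ex_add n W (fun l => Φ Y l) (fun l => (-1) * Φ Z l), Ex_smul n W (-1) (Φ Z)]
  ring

private theorem GRv_sym (X W Z Y : Finset α) : cM r w X W Z Y = cM r w X W Y Z := by
  unfold cM
  ring

private theorem GRv_cM (h : Gd r w X) (hW : W ∈ lev r X 2) (hZ : Z ∈ lev r X 1) (hWZ : W ⊆ Z) (Y : Finset α) :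
    PP r w X Z * PP r w Z W * ((om w (Y \ W) : ℝ) * ((om w (X \ Y) : ℝ) * (om w Z : ℝ))) = cM r w X W Z Y := by
  have h1 := PP_two h hZ (lev_in h.rk hZ hW hWZ)
  have h2 : PP r w X Z * PP r w Z W * ((om w (Y \ W) : ℝ) * ((om w (X \ Y) : ℝ) * (om w Z : ℝ))) =
      (PP r w X Z * PP r w Z W * (om w Z : ℝ)) * ((om w (Y \ W) : ℝ) * (om w (X \ Y) : ℝ)) := by ring
  rw [h2, h1]
  unfold cM
  ring

private theorem GRv_Ex2 (n : ℕ) (hr : RK r) (X : Finset α) (Ψ : List (Finset α) → ℝ) :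
    Ex r w (n + 2) X Ψ = ∑ W ∈ lev r X 2, ∑ Z ∈ (lev r X 1).filter (fun Z => W ⊆ Z),
      PP r w X Z * PP r w Z W * Ex r w n W (fun l => Ψ (Z :: W :: l)) := by
  rw [← sum_lev2 hr X (fun Z W => PP r w X Z * PP r w Z W * Ex r w n W (fun l => Ψ (Z :: W :: l)))]
  show ∑ Z ∈ lev r X 1, PP r w X Z * ∑ W ∈ lev r Z 1, PP r w Z W * Ex r w n W (fun l => Ψ (Z :: W :: l)) = _
  refine Finset.sum_congr rfl fun Z _ => ?_
  rw [Finset.mul_sum]
  exact Finset.sum_congr rfl fun W _ => by ring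

private theorem GRv_base (h : Gd r w X) (hXS : X ⊆ S) (hN : ∀ g ∈ X, w g * (om w X * om w X) ≤ N)
    (F : List (Finset α) → List (Finset α) → ℝ) :
    Ex r w (n + 2) X (fun l => ∑ g ∈ S, ∑ v ∈ Finset.range N, F l (mv r w 0 X l g v)) =
      Ex r w (n + 2) X (fun l => ∑ g ∈ S, ∑ v ∈ Finset.range N, F (mv r w 0 X l g v) l) := by
  rw [GRv_Ex2 n h.rk, GRv_Ex2 n h.rk]
  refine Finset.sum_congr rfl fun W hW => ?_
  have hmv : ∀ (Z : Finset α) (l : List (Finset α)) (g : α) (v : ℕ),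
      mv r w 0 X (Z :: W :: l) g v = mv0 r w X Z W g v :: W :: l := fun Z l g v => by rw [mv]
  have key : ∀ Φ : Finset α → Finset α → List (Finset α) → ℝ,
      ∑ Z ∈ (lev r X 1).filter (fun Z => W ⊆ Z), PP r w X Z * PP r w Z W *
        Ex r w n W (fun l => ∑ g ∈ S, ∑ v ∈ Finset.range N, Φ Z (mv0 r w X Z W g v) l) =
      ∑ Z ∈ (lev r X 1).filter (fun Z => W ⊆ Z),
        (PP r w X Z * PP r w Z W * ((S.card : ℝ) * N) * Ex r w n W (Φ Z Z) +
          ∑ Y ∈ (lev r X 1).filter (fun Y => W ⊆ Y),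
            cM r w X W Z Y * (Ex r w n W (Φ Z Y) - Ex r w n W (Φ Z Z))) := by
    intro Φ
    refine Finset.sum_congr rfl fun Z hZ => ?_
    obtain ⟨hZ1, hWZ⟩ := Finset.mem_filter.1 hZ
    have h1 : (fun l => ∑ g ∈ S, ∑ v ∈ Finset.range N, Φ Z (mv0 r w X Z W g v) l) =
        fun l => ((S.card : ℝ) * N) * Φ Z Z l + ∑ Y ∈ (lev r X 1).filter (fun Y => W ⊆ Y),
          ((om w (Y \ W) : ℝ) * ((om w (X \ Y) : ℝ) * (om w Z : ℝ))) * (Φ Z Y l - Φ Z Z l) := by
      funext l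
      exact mv_sum0 h hXS hW hZ1 hWZ hN (fun Y => Φ Z Y l)
    rw [h1, GRv_lin n W ((lev r X 1).filter (fun Y => W ⊆ Y)) ((S.card : ℝ) * N)
      (fun Y => (om w (Y \ W) : ℝ) * ((om w (X \ Y) : ℝ) * (om w Z : ℝ))) (Φ Z) Z, mul_add, Finset.mul_sum,
      ← mul_assoc]
    refine congrArg _ (Finset.sum_congr rfl fun Y _ => ?_)
    rw [← mul_assoc, GRv_cM h hW hZ1 hWZ Y]
  have k1 := key (fun Z Y l => F (Z :: W :: l) (Y :: W :: l))
  have k2 := key (fun Z Y l => F (Y :: W :: l) (Z :: W :: l))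
  simp only [hmv]
  rw [k1, k2]
  simp only [Finset.sum_add_distrib, mul_sub, Finset.sum_sub_distrib]
  have h2 : ∑ Z ∈ (lev r X 1).filter (fun Z => W ⊆ Z), ∑ Y ∈ (lev r X 1).filter (fun Y => W ⊆ Y),
      cM r w X W Z Y * Ex r w n W (fun l => F (Z :: W :: l) (Y :: W :: l)) =
      ∑ Z ∈ (lev r X 1).filter (fun Z => W ⊆ Z), ∑ Y ∈ (lev r X 1).filter (fun Y => W ⊆ Y),
        cM r w X W Z Y * Ex r w n W (fun l => F (Y :: W :: l) (Z :: W :: l)) := by
    rw [Finset.sum_comm]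
    refine Finset.sum_congr rfl fun Y _ => Finset.sum_congr rfl fun Z _ => ?_
    rw [GRv_sym]
  rw [h2]

theorem rev1 (i : ℕ) (h : Gd r w X) (hn : r X = n) (hXS : X ⊆ S)
    (hN : ∀ g ∈ X, w g * (om w X * om w X) ≤ N) (F : List (Finset α) → List (Finset α) → ℝ) :
    Ex r w n X (fun l => ∑ g ∈ S, ∑ v ∈ Finset.range N, F l (mv r w i X l g v)) =
      Ex r w n X (fun l => ∑ g ∈ S, ∑ v ∈ Finset.range N, F (mv r w i X l g v) l) := by
  have hnil : ∀ (i : ℕ) (X : Finset α) (g : α) (v : ℕ), mv r w i X [] g v = [] := by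
    intro i X g v
    cases i <;> rw [mv] <;> simp
  have hone : ∀ (X Z : Finset α) (g : α) (v : ℕ), mv r w 0 X [Z] g v = [Z] := by
    intro X Z g v
    rw [mv] <;> simp
  induction i generalizing n X F with
  | zero =>
    match n with
    | 0 =>
      show ∑ g ∈ S, ∑ v ∈ Finset.range N, F [] (mv r w 0 X [] g v) =
        ∑ g ∈ S, ∑ v ∈ Finset.range N, F (mv r w 0 X [] g v) []
      simp only [hnil]
    | 1 =>
      show ∑ Z ∈ lev r X 1, PP r w X Z * ∑ g ∈ S, ∑ v ∈ Finset.range N, F [Z] (mv r w 0 X [Z] g v) =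
        ∑ Z ∈ lev r X 1, PP r w X Z * ∑ g ∈ S, ∑ v ∈ Finset.range N, F (mv r w 0 X [Z] g v) [Z]
      simp only [hone]
    | n + 2 => exact GRv_base h hXS hN F
  | succ i ih =>
    match n with
    | 0 =>
      show ∑ g ∈ S, ∑ v ∈ Finset.range N, F [] (mv r w (i + 1) X [] g v) =
        ∑ g ∈ S, ∑ v ∈ Finset.range N, F (mv r w (i + 1) X [] g v) []
      simp only [hnil]
    | n + 1 =>
      show ∑ Z ∈ lev r X 1, PP r w X Z * Ex r w n Z
          (fun l => ∑ g ∈ S, ∑ v ∈ Finset.range N, F (Z :: l) (mv r w (i + 1) X (Z :: l) g v)) =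
        ∑ Z ∈ lev r X 1, PP r w X Z * Ex r w n Z
          (fun l => ∑ g ∈ S, ∑ v ∈ Finset.range N, F (mv r w (i + 1) X (Z :: l) g v) (Z :: l))
      refine Finset.sum_congr rfl fun Z hZ => ?_
      have hmv : ∀ (l : List (Finset α)) (g : α) (v : ℕ),
          mv r w (i + 1) X (Z :: l) g v = Z :: mv r w i Z l g v := fun l g v => by rw [mv]
      simp only [hmv]
      refine congrArg _ (ih (h.lev hZ) ?_ ((lev_sub hZ).trans hXS) ?_ (fun l l' => F (Z :: l) (Z :: l')))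
      · have := lev_rank hZ
        omega
      · intro g hg
        have h1 : om w Z ≤ om w X := om_mono (lev_sub hZ)
        exact (Nat.mul_le_mul_left _ (Nat.mul_le_mul h1 h1)).trans (hN g (lev_sub hZ hg))

end ACY
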