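import Pool.Agent.ACY.GPd
import Pool.Agent.ACY.GRv
import Pool.Agent.ACY.GDi
import Pool.Agent.ACY.GLz
import Pool.Agent.ACY.GEl
import Pool.Agent.ACY.GMc

/-!
# ACY-GCb: mixing of the flag chain

The abstract lemma `mc_main` applied to the flags below `S`: the moves are the triples (site, position in the list of the elements, number `v`), the functional is the
expectation `Ex`, the Poincare inequality is `poincare` together with `dirS`, reversibility is `rev1`, laziness is `lazyE`.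
-/

set_option autoImplicit false

namespace ACY

open Finset

variable {α : Type} [DecidableEq α] {r : Finset α → ℕ} {w : α → ℕ} {S : Finset α} {n N0 N1 N2 A : ℕ}

/-- one random step of the chain -/
def stp (r : Finset α → ℕ) (w : α → ℕ) (E : List α) (S : Finset α) (N0 N1 N2 : ℕ)
    (u : Fin N0 × Fin N1 × Fin N2) (l : List (Finset α)) : List (Finset α) :=
  mvE r w E S u.1 u.2.1 u.2.2 l

private theorem GCb_sum {E : List α} (hE : E.Nodup) (hES : E.toFinset = S) (hN1 : E.length ≤ N1)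
    (l : List (Finset α)) (G : List (Finset α) → ℝ) :
    ∑ u : Fin N0 × Fin N1 × Fin N2, G (stp r w E S N0 N1 N2 u l) =
      ∑ i ∈ Finset.range N0, (∑ g ∈ S, ∑ v ∈ Finset.range N2, G (mv r w i S l g v) +
        ((N1 - E.length : ℕ) : ℝ) * ((N2 : ℝ) * G l)) := by
  simp only [stp]
  rw [Fintype.sum_prod_type]
  have h1 : ∀ i : Fin N0, ∑ y : Fin N1 × Fin N2, G (mvE r w E S i y.1 y.2 l) =
      ∑ g ∈ S, ∑ v ∈ Finset.range N2, G (mv r w i S l g v) +
        ((N1 - E.length : ℕ) : ℝ) * ((N2 : ℝ) * G l) := by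
    intro i
    rw [Fintype.sum_prod_type]
    have h2 : ∀ j : Fin N1, ∑ v : Fin N2, G (mvE r w E S i j v l) =
        (fun j : ℕ => ∑ v ∈ Finset.range N2, G (mvE r w E S i j v l)) j := by
      intro j
      exact Fin.sum_univ_eq_sum_range (fun v => G (mvE r w E S i j v l)) N2
    rw [Finset.sum_congr rfl fun j _ => h2 j,
      Fin.sum_univ_eq_sum_range (fun j : ℕ => ∑ v ∈ Finset.range N2, G (mvE r w E S i j v l)) N1]
    have h3 := sum_getElem E hE hN1 (fun o : Option α => ∑ v ∈ Finset.range N2,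
      G (match o with
        | none => l
        | some g => mv r w i S l g v))
    have h4 : ∀ j ∈ Finset.range N1, (fun j : ℕ => ∑ v ∈ Finset.range N2, G (mvE r w E S i j v l)) j =
        (fun o : Option α => ∑ v ∈ Finset.range N2,
      G (match o with
        | none => l
        | some g => mv r w i S l g v)) (E[j]?) := by
      intro j _
      simp only [mvE]
      cases E[j]? <;> rfl
    rw [Finset.sum_congr rfl h4, h3, hES]
    simp only [Finset.sum_const, Finset.card_range, nsmul_eq_mul]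
  rw [Finset.sum_congr rfl fun i _ => h1 i]
  exact Fin.sum_univ_eq_sum_range (fun i : ℕ => ∑ g ∈ S, ∑ v ∈ Finset.range N2, G (mv r w i S l g v) +
        ((N1 - E.length : ℕ) : ℝ) * ((N2 : ℝ) * G l)) N0

private theorem GCb_card (hN2 : 2 * A ≤ N2) :
    2 * (Finset.univ.filter fun u : Fin N0 × Fin N1 × Fin N2 => (u.2.2 : ℕ) < A).card ≤
      Fintype.card (Fin N0 × Fin N1 × Fin N2) := by
  have h1 : (Finset.univ.filter fun u : Fin N0 × Fin N1 × Fin N2 => (u.2.2 : ℕ) < A).card ≤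
      N0 * (N1 * A) := by
    rw [Finset.card_filter, Fintype.sum_prod_type]
    have h2 : ∀ i : Fin N0, ∑ y : Fin N1 × Fin N2, (if (y.2 : ℕ) < A then 1 else 0) ≤ N1 * A := by
      intro i
      rw [Fintype.sum_prod_type]
      have h3 : ∀ j : Fin N1, ∑ v : Fin N2, (if (v : ℕ) < A then 1 else 0) ≤ A := by
        intro j
        rw [Fin.sum_univ_eq_sum_range (fun v : ℕ => if v < A then 1 else 0) N2, ← Finset.card_filter]
        calc ((Finset.range N2).filter fun v => v < A).card ≤ (Finset.range A).card :=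
              Finset.card_le_card fun v hv => by
                rw [Finset.mem_filter] at hv
                exact Finset.mem_range.2 hv.2
          _ = A := Finset.card_range A
      calc ∑ j : Fin N1, ∑ v : Fin N2, (if (v : ℕ) < A then 1 else 0) ≤ ∑ j : Fin N1, A :=
            Finset.sum_le_sum fun j _ => h3 j
        _ = N1 * A := by simp
    calc ∑ i : Fin N0, ∑ y : Fin N1 × Fin N2, (if (y.2 : ℕ) < A then 1 else 0) ≤ ∑ i : Fin N0, N1 * A :=
          Finset.sum_le_sum fun i _ => h2 i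
      _ = N0 * (N1 * A) := by simp
  have h2 : Fintype.card (Fin N0 × Fin N1 × Fin N2) = N0 * (N1 * N2) := by simp
  rw [h2]
  calc 2 * (Finset.univ.filter fun u : Fin N0 × Fin N1 × Fin N2 => (u.2.2 : ℕ) < A).card ≤
        2 * (N0 * (N1 * A)) := Nat.mul_le_mul_left 2 h1
    _ = N0 * (N1 * (2 * A)) := by ring
    _ ≤ N0 * (N1 * N2) := Nat.mul_le_mul_left _ (Nat.mul_le_mul_left _ hN2)

theorem mixing (h : Gd r w S) (hn : r S = n) (hn1 : 1 ≤ n) {E : List α} (hE : E.Nodup) (hES : E.toFinset = S)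
    (hN0 : n ≤ N0) (hN1 : E.length ≤ N1) (hN2 : 2 * A ≤ N2) (hA : ∀ g ∈ S, w g * (om w S * om w S) ≤ A)
    {B : ℝ} (hB : (om w S : ℝ) ≤ B) {x0 : List (Finset α)} (hx : Flg r n S x0) {f : List (Finset α) → ℝ}
    (hf : ∀ l, Flg r n S l → |f l| ≤ 1) (t : ℕ) :
    1 / (B ^ n * 2 ^ S.card) * ((KK (stp r w E S N0 N1 N2))^[t] f x0 - Ex r w n S f) ^ 2 ≤
      (1 - 1 / (24 * n * (n + 1) * B ^ 2 * (N0 * (N1 * N2)))) ^ t := by
  -- `S` is not empty
  have hSne : S.Nonempty := by
    rw [Finset.nonempty_iff_ne_empty]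
    rintro rfl
    rw [h.rk.empty] at hn
    omega
  obtain ⟨g0, hg0⟩ := hSne
  have hw0 : 0 < w g0 := h.pos g0 hg0
  have hom : 1 ≤ om w S := le_trans hw0 (Finset.single_le_sum (f := w) (fun _ _ => Nat.zero_le _) hg0)
  have hA1 : 1 ≤ A := le_trans (Nat.mul_pos hw0 (Nat.mul_pos hom hom)) (hA g0 hg0)
  have hAN : A ≤ N2 := by omega
  have hN2p : 1 ≤ N2 := by omega
  have hlen : 1 ≤ E.length := by
    have : g0 ∈ E := by
      rw [← List.mem_toFinset, hES]
      exact hg0
    exact List.length_pos_of_mem this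
  have hN1p : 1 ≤ N1 := le_trans hlen hN1
  have hN0p : 1 ≤ N0 := le_trans hn1 hN0
  have : Nonempty (Fin N0 × Fin N1 × Fin N2) := ⟨(⟨0, hN0p⟩, ⟨0, hN1p⟩, ⟨0, hN2p⟩)⟩
  have hNN : ∀ g ∈ S, w g * (om w S * om w S) ≤ N2 := fun g hg => (hA g hg).trans hAN
  have hcard : ((Fintype.card (Fin N0 × Fin N1 × Fin N2) : ℕ) : ℝ) = N0 * (N1 * N2) := by simp
  have hB1 : (1 : ℝ) ≤ B := le_trans (by exact_mod_cast hom) hB
  have hcp : (1 : ℝ) ≤ (N0 * (N1 * N2) : ℝ) := by
    have : 1 ≤ N0 * (N1 * N2) := Nat.mul_pos hN0p (Nat.mul_pos hN1p hN2p)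
    exact_mod_cast this
  have hnr : (1 : ℝ) ≤ n := by exact_mod_cast hn1
  have hC : (1 : ℝ) ≤ 24 * n * (n + 1) * B ^ 2 * (N0 * (N1 * N2)) := by
    have h1 : (1 : ℝ) ≤ B ^ 2 := one_le_pow₀ hB1
    have h2 : (1 : ℝ) ≤ 24 * n * (n + 1) := by nlinarith
    have h3 : (1 : ℝ) ≤ 24 * n * (n + 1) * B ^ 2 := one_le_mul_of_one_le_of_one_le h2 h1
    exact one_le_mul_of_one_le_of_one_le h3 hcp
  refine mc_main (Λ := List (Finset α)) (U := Fin N0 × Fin N1 × Fin N2) {l | Flg r n S l} (Ex r w n S)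
    (fun f g => Ex_add n S f g) (fun c f => Ex_smul n S c f) (fun f hf => Ex_nonneg h hf) (Ex_one h hn)
    (stp r w E S N0 N1 N2) (fun u x hx => mvE_flg h hx _ _ _) ?_ (fun u => (u.2.2 : ℕ) < A)
    (fun u hu x hx => lazyE hES hA hx _ _ _ (not_lt.1 hu)) (GCb_card hN2) hC ?_ hx
    (fun f hf => Ex_point h hn hB hf hx) hf t
  · intro F
    have e1 : (fun x => ∑ u : Fin N0 × Fin N1 × Fin N2, F x (stp r w E S N0 N1 N2 u x)) =
        fun x => ∑ i ∈ Finset.range N0, (∑ g ∈ S, ∑ v ∈ Finset.range N2, F x (mv r w i S x g v) +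
        ((N1 - E.length : ℕ) : ℝ) * ((N2 : ℝ) * F x x)) := by
      funext x
      exact GCb_sum hE hES hN1 x (fun y => F x y)
    have e2 : (fun x => ∑ u : Fin N0 × Fin N1 × Fin N2, F (stp r w E S N0 N1 N2 u x) x) =
        fun x => ∑ i ∈ Finset.range N0, (∑ g ∈ S, ∑ v ∈ Finset.range N2, F (mv r w i S x g v) x +
        ((N1 - E.length : ℕ) : ℝ) * ((N2 : ℝ) * F x x)) := by
      funext x
      exact GCb_sum hE hES hN1 x (fun y => F y x)
    rw [e1, e2, Ex_sum, Ex_sum]
    refine Finset.sum_congr rfl fun i _ => ?_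
    rw [Ex_add n S (fun x => ∑ g ∈ S, ∑ v ∈ Finset.range N2, F x (mv r w i S x g v))
        (fun x => ((N1 - E.length : ℕ) : ℝ) * ((N2 : ℝ) * F x x)),
      Ex_add n S (fun x => ∑ g ∈ S, ∑ v ∈ Finset.range N2, F (mv r w i S x g v) x)
        (fun x => ((N1 - E.length : ℕ) : ℝ) * ((N2 : ℝ) * F x x)),
      rev1 i h hn (Finset.Subset.refl S) hNN F]
  · intro f
    have e1 : (fun x => ∑ u : Fin N0 × Fin N1 × Fin N2, (f (stp r w E S N0 N1 N2 u x) - f x) ^ 2) =
        fun x => ∑ i ∈ Finset.range N0, ∑ g ∈ S, ∑ v ∈ Finset.range N2, (f (mv r w i S x g v) - f x) ^ 2 := by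
      funext x
      rw [GCb_sum hE hES hN1 x (fun y => (f y - f x) ^ 2)]
      refine Finset.sum_congr rfl fun i _ => ?_
      ring
    rw [e1, dirS h hn (Finset.Subset.refl S) (hN0.trans (Nat.le_succ _)) hNN f, hcard]
    have h1 := poincare h hn f hB
    rw [Vr] at h1
    refine h1.trans (le_of_eq ?_)
    have h2 : (N0 * (N1 * N2) : ℝ) ≠ 0 := by linarith
    field_simp

end ACY
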