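import Pool.Agent.ACY.GPoi

set_option autoImplicit false

/-!
# ACY-GCmp: comparison of the single site heat bath with a local chain

`q V Z Z' W`: the probability to replace `Z` by `Z'` between `V` and `W`. If `c p' / mass ≤ q`, then
`Dir ≤ c⁻¹ DirQ`, where `DirQ` is the Dirichlet form of the chain in recursive form.
-/

namespace ACY.GPoi

open Finset

variable {α : Type*} {cov : α → Finset α} {p t : α → α → ℝ} {rk : α → ℕ} {ok : α → Prop} {m : ℝ}

theorem Ex_add (n : ℕ) (X : α) (f g : List α → ℝ) :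
    Ex cov p n X (fun l => f l + g l) = Ex cov p n X f + Ex cov p n X g := by
  induction n generalizing X f g with
  | zero => rfl
  | succ n ih =>
    simp only [Ex]
    rw [← Finset.sum_add_distrib]
    refine Finset.sum_congr rfl fun Z _ => ?_
    rw [ih, mul_add]

theorem Ex_mono (h : Sys cov p t rk ok m) (n : ℕ) (X : α) (hX : ok X) (f g : List α → ℝ)
    (hf : ∀ l, f l ≤ g l) : Ex cov p n X f ≤ Ex cov p n X g := by
  have := Ex_nonneg h n X hX (fun l => g l - f l) fun l => sub_nonneg.2 (hf l)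
  rw [Ex_sub] at this
  linarith

/-- the variance of a finite family is the sum of the squares of the differences -/
theorem var_pair {ι : Type*} (s : Finset ι) (w h : ι → ℝ) (hw : ∑ i ∈ s, w i ≠ 0) :
    ∑ i ∈ s, w i * (h i - (∑ j ∈ s, w j * h j) / ∑ j ∈ s, w j) ^ 2 =
      ∑ i ∈ s, ∑ j ∈ s, w i * w j / (2 * ∑ j ∈ s, w j) * (h i - h j) ^ 2 := by
  set M := ∑ j ∈ s, w j with hM
  set A := ∑ j ∈ s, w j * h j with hA
  set B := ∑ j ∈ s, w j * h j ^ 2 with hB
  have h1 : ∑ i ∈ s, w i * (h i - A / M) ^ 2 = B - A ^ 2 / M := by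
    have : ∑ i ∈ s, w i * (h i - A / M) ^ 2 = B - 2 * (A / M) * A + (A / M) ^ 2 * M := by
      rw [hB, hA, hM, Finset.mul_sum, Finset.mul_sum, ← Finset.sum_sub_distrib,
        ← Finset.sum_add_distrib]
      exact Finset.sum_congr rfl fun x _ => by ring
    rw [this]
    field_simp
    ring
  have h2 : ∑ i ∈ s, ∑ j ∈ s, w i * w j / (2 * M) * (h i - h j) ^ 2 = (M * B - A * A) / M := by
    have h3 : ∀ i ∈ s, ∑ j ∈ s, w i * w j / (2 * M) * (h i - h j) ^ 2 =
        (w i * h i ^ 2 * M - 2 * (w i * h i) * A + w i * B) / (2 * M) := by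
      intro i _
      have : w i * h i ^ 2 * M - 2 * (w i * h i) * A + w i * B =
          ∑ j ∈ s, w i * w j * (h i - h j) ^ 2 := by
        rw [hB, hA, hM, Finset.mul_sum, Finset.mul_sum, Finset.mul_sum, ← Finset.sum_sub_distrib,
          ← Finset.sum_add_distrib]
        exact Finset.sum_congr rfl fun x _ => by ring
      rw [this, Finset.sum_div]
      exact Finset.sum_congr rfl fun j _ => by ring
    rw [Finset.sum_congr rfl h3, ← Finset.sum_div, Finset.sum_add_distrib, Finset.sum_sub_distrib,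
      ← Finset.sum_mul, ← Finset.sum_mul, ← Finset.sum_mul, ← Finset.mul_sum]
    rw [← hB, ← hA, ← hM]
    field_simp
    ring
  rw [h1, h2]
  field_simp

/-- the local part of the Dirichlet form of the chain -/
noncomputable def locQ (cov : α → Finset α) (p : α → α → ℝ) (q : α → α → α → α → ℝ) (n : ℕ) (X : α)
    (f : List α → ℝ) : ℝ :=
  ∑ Z ∈ cov X, ∑ W ∈ cov Z, p X Z * p Z W * ∑ Z' ∈ mid cov X W, q X Z Z' W *
    (1 / 2 * Ex cov p n W (fun l => (f (Z :: W :: l) - f (Z' :: W :: l)) ^ 2))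

/-- the Dirichlet form of the chain -/
noncomputable def DirQ (cov : α → Finset α) (p : α → α → ℝ) (q : α → α → α → α → ℝ) :
    ℕ → α → (List α → ℝ) → ℝ
  | 0, _, _ => 0
  | 1, _, _ => 0
  | n + 2, X, f => ∑ Z ∈ cov X, p X Z * DirQ cov p q (n + 1) Z (fun l => f (Z :: l)) +
      locQ cov p q n X f

theorem loc_pair (h : Sys cov p t rk ok m) (n : ℕ) (X : α) (hX : ok X) (f : List α → ℝ) :
    loc cov p n X f = ∑ Z ∈ cov X, ∑ W ∈ cov Z, p X Z * p Z W *
      ∑ Z' ∈ mid cov X W, (p X Z' * p Z' W / mass cov p X W) *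
        (1 / 2 * Ex cov p n W (fun l => (f (Z :: W :: l) - f (Z' :: W :: l)) ^ 2)) := by
  classical
  rw [loc, sum_mid, sum_mid]
  refine Finset.sum_congr rfl fun W hW => ?_
  obtain ⟨Z0, hZ0, hW0⟩ := Finset.mem_biUnion.1 hW
  have hS := mass_pos h hX hZ0 hW0
  have h1 : ∑ Z ∈ mid cov X W, p X Z * p Z W *
      Ex cov p n W (fun l => (f (Z :: W :: l) - fb cov p f X W l) ^ 2) =
      Ex cov p n W (fun l => ∑ Z ∈ mid cov X W, p X Z * p Z W *
        (f (Z :: W :: l) - fb cov p f X W l) ^ 2) := by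
    rw [Ex_sum]
    exact Finset.sum_congr rfl fun Z _ => (Ex_smul _ _ _ _).symm
  have h2 : ∀ l, ∑ Z ∈ mid cov X W, p X Z * p Z W * (f (Z :: W :: l) - fb cov p f X W l) ^ 2 =
      ∑ Z ∈ mid cov X W, ∑ Z' ∈ mid cov X W, (p X Z * p Z W) * (p X Z' * p Z' W) /
        (2 * mass cov p X W) * (f (Z :: W :: l) - f (Z' :: W :: l)) ^ 2 := fun l =>
    var_pair (mid cov X W) (fun Z => p X Z * p Z W) (fun Z => f (Z :: W :: l)) hS.ne'
  rw [h1]
  simp only [h2]
  rw [Ex_sum]
  refine Finset.sum_congr rfl fun Z _ => ?_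
  rw [Ex_sum, Finset.mul_sum]
  refine Finset.sum_congr rfl fun Z' _ => ?_
  rw [Ex_smul]
  field_simp

theorem loc_le (h : Sys cov p t rk ok m) {q : α → α → α → α → ℝ} {c : ℝ} (hc : 0 < c)
    (hq : ∀ X, ok X → ∀ Z ∈ cov X, ∀ W ∈ cov Z, ∀ Z' ∈ mid cov X W,
      c * (p X Z' * p Z' W / mass cov p X W) ≤ q X Z Z' W)
    (n : ℕ) (X : α) (hX : ok X) (f : List α → ℝ) :
    loc cov p n X f ≤ c⁻¹ * locQ cov p q n X f := by
  rw [loc_pair h n X hX f, locQ, Finset.mul_sum]
  refine Finset.sum_le_sum fun Z hZ => ?_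
  rw [Finset.mul_sum]
  refine Finset.sum_le_sum fun W hW => ?_
  have hZo := h.ok' X hX Z hZ
  have hWo := h.ok' Z hZo W hW
  have hp : 0 ≤ p X Z * p Z W := mul_nonneg (h.pos X hX Z hZ).le (h.pos Z hZo W hW).le
  rw [mul_left_comm]
  refine mul_le_mul_of_nonneg_left ?_ hp
  rw [Finset.mul_sum]
  refine Finset.sum_le_sum fun Z' hZ' => ?_
  have hE : 0 ≤ 1 / 2 * Ex cov p n W (fun l => (f (Z :: W :: l) - f (Z' :: W :: l)) ^ 2) :=
    mul_nonneg (by norm_num) (Ex_nonneg h n W hWo _ fun l => sq_nonneg _)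
  rw [← mul_assoc (c⁻¹)]
  refine mul_le_mul_of_nonneg_right ?_ hE
  have h1 := hq X hX Z hZ W hW Z' hZ'
  calc p X Z' * p Z' W / mass cov p X W
      = c⁻¹ * (c * (p X Z' * p Z' W / mass cov p X W)) := by
        rw [← mul_assoc, inv_mul_cancel₀ hc.ne', one_mul]
    _ ≤ c⁻¹ * q X Z Z' W := mul_le_mul_of_nonneg_left h1 (inv_nonneg.2 hc.le)

theorem Dir_le (h : Sys cov p t rk ok m) {q : α → α → α → α → ℝ} {c : ℝ} (hc : 0 < c)
    (hq : ∀ X, ok X → ∀ Z ∈ cov X, ∀ W ∈ cov Z, ∀ Z' ∈ mid cov X W,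
      c * (p X Z' * p Z' W / mass cov p X W) ≤ q X Z Z' W)
    (h1 : ∀ X, ok X → rk X = 1 → ∀ Z ∈ cov X, ∀ Z' ∈ cov X, Z = Z')
    (n : ℕ) (X : α) (hX : ok X) (hn : rk X = n) (f : List α → ℝ) :
    Dir cov p n X f ≤ c⁻¹ * DirQ cov p q n X f := by
  induction n generalizing X f with
  | zero => simp [Dir, DirQ]
  | succ n ih =>
    cases n with
    | zero =>
      have : Dir cov p 1 X f = 0 := by
        refine Finset.sum_eq_zero fun Z hZ => ?_
        have h2 : P cov p (fun Z => f [Z]) X = f [Z] := by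
          have h3 : ∑ Z' ∈ cov X, p X Z' * f [Z'] = ∑ Z' ∈ cov X, p X Z' * f [Z] :=
            Finset.sum_congr rfl fun Z' hZ' => by rw [h1 X hX hn Z' hZ' Z hZ]
          rw [P, h3, ← Finset.sum_mul, h.one X hX (by omega), one_mul]
        rw [h2, sub_self]
        ring
      rw [this]
      simp [DirQ]
    | succ n =>
      rw [Dir, DirQ, mul_add]
      refine add_le_add ?_ (loc_le h hc hq n X hX f)
      rw [Finset.mul_sum]
      refine Finset.sum_le_sum fun Z hZ => ?_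
      rw [mul_left_comm]
      exact mul_le_mul_of_nonneg_left
        (ih Z (h.ok' X hX Z hZ) (by have := h.rk' X hX Z hZ; omega) _) (h.pos X hX Z hZ).le

end ACY.GPoi
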