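import Pool.Agent.ACY.GSu

/-!
# ACY-GLo: deletion of an element which is not a coloop

`T (S.erase e) ≤ T S ≤ |S| T (S.erase e)` (Weisner in `S` and in `S.erase e`), and `T` does not see parallel elements.
-/

set_option autoImplicit false

namespace ACY

open Finset

variable {α : Type} [DecidableEq α] {r : Finset α → ℕ} {w : α → ℕ} {S A B C D F G W X Y Z : Finset α} {e f g x : α}
  {k j n : ℕ}

private theorem GLo_lev (h2 : r (S.erase e) = r S) (hZ : Z ∈ (lev r S 1).filter (fun Z => e ∉ Z)) :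
    Z ∈ lev r (S.erase e) 1 := by
  rw [mem_filter, mem_lev, mem_flats] at hZ
  obtain ⟨⟨⟨h3, h4⟩, h5⟩, h6⟩ := hZ
  rw [mem_lev, mem_flats, h2]
  refine ⟨⟨fun x hx => ?_, fun x hx hxZ => h4 x (mem_of_mem_erase hx) hxZ⟩, h5⟩
  rw [mem_erase]
  exact ⟨fun h => h6 (h ▸ hx), h3 hx⟩

theorem del_low (hr : RK r) (hl : ∀ x ∈ S, r {x} = 1) (he : e ∈ S) (h2 : r (S.erase e) = r S) :
    T r S ≤ (S.card : ℝ) * T r (S.erase e) := by
  have h3 : T r S ≤ ∑ f ∈ S.erase e, T r (S.erase e) := by
    rw [weisner hr he]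
    calc ∑ Z ∈ (lev r S 1).filter (fun Z => e ∉ Z), T r Z
        ≤ ∑ Z ∈ (lev r S 1).filter (fun Z => e ∉ Z), ∑ f ∈ S.erase e, if f ∉ Z then T r Z else 0 := by
          refine sum_le_sum fun Z hZ => ?_
          have h4 := GLo_lev h2 hZ
          obtain ⟨f, hf, hfZ⟩ : ∃ f ∈ S.erase e, f ∉ Z := by
            by_contra hcon
            push Not at hcon
            have h5 := hr.mono _ _ hcon
            have h6 := (mem_lev.1 h4).2
            omega
          refine le_trans ?_ (single_le_sum (f := fun f => if f ∉ Z then T r Z else 0) (fun i _ => ?_) hf)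
          · show T r Z ≤ if f ∉ Z then T r Z else 0
            rw [if_pos hfZ]
          · show (0 : ℝ) ≤ if i ∉ Z then T r Z else 0
            by_cases hi : i ∉ Z
            · rw [if_pos hi]
              exact T_nonneg hr Z
            · rw [if_neg hi]
      _ = ∑ f ∈ S.erase e, ∑ Z ∈ (lev r S 1).filter (fun Z => e ∉ Z), if f ∉ Z then T r Z else 0 := sum_comm
      _ ≤ ∑ f ∈ S.erase e, T r (S.erase e) := by
          refine sum_le_sum fun f hf => ?_
          rw [weisner hr hf, ← sum_filter]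
          refine sum_le_sum_of_subset_of_nonneg ?_ fun Z _ _ => T_nonneg hr Z
          intro Z hZ
          rw [mem_filter] at hZ ⊢
          exact ⟨GLo_lev h2 hZ.1, hZ.2⟩
  rw [sum_const, nsmul_eq_mul, card_erase_of_mem he] at h3
  refine h3.trans (mul_le_mul_of_nonneg_right ?_ (T_nonneg hr _))
  exact_mod_cast Nat.sub_le _ _

theorem del_up (hr : RK r) (hl : ∀ x ∈ S, r {x} = 1) (he : e ∈ S) (h2 : r (S.erase e) = r S) :
    T r (S.erase e) ≤ T r S := by
  have h3 := T_del hr he (hl e he) h2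
  have h4 := T_nonneg (hr.con {e}) (S.erase e)
  linarith

theorem T_par (hr : RK r) (he : e ∈ S) (hf : f ∈ S) (hef : e ≠ f) (h1 : r {e} = 1) (hf1 : r {f} = 1)
    (h : r {e, f} = 1) : T r S = T r (S.erase e) := by
  have hfS : f ∈ S.erase e := mem_erase.2 ⟨hef.symm, hf⟩
  have h2 : r (S.erase e) = r S := by
    have h3 := hr.cl_mono (A := {f}) (B := S.erase e) (x := e) (singleton_subset_iff.2 hfS) (by rw [h, hf1])
    rw [insert_erase he] at h3
    exact h3.symm
  have h3 := T_del hr he h1 h2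
  have h4 : T (con r {e}) (S.erase e) = 0 := by
    refine T_loop (hr.con {e}) hfS ?_
    have h5 := con_add hr {e} {f}
    have h6 : ({f} ∪ {e} : Finset α) = {e, f} := by
      rw [union_comm]
      rfl
    rw [h6, h, h1] at h5
    omega
  rw [h3, h4, add_zero]

end ACY
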