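import Pool.Agent.ACY.Ba

/-!
# ACY-Re: flats of the deletion and of the contraction

The map `F ↦ F.erase f` is a bijection from the flats `F` of `S` without the coloop `f` to the flats of the deletion (inverse: the
closure), from the flats containing `f` to the flats of the contraction, and from the flats with the coloop `f` to the flats `F`, not
containing `f`, for which `insert f F` is a flat (inverse: `insert f`).
-/

set_option autoImplicit false

namespace ACY

open Finset

variable {α : Type} [DecidableEq α] {r : Finset α → ℕ} {S A B C D F G W X Z : Finset α} {e f x : α} {k j : ℕ}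

private theorem Re_erase (hc : ¬ Col r f F) (hr : RK r) : r (F.erase f) = r F := by
  by_cases hf : f ∈ F
  · refine le_antisymm (hr.mono _ _ (erase_subset f F)) ?_
    by_contra hcon
    exact hc ⟨hf, not_le.1 hcon⟩
  · rw [erase_eq_of_notMem hf]

private theorem Re_out (hr : RK r) (hF : F ∈ flats r S) (hx : x ∈ S) (hxF : x ∉ F) :
    r (F.erase f) < r (insert x (F.erase f)) := by
  by_contra hcon
  have h1 : r (insert x (F.erase f)) = r (F.erase f) :=
    le_antisymm (not_lt.1 hcon) (hr.mono _ _ (subset_insert x _))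
  have h2 := hr.cl_mono (erase_subset f F) h1
  have h3 := (mem_flats.1 hF).2 x hx hxF
  omega

private theorem Re_flat (hr : RK r) (hF : F ∈ flats r S) : F.erase f ∈ flats r (S.erase f) := by
  obtain ⟨h1, h2⟩ := mem_flats.1 hF
  refine mem_flats.2 ⟨erase_subset_erase f h1, fun x hx hxF => ?_⟩
  obtain ⟨h3, h4⟩ := mem_erase.1 hx
  exact Re_out hr hF h4 fun h => hxF (mem_erase.2 ⟨h3, h⟩)

private theorem Re_inj (hr : RK r) (hf : f ∈ S) (hF : F ∈ flats r S) (hG : G ∈ flats r S) (hc : ¬ Col r f F)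
    (h : F.erase f = G.erase f) (hfF : f ∈ F) : f ∈ G := by
  by_contra hfG
  rw [erase_eq_of_notMem hfG] at h
  have h1 := (mem_flats.1 hG).2 f hf hfG
  rw [← h, insert_erase hfF, Re_erase hc hr] at h1
  exact lt_irrefl _ h1

private theorem Re_inj' (h : F.erase f = G.erase f) (hfF : f ∈ F) (hfG : f ∈ G) : F = G := by
  rw [← insert_erase hfF, h, insert_erase hfG]

theorem sum_del_flats (hr : RK r) (hf : f ∈ S) (p : Finset α → Prop) [DecidablePred p] (φ : Finset α → ℝ) :
    ∑ G ∈ (flats r (S.erase f)).filter p, φ G =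
      ∑ F ∈ (flats r S).filter (fun F => ¬ Col r f F ∧ p (F.erase f)), φ (F.erase f) := by
  symm
  refine sum_nbij (fun F => F.erase f) ?_ ?_ ?_ fun F _ => rfl
  · intro F hF
    obtain ⟨h1, h2, h3⟩ := mem_filter.1 hF
    exact mem_filter.2 ⟨Re_flat hr h1, h3⟩
  · intro F hF G hG h
    obtain ⟨h1, h2, -⟩ := mem_filter.1 (mem_coe.1 hF)
    obtain ⟨g1, g2, -⟩ := mem_filter.1 (mem_coe.1 hG)
    have h' : F.erase f = G.erase f := h
    by_cases hfF : f ∈ F
    · exact Re_inj' h' hfF (Re_inj hr hf h1 g1 h2 h' hfF)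
    · have hfG : f ∉ G := fun hfG => hfF (Re_inj hr hf g1 h1 g2 h'.symm hfG)
      rwa [erase_eq_of_notMem hfF, erase_eq_of_notMem hfG] at h'
  · intro G hG
    obtain ⟨h1, h2⟩ := mem_filter.1 (mem_coe.1 hG)
    obtain ⟨h3, h4⟩ := mem_flats.1 h1
    have hGS : G ⊆ S := h3.trans (erase_subset f S)
    have hfG : f ∉ G := fun h => notMem_erase f S (h3 h)
    have he : (cl r S G).erase f = G := by
      refine Subset.antisymm (fun x hx => ?_) fun x hx => ?_
      · obtain ⟨h5, h6⟩ := mem_erase.1 hx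
        have h7 : x ∈ S ∧ r (insert x G) = r G := by
          unfold cl at h6
          exact mem_filter.1 h6
        by_contra hxG
        have h8 := h4 x (mem_erase.2 ⟨h5, h7.1⟩) hxG
        omega
      · exact mem_erase.2 ⟨fun h => hfG (h ▸ hx), sub_cl hGS hx⟩
    refine ⟨cl r S G, mem_coe.2 (mem_filter.2 ⟨cl_flat hr hGS, ?_, ?_⟩), he⟩
    · rintro ⟨h5, h6⟩
      rw [he, r_cl hr hGS] at h6
      exact lt_irrefl _ h6
    · rw [he]
      exact h2

theorem sum_del (hr : RK r) (hf : f ∈ S) (h2 : r (S.erase f) = r S) (k : ℕ) (p : Finset α → Prop) [DecidablePred p]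
    (φ : Finset α → ℝ) :
    ∑ G ∈ (lev r (S.erase f) k).filter p, φ G =
      ∑ F ∈ (lev r S k).filter (fun F => ¬ Col r f F ∧ p (F.erase f)), φ (F.erase f) := by
  unfold lev
  rw [filter_filter, filter_filter, sum_del_flats hr hf]
  refine sum_congr (filter_congr fun F _ => ?_) fun _ _ => rfl
  rw [h2]
  constructor
  · rintro ⟨h3, h4, h5⟩
    rw [Re_erase h3 hr] at h4
    exact ⟨h4, h3, h5⟩
  · rintro ⟨h3, h4, h5⟩
    refine ⟨h4, ?_, h5⟩
    rw [Re_erase h4 hr]
    exact h3

private theorem Re_con (hr : RK r) (hf : f ∈ F) : con r {f} (F.erase f) + r {f} = r F := by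
  rw [con_add hr, union_comm, ← insert_eq, insert_erase hf]

private theorem Re_con' (hr : RK r) (hf : f ∈ F) : con r {f} (insert x (F.erase f)) + r {f} = r (insert x F) := by
  rw [con_add hr, union_comm, ← insert_eq, insert_comm, insert_erase hf]

theorem sum_con_flats (hr : RK r) (hf : f ∈ S) (p : Finset α → Prop) [DecidablePred p] (φ : Finset α → ℝ) :
    ∑ G ∈ (flats (con r {f}) (S.erase f)).filter p, φ G =
      ∑ F ∈ (flats r S).filter (fun F => f ∈ F ∧ p (F.erase f)), φ (F.erase f) := by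
  symm
  refine sum_nbij (fun F => F.erase f) ?_ ?_ ?_ fun F _ => rfl
  · intro F hF
    obtain ⟨h1, h2, h3⟩ := mem_filter.1 hF
    obtain ⟨h4, h5⟩ := mem_flats.1 h1
    refine mem_filter.2 ⟨mem_flats.2 ⟨erase_subset_erase f h4, fun x hx hxF => ?_⟩, h3⟩
    obtain ⟨h6, h7⟩ := mem_erase.1 hx
    have h8 := h5 x h7 fun h => hxF (mem_erase.2 ⟨h6, h⟩)
    have h9 := Re_con hr h2
    have h10 := Re_con' (x := x) hr h2
    omega
  · intro F hF G hG h
    obtain ⟨-, h2, -⟩ := mem_filter.1 (mem_coe.1 hF)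
    obtain ⟨-, g2, -⟩ := mem_filter.1 (mem_coe.1 hG)
    exact Re_inj' h h2 g2
  · intro G hG
    obtain ⟨h1, h2⟩ := mem_filter.1 (mem_coe.1 hG)
    obtain ⟨h3, h4⟩ := mem_flats.1 h1
    have hfG : f ∉ G := fun h => notMem_erase f S (h3 h)
    have he : (insert f G).erase f = G := erase_insert hfG
    refine ⟨insert f G, mem_coe.2 (mem_filter.2 ⟨mem_flats.2 ⟨?_, fun x hx hxF => ?_⟩, mem_insert_self f G, ?_⟩), he⟩
    · exact insert_subset hf (h3.trans (erase_subset f S))
    · have hxf : x ≠ f := fun h => hxF (h ▸ mem_insert_self f G)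
      have hxG : x ∉ G := fun h => hxF (mem_insert_of_mem h)
      have h5 := h4 x (mem_erase.2 ⟨hxf, hx⟩) hxG
      have h9 := Re_con hr (mem_insert_self f G)
      have h10 := Re_con' (x := x) hr (mem_insert_self f G)
      rw [he] at h9 h10
      omega
    · rw [he]
      exact h2

theorem sum_con (hr : RK r) (hf : f ∈ S) (h1 : r {f} = 1) (k : ℕ) (p : Finset α → Prop) [DecidablePred p]
    (φ : Finset α → ℝ) :
    ∑ G ∈ (lev (con r {f}) (S.erase f) k).filter p, φ G =
      ∑ F ∈ (lev r S k).filter (fun F => f ∈ F ∧ p (F.erase f)), φ (F.erase f) := by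
  unfold lev
  rw [filter_filter, filter_filter, sum_con_flats hr hf]
  refine sum_congr (filter_congr fun F _ => ?_) fun _ _ => rfl
  have h2 := Re_con hr hf
  constructor
  · rintro ⟨h3, h4, h5⟩
    have h6 := Re_con hr h3
    exact ⟨by omega, h3, h5⟩
  · rintro ⟨h3, h4, h5⟩
    have h6 := Re_con hr h4
    exact ⟨h4, by omega, h5⟩

/-- flats `F` with `insert f F` a flat, and flats with the coloop `f` -/
theorem sum_col (hr : RK r) (hf : f ∈ S) (p : Finset α → Prop) [DecidablePred p] (φ : Finset α → ℝ) :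
    ∑ F ∈ (flats r S).filter (fun F => (f ∉ F ∧ insert f F ∈ flats r S) ∧ p F), φ F =
      ∑ F ∈ (flats r S).filter (fun F => Col r f F ∧ p (F.erase f)), φ (F.erase f) := by
  symm
  refine sum_nbij (fun F => F.erase f) ?_ ?_ ?_ fun F _ => rfl
  · intro F hF
    obtain ⟨h1, ⟨h2, h2'⟩, h3⟩ := mem_filter.1 hF
    obtain ⟨h4, h5⟩ := mem_flats.1 h1
    refine mem_filter.2 ⟨mem_flats.2 ⟨(erase_subset f F).trans h4, fun x hx hxF => ?_⟩,
      ⟨notMem_erase f F, ?_⟩, h3⟩
    · by_cases hxf : x = f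
      · rw [hxf, insert_erase h2]
        exact h2'
      · exact Re_out hr h1 hx fun h => hxF (mem_erase.2 ⟨hxf, h⟩)
    · show insert f (F.erase f) ∈ flats r S
      rw [insert_erase h2]
      exact h1
  · intro F hF G hG h
    obtain ⟨-, h2, -⟩ := mem_filter.1 (mem_coe.1 hF)
    obtain ⟨-, g2, -⟩ := mem_filter.1 (mem_coe.1 hG)
    exact Re_inj' h h2.1 g2.1
  · intro G hG
    obtain ⟨h1, ⟨h2, h3⟩, h4⟩ := mem_filter.1 (mem_coe.1 hG)
    have he : (insert f G).erase f = G := erase_insert h2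
    refine ⟨insert f G, mem_coe.2 (mem_filter.2 ⟨h3, ⟨mem_insert_self f G, ?_⟩, ?_⟩), he⟩
    · rw [he]
      exact (mem_flats.1 h1).2 f hf h2
    · rw [he]
      exact h4

/-- inclusions of flats of the deletion -/
theorem sub_del (hr : RK r) (hW : W ∈ flats r S) (hZ : Z ∈ flats r S) (hc : ¬ Col r f W) :
    W.erase f ⊆ Z.erase f ↔ W ⊆ Z := by
  constructor
  · intro h x hx
    by_cases hxf : x = f
    · subst hxf
      refine mem_of_flat hr hZ (h.trans (erase_subset x Z)) ((mem_flats.1 hW).1 hx) ?_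
      rw [insert_erase hx, Re_erase hc hr]
    · exact mem_of_mem_erase (h (mem_erase.2 ⟨hxf, hx⟩))
  · exact fun h => erase_subset_erase f h

theorem sub_con (hW : f ∈ W) (hZ : f ∈ Z) : W.erase f ⊆ Z.erase f ↔ W ⊆ Z := by
  constructor
  · intro h x hx
    by_cases hxf : x = f
    · rw [hxf]
      exact hZ
    · exact mem_of_mem_erase (h (mem_erase.2 ⟨hxf, hx⟩))
  · exact fun h => erase_subset_erase f h

theorem r_erase (hc : ¬ Col r f F) (hr : RK r) : r (F.erase f) = r F :=
  Re_erase hc hr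

end ACY
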