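import Pool.Agent.ACY.GEx
import Pool.Agent.ACY.GLo
import Pool.Agent.ACY.Re

/-!
# ACY-GCn: the probability that the flag contains the flat `{e}`

`obs e l = 1` if `{e}` is not in the flag `l`, `= 0` otherwise. With the weights `ws e s` (`1` for `e` and `s` for all other elements) the
expectation of `obs e` is `T (S - e) / T S` up to an error at most `2 n / s`: the probability of `{e}` satisfies the same recursion as
`T (S / e) / T S`, except that the total weight contains the weight of `e`.
-/

set_option autoImplicit false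

namespace ACY

open Finset

variable {α : Type} [DecidableEq α] {r : Finset α → ℕ} {w : α → ℕ} {S : Finset α} {e : α} {n s : ℕ}

/-- the observable -/
def obs (e : α) (l : List (Finset α)) : ℝ := if {e} ∈ l then 0 else 1

/-- the weights for the element `e` -/
def ws (e : α) (s : ℕ) (f : α) : ℕ := if f = e then 1 else s

private theorem GCn_sub : ∀ (n : ℕ) (X : Finset α) (l : List (Finset α)), Flg r n X l → ∀ Y ∈ l, Y ⊆ X := by
  intro n
  induction n with
  | zero =>
    intro X l h Y hY
    have h1 : l = [] := h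
    rw [h1] at hY
    exact absurd hY List.not_mem_nil
  | succ n ih =>
    intro X l h Y hY
    cases l with
    | nil => exact absurd hY List.not_mem_nil
    | cons Z l =>
      obtain ⟨h1, h2⟩ : Z ∈ lev r X 1 ∧ Flg r n Z l := h
      rcases List.mem_cons.1 hY with rfl | hY
      · exact lev_sub h1
      · exact (ih Z l h2 Y hY).trans (lev_sub h1)

private theorem GCn_flat (hr : RK r) : ∀ (n k : ℕ) (X : Finset α) (l : List (Finset α)), X ∈ lev r S k →
    Flg r n X l → ∀ Y ∈ l, Y ∈ flats r S := by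
  intro n
  induction n with
  | zero =>
    intro k X l _ h Y hY
    have h1 : l = [] := h
    rw [h1] at hY
    exact absurd hY List.not_mem_nil
  | succ n ih =>
    intro k X l hX h Y hY
    cases l with
    | nil => exact absurd hY List.not_mem_nil
    | cons Z l =>
      obtain ⟨h1, h2⟩ : Z ∈ lev r X 1 ∧ Flg r n Z l := h
      have h3 := lev_trans hr hX h1
      rcases List.mem_cons.1 hY with rfl | hY
      · exact (mem_lev.1 h3).1
      · exact ih _ Z l h3 h2 Y hY

private theorem GCn_gd (hr : RK r) {X : Finset α} (hl : ∀ x ∈ X, r {x} = 1) (hs1 : 1 ≤ s) : Gd r (ws e s) X where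
  rk := hr
  loop := hl
  pos := fun x _ => by
    unfold ws
    split_ifs
    · exact Nat.one_pos
    · exact hs1

/-- the probability that the flag `X :: l` contains `{e}` -/
private noncomputable def GCn_R (r : Finset α → ℕ) (e : α) (s n : ℕ) (X : Finset α) : ℝ :=
  Ex r (ws e s) n X (fun l => if {e} ∈ X :: l then 1 else 0)

private theorem GCn_step (hr : RK r) {X : Finset α} (hl : ∀ x ∈ X, r {x} = 1) (hs1 : 1 ≤ s)
    (he : e ∈ X) (hn : r X = n + 2) :
    (om (ws e s) X : ℝ) * (T r X * GCn_R r e s (n + 2) X) =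
      ∑ Z ∈ (lev r X 1).filter (fun Z => e ∈ Z), (om (ws e s) (X \ Z) : ℝ) * (T r Z * GCn_R r e s (n + 1) Z) := by
  have hg : Gd r (ws e s) X := GCn_gd hr hl hs1
  have hX : X ≠ {e} := by
    rintro rfl
    have h1 := hl e (mem_singleton_self e)
    omega
  have h1 : GCn_R r e s (n + 2) X = ∑ Z ∈ lev r X 1, PP r (ws e s) X Z *
      Ex r (ws e s) (n + 1) Z (fun l => if {e} ∈ X :: Z :: l then 1 else 0) := rfl
  have h2 : ∀ Z ∈ lev r X 1, (om (ws e s) X : ℝ) * T r X * (PP r (ws e s) X Z *
      Ex r (ws e s) (n + 1) Z (fun l => if {e} ∈ X :: Z :: l then 1 else 0)) =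
      if e ∈ Z then (om (ws e s) (X \ Z) : ℝ) * (T r Z * GCn_R r e s (n + 1) Z) else 0 := by
    intro Z hZ
    have h3 : (om (ws e s) X : ℝ) ≠ 0 := by
      have h4 : 0 < om (ws e s) X := hg.om_pos (Subset.refl X) ⟨e, he⟩
      have h5 : (0 : ℝ) < om (ws e s) X := by exact_mod_cast h4
      exact h5.ne'
    have h3' : T r X ≠ 0 := hg.Tpos.ne'
    by_cases heZ : e ∈ Z
    · rw [if_pos heZ]
      have h4 : Ex r (ws e s) (n + 1) Z (fun l => if {e} ∈ X :: Z :: l then 1 else 0) = GCn_R r e s (n + 1) Z := by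
        unfold GCn_R
        refine Ex_congr fun l _ => ?_
        have h5 : ({e} ∈ X :: Z :: l) ↔ ({e} ∈ Z :: l) := by
          rw [List.mem_cons]
          exact or_iff_right (fun h => hX h.symm)
        simp only [h5]
      rw [h4]
      unfold PP
      field_simp
    · rw [if_neg heZ]
      have h4 : Ex r (ws e s) (n + 1) Z (fun l => if {e} ∈ X :: Z :: l then 1 else 0) =
          Ex r (ws e s) (n + 1) Z (fun l => 0 * (fun _ => (1 : ℝ)) l) := by
        refine Ex_congr fun l hl' => ?_
        have h5 : ¬ ({e} ∈ X :: Z :: l) := by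
          rw [List.mem_cons, List.mem_cons]
          rintro (h | h | h)
          · exact hX h.symm
          · exact heZ (h ▸ mem_singleton_self e)
          · exact heZ (GCn_sub (n + 1) Z l hl' _ h (mem_singleton_self e))
        rw [if_neg h5, zero_mul]
      rw [h4, Ex_smul, zero_mul, mul_zero, mul_zero]
  rw [sum_filter, ← mul_assoc, h1, mul_sum]
  exact sum_congr rfl h2

private theorem GCn_cstep (hr : RK r) {X : Finset α} (hl : ∀ x ∈ X, r {x} = 1) (hs1 : 1 ≤ s)
    (hp : ∀ f ∈ X, f ≠ e → r {e, f} = 2) (he : e ∈ X) :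
    (om (ws e s) (X.erase e) : ℝ) * T (con r {e}) (X.erase e) =
      ∑ Z ∈ (lev r X 1).filter (fun Z => e ∈ Z), (om (ws e s) (X \ Z) : ℝ) * T (con r {e}) (Z.erase e) := by
  have h1 := hl e he
  have hg : Gd (con r {e}) (ws e s) (X.erase e) := by
    refine GCn_gd (hr.con {e}) (fun x hx => ?_) hs1
    obtain ⟨h2, h3⟩ := mem_erase.1 hx
    have h4 := con_add hr {e} {x}
    have h5 := hp x h3 h2
    rw [union_comm, ← insert_eq] at h4
    omega
  have h2 := sum_om hg
  rw [← h2]
  have h3 := sum_con hr he h1 1 (fun _ => True) (fun Z => (om (ws e s) (X.erase e \ Z) : ℝ) * T (con r {e}) Z)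
  rw [filter_true_of_mem (fun _ _ => trivial)] at h3
  rw [h3]
  refine sum_congr (filter_congr fun Z _ => by simp) fun Z hZ => ?_
  have h4 : e ∈ Z := (mem_filter.1 hZ).2
  have h5 : X.erase e \ Z.erase e = X \ Z := by
    ext x
    simp only [mem_sdiff, mem_erase]
    constructor
    · rintro ⟨⟨h6, h7⟩, h8⟩
      exact ⟨h7, fun h9 => h8 ⟨h6, h9⟩⟩
    · rintro ⟨h6, h7⟩
      exact ⟨⟨fun h8 => h7 (h8 ▸ h4), h6⟩, fun h8 => h7 h8.2⟩
  rw [h5]

private theorem GCn_main (hr : RK r) (hs1 : 1 ≤ s) : ∀ (n : ℕ) (X : Finset α), (∀ x ∈ X, r {x} = 1) →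
    (∀ f ∈ X, f ≠ e → r {e, f} = 2) → e ∈ X → r X = n + 1 →
    0 ≤ T r X * GCn_R r e s (n + 1) X ∧
    T r X * GCn_R r e s (n + 1) X ≤ T (con r {e}) (X.erase e) ∧
    T (con r {e}) (X.erase e) ≤ (1 + 1 / (s : ℝ)) ^ n * (T r X * GCn_R r e s (n + 1) X) := by
  intro n
  induction n with
  | zero =>
    intro X hl hp he hn
    have hX : X = {e} := by
      ext f
      rw [mem_singleton]
      constructor
      · intro hf
        by_contra hne
        have h1 := hp f hf hne
        have h2 := hr.mono {e, f} X (insert_subset he (singleton_subset_iff.2 hf))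
        omega
      · rintro rfl
        exact he
    have h1 : T r X = T (con r {e}) (X.erase e) ∧ T r X = T r (X.erase e) := by
      refine T_col hr he ?_
      rw [hX, erase_singleton, hr.empty, hl e he]
      exact Nat.one_pos
    have h2 : GCn_R r e s (0 + 1) X = 1 := by
      unfold GCn_R
      have h3 : Ex r (ws e s) (0 + 1) X (fun l => if {e} ∈ X :: l then (1 : ℝ) else 0) =
          Ex r (ws e s) (0 + 1) X (fun _ => 1) := by
        refine Ex_congr fun l _ => ?_
        rw [if_pos]
        rw [hX]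
        exact List.mem_cons_self
      rw [h3]
      exact Ex_one (GCn_gd hr hl hs1) (by omega)
    rw [h2, mul_one, h1.1, pow_zero, one_mul]
    exact ⟨T_nonneg (hr.con {e}) _, le_rfl, le_rfl⟩
  | succ n ih =>
    intro X hl hp he hn
    have hst := GCn_step hr hl hs1 he hn
    have hct := GCn_cstep hr hl hs1 hp he
    have hZ : ∀ Z ∈ (lev r X 1).filter (fun Z => e ∈ Z),
        0 ≤ T r Z * GCn_R r e s (n + 1) Z ∧
        T r Z * GCn_R r e s (n + 1) Z ≤ T (con r {e}) (Z.erase e) ∧
        T (con r {e}) (Z.erase e) ≤ (1 + 1 / (s : ℝ)) ^ n * (T r Z * GCn_R r e s (n + 1) Z) := by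
      intro Z hZ
      obtain ⟨h1, h2⟩ := mem_filter.1 hZ
      have h3 := lev_sub h1
      have h4 := lev_rank h1
      exact ih Z (fun x hx => hl x (h3 hx)) (fun f hf => hp f (h3 hf)) h2 (by omega)
    set A : ℝ := T r X * GCn_R r e s (n + 1 + 1) X with hA
    set C : ℝ := T (con r {e}) (X.erase e) with hC
    set o : ℝ := (om (ws e s) X : ℝ) with ho
    set o' : ℝ := (om (ws e s) (X.erase e) : ℝ) with ho'
    have hoo : o = 1 + o' := by
      have h1 : om (ws e s) X = 1 + om (ws e s) (X.erase e) := by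
        unfold om
        rw [← add_sum_erase X (ws e s) he]
        congr 1
        unfold ws
        rw [if_pos rfl]
      rw [ho, ho', h1]
      push_cast
      rfl
    have hso : (s : ℝ) ≤ o' := by
      obtain ⟨f, hf, hfe⟩ : ∃ f ∈ X, f ≠ e := by
        by_contra hcon
        push Not at hcon
        have h1 : X = {e} := eq_singleton_iff_unique_mem.2 ⟨he, hcon⟩
        have h2 : r X = 1 := by
          rw [h1]
          exact hl e he
        omega
      have h1 : ws e s f ≤ om (ws e s) (X.erase e) :=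
        single_le_sum (f := ws e s) (fun _ _ => Nat.zero_le _) (mem_erase.2 ⟨hfe, hf⟩)
      have h2 : ws e s f = s := by
        unfold ws
        rw [if_neg hfe]
      rw [h2] at h1
      rw [ho']
      exact_mod_cast h1
    have hs0 : (0 : ℝ) < s := by exact_mod_cast hs1
    have ho0 : 0 < o' := lt_of_lt_of_le hs0 hso
    have hop : 0 < o := by linarith
    have hC0 : 0 ≤ C := T_nonneg (hr.con {e}) _
    have h1 : 0 ≤ o * A := by
      rw [hst]
      exact sum_nonneg fun Z hZ' => mul_nonneg (Nat.cast_nonneg _) (hZ Z hZ').1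
    have h2 : o * A ≤ o' * C := by
      rw [hst, hct]
      exact sum_le_sum fun Z hZ' => mul_le_mul_of_nonneg_left (hZ Z hZ').2.1 (Nat.cast_nonneg _)
    have h3 : o' * C ≤ (1 + 1 / (s : ℝ)) ^ n * (o * A) := by
      rw [hst, hct, mul_sum]
      refine sum_le_sum fun Z hZ' => ?_
      have h4 := mul_le_mul_of_nonneg_left (hZ Z hZ').2.2 (Nat.cast_nonneg (om (ws e s) (X \ Z)) : (0 : ℝ) ≤ _)
      refine h4.trans (le_of_eq ?_)
      ring
    have hA0 : 0 ≤ A := (mul_nonneg_iff_of_pos_left hop).1 h1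
    refine ⟨hA0, ?_, ?_⟩
    · have h4 : o' * A ≤ o' * C := by
        refine le_trans ?_ h2
        rw [hoo]
        nlinarith
      exact le_of_mul_le_mul_left h4 ho0
    · have h5 : o ≤ (1 + 1 / (s : ℝ)) * o' := by
        rw [hoo, add_mul, one_mul, add_comm]
        have h6 : 1 ≤ 1 / (s : ℝ) * o' := by
          rw [one_div, ← div_eq_inv_mul, le_div_iff₀ hs0, one_mul]
          exact hso
        linarith
      have h7 : 0 ≤ (1 + 1 / (s : ℝ)) ^ n := by positivity
      have h8 : o' * C ≤ o' * ((1 + 1 / (s : ℝ)) ^ (n + 1) * A) := by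
        refine h3.trans ?_
        have h9 := mul_le_mul_of_nonneg_left (mul_le_mul_of_nonneg_right h5 hA0) h7
        refine h9.trans (le_of_eq ?_)
        ring
      exact le_of_mul_le_mul_left h8 ho0

theorem count (hr : RK r) (hl : ∀ x ∈ S, r {x} = 1) (hn : r S = n) (he : e ∈ S) (h2 : r (S.erase e) = r S)
    (hs : n ≤ s) (hs1 : 1 ≤ s) :
    T r (S.erase e) / T r S ≤ Ex r (ws e s) n S (obs e) ∧
      Ex r (ws e s) n S (obs e) ≤ T r (S.erase e) / T r S + 2 * n / s := by
  have hg : Gd r (ws e s) S := GCn_gd hr hl hs1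
  have hT : 0 < T r S := hg.Tpos
  have hs0 : (0 : ℝ) < s := by exact_mod_cast hs1
  by_cases hp : ∀ f ∈ S, f ≠ e → r {e, f} = 2
  · have hle : r {e} ≤ r S := hr.mono _ _ (singleton_subset_iff.2 he)
    have h1e := hl e he
    obtain ⟨m, rfl⟩ : ∃ m, n = m + 1 := ⟨n - 1, by omega⟩
    have hS : S ≠ {e} := by
      intro hS
      rw [hS, erase_singleton, hr.empty, h1e] at h2
      exact zero_ne_one h2
    obtain ⟨h3, h4, h5⟩ := GCn_main (s := s) hr hs1 m S hl hp he hn
    set p : ℝ := GCn_R r e s (m + 1) S with hpdef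
    have h6 : Ex r (ws e s) (m + 1) S (obs e) = 1 - p := by
      have h7 : Ex r (ws e s) (m + 1) S (fun l => obs e l + (if {e} ∈ S :: l then (1 : ℝ) else 0)) = 1 := by
        have h8 : Ex r (ws e s) (m + 1) S (fun l => obs e l + (if {e} ∈ S :: l then (1 : ℝ) else 0)) =
            Ex r (ws e s) (m + 1) S (fun _ => 1) := by
          refine Ex_congr fun l _ => ?_
          have h9 : ({e} ∈ S :: l) ↔ ({e} ∈ l) := by
            rw [List.mem_cons]
            exact or_iff_right (fun h => hS h.symm)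
          unfold obs
          simp only [h9]
          split_ifs
          · rw [zero_add]
          · rw [add_zero]
        rw [h8]
        exact Ex_one hg hn
      rw [Ex_add] at h7
      have h8 : Ex r (ws e s) (m + 1) S (fun l => if {e} ∈ S :: l then (1 : ℝ) else 0) = p := rfl
      have h9 : Ex r (ws e s) (m + 1) S (obs e) = Ex r (ws e s) (m + 1) S (fun l => obs e l) := rfl
      rw [h9]
      linarith
    have hob : 0 ≤ Ex r (ws e s) (m + 1) S (obs e) := by
      refine Ex_nonneg hg fun l _ => ?_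
      unfold obs
      split_ifs
      · exact le_rfl
      · exact zero_le_one
    have hp0 : 0 ≤ p := (mul_nonneg_iff_of_pos_left hT).1 h3
    have hp1 : p ≤ 1 := by linarith
    have hdel := T_del hr he h1e h2
    set C : ℝ := T (con r {e}) (S.erase e) with hC
    have hrat : T r (S.erase e) / T r S = 1 - C / T r S := by
      rw [eq_sub_iff_add_eq, ← add_div, ← hdel, div_self hT.ne']
    have hlow : p ≤ C / T r S := by
      rw [le_div_iff₀ hT, mul_comm]
      exact h4
    have hup : C / T r S ≤ (1 + 1 / (s : ℝ)) ^ m * p := by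
      rw [div_le_iff₀ hT]
      refine h5.trans (le_of_eq ?_)
      ring
    have hexp : (1 + 1 / (s : ℝ)) ^ m ≤ 1 + 2 * ((m + 1 : ℕ) : ℝ) / s := by
      have hx0 : 0 ≤ ((m + 1 : ℕ) : ℝ) / s := by positivity
      have hx1 : ((m + 1 : ℕ) : ℝ) / s ≤ 1 := by
        rw [div_le_one hs0]
        exact_mod_cast hs
      have e1 : (1 + 1 / (s : ℝ)) ^ m ≤ (1 + 1 / (s : ℝ)) ^ (m + 1) := by
        refine pow_le_pow_right₀ ?_ (Nat.le_succ m)
        have : 0 ≤ 1 / (s : ℝ) := by positivity
        linarith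
      have e2 : (1 + 1 / (s : ℝ)) ^ (m + 1) ≤ Real.exp (((m + 1 : ℕ) : ℝ) / s) := by
        have e3 : 1 + 1 / (s : ℝ) ≤ Real.exp (1 / s) := by
          rw [add_comm]
          exact Real.add_one_le_exp _
        have e4 := pow_le_pow_left₀ (by positivity) e3 (m + 1)
        rw [← Real.exp_nat_mul] at e4
        refine e4.trans (le_of_eq ?_)
        congr 1
        ring
      have e5 := Real.abs_exp_sub_one_sub_id_le (x := ((m + 1 : ℕ) : ℝ) / s) (by
        rw [abs_of_nonneg hx0]
        exact hx1)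
      have e6 := (abs_le.1 e5).2
      have e7 : (((m + 1 : ℕ) : ℝ) / s) ^ 2 ≤ ((m + 1 : ℕ) : ℝ) / s := by nlinarith
      have e8 : 2 * ((m + 1 : ℕ) : ℝ) / s = ((m + 1 : ℕ) : ℝ) / s + ((m + 1 : ℕ) : ℝ) / s := by ring
      rw [e8]
      linarith
    rw [h6, hrat]
    refine ⟨by linarith, ?_⟩
    have h9 : (1 + 1 / (s : ℝ)) ^ m * p ≤ p + 2 * ((m + 1 : ℕ) : ℝ) / s := by
      have h10 : 0 ≤ 2 * ((m + 1 : ℕ) : ℝ) / s := by positivity
      calc (1 + 1 / (s : ℝ)) ^ m * p ≤ (1 + 2 * ((m + 1 : ℕ) : ℝ) / s) * p := mul_le_mul_of_nonneg_right hexp hp0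
        _ = p + 2 * ((m + 1 : ℕ) : ℝ) / s * p := by ring
        _ ≤ p + 2 * ((m + 1 : ℕ) : ℝ) / s * 1 := by
          have h11 := mul_le_mul_of_nonneg_left hp1 h10
          linarith
        _ = p + 2 * ((m + 1 : ℕ) : ℝ) / s := by rw [mul_one]
    linarith
  · push Not at hp
    obtain ⟨f, hf, hfe, hne⟩ := hp
    have h1e := hl e he
    have h1f := hl f hf
    have h3 : r {e, f} = 1 := by
      have h4 := hr.mono {e} {e, f} (singleton_subset_iff.2 (mem_insert_self e _))
      have h5 := hr.le_card {e, f}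
      have h6 := card_le_two (a := e) (b := f)
      omega
    have h4 : T r S = T r (S.erase e) := T_par hr he hf (Ne.symm hfe) h1e h1f h3
    have h5 : Ex r (ws e s) n S (obs e) = 1 := by
      have h6 : Ex r (ws e s) n S (obs e) = Ex r (ws e s) n S (fun _ => 1) := by
        refine Ex_congr fun l hl' => ?_
        unfold obs
        rw [if_neg]
        intro hmem
        have h7 : S ∈ lev r S 0 := mem_lev.2 ⟨self_flat, by rw [Nat.add_zero]⟩
        have h8 := GCn_flat hr n 0 S l h7 hl' _ hmem
        have h9 : f ∈ ({e} : Finset α) := by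
          refine mem_of_flat hr h8 (Subset.refl _) hf ?_
          rw [pair_comm] at h3
          rw [h1e]
          exact h3
        exact hfe (mem_singleton.1 h9)
      rw [h6]
      exact Ex_one hg hn
    rw [h5, ← h4, div_self hT.ne']
    have h6 : 0 ≤ 2 * (n : ℝ) / s := by positivity
    exact ⟨le_rfl, by linarith⟩

end ACY
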