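import Pool.Agent.ACY.Main

/-!
# ACY-III: inequality (III)

The index theorem is applied to `g = 0` and `v F = a F - m` for `e ∉ F`, `v Z = mZ - m` for `e ∈ Z`, where `mZ` is the average of `a` over the
hyperplanes of `Z` which do not contain `e`.
-/

set_option autoImplicit false

namespace ACY

open Finset

variable {α : Type} [DecidableEq α] {r : Finset α → ℕ} {S A B C D F G W X Z : Finset α} {e f x : α} {k j : ℕ}

private theorem III_lev (hr : RK r) (hZ : Z ∈ lev r S 1) (P : Finset α → Prop) [DecidablePred P] :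
    (lev r Z 1).filter P = (lev r S 2).filter (fun W => P W ∧ W ⊆ Z) := by
  rw [lev_restrict hr hZ (j := 1)]
  ext W
  simp only [mem_filter]
  tauto

theorem main_III (hr : RK r) (hl : ∀ x ∈ S, r {x} = 1) (he : e ∈ S) (a : Finset α → ℝ) (m : ℝ)
    (hm : ∑ Z ∈ (lev r S 1).filter (fun Z => e ∉ Z), T r Z * a Z = T r S * m) :
    ∑ Z ∈ (lev r S 1).filter (fun Z => e ∉ Z), T r Z * (a Z - m) ^ 2 +
      ∑ Z ∈ (lev r S 1).filter (fun Z => e ∈ Z), T r Z *
        ((∑ W ∈ (lev r Z 1).filter (fun W => e ∉ W), T r W * a W) / T r Z - m) ^ 2 ≤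
      ∑ Z ∈ (lev r S 1).filter (fun Z => e ∉ Z), ∑ W ∈ lev r Z 1, T r W * (a W - a Z) ^ 2 := by
  set v : Finset α → ℝ := fun F => if e ∈ F then
    (∑ W ∈ (lev r F 1).filter (fun W => e ∉ W), T r W * a W) / T r F - m else a F - m with hv
  have hv1 : ∀ F, e ∉ F → v F = a F - m := fun F hF => by rw [hv]; simp only; rw [if_neg hF]
  have hv2 : ∀ F, e ∈ F → v F = (∑ W ∈ (lev r F 1).filter (fun W => e ∉ W), T r W * a W) / T r F - m :=
    fun F hF => by rw [hv]; simp only; rw [if_pos hF]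
  have hL : L r S e v (fun _ => 0) = 0 := by
    unfold L
    simp only [mul_zero, sum_const_zero, add_zero]
    have h1 : ∑ Z ∈ (lev r S 1).filter (fun Z => e ∉ Z), T r Z * v Z =
        ∑ Z ∈ (lev r S 1).filter (fun Z => e ∉ Z), (T r Z * a Z - T r Z * m) := by
      refine sum_congr rfl fun Z hZ => ?_
      rw [hv1 Z (mem_filter.1 hZ).2]
      ring
    rw [h1, sum_sub_distrib, hm, ← sum_mul, ← weisner hr he, sub_self]
  have hQ := index hr he v (fun _ => 0) hL
  have hc : Qc r S e v (fun _ => 0) = 0 := by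
    unfold Qc
    refine sum_eq_zero fun F _ => ?_
    ring
  have ha : Qa r S e v = ∑ Z ∈ (lev r S 1).filter (fun Z => e ∉ Z), T r Z * (a Z - m) ^ 2 -
      ∑ Z ∈ (lev r S 1).filter (fun Z => e ∉ Z), ∑ W ∈ lev r Z 1, T r W * (a W - a Z) ^ 2 := by
    unfold Qa
    congr 1
    · refine sum_congr rfl fun Z hZ => ?_
      rw [hv1 Z (mem_filter.1 hZ).2]
    · rw [sum_comm' (t' := (lev r S 1).filter (fun Z => e ∉ Z)) (s' := fun Z => lev r Z 1)]
      · refine sum_congr rfl fun Z hZ => sum_congr rfl fun W hW => ?_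
        have hZ' := mem_filter.1 hZ
        have hWZ : W ⊆ Z := (mem_flats.1 (mem_lev.1 hW).1).1
        rw [hv1 Z hZ'.2, hv1 W (fun h => hZ'.2 (hWZ h)), sub_sub_sub_cancel_right]
      · intro W Z
        constructor
        · rintro ⟨h1, h2⟩
          rw [mem_filter] at h1 h2
          refine ⟨?_, mem_filter.2 ⟨h2.1, h2.2.1⟩⟩
          rw [lev_restrict hr h2.1 (j := 1), mem_filter]
          exact ⟨h1.1, h2.2.2⟩
        · rintro ⟨h1, h2⟩
          rw [mem_filter] at h2
          rw [lev_restrict hr h2.1 (j := 1), mem_filter] at h1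
          rw [mem_filter, mem_filter]
          exact ⟨⟨h1.1, fun h => h2.2 (h1.2 h)⟩, h2.1, h2.2, h1.2⟩
  have hb : Qb r S e v = ∑ Z ∈ (lev r S 1).filter (fun Z => e ∈ Z), T r Z *
        ((∑ W ∈ (lev r Z 1).filter (fun W => e ∉ W), T r W * a W) / T r Z - m) ^ 2 := by
    unfold Qb
    refine sum_congr rfl fun Z hZ => ?_
    have hZ' := mem_filter.1 hZ
    have hT : 0 < T r Z := T_pos hr fun x hx => hl x ((mem_flats.1 (mem_lev.1 hZ'.1).1).1 hx)
    have h1 : ∑ W ∈ (lev r S 2).filter (fun W => e ∉ W ∧ W ⊆ Z), 2 * T r W * v W * v Z =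
        2 * (∑ W ∈ (lev r Z 1).filter (fun W => e ∉ W), T r W * a W - T r Z * m) * v Z := by
      rw [← III_lev hr hZ'.1 (fun W => e ∉ W), weisner hr hZ'.2, sum_mul, ← sum_sub_distrib, mul_sum, sum_mul]
      refine sum_congr rfl fun W hW => ?_
      rw [hv1 W (mem_filter.1 hW).2]
      ring
    rw [h1, hv2 Z hZ'.2]
    field_simp
    ring
  unfold Q at hQ
  rw [hc, ha, hb] at hQ
  linarith

end ACY
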