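import Pool.Agent.ACY.GPp
import Pool.Agent.ACY.III

/-!
# ACY-GCo: the commutation inequality

Inequality (III) is applied to every `e ∈ X` (values `ψ W` on the flats `W` of corank two and the means `MM r w Z ψ` on the flats `Z` of corank one), multiplied
by `w e` and summed over `e ∈ X`; the left side is estimated from below by the Cauchy-Schwarz inequality.
-/

set_option autoImplicit false

namespace ACY

open Finset

variable {α : Type} [DecidableEq α] {r : Finset α → ℕ} {w : α → ℕ} {S A B C D F G W X Y Z : Finset α} {e f g x : α}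
  {k j n : ℕ}

private theorem GCo_om (w : α → ℕ) (X Z : Finset α) :
    (om w (X \ Z) : ℝ) = ∑ e ∈ X, if e ∉ Z then (w e : ℝ) else 0 := by
  unfold om
  rw [Nat.cast_sum, ← sum_filter, ← sdiff_eq_filter]

private theorem GCo_swap (r : Finset α → ℕ) (w : α → ℕ) (X : Finset α) (G : Finset α → ℝ) :
    ∑ e ∈ X, (w e : ℝ) * ∑ Z ∈ (lev r X 1).filter (fun Z => e ∉ Z), G Z =
      ∑ Z ∈ lev r X 1, (om w (X \ Z) : ℝ) * G Z := by
  have h1 : ∀ e ∈ X, (w e : ℝ) * ∑ Z ∈ (lev r X 1).filter (fun Z => e ∉ Z), G Z =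
      ∑ Z ∈ lev r X 1, (if e ∉ Z then (w e : ℝ) else 0) * G Z := by
    intro e _
    rw [sum_filter, mul_sum]
    refine sum_congr rfl fun Z _ => ?_
    by_cases he : e ∉ Z
    · rw [if_pos he, if_pos he]
    · rw [if_neg he, if_neg he, mul_zero, zero_mul]
  rw [sum_congr rfl h1, sum_comm]
  refine sum_congr rfl fun Z _ => ?_
  rw [GCo_om, sum_mul]

private theorem GCo_MM (h : Gd r w X) (p : Finset α → ℝ) :
    (om w X : ℝ) * MM r w X p = (∑ e ∈ X, (w e : ℝ) * ∑ Z ∈ (lev r X 1).filter (fun Z => e ∉ Z), T r Z * p Z) / T r X := by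
  rw [GCo_swap r w X fun Z => T r Z * p Z]
  unfold MM
  rcases X.eq_empty_or_nonempty with hX | hX
  · subst hX
    have h0 : lev r (∅ : Finset α) 1 = ∅ := by
      refine eq_empty_of_forall_notMem fun Z hZ => ?_
      have h1 := lev_rank hZ
      have h2 : r (∅ : Finset α) = 0 := h.rk.empty
      omega
    rw [h0, sum_empty, sum_empty, mul_zero, zero_div]
  · have ho : (0 : ℝ) < (om w X : ℝ) := by exact_mod_cast h.om_pos (Subset.refl X) hX
    have hT := h.Tpos
    rw [mul_sum, sum_div]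
    refine sum_congr rfl fun Z _ => ?_
    unfold PP
    field_simp

theorem commut (h : Gd r w X) (ψ : Finset α → ℝ) :
    VV r w X (fun Z => MM r w Z ψ) ≤ ∑ Z ∈ lev r X 1, PP r w X Z * VV r w Z ψ := by
  rcases X.eq_empty_or_nonempty with hX | hX
  · subst hX
    have h0 : lev r (∅ : Finset α) 1 = ∅ := by
      refine eq_empty_of_forall_notMem fun Z hZ => ?_
      have h1 := lev_rank hZ
      have h2 : r (∅ : Finset α) = 0 := h.rk.empty
      omega
    unfold VV
    rw [h0, sum_empty, sum_empty]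
  have ho : (0 : ℝ) < (om w X : ℝ) := by exact_mod_cast h.om_pos (Subset.refl X) hX
  have hT := h.Tpos
  set φ : Finset α → ℝ := fun Z => MM r w Z ψ with hφ
  set aE : α → ℝ := fun e => (∑ Z ∈ (lev r X 1).filter (fun Z => e ∉ Z), T r Z * φ Z) / T r X with haE
  set AE : α → Finset α → ℝ := fun e Z => if e ∉ Z then φ Z else
    (∑ W ∈ (lev r Z 1).filter (fun W => e ∉ W), T r W * ψ W) / T r Z with hAE
  -- inequality (III) for every element
  have hIII : ∀ e ∈ X, ∑ Z ∈ lev r X 1, T r Z * (AE e Z - aE e) ^ 2 ≤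
      ∑ Z ∈ (lev r X 1).filter (fun Z => e ∉ Z), ∑ W ∈ lev r Z 1, T r W * (ψ W - φ Z) ^ 2 := by
    intro e he
    have hW : ∀ Z ∈ lev r X 1, ∀ W ∈ lev r Z 1, (if W ∈ lev r X 1 then φ W else ψ W) = ψ W := by
      intro Z hZ W hW
      refine if_neg fun hW' => ?_
      have h1 := lev_rank hZ
      have h2 := lev_rank hW
      have h3 := lev_rank hW'
      omega
    have h1 := main_III h.rk h.loop he (fun F => if F ∈ lev r X 1 then φ F else ψ F) (aE e) (by
      rw [haE]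
      simp only
      rw [mul_div_cancel₀ _ hT.ne']
      refine sum_congr rfl fun Z hZ => ?_
      rw [if_pos (mem_filter.1 hZ).1])
    have e1 : ∑ Z ∈ (lev r X 1).filter (fun Z => e ∉ Z),
        T r Z * ((if Z ∈ lev r X 1 then φ Z else ψ Z) - aE e) ^ 2 =
        ∑ Z ∈ (lev r X 1).filter (fun Z => e ∉ Z), T r Z * (AE e Z - aE e) ^ 2 := by
      refine sum_congr rfl fun Z hZ => ?_
      have hZ' := mem_filter.1 hZ
      rw [if_pos hZ'.1]
      have : AE e Z = φ Z := by rw [hAE]; exact if_pos hZ'.2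
      rw [this]
    have e2 : ∑ Z ∈ (lev r X 1).filter (fun Z => e ∈ Z), T r Z *
        ((∑ W ∈ (lev r Z 1).filter (fun W => e ∉ W), T r W * (if W ∈ lev r X 1 then φ W else ψ W)) / T r Z -
          aE e) ^ 2 =
        ∑ Z ∈ (lev r X 1).filter (fun Z => ¬ e ∉ Z), T r Z * (AE e Z - aE e) ^ 2 := by
      have hf : (lev r X 1).filter (fun Z => e ∈ Z) = (lev r X 1).filter (fun Z => ¬ e ∉ Z) := by
        refine filter_congr fun Z _ => not_not.symm
      rw [hf]
      refine sum_congr rfl fun Z hZ => ?_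
      have hZ' := mem_filter.1 hZ
      have : AE e Z = (∑ W ∈ (lev r Z 1).filter (fun W => e ∉ W), T r W * ψ W) / T r Z := by
        rw [hAE]; exact if_neg hZ'.2
      rw [this]
      have e3 : ∑ W ∈ (lev r Z 1).filter (fun W => e ∉ W), T r W * (if W ∈ lev r X 1 then φ W else ψ W) =
          ∑ W ∈ (lev r Z 1).filter (fun W => e ∉ W), T r W * ψ W := by
        refine sum_congr rfl fun W hW' => ?_
        rw [hW Z hZ'.1 W (mem_filter.1 hW').1]
      rw [e3]
    have e4 : ∑ Z ∈ (lev r X 1).filter (fun Z => e ∉ Z), ∑ W ∈ lev r Z 1,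
        T r W * ((if W ∈ lev r X 1 then φ W else ψ W) - (if Z ∈ lev r X 1 then φ Z else ψ Z)) ^ 2 =
        ∑ Z ∈ (lev r X 1).filter (fun Z => e ∉ Z), ∑ W ∈ lev r Z 1, T r W * (ψ W - φ Z) ^ 2 := by
      refine sum_congr rfl fun Z hZ => sum_congr rfl fun W hW' => ?_
      have hZ' := mem_filter.1 hZ
      rw [hW Z hZ'.1 W hW', if_pos hZ'.1]
    rw [e1, e2, e4, sum_filter_add_sum_filter_not] at h1
    exact h1
  -- the sums of the averages
  have key2 : ∑ e ∈ X, (w e : ℝ) * aE e = (om w X : ℝ) * MM r w X φ := by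
    rw [GCo_MM h φ, sum_div]
    refine sum_congr rfl fun e _ => ?_
    rw [haE]
    simp only
    rw [mul_div_assoc]
  have key1 : ∀ Z ∈ lev r X 1, ∑ e ∈ X, (w e : ℝ) * AE e Z = (om w X : ℝ) * φ Z := by
    intro Z hZ
    have hZX : Z ⊆ X := lev_sub hZ
    have hZ' := h.lev hZ
    have h1 : (om w X : ℝ) = (om w (X \ Z) : ℝ) + (om w Z : ℝ) := by
      rw [← om_sdiff (w := w) hZX]
      push_cast
      ring
    have h2 : (om w Z : ℝ) * φ Z = ∑ e ∈ Z, (w e : ℝ) * AE e Z := by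
      rw [hφ]
      simp only
      rw [GCo_MM hZ' ψ, sum_div]
      refine sum_congr rfl fun e he => ?_
      have : AE e Z = (∑ W ∈ (lev r Z 1).filter (fun W => e ∉ W), T r W * ψ W) / T r Z := by
        rw [hAE]; exact if_neg (not_not.2 he)
      rw [this, mul_div_assoc]
    have h3 : (om w (X \ Z) : ℝ) * φ Z = ∑ e ∈ X \ Z, (w e : ℝ) * AE e Z := by
      unfold om
      rw [Nat.cast_sum, sum_mul]
      refine sum_congr rfl fun e he => ?_
      have : AE e Z = φ Z := by rw [hAE]; exact if_pos (mem_sdiff.1 he).2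
      rw [this]
    rw [h1, add_mul, h2, h3, sum_sdiff hZX]
  -- Cauchy-Schwarz for every flat
  have hCS : ∀ Z ∈ lev r X 1, (om w X : ℝ) * (φ Z - MM r w X φ) ^ 2 ≤
      ∑ e ∈ X, (w e : ℝ) * (AE e Z - aE e) ^ 2 := by
    intro Z hZ
    have h1 : ∑ e ∈ X, (w e : ℝ) * (AE e Z - aE e) = (om w X : ℝ) * (φ Z - MM r w X φ) := by
      rw [mul_sub, ← key1 Z hZ, ← key2, ← sum_sub_distrib]
      refine sum_congr rfl fun e _ => ?_
      ring
    have h2 := sum_sq_le_sum_mul_sum_of_sq_le_mul X (r := fun e => (w e : ℝ) * (AE e Z - aE e))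
      (f := fun e => (w e : ℝ)) (g := fun e => (w e : ℝ) * (AE e Z - aE e) ^ 2)
      (fun e _ => Nat.cast_nonneg _) (fun e _ => mul_nonneg (Nat.cast_nonneg _) (sq_nonneg _))
      (fun e _ => le_of_eq (by ring))
    rw [h1] at h2
    have h3 : ∑ e ∈ X, (w e : ℝ) = (om w X : ℝ) := by
      unfold om
      rw [Nat.cast_sum]
    rw [h3] at h2
    have h4 : (om w X : ℝ) * ((om w X : ℝ) * (φ Z - MM r w X φ) ^ 2) ≤
        (om w X : ℝ) * ∑ e ∈ X, (w e : ℝ) * (AE e Z - aE e) ^ 2 := by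
      calc (om w X : ℝ) * ((om w X : ℝ) * (φ Z - MM r w X φ) ^ 2) = ((om w X : ℝ) * (φ Z - MM r w X φ)) ^ 2 := by ring
        _ ≤ _ := h2
    exact le_of_mul_le_mul_left h4 ho
  -- the sum over all elements
  have hsum : (om w X : ℝ) * ∑ Z ∈ lev r X 1, T r Z * (φ Z - MM r w X φ) ^ 2 ≤
      ∑ Z ∈ lev r X 1, (om w (X \ Z) : ℝ) * ∑ W ∈ lev r Z 1, T r W * (ψ W - φ Z) ^ 2 := by
    calc (om w X : ℝ) * ∑ Z ∈ lev r X 1, T r Z * (φ Z - MM r w X φ) ^ 2
        = ∑ Z ∈ lev r X 1, T r Z * ((om w X : ℝ) * (φ Z - MM r w X φ) ^ 2) := by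
          rw [mul_sum]
          refine sum_congr rfl fun Z _ => ?_
          ring
      _ ≤ ∑ Z ∈ lev r X 1, T r Z * ∑ e ∈ X, (w e : ℝ) * (AE e Z - aE e) ^ 2 := by
          refine sum_le_sum fun Z hZ => ?_
          exact mul_le_mul_of_nonneg_left (hCS Z hZ) (h.lev hZ).Tpos.le
      _ = ∑ e ∈ X, (w e : ℝ) * ∑ Z ∈ lev r X 1, T r Z * (AE e Z - aE e) ^ 2 := by
          simp only [mul_sum]
          rw [sum_comm]
          refine sum_congr rfl fun e _ => sum_congr rfl fun Z _ => ?_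
          ring
      _ ≤ ∑ e ∈ X, (w e : ℝ) * ∑ Z ∈ (lev r X 1).filter (fun Z => e ∉ Z), ∑ W ∈ lev r Z 1,
            T r W * (ψ W - φ Z) ^ 2 := by
          refine sum_le_sum fun e he => ?_
          exact mul_le_mul_of_nonneg_left (hIII e he) (Nat.cast_nonneg _)
      _ = _ := GCo_swap r w X _
  have hl : VV r w X φ = ((om w X : ℝ) * ∑ Z ∈ lev r X 1, T r Z * (φ Z - MM r w X φ) ^ 2) /
      ((om w X : ℝ) * T r X) := by
    unfold VV
    rw [mul_div_mul_left _ _ ho.ne', sum_div]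
    refine sum_congr rfl fun Z _ => ?_
    ring
  have hr : ∑ Z ∈ lev r X 1, PP r w X Z * VV r w Z ψ =
      (∑ Z ∈ lev r X 1, (om w (X \ Z) : ℝ) * ∑ W ∈ lev r Z 1, T r W * (ψ W - φ Z) ^ 2) /
        ((om w X : ℝ) * T r X) := by
    rw [sum_div]
    refine sum_congr rfl fun Z hZ => ?_
    have hTZ := (h.lev hZ).Tpos
    have h1 : VV r w Z ψ = (∑ W ∈ lev r Z 1, T r W * (ψ W - φ Z) ^ 2) / T r Z := by
      unfold VV
      rw [sum_div]
      refine sum_congr rfl fun W _ => ?_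
      ring
    rw [h1]
    unfold PP
    field_simp
  rw [hl, hr]
  exact div_le_div_of_nonneg_right hsum (mul_pos ho hT).le

end ACY
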