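import Pool.Agent.ACY.Defs

/-!
# ACY-G (MP_e767af_lc): the flag chain, definitions

`r` rank function, `w : α → ℕ` positive weights of the elements. A complete flag below `X` is the list `[X_1, …, X_n]`, `n = r X`, `X_i ∈ lev r X_{i-1} 1`
(`X_0 = X`); the last entry is the empty set if there are no loops. The law of the flag is the Markov chain with the transition probabilities `PP`.
-/

set_option autoImplicit false

namespace ACY

open Finset

variable {α : Type} [DecidableEq α]

/-- total weight -/
def om (w : α → ℕ) (X : Finset α) : ℕ := ∑ x ∈ X, w x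

/-- the hypotheses on the ground set: a matroid without loops and positive weights -/
structure Gd (r : Finset α → ℕ) (w : α → ℕ) (X : Finset α) : Prop where
  rk : RK r
  loop : ∀ x ∈ X, r {x} = 1
  pos : ∀ x ∈ X, 0 < w x

/-- transition probability from the flat `X` to the flat `Z` of corank one -/
noncomputable def PP (r : Finset α → ℕ) (w : α → ℕ) (X Z : Finset α) : ℝ :=
  (om w (X \ Z) : ℝ) * T r Z / ((om w X : ℝ) * T r X)

/-- expectation of a function of the flag below `X` (lists of length `n`, to be used with `n = r X`) -/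
noncomputable def Ex (r : Finset α → ℕ) (w : α → ℕ) : ℕ → Finset α → (List (Finset α) → ℝ) → ℝ
  | 0, _, f => f []
  | n + 1, X, f => ∑ Z ∈ lev r X 1, PP r w X Z * Ex r w n Z (fun l => f (Z :: l))

/-- the lists `[X_1, …, X_n]` with `X_i ∈ lev r X_{i-1} 1`, `X_0 = X` -/
def Flg (r : Finset α → ℕ) : ℕ → Finset α → List (Finset α) → Prop
  | 0, _, l => l = []
  | _ + 1, _, [] => False
  | n + 1, X, Z :: l => Z ∈ lev r X 1 ∧ Flg r n Z l

/-- the mean of `h` after one step from `X` -/
noncomputable def MM (r : Finset α → ℕ) (w : α → ℕ) (X : Finset α) (h : Finset α → ℝ) : ℝ :=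
  ∑ Z ∈ lev r X 1, PP r w X Z * h Z

/-- the quadratic form `V_X(h)`: every flat of corank one is counted once -/
noncomputable def VV (r : Finset α → ℕ) (w : α → ℕ) (X : Finset α) (h : Finset α → ℝ) : ℝ :=
  ∑ Z ∈ lev r X 1, T r Z / T r X * (h Z - MM r w X h) ^ 2

/-- conductance of the move from `Z` to `Y`, both between `W` and `X`; symmetric in `Z` and `Y` -/
noncomputable def cM (r : Finset α → ℕ) (w : α → ℕ) (X W Z Y : Finset α) : ℝ :=
  T r W / ((om w X : ℝ) * T r X) *
    ((om w (X \ Z) : ℝ) * (om w (Z \ W) : ℝ) * ((om w (X \ Y) : ℝ) * (om w (Y \ W) : ℝ)))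

/-- Dirichlet form of the moves of the first flat -/
noncomputable def E1 (r : Finset α → ℕ) (w : α → ℕ) (n : ℕ) (X : Finset α) (f : List (Finset α) → ℝ) : ℝ :=
  1 / 2 * ∑ W ∈ lev r X 2, ∑ Z ∈ (lev r X 1).filter (fun Z => W ⊆ Z), ∑ Y ∈ (lev r X 1).filter (fun Y => W ⊆ Y),
    cM r w X W Z Y * Ex r w n W (fun l => (f (Z :: W :: l) - f (Y :: W :: l)) ^ 2)

/-- Dirichlet form of all moves -/
noncomputable def Es (r : Finset α → ℕ) (w : α → ℕ) : ℕ → Finset α → (List (Finset α) → ℝ) → ℝ
  | 0, _, _ => 0
  | 1, _, _ => 0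
  | n + 2, X, f => E1 r w n X f + ∑ Z ∈ lev r X 1, PP r w X Z * Es r w (n + 1) Z (fun l => f (Z :: l))

/-- variance -/
noncomputable def Vr (r : Finset α → ℕ) (w : α → ℕ) (n : ℕ) (X : Finset α) (f : List (Finset α) → ℝ) : ℝ :=
  Ex r w n X (fun l => f l ^ 2) - Ex r w n X f ^ 2

/-- the new flat between `W` and `X` proposed by the element `g`, accepted if `v` is small; `Z` is the old flat -/
def mv0 (r : Finset α → ℕ) (w : α → ℕ) (X Z W : Finset α) (g : α) (v : ℕ) : Finset α :=
  if g ∈ X ∧ g ∉ W ∧ v < w g * (om w (X \ cl r X (insert g W)) * om w Z) then cl r X (insert g W) else Z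

/-- the move at the site `i` of the flag below `X`, proposed by the element `g` -/
def mv (r : Finset α → ℕ) (w : α → ℕ) : ℕ → Finset α → List (Finset α) → α → ℕ → List (Finset α)
  | 0, X, Z :: W :: l, g, v => mv0 r w X Z W g v :: W :: l
  | i + 1, _, Z :: l, g, v => Z :: mv r w i Z l g v
  | _, _, l, _, _ => l

/-- the move at the site `i`, proposed by the element number `j` of the list `E` -/
def mvE (r : Finset α → ℕ) (w : α → ℕ) (E : List α) (X : Finset α) (i j v : ℕ) (l : List (Finset α)) :
    List (Finset α) :=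
  match E[j]? with
  | none => l
  | some g => mv r w i X l g v

end ACY
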