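import Pool.Agent.ACY.GPp

/-!
# ACY-GEx: the expectation over flags

Linearity, positivity, normalisation, the inequality of Cauchy and Schwarz, and a lower bound for the weight of one flag. All by
induction on the length of the flags.
-/

set_option autoImplicit false

namespace ACY

open Finset

variable {α : Type} [DecidableEq α] {r : Finset α → ℕ} {w : α → ℕ} {S A C D F G W X Y Z : Finset α} {e g x : α}
  {k j n : ℕ}

theorem Ex_add (n : ℕ) (X : Finset α) (f g : List (Finset α) → ℝ) :
    Ex r w n X (fun l => f l + g l) = Ex r w n X f + Ex r w n X g := by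
  induction n generalizing X f g with
  | zero => rfl
  | succ n ih =>
    unfold Ex
    rw [← sum_add_distrib]
    refine sum_congr rfl fun Z _ => ?_
    rw [← mul_add]
    exact congrArg (PP r w X Z * ·) (ih Z (fun l => f (Z :: l)) (fun l => g (Z :: l)))

theorem Ex_smul (n : ℕ) (X : Finset α) (c : ℝ) (f : List (Finset α) → ℝ) :
    Ex r w n X (fun l => c * f l) = c * Ex r w n X f := by
  induction n generalizing X f with
  | zero => rfl
  | succ n ih =>
    unfold Ex
    rw [mul_sum]
    refine sum_congr rfl fun Z _ => ?_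
    rw [mul_left_comm]
    exact congrArg (PP r w X Z * ·) (ih Z (fun l => f (Z :: l)))

theorem Ex_sum {ι : Type} (s : Finset ι) (n : ℕ) (X : Finset α) (f : ι → List (Finset α) → ℝ) :
    Ex r w n X (fun l => ∑ i ∈ s, f i l) = ∑ i ∈ s, Ex r w n X (f i) := by
  induction n generalizing X f with
  | zero => rfl
  | succ n ih =>
    unfold Ex
    rw [sum_comm]
    refine sum_congr rfl fun Z _ => ?_
    rw [← mul_sum]
    exact congrArg (PP r w X Z * ·) (ih Z (fun i l => f i (Z :: l)))

theorem Ex_congr {f g : List (Finset α) → ℝ} (h : ∀ l, Flg r n X l → f l = g l) :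
    Ex r w n X f = Ex r w n X g := by
  induction n generalizing X f g with
  | zero => exact h [] rfl
  | succ n ih =>
    unfold Ex
    refine sum_congr rfl fun Z hZ => ?_
    exact congrArg (PP r w X Z * ·) (ih fun l hl => h (Z :: l) ⟨hZ, hl⟩)

theorem Ex_nonneg (h : Gd r w X) {f : List (Finset α) → ℝ} (hf : ∀ l, Flg r n X l → 0 ≤ f l) :
    0 ≤ Ex r w n X f := by
  induction n generalizing X f with
  | zero => exact hf [] rfl
  | succ n ih =>
    unfold Ex
    refine sum_nonneg fun Z hZ => mul_nonneg (PP_pos h hZ).le ?_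
    exact ih (h.lev hZ) fun l hl => hf (Z :: l) ⟨hZ, hl⟩

theorem Ex_mono (h : Gd r w X) {f g : List (Finset α) → ℝ} (hf : ∀ l, Flg r n X l → f l ≤ g l) :
    Ex r w n X f ≤ Ex r w n X g := by
  induction n generalizing X f g with
  | zero => exact hf [] rfl
  | succ n ih =>
    unfold Ex
    refine sum_le_sum fun Z hZ => mul_le_mul_of_nonneg_left ?_ (PP_pos h hZ).le
    exact ih (h.lev hZ) fun l hl => hf (Z :: l) ⟨hZ, hl⟩

theorem Ex_one (h : Gd r w X) (hn : r X = n) : Ex r w n X (fun _ => 1) = 1 := by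
  induction n generalizing X with
  | zero => rfl
  | succ n ih =>
    have h2 : Ex r w (n + 1) X (fun _ => 1) = ∑ Z ∈ lev r X 1, PP r w X Z * Ex r w n Z (fun _ => 1) := rfl
    rw [h2]
    refine Eq.trans (sum_congr rfl fun Z hZ => ?_) (PP_sum h (h.nonempty hn))
    have h1 := lev_rank hZ
    rw [ih (h.lev hZ) (by omega), mul_one]

theorem Ex_const (h : Gd r w X) (hn : r X = n) (c : ℝ) : Ex r w n X (fun _ => c) = c := by
  have h1 := Ex_smul (r := r) (w := w) n X c (fun _ => 1)
  rw [Ex_one h hn, mul_one] at h1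
  simpa using h1

theorem Ex_sq (h : Gd r w X) (hn : r X = n) (f : List (Finset α) → ℝ) :
    Ex r w n X f ^ 2 ≤ Ex r w n X (fun l => f l ^ 2) := by
  set c := Ex r w n X f with hc
  have h1 : 0 ≤ Ex r w n X (fun l => (f l - c) ^ 2) := Ex_nonneg h fun l _ => sq_nonneg _
  have h2 : Ex r w n X (fun l => (f l - c) ^ 2) =
      Ex r w n X (fun l => f l ^ 2) + ((-2 * c) * c + c ^ 2) := by
    have h3 : Ex r w n X (fun l => (f l - c) ^ 2) =
        Ex r w n X (fun l => f l ^ 2 + ((-2 * c) * f l + c ^ 2)) :=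
      Ex_congr fun l _ => by ring
    rw [h3, Ex_add n X (fun l => f l ^ 2) (fun l => (-2 * c) * f l + c ^ 2),
      Ex_add n X (fun l => (-2 * c) * f l) (fun _ => c ^ 2), Ex_smul, Ex_const h hn, ← hc]
  rw [h2] at h1
  linarith

theorem T_le (X : Finset α) : T r X ≤ 2 ^ X.card := by
  unfold T
  calc ∑ A ∈ X.powerset.filter (fun A => r A = r X), (-1 : ℝ) ^ (A.card + r X)
      ≤ ∑ _A ∈ X.powerset.filter (fun A => r A = r X), (1 : ℝ) := by
        refine sum_le_sum fun A _ => ?_
        rcases neg_one_pow_eq_or ℝ (A.card + r X) with h | h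
        · exact h.le
        · rw [h]; norm_num
    _ = ((X.powerset.filter (fun A => r A = r X)).card : ℝ) := by simp
    _ ≤ (X.powerset.card : ℝ) := by exact_mod_cast card_filter_le _ _
    _ = 2 ^ X.card := by rw [card_powerset]; push_cast; rfl

private theorem GEx_point {B : ℝ} (n : ℕ) : ∀ {X : Finset α} (_ : Gd r w X) (_ : r X = n) (_ : (om w X : ℝ) ≤ B)
    {f : List (Finset α) → ℝ} (_ : ∀ l, Flg r n X l → 0 ≤ f l) {x0 : List (Finset α)} (_ : Flg r n X x0),
    f x0 / (B ^ n * T r X) ≤ Ex r w n X f := by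
  induction n with
  | zero =>
    intro X h hn _ f _ x0 hx
    have hx' : x0 = [] := hx
    have hX := h.rank_zero hn
    have hT : T r X = 1 := by
      rw [hX]
      unfold T
      rw [powerset_empty, filter_singleton]
      simp [h.rk.empty]
    rw [hx', hT, pow_zero, mul_one, div_one]
    exact le_rfl
  | succ n ih =>
    intro X h hn hB f hf x0 hx
    rcases x0 with _ | ⟨Z, l⟩
    · exact absurd hx id
    have hZ : Z ∈ lev r X 1 := hx.1
    have hl : Flg r n Z l := hx.2
    have h1 := lev_rank hZ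
    have hG := h.lev hZ
    have hoX : 0 < (om w X : ℝ) := by
      exact_mod_cast h.om_pos subset_rfl (h.nonempty hn)
    have hB0 : 0 < B := lt_of_lt_of_le hoX hB
    have hTX := h.Tpos
    have hTZ := hG.Tpos
    have hZB : (om w Z : ℝ) ≤ B := by
      have : (om w Z : ℝ) ≤ om w X := by exact_mod_cast om_mono (lev_sub hZ)
      exact this.trans hB
    have h2 := ih hG (by omega) hZB (f := fun l => f (Z :: l))
      (fun l hl => hf (Z :: l) ⟨hZ, hl⟩) hl
    have h3 : PP r w X Z * Ex r w n Z (fun l => f (Z :: l)) ≤ Ex r w (n + 1) X f := by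
      have h8 : Ex r w (n + 1) X f = ∑ Z ∈ lev r X 1, PP r w X Z * Ex r w n Z (fun l => f (Z :: l)) := rfl
      rw [h8]
      refine single_le_sum (f := fun Z => PP r w X Z * Ex r w n Z (fun l => f (Z :: l))) (fun Y hY => ?_) hZ
      exact mul_nonneg (PP_pos h hY).le
        (Ex_nonneg (h.lev hY) fun l hl => hf (Y :: l) ⟨hY, hl⟩)
    have h4 : T r Z / (B * T r X) ≤ PP r w X Z := by
      have h5 := le_PP h hZ
      have h6 := (PP_pos h hZ).le
      rw [div_le_iff₀ (mul_pos hB0 hTX)]
      rw [div_le_iff₀ hTX] at h5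
      calc T r Z ≤ (om w X : ℝ) * PP r w X Z * T r X := h5
        _ ≤ B * PP r w X Z * T r X := by
          refine mul_le_mul_of_nonneg_right (mul_le_mul_of_nonneg_right hB h6) hTX.le
        _ = PP r w X Z * (B * T r X) := by ring
    have h7 : 0 ≤ f (Z :: l) / (B ^ n * T r Z) := div_nonneg (hf _ hx) (by positivity)
    calc f (Z :: l) / (B ^ (n + 1) * T r X) = T r Z / (B * T r X) * (f (Z :: l) / (B ^ n * T r Z)) := by
          rw [div_mul_div_comm, pow_succ, div_eq_div_iff (by positivity) (by positivity)]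
          ring
      _ ≤ PP r w X Z * (f (Z :: l) / (B ^ n * T r Z)) := mul_le_mul_of_nonneg_right h4 h7
      _ ≤ PP r w X Z * Ex r w n Z (fun l => f (Z :: l)) :=
          mul_le_mul_of_nonneg_left h2 (PP_pos h hZ).le
      _ ≤ _ := h3

theorem Ex_point (h : Gd r w X) (hn : r X = n) {B : ℝ} (hB : (om w X : ℝ) ≤ B) {f : List (Finset α) → ℝ}
    (hf : ∀ l, Flg r n X l → 0 ≤ f l) {x0 : List (Finset α)} (hx : Flg r n X x0) :
    1 / (B ^ n * 2 ^ X.card) * f x0 ≤ Ex r w n X f := by
  have h1 := GEx_point n h hn hB hf hx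
  have hT := h.Tpos
  have hBn : 0 < B ^ n := by
    rcases n with _ | n
    · simp
    · have hoX : 0 < (om w X : ℝ) := by
        exact_mod_cast h.om_pos subset_rfl (h.nonempty hn)
      exact pow_pos (lt_of_lt_of_le hoX hB) _
  refine le_trans ?_ h1
  rw [one_div, ← div_eq_inv_mul]
  exact div_le_div_of_nonneg_left (hf _ hx) (mul_pos hBn hT) (mul_le_mul_of_nonneg_left (T_le X) hBn.le)

end ACY
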