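import Pool.Agent.ACY.GSt

/-!
# ACY-GFl: the estimate of `T(S \ e) / T(S)` by the flag chain

`st_iter` for `f = obs e`, `ψ = obs e` (`{e} ∈ S :: l ↔ {e} ∈ l` as `S ≠ {e}`), `mixing` (`|obs| ≤ 1`, `E = S.toList`), `count`. From `p * d^2 ≤ q^t ≤ p * δ^2` (`p > 0`) get `|d| ≤ δ`.
-/

set_option autoImplicit false

namespace ACY

open Finset

variable {α : Type} [DecidableEq α] {r : Finset α → ℕ} {S : Finset α} {e : α} {n s N0 N1 N2 A : ℕ}

theorem flag_est (hr : RK r) (hl : ∀ x ∈ S, r {x} = 1) (hn : r S = n) (hn1 : 1 ≤ n) (he : e ∈ S)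
    (h2 : r (S.erase e) = r S) (hs : n ≤ s) (hN0 : n ≤ N0) (hN1 : S.card ≤ N1) (hN2 : 2 * A ≤ N2)
    (hA : ∀ g ∈ S, ws e s g * (om (ws e s) S * om (ws e s) S) ≤ A)
    {B : ℝ} (hB : (om (ws e s) S : ℝ) ≤ B) {l : List (Finset α)} (hx : Flg r n S l) (t : ℕ) {δ : ℝ} (hδ : 0 ≤ δ)
    (ht : (1 - 1 / (24 * n * (n + 1) * B ^ 2 * (N0 * (N1 * N2)))) ^ t ≤ 1 / (B ^ n * 2 ^ S.card) * δ ^ 2) :
    |(stq r (ws e s) (1 / (N0 * (N1 * N2))))^[t] (obs e) (S :: l) - T r (S.erase e) / T r S| ≤ δ + 2 * n / s := by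
  have hs1 : 1 ≤ s := hn1.trans hs
  have hG : Gd r (ws e s) S := ⟨hr, hl, fun x _ => by
    unfold ws
    split_ifs
    · exact one_pos
    · exact hs1⟩
  have hom : 0 < om (ws e s) S := by
    unfold om
    exact Finset.sum_pos (fun x hx => hG.pos x hx) ⟨e, he⟩
  have hA1 : 0 < A := lt_of_lt_of_le (Nat.mul_pos (hG.pos e he) (Nat.mul_pos hom hom)) (hA e he)
  have hc : 0 < S.card := Finset.card_pos.2 ⟨e, he⟩
  have hne : ({e} : Finset α) ≠ S := by
    intro h
    rw [← h] at h2 hn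
    rw [Finset.erase_singleton, hr.empty] at h2
    omega
  have hf : ∀ l, Flg r n S l → obs e (S :: l) = obs e l := by
    intro l _
    unfold obs
    have h3 : ({e} ∈ S :: l) ↔ ({e} ∈ l) := by
      rw [List.mem_cons]
      constructor
      · rintro (h | h)
        · exact absurd h hne
        · exact h
      · intro h
        exact Or.inr h
    simp only [h3]
  have hE : S.toList.length = S.card := Finset.length_toList S
  have hit := st_iter (N0 := N0) (N1 := N1) (N2 := N2) hG (Finset.nodup_toList S) (Finset.toList_toFinset S) hN0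
    (by omega) (by omega) (by omega) (by omega : A ≤ N2) (by omega) hA hx (obs e) (obs e) hf t
  have hob : ∀ l, Flg r n S l → |obs e l| ≤ 1 := by
    intro l _
    unfold obs
    split_ifs
    · simp
    · simp
  have hmix := mixing (N0 := N0) (N1 := N1) (N2 := N2) hG hn hn1 (Finset.nodup_toList S) (Finset.toList_toFinset S) hN0
    (by omega) hN2 hA hB hx hob t
  obtain ⟨c1, c2⟩ := count hr hl hn he h2 hs hs1
  rw [hit]
  have hB0 : 0 < B := lt_of_lt_of_le (by exact_mod_cast hom) hB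
  have hp : 0 < 1 / (B ^ n * 2 ^ S.card) := by positivity
  have h4 := le_of_mul_le_mul_left (hmix.trans ht) hp
  have h5 := abs_le.1 (abs_le_of_sq_le_sq h4 hδ)
  rw [abs_le]
  constructor
  · linarith [h5.1]
  · linarith [h5.2]

end ACY
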