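import Pool.Agent.ACY.GSu

/-!
# ACY-GIn: the initial flag

`ini r E S k` is the list `[F_k, …, F_0]`, `F_0 = cl r S ∅`, `F_{i+1} = cl r S (insert g F_i)`, `g` the first element of the list `E` not in `F_i`.
Induction on `k`: the head of `ini r E S k` is a flat of rank `k` and the tail is a flag below it; a flat of full rank is `S`.
-/

set_option autoImplicit false

namespace ACY

open Finset

variable {α : Type} [DecidableEq α] {r : Finset α → ℕ} {w : α → ℕ} {S : Finset α} {n : ℕ}

/-- one more flat -/
def inc (r : Finset α → ℕ) (E : List α) (S : Finset α) (l : List (Finset α)) : List (Finset α) :=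
  match E.find? (fun g => decide (g ∉ l.headD ∅)) with
  | none => l
  | some g => cl r S (insert g (l.headD ∅)) :: l

/-- the initial list of flats -/
def ini (r : Finset α → ℕ) (E : List α) (S : Finset α) (k : ℕ) : List (Finset α) := (inc r E S)^[k] [∅]

private theorem ini_aux (h : Gd r w S) {E : List α} (hE : E.toFinset = S) : ∀ k : ℕ, k ≤ r S →
    ∃ (F : Finset α) (l : List (Finset α)), ini r E S k = F :: l ∧ F ∈ flats r S ∧ r F = k ∧ Flg r k F l := by
  intro k
  induction k with
  | zero =>
    intro _
    refine ⟨∅, [], rfl, ?_, h.rk.empty, rfl⟩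
    refine mem_flats.2 ⟨empty_subset _, fun x hx _ => ?_⟩
    have h1 : insert x (∅ : Finset α) = {x} := rfl
    rw [h1, h.rk.empty, h.loop x hx]
    exact Nat.zero_lt_one
  | succ k ih =>
    intro hk
    obtain ⟨F, l, h1, h2, h3, h4⟩ := ih (by omega)
    have hex : ∃ x ∈ S, x ∉ F := by
      by_contra hc
      push Not at hc
      have h5 := h.rk.mono S F hc
      omega
    obtain ⟨x, hxS, hxF⟩ := hex
    have h5 : ini r E S (k + 1) = inc r E S (F :: l) := by
      unfold ini at h1 ⊢
      rw [Function.iterate_succ_apply', h1]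
    have h6 : (E.find? (fun g => decide (g ∉ F))).isSome = true := by
      rw [List.find?_isSome]
      refine ⟨x, ?_, by simpa using hxF⟩
      rw [← List.mem_toFinset, hE]
      exact hxS
    obtain ⟨g, hg⟩ := Option.isSome_iff_exists.1 h6
    have hgF : g ∉ F := by
      have h7 := List.find?_some hg
      simpa using h7
    have hgS : g ∈ S := by
      rw [← hE, List.mem_toFinset]
      exact List.mem_of_find?_eq_some hg
    have hFS : F ⊆ S := (mem_flats.1 h2).1
    have hins : insert g F ⊆ S := insert_subset hgS hFS
    have hr1 : r (insert g F) = k + 1 := by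
      have h7 := (mem_flats.1 h2).2 g hgS hgF
      have h8 := h.rk.one F g
      omega
    have hG : r (cl r S (insert g F)) = k + 1 := by
      rw [r_cl h.rk hins, hr1]
    have hGf : cl r S (insert g F) ∈ flats r S := cl_flat h.rk hins
    have hFG : F ⊆ cl r S (insert g F) := (subset_insert g F).trans (sub_cl hins)
    refine ⟨cl r S (insert g F), F :: l, ?_, hGf, hG, ?_⟩
    · rw [h5]
      change (match E.find? (fun g => decide (g ∉ F)) with
        | none => F :: l
        | some g => cl r S (insert g F) :: F :: l) = _
      rw [hg]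
    · refine ⟨?_, h4⟩
      refine lev_in (k := r S - (k + 1)) h.rk (mem_lev.2 ⟨hGf, ?_⟩) (mem_lev.2 ⟨h2, ?_⟩) hFG
      · rw [hG]
        omega
      · rw [h3]
        omega

theorem ini_flg (h : Gd r w S) {E : List α} (hE : E.toFinset = S) (hn : r S = n) :
    Flg r n S (ini r E S n).tail := by
  obtain ⟨F, l, h1, h2, h3, h4⟩ := ini_aux h hE n (by omega)
  have h5 : F = S := flat_eq h.rk h2 (Subset.refl _) (mem_flats.1 h2).1 (by omega)
  rw [h1, List.tail_cons]
  rw [h5] at h4
  exact h4

end ACY
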