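import Mathlib

set_option autoImplicit false

/-!
# ACY-GMix: reversible chains, from a Poincare inequality to an estimate for the law at time `t`

`K x y` (`x ≠ y`) is the probability to go from `x` to `y`; row sums at most `1 / 2`, so the chain is
lazy enough to be positive semidefinite. No spectral theorem.
-/

namespace ACY.GMix

open Finset

variable {β : Type*}

/-- the mean of `f` -/
noncomputable def mean (s : Finset β) (π f : β → ℝ) : ℝ := ∑ x ∈ s, π x * f x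

/-- the variance of `f` -/
noncomputable def Var (s : Finset β) (π f : β → ℝ) : ℝ := ∑ x ∈ s, π x * (f x - mean s π f) ^ 2

/-- the transition operator, `K x y` is the probability to go from `x` to `y ≠ x` -/
noncomputable def op (s : Finset β) (K : β → β → ℝ) (f : β → ℝ) (x : β) : ℝ :=
  f x + ∑ y ∈ s, K x y * (f y - f x)

/-- the Dirichlet form -/
noncomputable def Dir (s : Finset β) (π : β → ℝ) (K : β → β → ℝ) (f g : β → ℝ) : ℝ :=
  1 / 2 * ∑ x ∈ s, ∑ y ∈ s, π x * K x y * ((f x - f y) * (g x - g y))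

theorem ip_sub_op {s : Finset β} {π : β → ℝ} {K : β → β → ℝ}
    (hb : ∀ x ∈ s, ∀ y ∈ s, π x * K x y = π y * K y x) (f g : β → ℝ) :
    ∑ x ∈ s, π x * (f x * (g x - op s K g x)) = Dir s π K f g := by
  have h1 : ∑ x ∈ s, π x * (f x * (g x - op s K g x)) =
      ∑ x ∈ s, ∑ y ∈ s, π x * K x y * (f x * (g x - g y)) := by
    refine Finset.sum_congr rfl fun x _ => ?_
    simp only [op]
    have : f x * (g x - (g x + ∑ y ∈ s, K x y * (g y - g x))) =
        ∑ y ∈ s, K x y * (f x * (g x - g y)) := by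
      rw [show f x * (g x - (g x + ∑ y ∈ s, K x y * (g y - g x))) =
        ∑ y ∈ s, K x y * (g y - g x) * (- f x) from by
          rw [← Finset.sum_mul]; ring]
      exact Finset.sum_congr rfl fun y _ => by ring
    rw [this, Finset.mul_sum]
    exact Finset.sum_congr rfl fun y _ => by ring
  have h2 : ∑ x ∈ s, ∑ y ∈ s, π x * K x y * (f x * (g x - g y)) =
      ∑ x ∈ s, ∑ y ∈ s, π x * K x y * (f y * (g y - g x)) := by
    rw [Finset.sum_comm]
    refine Finset.sum_congr rfl fun x hx => Finset.sum_congr rfl fun y hy => ?_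
    rw [hb y hy x hx]
  have h3 : Dir s π K f g = 1 / 2 * (∑ x ∈ s, ∑ y ∈ s, π x * K x y * (f x * (g x - g y)) +
      ∑ x ∈ s, ∑ y ∈ s, π x * K x y * (f y * (g y - g x))) := by
    rw [Dir, ← Finset.sum_add_distrib]
    congr 1
    refine Finset.sum_congr rfl fun x _ => ?_
    rw [← Finset.sum_add_distrib]
    exact Finset.sum_congr rfl fun y _ => by ring
  rw [h1, h3, ← h2]
  ring

theorem Dir_nonneg {s : Finset β} {π : β → ℝ} {K : β → β → ℝ} (hπ : ∀ x ∈ s, 0 ≤ π x)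
    (hK : ∀ x ∈ s, ∀ y ∈ s, 0 ≤ K x y) (f : β → ℝ) : 0 ≤ Dir s π K f f := by
  refine mul_nonneg (by norm_num) (Finset.sum_nonneg fun x hx => Finset.sum_nonneg fun y hy => ?_)
  exact mul_nonneg (mul_nonneg (hπ x hx) (hK x hx y hy)) (mul_self_nonneg _)

theorem Dir_le {s : Finset β} {π : β → ℝ} {K : β → β → ℝ} (hπ : ∀ x ∈ s, 0 ≤ π x)
    (hK : ∀ x ∈ s, ∀ y ∈ s, 0 ≤ K x y) (f g : β → ℝ) :
    Dir s π K g f ≤ 1 / 2 * Dir s π K g g + 1 / 2 * Dir s π K f f := by
  have h : Dir s π K g f ≤ 1 / 2 * ∑ x ∈ s, ∑ y ∈ s, π x * K x y *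
      (1 / 2 * ((g x - g y) * (g x - g y)) + 1 / 2 * ((f x - f y) * (f x - f y))) := by
    refine mul_le_mul_of_nonneg_left ?_ (by norm_num)
    refine Finset.sum_le_sum fun x hx => Finset.sum_le_sum fun y hy => ?_
    refine mul_le_mul_of_nonneg_left ?_ (mul_nonneg (hπ x hx) (hK x hx y hy))
    nlinarith [sq_nonneg ((g x - g y) - (f x - f y))]
  refine h.trans (le_of_eq ?_)
  simp only [Dir]
  simp only [Finset.mul_sum, mul_add, Finset.sum_add_distrib]
  congr 1 <;> refine Finset.sum_congr rfl fun x _ => Finset.sum_congr rfl fun y _ => ?_ <;> ring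

theorem Dir_le_ip {s : Finset β} {π : β → ℝ} {K : β → β → ℝ} (hπ : ∀ x ∈ s, 0 ≤ π x)
    (hK : ∀ x ∈ s, ∀ y ∈ s, 0 ≤ K x y) (hb : ∀ x ∈ s, ∀ y ∈ s, π x * K x y = π y * K y x)
    (hr : ∀ x ∈ s, ∑ y ∈ s, K x y ≤ 1 / 2) (f : β → ℝ) :
    Dir s π K f f ≤ ∑ x ∈ s, π x * f x ^ 2 := by
  have h1 : Dir s π K f f ≤ 1 / 2 * ∑ x ∈ s, ∑ y ∈ s, π x * K x y * (2 * f x ^ 2 + 2 * f y ^ 2) := by
    refine mul_le_mul_of_nonneg_left ?_ (by norm_num)
    refine Finset.sum_le_sum fun x hx => Finset.sum_le_sum fun y hy => ?_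
    refine mul_le_mul_of_nonneg_left ?_ (mul_nonneg (hπ x hx) (hK x hx y hy))
    nlinarith [sq_nonneg (f x + f y)]
  have h2 : ∑ x ∈ s, ∑ y ∈ s, π x * K x y * f y ^ 2 = ∑ x ∈ s, ∑ y ∈ s, π x * K x y * f x ^ 2 := by
    rw [Finset.sum_comm]
    exact Finset.sum_congr rfl fun x hx => Finset.sum_congr rfl fun y hy => by rw [hb y hy x hx]
  have h3 : 1 / 2 * ∑ x ∈ s, ∑ y ∈ s, π x * K x y * (2 * f x ^ 2 + 2 * f y ^ 2) =
      2 * ∑ x ∈ s, ∑ y ∈ s, π x * K x y * f x ^ 2 := by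
    have : ∑ x ∈ s, ∑ y ∈ s, π x * K x y * (2 * f x ^ 2 + 2 * f y ^ 2) =
        2 * ∑ x ∈ s, ∑ y ∈ s, π x * K x y * f x ^ 2 + 2 * ∑ x ∈ s, ∑ y ∈ s, π x * K x y * f y ^ 2 := by
      simp only [Finset.mul_sum, ← Finset.sum_add_distrib]
      exact Finset.sum_congr rfl fun x _ => Finset.sum_congr rfl fun y _ => by ring
    rw [this, h2]
    ring
  rw [h3] at h1
  refine h1.trans ?_
  rw [Finset.mul_sum]
  refine Finset.sum_le_sum fun x hx => ?_
  have h4 : ∑ y ∈ s, π x * K x y * f x ^ 2 = (π x * f x ^ 2) * ∑ y ∈ s, K x y := by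
    rw [Finset.mul_sum]
    exact Finset.sum_congr rfl fun y _ => by ring
  rw [h4]
  have h5 : 0 ≤ π x * f x ^ 2 := mul_nonneg (hπ x hx) (sq_nonneg _)
  nlinarith [mul_le_mul_of_nonneg_left (hr x hx) h5]

/-- one step decreases the square norm by at least the Dirichlet form -/
theorem step {s : Finset β} {π : β → ℝ} {K : β → β → ℝ} (hπ : ∀ x ∈ s, 0 ≤ π x)
    (hK : ∀ x ∈ s, ∀ y ∈ s, 0 ≤ K x y) (hb : ∀ x ∈ s, ∀ y ∈ s, π x * K x y = π y * K y x)
    (hr : ∀ x ∈ s, ∑ y ∈ s, K x y ≤ 1 / 2) (f : β → ℝ) :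
    ∑ x ∈ s, π x * op s K f x ^ 2 ≤ ∑ x ∈ s, π x * f x ^ 2 - Dir s π K f f := by
  set g : β → ℝ := fun x => f x - op s K f x with hg
  have h1 : ∑ x ∈ s, π x * g x ^ 2 = Dir s π K g f := by
    rw [← ip_sub_op hb g f]
    exact Finset.sum_congr rfl fun x _ => by simp only [hg]; ring
  have h2 := Dir_le hπ hK f g
  have h3 := Dir_le_ip hπ hK hb hr g
  have h4 : ∑ x ∈ s, π x * (f x * g x) = Dir s π K f f := ip_sub_op hb f f
  have h5 : ∑ x ∈ s, π x * op s K f x ^ 2 = ∑ x ∈ s, π x * f x ^ 2 -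
      2 * ∑ x ∈ s, π x * (f x * g x) + ∑ x ∈ s, π x * g x ^ 2 := by
    rw [Finset.mul_sum, ← Finset.sum_sub_distrib, ← Finset.sum_add_distrib]
    exact Finset.sum_congr rfl fun x _ => by simp only [hg]; ring
  rw [h5, h4]
  linarith

theorem mean_op {s : Finset β} {π : β → ℝ} {K : β → β → ℝ}
    (hb : ∀ x ∈ s, ∀ y ∈ s, π x * K x y = π y * K y x) (f : β → ℝ) :
    mean s π (op s K f) = mean s π f := by
  have h := ip_sub_op hb (fun _ => (1 : ℝ)) f
  have h1 : Dir s π K (fun _ => (1 : ℝ)) f = 0 := by simp [Dir]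
  rw [h1] at h
  have h2 : ∑ x ∈ s, π x * (1 * (f x - op s K f x)) = mean s π f - mean s π (op s K f) := by
    simp only [mean, ← Finset.sum_sub_distrib]
    exact Finset.sum_congr rfl fun x _ => by ring
  rw [h2] at h
  linarith

theorem op_sub {s : Finset β} {K : β → β → ℝ} (f : β → ℝ) (c : ℝ) (x : β) :
    op s K (fun y => f y - c) x = op s K f x - c := by
  simp only [op, sub_sub_sub_cancel_right]
  ring

theorem Dir_sub {s : Finset β} {π : β → ℝ} {K : β → β → ℝ} (f : β → ℝ) (c : ℝ) :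
    Dir s π K (fun y => f y - c) (fun y => f y - c) = Dir s π K f f := by
  simp only [Dir, sub_sub_sub_cancel_right]

theorem Var_op {s : Finset β} {π : β → ℝ} {K : β → β → ℝ} (hπ : ∀ x ∈ s, 0 ≤ π x)
    (hK : ∀ x ∈ s, ∀ y ∈ s, 0 ≤ K x y) (hb : ∀ x ∈ s, ∀ y ∈ s, π x * K x y = π y * K y x)
    (hr : ∀ x ∈ s, ∑ y ∈ s, K x y ≤ 1 / 2) (f : β → ℝ) :
    Var s π (op s K f) ≤ Var s π f - Dir s π K f f := by
  have h := step hπ hK hb hr (fun y => f y - mean s π f)
  rw [Dir_sub] at h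
  simp only [Var, mean_op hb]
  simpa only [op_sub] using h

/-- **the mixing estimate** -/
theorem mix {s : Finset β} {π : β → ℝ} {K : β → β → ℝ} (hπ : ∀ x ∈ s, 0 ≤ π x)
    (hK : ∀ x ∈ s, ∀ y ∈ s, 0 ≤ K x y) (hb : ∀ x ∈ s, ∀ y ∈ s, π x * K x y = π y * K y x)
    (hr : ∀ x ∈ s, ∑ y ∈ s, K x y ≤ 1 / 2) {C : ℝ} (hC : 1 ≤ C)
    (hP : ∀ f : β → ℝ, Var s π f ≤ C * Dir s π K f f) (t : ℕ) (f : β → ℝ) {x0 : β}
    (hx : x0 ∈ s) :
    π x0 * ((op s K)^[t] f x0 - mean s π f) ^ 2 ≤ (1 - 1 / C) ^ t * Var s π f := by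
  have hC0 : 0 < C := by linarith
  have hq : 0 ≤ 1 - 1 / C := by
    rw [sub_nonneg, div_le_one hC0]
    exact hC
  have h1 : ∀ t : ℕ, mean s π ((op s K)^[t] f) = mean s π f ∧
      Var s π ((op s K)^[t] f) ≤ (1 - 1 / C) ^ t * Var s π f := by
    intro t
    induction t with
    | zero => simp
    | succ t ih =>
      rw [Function.iterate_succ_apply']
      refine ⟨(mean_op hb _).trans ih.1, ?_⟩
      have h2 := Var_op hπ hK hb hr ((op s K)^[t] f)
      have h3 := hP ((op s K)^[t] f)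
      have h4 : Var s π (op s K ((op s K)^[t] f)) ≤ (1 - 1 / C) * Var s π ((op s K)^[t] f) := by
        have h5 : Var s π ((op s K)^[t] f) / C ≤ Dir s π K ((op s K)^[t] f) ((op s K)^[t] f) := by
          rw [div_le_iff₀ hC0]
          linarith
        have h6 : (1 - 1 / C) * Var s π ((op s K)^[t] f) =
            Var s π ((op s K)^[t] f) - Var s π ((op s K)^[t] f) / C := by ring
        rw [h6]
        linarith
      refine h4.trans ?_
      rw [pow_succ', mul_assoc]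
      exact mul_le_mul_of_nonneg_left ih.2 hq
  have h2 : π x0 * ((op s K)^[t] f x0 - mean s π f) ^ 2 ≤ Var s π ((op s K)^[t] f) := by
    simp only [Var]
    rw [(h1 t).1]
    exact Finset.single_le_sum
      (f := fun x => π x * ((op s K)^[t] f x - mean s π f) ^ 2)
      (fun x hx => mul_nonneg (hπ x hx) (sq_nonneg _)) hx
  exact h2.trans (h1 t).2

end ACY.GMix
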