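import Pool.Agent.ACY.GEx

/-!
# ACY-GMv: summing over the proposals at the first site

The sum over the proposals is regrouped by the proposed flat, which is the closure of `W` and the proposing element. The moves
keep flags.
-/

set_option autoImplicit false

namespace ACY

open Finset

variable {α : Type} [DecidableEq α] {r : Finset α → ℕ} {w : α → ℕ} {S A B C D F G W X Y Z : Finset α} {e g x : α}
  {k j n N : ℕ}

private theorem GMv_range {N c : ℕ} (hc : c ≤ N) (a b : ℝ) :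
    ∑ v ∈ Finset.range N, (if v < c then a else b) = (N : ℝ) * b + (c : ℝ) * (a - b) := by
  have h1 : ∀ v ∈ Finset.range N, (if v < c then a else b) = b + (if v < c then a - b else 0) := by
    intro v _
    split_ifs
    · ring
    · ring
  have h2 : (Finset.range N).filter (fun v => v < c) = Finset.range c := by
    ext v
    simp only [Finset.mem_filter, Finset.mem_range]
    omega
  rw [Finset.sum_congr rfl h1, Finset.sum_add_distrib, ← Finset.sum_filter, h2, Finset.sum_const, Finset.sum_const,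
    Finset.card_range, Finset.card_range, nsmul_eq_mul, nsmul_eq_mul]

private theorem GMv_one (hZ : Z ∈ lev r X 1)
    (hN : ∀ g ∈ X, w g * (om w X * om w X) ≤ N) (Φ : Finset α → ℝ) (g : α) :
    ∑ v ∈ Finset.range N, Φ (mv0 r w X Z W g v) = (N : ℝ) * Φ Z +
      (if g ∈ X ∧ g ∉ W then ((w g : ℝ) * ((om w (X \ cl r X (insert g W)) : ℝ) * (om w Z : ℝ))) *
        (Φ (cl r X (insert g W)) - Φ Z) else 0) := by
  by_cases hg : g ∈ X ∧ g ∉ W
  · have h1 : ∀ v ∈ Finset.range N, Φ (mv0 r w X Z W g v) =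
        (if v < w g * (om w (X \ cl r X (insert g W)) * om w Z) then Φ (cl r X (insert g W)) else Φ Z) := by
      intro v _
      unfold mv0
      by_cases hv : v < w g * (om w (X \ cl r X (insert g W)) * om w Z)
      · rw [if_pos ⟨hg.1, hg.2, hv⟩, if_pos hv]
      · rw [if_neg fun h2 => hv h2.2.2, if_neg hv]
    have h2 : w g * (om w (X \ cl r X (insert g W)) * om w Z) ≤ N := by
      refine le_trans (Nat.mul_le_mul_left _ (Nat.mul_le_mul ?_ ?_)) (hN g hg.1)
      · exact om_mono Finset.sdiff_subset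
      · exact om_mono (lev_sub hZ)
    rw [Finset.sum_congr rfl h1, GMv_range h2, if_pos hg]
    push_cast
    ring
  · have h1 : ∀ v ∈ Finset.range N, Φ (mv0 r w X Z W g v) = Φ Z := by
      intro v _
      unfold mv0
      rw [if_neg fun h2 => hg ⟨h2.1, h2.2.1⟩]
    rw [Finset.sum_congr rfl h1, Finset.sum_const, Finset.card_range, nsmul_eq_mul, if_neg hg, add_zero]

theorem mv_sum0 (h : Gd r w X) (hXS : X ⊆ S) (hW : W ∈ lev r X 2) (hZ : Z ∈ lev r X 1) (hWZ : W ⊆ Z)
    (hN : ∀ g ∈ X, w g * (om w X * om w X) ≤ N) (Φ : Finset α → ℝ) :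
    ∑ g ∈ S, ∑ v ∈ Finset.range N, Φ (mv0 r w X Z W g v) =
      (S.card : ℝ) * N * Φ Z + ∑ Y ∈ (lev r X 1).filter (fun Y => W ⊆ Y),
        ((om w (Y \ W) : ℝ) * ((om w (X \ Y) : ℝ) * (om w Z : ℝ))) * (Φ Y - Φ Z) := by
  rw [Finset.sum_congr rfl fun g _ => GMv_one hZ hN Φ g, Finset.sum_add_distrib, Finset.sum_const,
    nsmul_eq_mul, ← mul_assoc, ← Finset.sum_filter]
  congr 1
  have hf : S.filter (fun g => g ∈ X ∧ g ∉ W) = X \ W := by
    ext g
    simp only [Finset.mem_filter, Finset.mem_sdiff]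
    exact ⟨fun hg => hg.2, fun hg => ⟨hXS hg.1, hg⟩⟩
  rw [hf]
  have hmap : ∀ g ∈ X \ W, cl r X (insert g W) ∈ (lev r X 1).filter (fun Y => W ⊆ Y) := by
    intro g hg
    rw [Finset.mem_sdiff] at hg
    obtain ⟨h1, h2, _, _⟩ := up_lev h.rk hW hg.1 hg.2
    exact Finset.mem_filter.2 ⟨h1, h2⟩
  rw [← Finset.sum_fiberwise_of_maps_to hmap]
  refine Finset.sum_congr rfl fun Y hY => ?_
  rw [Finset.mem_filter] at hY
  have hfib : (X \ W).filter (fun g => cl r X (insert g W) = Y) = Y \ W := by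
    ext g
    simp only [Finset.mem_filter, Finset.mem_sdiff]
    constructor
    · rintro ⟨⟨h1, h2⟩, h3⟩
      refine ⟨?_, h2⟩
      rw [← h3]
      exact (up_lev h.rk hW h1 h2).2.2.1
    · rintro ⟨h1, h2⟩
      have h3 : g ∈ X := lev_sub hY.1 h1
      exact ⟨⟨h3, h2⟩, ((up_lev h.rk hW h3 h2).2.2.2 Y hY.1 hY.2 h1).symm⟩
  have h4 : ∀ g ∈ (X \ W).filter (fun g => cl r X (insert g W) = Y),
      ((w g : ℝ) * ((om w (X \ cl r X (insert g W)) : ℝ) * (om w Z : ℝ))) *
        (Φ (cl r X (insert g W)) - Φ Z) =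
      (w g : ℝ) * (((om w (X \ Y) : ℝ) * (om w Z : ℝ)) * (Φ Y - Φ Z)) := by
    intro g hg
    rw [(Finset.mem_filter.1 hg).2, mul_assoc]
  have h5 : (om w (Y \ W) : ℝ) = ∑ g ∈ Y \ W, (w g : ℝ) := by
    unfold om
    push_cast
    rfl
  rw [Finset.sum_congr rfl h4, hfib, ← Finset.sum_mul, h5]
  ring

/-- the move keeps flags -/
theorem mv0_lev (h : Gd r w X) (hW : W ∈ lev r X 2) (hZ : Z ∈ lev r X 1) (hWZ : W ⊆ Z) (g : α) (v : ℕ) :
    mv0 r w X Z W g v ∈ lev r X 1 ∧ W ⊆ mv0 r w X Z W g v := by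
  unfold mv0
  split_ifs with h1
  · obtain ⟨h2, h3, _, _⟩ := up_lev h.rk hW h1.1 h1.2.1
    exact ⟨h2, h3⟩
  · exact ⟨hZ, hWZ⟩

theorem mv_flg (h : Gd r w X) (i : ℕ) {l : List (Finset α)} (hl : Flg r n X l) (g : α) (v : ℕ) :
    Flg r n X (mv r w i X l g v) := by
  induction i generalizing n X l with
  | zero =>
    match n, l, hl with
    | 0, [], hl => exact hl
    | 1, [Z], hl => exact hl
    | n + 2, Z :: W :: l, hl =>
      obtain ⟨hZ, hW, hl⟩ := hl
      have hW2 : W ∈ ACY.lev r X 2 := lev_trans h.rk hZ hW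
      have hWZ : W ⊆ Z := lev_sub hW
      obtain ⟨h1, h2⟩ := mv0_lev h hW2 hZ hWZ g v
      exact ⟨h1, lev_in h.rk h1 hW2 h2, hl⟩
  | succ i ih =>
    match n, l, hl with
    | 0, [], hl => exact hl
    | n + 1, Z :: l, hl =>
      obtain ⟨hZ, hl⟩ := hl
      exact ⟨hZ, ih (h.lev hZ) hl⟩

end ACY
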