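import Pool.Agent.ACY.GFl

/-!
# ACY-GNu: explicit parameters

`flag_est` with `N0 = N1 = 2 ^ b`, `N2 = 2 ^ c`, `A = s * (s * t) * (s * t)`, `B = s * t` (`om S ≤ s * |S|`), `δ = 1 / D`; the constant `C` is at most `768 s^5 t^8`.
-/

set_option autoImplicit false

namespace ACY

open Finset

variable {α : Type} [DecidableEq α] {r : Finset α → ℕ} {S : Finset α} {e : α} {n s t D τ : ℕ}

private theorem GNu_size {m : ℕ} (hm : 1 ≤ m) : 2 ^ Nat.size m ≤ 2 * m := by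
  have h : 0 < Nat.size m := Nat.size_pos.2 hm
  have h1 : 2 ^ (Nat.size m - 1) ≤ m := Nat.lt_size.1 (by omega)
  have h2 : 2 ^ Nat.size m = 2 * 2 ^ (Nat.size m - 1) := by
    rw [← pow_succ']
    congr 1
    omega
  omega

private theorem GNu_ws (hs : 1 ≤ s) (g : α) : ws e s g ≤ s := by
  unfold ws
  split_ifs
  · exact hs
  · exact le_rfl

private theorem GNu_om (hs : 1 ≤ s) (hS : S.card ≤ t) : om (ws e s) S ≤ s * t := by
  unfold om
  calc ∑ x ∈ S, ws e s x ≤ ∑ _x ∈ S, s := Finset.sum_le_sum fun x _ => GNu_ws hs x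
    _ = S.card * s := by rw [Finset.sum_const, smul_eq_mul]
    _ ≤ t * s := Nat.mul_le_mul_right s hS
    _ = s * t := Nat.mul_comm t s

/-- the three exponential estimates -/
private theorem GNu_exp {c : ℕ} (hnt : n ≤ t) (hc : c ≤ t) (hs : 1 ≤ s) (ht : 1 ≤ t) (hD : 1 ≤ D) :
    Real.exp (-(2 * (D : ℝ) + s * t ^ 2 + t)) ≤ 1 / (((s : ℝ) * t) ^ n * 2 ^ c) * (1 / D) ^ 2 := by
  have hD0 : (0 : ℝ) < D := by exact_mod_cast hD
  have hs0 : (0 : ℝ) < s := by exact_mod_cast hs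
  have ht0 : (0 : ℝ) < t := by exact_mod_cast ht
  have h1 : (D : ℝ) ^ 2 ≤ Real.exp (2 * D) := by
    have h : (D : ℝ) ≤ Real.exp D := by linarith [Real.add_one_le_exp (D : ℝ)]
    calc (D : ℝ) ^ 2 ≤ Real.exp D ^ 2 := pow_le_pow_left₀ hD0.le h 2
      _ = Real.exp (2 * D) := by rw [← Real.exp_nat_mul]; norm_num
  have h2 : ((s : ℝ) * t) ^ n ≤ Real.exp (s * t ^ 2) := by
    have h : (s : ℝ) * t ≤ Real.exp (s * t) := by linarith [Real.add_one_le_exp ((s : ℝ) * t)]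
    calc ((s : ℝ) * t) ^ n ≤ Real.exp (s * t) ^ n := pow_le_pow_left₀ (by positivity) h n
      _ = Real.exp (n * (s * t)) := by rw [← Real.exp_nat_mul]
      _ ≤ Real.exp (s * t ^ 2) := by
        apply Real.exp_le_exp.2
        have h3 : (n : ℝ) ≤ t := by exact_mod_cast hnt
        calc (n : ℝ) * (s * t) ≤ t * (s * t) := mul_le_mul_of_nonneg_right h3 (by positivity)
          _ = s * t ^ 2 := by ring
  have h3 : (2 : ℝ) ^ c ≤ Real.exp t := by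
    have h : (2 : ℝ) ≤ Real.exp 1 := by linarith [Real.add_one_le_exp (1 : ℝ)]
    calc (2 : ℝ) ^ c ≤ 2 ^ t := pow_le_pow_right₀ (by norm_num) hc
      _ ≤ Real.exp 1 ^ t := pow_le_pow_left₀ (by norm_num) h t
      _ = Real.exp t := by rw [← Real.exp_nat_mul, mul_one]
  rw [Real.exp_neg, Real.exp_add, Real.exp_add]
  have h4 : 1 / (((s : ℝ) * t) ^ n * 2 ^ c) * (1 / (D : ℝ)) ^ 2 = ((D : ℝ) ^ 2 * ((s : ℝ) * t) ^ n * 2 ^ c)⁻¹ := by
    field_simp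
  rw [h4]
  apply inv_anti₀ (by positivity)
  gcongr

/-- the power estimate -/
private theorem GNu_pow {C R : ℝ} (hC : 1 ≤ C) (h : C * R ≤ τ) : (1 - 1 / C) ^ τ ≤ Real.exp (-R) := by
  have hC0 : 0 < C := by linarith
  have h0 : 0 ≤ 1 - 1 / C := by
    have : 1 / C ≤ 1 := by rw [div_le_one hC0]; exact hC
    linarith
  calc (1 - 1 / C) ^ τ ≤ Real.exp (-(1 / C)) ^ τ := pow_le_pow_left₀ h0 (Real.one_sub_le_exp_neg _) τ
    _ = Real.exp (τ * -(1 / C)) := by rw [← Real.exp_nat_mul]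
    _ ≤ Real.exp (-R) := by
      apply Real.exp_le_exp.2
      have : R ≤ τ / C := by rw [le_div_iff₀ hC0]; linarith
      have h2 : (τ : ℝ) * -(1 / C) = -(τ / C) := by ring
      rw [h2]
      linarith

theorem flag_num (hr : RK r) (hl : ∀ x ∈ S, r {x} = 1) (hn : r S = n) (hn1 : 1 ≤ n) (he : e ∈ S)
    (h2 : r (S.erase e) = r S) (hS : S.card ≤ t) (hs : t ≤ s) (hD : 1 ≤ D)
    (hτ : 768 * s ^ 5 * t ^ 8 * (2 * D + s * t ^ 2 + t) ≤ τ) {l : List (Finset α)} (hx : Flg r n S l) :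
    |(stq r (ws e s) (1 / 2 ^ (Nat.size t + (Nat.size t + Nat.size (2 * (s * (s * t) * (s * t)))))))^[τ] (obs e)
        (S :: l) - T r (S.erase e) / T r S| ≤ 1 / D + 2 * t / s := by
  have hnS : n ≤ S.card := by
    rw [← hn]
    exact hr.le_card S
  have hnt : n ≤ t := hnS.trans hS
  have ht1 : 1 ≤ t := hn1.trans hnt
  have hs1 : 1 ≤ s := ht1.trans hs
  have hom : om (ws e s) S ≤ s * t := GNu_om hs1 hS
  have hA0 : 1 ≤ s * (s * t) * (s * t) := Nat.mul_pos (Nat.mul_pos hs1 (Nat.mul_pos hs1 ht1)) (Nat.mul_pos hs1 ht1)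
  have hA : ∀ g ∈ S, ws e s g * (om (ws e s) S * om (ws e s) S) ≤ s * (s * t) * (s * t) := by
    intro g _
    calc ws e s g * (om (ws e s) S * om (ws e s) S) ≤ s * ((s * t) * (s * t)) :=
          Nat.mul_le_mul (GNu_ws hs1 g) (Nat.mul_le_mul hom hom)
      _ = s * (s * t) * (s * t) := by ring
  have hN0 : 2 ^ Nat.size t ≤ 2 * t := GNu_size ht1
  have hN2 : 2 ^ Nat.size (2 * (s * (s * t) * (s * t))) ≤ 2 * (2 * (s * (s * t) * (s * t))) :=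
    GNu_size (by omega)
  have hB : (om (ws e s) S : ℝ) ≤ (s : ℝ) * t := by exact_mod_cast hom
  have hs0 : (0 : ℝ) < s := by exact_mod_cast hs1
  have ht0 : (0 : ℝ) < t := by exact_mod_cast ht1
  have hn0 : (1 : ℝ) ≤ n := by exact_mod_cast hn1
  have hs1' : (1 : ℝ) ≤ s := by exact_mod_cast hs1
  have ht1' : (1 : ℝ) ≤ t := by exact_mod_cast ht1
  have hnt' : (n : ℝ) ≤ t := by exact_mod_cast hnt
  set b : ℕ := Nat.size t with hb
  set c : ℕ := Nat.size (2 * (s * (s * t) * (s * t))) with hc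
  have hN0' : ((2 : ℝ) ^ b) ≤ 2 * t := by exact_mod_cast hN0
  have hN2' : ((2 : ℝ) ^ c) ≤ 2 * (2 * (s * (s * t) * (s * t))) := by exact_mod_cast hN2
  have hC1 : (1 : ℝ) ≤ 24 * n * (n + 1) * ((s : ℝ) * t) ^ 2 * ((2 ^ b : ℕ) * ((2 ^ b : ℕ) * (2 ^ c : ℕ))) := by
    have e1 : (1 : ℝ) ≤ 2 ^ b := one_le_pow₀ (by norm_num)
    have e2 : (1 : ℝ) ≤ 2 ^ c := one_le_pow₀ (by norm_num)
    push_cast
    have e3 : (1 : ℝ) ≤ 2 ^ b * (2 ^ b * 2 ^ c) := one_le_mul_of_one_le_of_one_le e1 (one_le_mul_of_one_le_of_one_le e1 e2)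
    have e4 : (1 : ℝ) ≤ ((s : ℝ) * t) ^ 2 := one_le_pow₀ (one_le_mul_of_one_le_of_one_le hs1' ht1')
    have e5 : (1 : ℝ) ≤ 24 * n * (n + 1) :=
      one_le_mul_of_one_le_of_one_le (by linarith) (by linarith)
    exact one_le_mul_of_one_le_of_one_le (one_le_mul_of_one_le_of_one_le e5 e4) e3
  have hCle : 24 * (n : ℝ) * (n + 1) * ((s : ℝ) * t) ^ 2 * ((2 ^ b : ℕ) * ((2 ^ b : ℕ) * (2 ^ c : ℕ))) ≤
      768 * (s : ℝ) ^ 5 * t ^ 8 := by
    push_cast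
    have e1 : (n : ℝ) * (n + 1) ≤ t * (2 * t) := mul_le_mul hnt' (by linarith) (by linarith) (by linarith)
    have e2 : (2 : ℝ) ^ b * (2 ^ b * 2 ^ c) ≤ (2 * t) * ((2 * t) * (2 * (2 * (s * (s * t) * (s * t))))) := by
      gcongr
    calc 24 * (n : ℝ) * (n + 1) * ((s : ℝ) * t) ^ 2 * (2 ^ b * (2 ^ b * 2 ^ c))
        = 24 * (n * (n + 1)) * ((s : ℝ) * t) ^ 2 * (2 ^ b * (2 ^ b * 2 ^ c)) := by ring
      _ ≤ 24 * (t * (2 * t)) * ((s : ℝ) * t) ^ 2 * ((2 * t) * ((2 * t) * (2 * (2 * (s * (s * t) * (s * t)))))) := by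
        gcongr
      _ = 768 * (s : ℝ) ^ 5 * t ^ 8 := by ring
  have hτ' : 768 * (s : ℝ) ^ 5 * t ^ 8 * (2 * D + s * t ^ 2 + t) ≤ τ := by exact_mod_cast hτ
  have hR : (24 * (n : ℝ) * (n + 1) * ((s : ℝ) * t) ^ 2 * ((2 ^ b : ℕ) * ((2 ^ b : ℕ) * (2 ^ c : ℕ)))) *
      (2 * D + s * t ^ 2 + t) ≤ τ :=
    le_trans (mul_le_mul_of_nonneg_right hCle (by positivity)) hτ'
  have ht' := (GNu_pow hC1 hR).trans (GNu_exp (c := S.card) hnt hS hs1 ht1 hD)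
  have hlt0 : t < 2 ^ b := Nat.lt_size_self t
  have hlt2 : 2 * (s * (s * t) * (s * t)) < 2 ^ c := Nat.lt_size_self _
  have key := flag_est (N0 := 2 ^ b) (N1 := 2 ^ b) (N2 := 2 ^ c) (A := s * (s * t) * (s * t)) hr hl hn hn1 he h2
    (hnt.trans hs) (hnt.trans hlt0.le) (hS.trans hlt0.le) hlt2.le hA hB hx τ
    (δ := 1 / (D : ℝ)) (by positivity) ht'
  have hkap : (1 / (((2 ^ b : ℕ) : ℝ) * (((2 ^ b : ℕ) : ℝ) * ((2 ^ c : ℕ) : ℝ)))) = 1 / 2 ^ (b + (b + c)) := by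
    push_cast
    rw [pow_add, pow_add]
  rw [hkap] at key
  refine key.trans ?_
  have : 2 * (n : ℝ) / s ≤ 2 * t / s := by gcongr
  linarith

end ACY
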