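import Pool.Agent.ACY.GPp

/-!
# ACY-GPa: elementary properties of `VV`

The quadratic form `VV` is non-negative, compatible with sums up to a factor, and comparable with the variance of one step.
-/

set_option autoImplicit false

namespace ACY

open Finset

variable {α : Type} [DecidableEq α] {r : Finset α → ℕ} {w : α → ℕ} {S A B C D F G W X Y Z : Finset α} {e x : α}
  {k j n : ℕ}

theorem MM_add (X : Finset α) (f g : Finset α → ℝ) :
    MM r w X (fun Z => f Z + g Z) = MM r w X f + MM r w X g := by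
  unfold MM
  rw [← Finset.sum_add_distrib]
  exact Finset.sum_congr rfl fun Z _ => mul_add _ _ _

private theorem GPa_var (h : Gd r w X) (f : Finset α → ℝ) :
    ∑ Z ∈ lev r X 1, PP r w X Z * (f Z - MM r w X f) ^ 2 =
      ∑ Z ∈ lev r X 1, PP r w X Z * f Z ^ 2 - MM r w X f ^ 2 := by
  rcases X.eq_empty_or_nonempty with h0 | h0
  · have h1 : lev r X 1 = ∅ := by
      rw [Finset.eq_empty_iff_forall_notMem]
      intro Z hZ
      obtain ⟨h2, h3⟩ := mem_lev.1 hZ
      rw [h0] at h2 h3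
      rw [Finset.subset_empty.1 (mem_flats.1 h2).1] at h3
      omega
    have h2 : MM r w X f = 0 := by
      unfold MM
      rw [h1, Finset.sum_empty]
    rw [h1, h2]
    simp
  · have h1 := PP_sum h h0
    have h2 : ∀ Z ∈ lev r X 1, PP r w X Z * (f Z - MM r w X f) ^ 2 =
        PP r w X Z * f Z ^ 2 - 2 * MM r w X f * (PP r w X Z * f Z) +
          MM r w X f ^ 2 * PP r w X Z := fun Z _ => by ring
    rw [Finset.sum_congr rfl h2, Finset.sum_add_distrib, Finset.sum_sub_distrib, ← Finset.mul_sum,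
      ← Finset.mul_sum, h1]
    have h3 : ∑ Z ∈ lev r X 1, PP r w X Z * f Z = MM r w X f := rfl
    rw [h3]
    ring

private theorem GPa_T (h : Gd r w X) {Z : Finset α} (hZ : Z ∈ lev r X 1) : 0 ≤ T r Z / T r X :=
  (PP_pos h hZ).le.trans (PP_le h hZ)

theorem MM_sq (h : Gd r w X) (f : Finset α → ℝ) : MM r w X f ^ 2 ≤ MM r w X (fun Z => f Z ^ 2) := by
  have h1 := GPa_var h f
  have h2 : 0 ≤ ∑ Z ∈ lev r X 1, PP r w X Z * (f Z - MM r w X f) ^ 2 :=
    Finset.sum_nonneg fun Z hZ => mul_nonneg (PP_pos h hZ).le (sq_nonneg _)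
  have h3 : MM r w X (fun Z => f Z ^ 2) = ∑ Z ∈ lev r X 1, PP r w X Z * f Z ^ 2 := rfl
  rw [h3]
  linarith

theorem VV_nonneg (h : Gd r w X) (f : Finset α → ℝ) : 0 ≤ VV r w X f :=
  Finset.sum_nonneg fun _ hZ => mul_nonneg (GPa_T h hZ) (sq_nonneg _)

theorem VV_add (h : Gd r w X) (f g : Finset α → ℝ) {ε : ℝ} (hε : 0 < ε) :
    VV r w X (fun Z => f Z + g Z) ≤ (1 + ε) * VV r w X f + (1 + 1 / ε) * VV r w X g := by
  have key : ∀ x y : ℝ, (x + y) ^ 2 ≤ (1 + ε) * x ^ 2 + (1 + 1 / ε) * y ^ 2 := by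
    intro x y
    have h1 : (1 + ε) * x ^ 2 + (1 + 1 / ε) * y ^ 2 - (x + y) ^ 2 = (ε * x - y) ^ 2 / ε := by
      field_simp
      ring
    have h2 : 0 ≤ (ε * x - y) ^ 2 / ε := div_nonneg (sq_nonneg _) hε.le
    linarith
  unfold VV
  rw [MM_add, Finset.mul_sum, Finset.mul_sum, ← Finset.sum_add_distrib]
  refine Finset.sum_le_sum fun Z hZ => ?_
  have h1 := mul_le_mul_of_nonneg_left (key (f Z - MM r w X f) (g Z - MM r w X g)) (GPa_T h hZ)
  have h2 : f Z + g Z - (MM r w X f + MM r w X g) =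
      (f Z - MM r w X f) + (g Z - MM r w X g) := by ring
  rw [h2]
  refine h1.trans (le_of_eq ?_)
  ring

theorem VV_le (h : Gd r w X) (f : Finset α → ℝ) :
    VV r w X f ≤ (om w X : ℝ) * ∑ Z ∈ lev r X 1, PP r w X Z * f Z ^ 2 := by
  have h1 : VV r w X f ≤ (om w X : ℝ) * ∑ Z ∈ lev r X 1, PP r w X Z * (f Z - MM r w X f) ^ 2 := by
    unfold VV
    rw [Finset.mul_sum]
    refine Finset.sum_le_sum fun Z hZ => ?_
    rw [← mul_assoc]
    exact mul_le_mul_of_nonneg_right (le_PP h hZ) (sq_nonneg _)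
  refine h1.trans (mul_le_mul_of_nonneg_left ?_ (Nat.cast_nonneg _))
  rw [GPa_var h f]
  exact sub_le_self _ (sq_nonneg _)

theorem var_le_VV (h : Gd r w X) (f : Finset α → ℝ) :
    ∑ Z ∈ lev r X 1, PP r w X Z * (f Z - MM r w X f) ^ 2 ≤ VV r w X f :=
  Finset.sum_le_sum fun _ hZ => mul_le_mul_of_nonneg_right (PP_le h hZ) (sq_nonneg _)

theorem VV_one (h : Gd r w X) (h1 : r X = 1) (f : Finset α → ℝ) : VV r w X f = 0 := by
  have h0 : X.Nonempty := by
    rw [Finset.nonempty_iff_ne_empty]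
    intro h2
    rw [h2, h.rk.empty] at h1
    omega
  have h2 : ∀ Z ∈ lev r X 1, Z = ∅ := by
    intro Z hZ
    obtain ⟨h3, h4⟩ := mem_lev.1 hZ
    rw [Finset.eq_empty_iff_forall_notMem]
    intro x hx
    have h5 := h.loop x ((mem_flats.1 h3).1 hx)
    have h6 := h.rk.mono {x} Z (Finset.singleton_subset_iff.2 hx)
    omega
  have h3 : MM r w X f = f ∅ := by
    unfold MM
    have h4 : ∀ Z ∈ lev r X 1, PP r w X Z * f Z = PP r w X Z * f ∅ := fun Z hZ => by rw [h2 Z hZ]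
    rw [Finset.sum_congr rfl h4, ← Finset.sum_mul, PP_sum h h0, one_mul]
  unfold VV
  refine Finset.sum_eq_zero fun Z hZ => ?_
  rw [h3, h2 Z hZ, sub_self]
  ring

theorem VV_congr {f g : Finset α → ℝ} (h : ∀ Z ∈ lev r X 1, f Z = g Z) : VV r w X f = VV r w X g := by
  have h1 : MM r w X f = MM r w X g := Finset.sum_congr rfl fun Z hZ => by rw [h Z hZ]
  unfold VV
  rw [h1]
  exact Finset.sum_congr rfl fun Z hZ => by rw [h Z hZ]

end ACY
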