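import Pool.Agent.ACY.GEx
import Pool.Agent.ACY.GPa

/-!
# ACY-GPb: the local variance is controlled by the moves of the first flat

`ps r w X φ W` is the mean of `φ Z W` over the flats `Z` between `W` and `X`. The variance over the flats between `W` and `X` is a
double sum of squares of differences; the product of two weights is at most the conductance `cM`, up to the total weight and the
factor `om w X` (`GPb_cond`).
-/

set_option autoImplicit false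

namespace ACY

open Finset

variable {α : Type} [DecidableEq α] {r : Finset α → ℕ} {w : α → ℕ} {S A B C D F G W X Y Z : Finset α} {e x : α}
  {k j n : ℕ}

/-- the mean of `φ Z W` over the flats between `W` and `X` -/
noncomputable def ps (r : Finset α → ℕ) (w : α → ℕ) (X : Finset α) (φ : Finset α → Finset α → ℝ) (W : Finset α) : ℝ :=
  (∑ Z ∈ (lev r X 1).filter (fun Z => W ⊆ Z), PP r w X Z * PP r w Z W * φ Z W) /
    ∑ Z ∈ (lev r X 1).filter (fun Z => W ⊆ Z), PP r w X Z * PP r w Z W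

private theorem GPb_expand {ι : Type} (s : Finset ι) (a φ : ι → ℝ) :
    ∑ Z ∈ s, ∑ Y ∈ s, a Z * a Y * (φ Z - φ Y) ^ 2 =
      2 * ((∑ Z ∈ s, a Z) * ∑ Z ∈ s, a Z * φ Z ^ 2) - 2 * (∑ Z ∈ s, a Z * φ Z) ^ 2 := by
  have h1 : ∀ Z ∈ s, ∑ Y ∈ s, a Z * a Y * (φ Z - φ Y) ^ 2 =
      a Z * φ Z ^ 2 * (∑ Y ∈ s, a Y) - 2 * (a Z * φ Z) * (∑ Y ∈ s, a Y * φ Y) + a Z * ∑ Y ∈ s, a Y * φ Y ^ 2 := by
    intro Z _
    rw [Finset.mul_sum, Finset.mul_sum, Finset.mul_sum, ← Finset.sum_sub_distrib, ← Finset.sum_add_distrib]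
    refine Finset.sum_congr rfl fun Y _ => ?_
    ring
  rw [Finset.sum_congr rfl h1, Finset.sum_add_distrib, Finset.sum_sub_distrib, ← Finset.sum_mul, ← Finset.sum_mul,
    ← Finset.sum_mul, ← Finset.mul_sum]
  ring

private theorem GPb_key {ι : Type} (s : Finset ι) (a φ : ι → ℝ) (c : ι → ι → ℝ) (B : ℝ) (ha : ∀ Z ∈ s, 0 < a Z)
    (hc : ∀ Z ∈ s, ∀ Y ∈ s, a Z * a Y ≤ (∑ Z ∈ s, a Z) * (B * c Z Y)) :
    ∑ Z ∈ s, a Z * (φ Z - (∑ Z ∈ s, a Z * φ Z) / ∑ Z ∈ s, a Z) ^ 2 ≤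
      B * (1 / 2 * ∑ Z ∈ s, ∑ Y ∈ s, c Z Y * (φ Z - φ Y) ^ 2) := by
  rcases s.eq_empty_or_nonempty with h0 | h0
  · subst h0
    simp
  have hJ : 0 < ∑ Z ∈ s, a Z := Finset.sum_pos ha h0
  have h1 : (∑ Z ∈ s, a Z) * ∑ Z ∈ s, a Z * (φ Z - (∑ Z ∈ s, a Z * φ Z) / ∑ Z ∈ s, a Z) ^ 2 =
      1 / 2 * ∑ Z ∈ s, ∑ Y ∈ s, a Z * a Y * (φ Z - φ Y) ^ 2 := by
    rw [GPb_expand]
    have h2 : ∀ m : ℝ, ∑ Z ∈ s, a Z * (φ Z - m) ^ 2 =
        (∑ Z ∈ s, a Z * φ Z ^ 2) - 2 * m * (∑ Z ∈ s, a Z * φ Z) + m ^ 2 * ∑ Z ∈ s, a Z := by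
      intro m
      rw [Finset.mul_sum, Finset.mul_sum, ← Finset.sum_sub_distrib, ← Finset.sum_add_distrib]
      refine Finset.sum_congr rfl fun Z _ => ?_
      ring
    rw [h2]
    field_simp
    ring
  have h3 : ∑ Z ∈ s, ∑ Y ∈ s, a Z * a Y * (φ Z - φ Y) ^ 2 ≤
      (∑ Z ∈ s, a Z) * (B * ∑ Z ∈ s, ∑ Y ∈ s, c Z Y * (φ Z - φ Y) ^ 2) := by
    rw [Finset.mul_sum, Finset.mul_sum]
    refine Finset.sum_le_sum fun Z hZ => ?_
    rw [Finset.mul_sum, Finset.mul_sum]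
    refine Finset.sum_le_sum fun Y hY => ?_
    calc a Z * a Y * (φ Z - φ Y) ^ 2 ≤ (∑ Z ∈ s, a Z) * (B * c Z Y) * (φ Z - φ Y) ^ 2 :=
          mul_le_mul_of_nonneg_right (hc Z hZ Y hY) (sq_nonneg _)
      _ = (∑ Z ∈ s, a Z) * (B * (c Z Y * (φ Z - φ Y) ^ 2)) := by ring
  refine le_of_mul_le_mul_left ?_ hJ
  rw [h1]
  linarith

private theorem GPb_cM (h : Gd r w X) (hW : W ∈ lev r X 2) (Z Y : Finset α) : 0 ≤ cM r w X W Z Y := by
  have h1 := (h.lev hW).Tpos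
  have h2 := h.Tpos
  unfold cM
  positivity

private theorem GPb_cond (h : Gd r w X) (hW : W ∈ lev r X 2)
    (hZ : Z ∈ (lev r X 1).filter (fun Z => W ⊆ Z)) (hY : Y ∈ (lev r X 1).filter (fun Z => W ⊆ Z)) :
    PP r w X Z * PP r w Z W * (PP r w X Y * PP r w Y W) ≤
      (∑ Z ∈ (lev r X 1).filter (fun Z => W ⊆ Z), PP r w X Z * PP r w Z W) * ((om w X : ℝ) * cM r w X W Z Y) := by
  have hin : ∀ Z ∈ (lev r X 1).filter (fun Z => W ⊆ Z), Z ∈ lev r X 1 ∧ W ∈ lev r Z 1 := by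
    intro Z hZ
    rw [Finset.mem_filter] at hZ
    exact ⟨hZ.1, lev_in h.rk hZ.1 hW hZ.2⟩
  have hp : ∀ Z ∈ (lev r X 1).filter (fun Z => W ⊆ Z), 0 < PP r w X Z * PP r w Z W := fun Z hZ =>
    mul_pos (PP_pos h (hin Z hZ).1) (PP_pos (h.lev (hin Z hZ).1) (hin Z hZ).2)
  have hom : ∀ Z ∈ (lev r X 1).filter (fun Z => W ⊆ Z), (1 : ℝ) ≤ (om w Z : ℝ) := by
    intro Z hZ
    have h1 : (Z \ W).Nonempty := sdiff_nonempty (k := 0) (hin Z hZ).2
    have h2 : 0 < om w Z := h.om_pos (lev_sub (hin Z hZ).1) (h1.mono Finset.sdiff_subset)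
    exact_mod_cast h2
  have hX1 : (1 : ℝ) ≤ (om w X : ℝ) := by
    have h1 : (X \ Z).Nonempty := sdiff_nonempty (k := 0) (hin Z hZ).1
    have h2 : 0 < om w X := h.om_pos (Finset.Subset.refl X) (h1.mono Finset.sdiff_subset)
    exact_mod_cast h2
  have hs1 : (1 : ℝ) ≤ (om w (X \ Z) : ℝ) := by
    have h2 : 0 < om w (X \ Z) := h.om_pos Finset.sdiff_subset (sdiff_nonempty (k := 0) (hin Z hZ).1)
    exact_mod_cast h2
  have hs2 : (1 : ℝ) ≤ (om w (Z \ W) : ℝ) := by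
    have h2 : 0 < om w (Z \ W) := h.om_pos (Finset.sdiff_subset.trans (lev_sub (hin Z hZ).1))
      (sdiff_nonempty (k := 0) (hin Z hZ).2)
    exact_mod_cast h2
  have eZ := PP_two h (hin Z hZ).1 (hin Z hZ).2
  have eY := PP_two h (hin Y hY).1 (hin Y hY).2
  have hTW := (h.lev hW).Tpos
  have hTX := h.Tpos
  have hK : 0 < T r W / ((om w X : ℝ) * T r X) := by
    have : 0 < (om w X : ℝ) := lt_of_lt_of_le one_pos hX1
    positivity
  have hJ : PP r w X Z * PP r w Z W ≤ ∑ Z ∈ (lev r X 1).filter (fun Z => W ⊆ Z), PP r w X Z * PP r w Z W :=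
    Finset.single_le_sum (f := fun Z => PP r w X Z * PP r w Z W) (fun Z hZ => (hp Z hZ).le) hZ
  have hc := GPb_cM h hW Z Y
  have hcM : cM r w X W Z Y = T r W / ((om w X : ℝ) * T r X) *
      ((om w (X \ Z) : ℝ) * (om w (Z \ W) : ℝ) * ((om w (X \ Y) : ℝ) * (om w (Y \ W) : ℝ))) := rfl
  have hpZ := hp Z hZ
  have hpY := hp Y hY
  have h1Z := hom Z hZ
  have h1Y := hom Y hY
  generalize (∑ Z ∈ (lev r X 1).filter (fun Z => W ⊆ Z), PP r w X Z * PP r w Z W) = J at hJ ⊢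
  generalize PP r w X Z * PP r w Z W = a at *
  generalize PP r w X Y * PP r w Y W = b at *
  generalize T r W / ((om w X : ℝ) * T r X) = K at *
  generalize cM r w X W Z Y = cc at *
  generalize (om w (X \ Z) : ℝ) = p at *
  generalize (om w (Z \ W) : ℝ) = q at *
  generalize (om w (X \ Y) : ℝ) * (om w (Y \ W) : ℝ) = u at *
  generalize (om w Z : ℝ) = z at *
  generalize (om w Y : ℝ) = y at *
  generalize (om w X : ℝ) = x at *
  -- `a * z = K * (p * q)`, `b * y = K * u`, `cc = K * (p * q * u)`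
  have h1 : K ≤ a * z := by
    rw [eZ]
    have : 1 ≤ p * q := by nlinarith
    nlinarith
  have h2 : K ≤ J * z := h1.trans (mul_le_mul_of_nonneg_right hJ (by linarith))
  have hJ0 : 0 < J := lt_of_lt_of_le hpZ hJ
  have h3 : K ≤ J * z * (x * y) := by
    have h4 : 1 ≤ x * y := by nlinarith
    have h5 : 0 < J * z := by positivity
    nlinarith
  have h4 : a * b * (z * y) = K * cc := by
    rw [hcM]
    linear_combination (b * y) * eZ + (K * (p * q)) * eY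
  have h5 : K * cc ≤ J * z * (x * y) * cc := mul_le_mul_of_nonneg_right h3 hc
  have hzy : 0 < z * y := by
    have : 0 < z := lt_of_lt_of_le one_pos h1Z
    have : 0 < y := lt_of_lt_of_le one_pos h1Y
    positivity
  refine le_of_mul_le_mul_right ?_ hzy
  rw [h4]
  refine h5.trans (le_of_eq ?_)
  ring

theorem loc (h : Gd r w X) (φ : Finset α → Finset α → ℝ) :
    ∑ Z ∈ lev r X 1, PP r w X Z * ∑ W ∈ lev r Z 1, PP r w Z W * (φ Z W - ps r w X φ W) ^ 2 ≤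
      (om w X : ℝ) * (1 / 2 * ∑ W ∈ lev r X 2, ∑ Z ∈ (lev r X 1).filter (fun Z => W ⊆ Z),
        ∑ Y ∈ (lev r X 1).filter (fun Y => W ⊆ Y), cM r w X W Z Y * (φ Z W - φ Y W) ^ 2) := by
  have h1 : ∑ Z ∈ lev r X 1, PP r w X Z * ∑ W ∈ lev r Z 1, PP r w Z W * (φ Z W - ps r w X φ W) ^ 2 =
      ∑ W ∈ lev r X 2, ∑ Z ∈ (lev r X 1).filter (fun Z => W ⊆ Z),
        PP r w X Z * PP r w Z W * (φ Z W - ps r w X φ W) ^ 2 := by
    rw [← sum_lev2 h.rk X (fun Z W => PP r w X Z * PP r w Z W * (φ Z W - ps r w X φ W) ^ 2)]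
    refine Finset.sum_congr rfl fun Z _ => ?_
    rw [Finset.mul_sum]
    refine Finset.sum_congr rfl fun W _ => ?_
    ring
  rw [h1, Finset.mul_sum, Finset.mul_sum]
  refine Finset.sum_le_sum fun W hW => ?_
  have h2 := GPb_key ((lev r X 1).filter (fun Z => W ⊆ Z)) (fun Z => PP r w X Z * PP r w Z W) (fun Z => φ Z W)
    (fun Z Y => cM r w X W Z Y) (om w X : ℝ) (fun Z hZ => ?_) (fun Z hZ Y hY => GPb_cond h hW hZ hY)
  · exact h2
  · rw [Finset.mem_filter] at hZ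
    exact mul_pos (PP_pos h hZ.1) (PP_pos (h.lev hZ.1) (lev_in h.rk hZ.1 hW hZ.2))

private theorem GPb_sub (n : ℕ) (W : Finset α) (f g : List (Finset α) → ℝ) :
    Ex r w n W (fun l => f l - g l) = Ex r w n W f - Ex r w n W g := by
  have h1 : (fun l => f l - g l) = fun l => f l + (-1) * g l := by
    funext l
    ring
  rw [h1, Ex_add, Ex_smul]
  ring

theorem locE (h : Gd r w X) (hn : r X = n + 2) (f : List (Finset α) → ℝ) :
    ∑ Z ∈ lev r X 1, PP r w X Z * ∑ W ∈ lev r Z 1, PP r w Z W *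
        (Ex r w n W (fun l => f (Z :: W :: l)) - ps r w X (fun Z W => Ex r w n W (fun l => f (Z :: W :: l))) W) ^ 2 ≤
      (om w X : ℝ) * E1 r w n X f := by
  refine (loc h (fun Z W => Ex r w n W (fun l => f (Z :: W :: l)))).trans ?_
  refine mul_le_mul_of_nonneg_left ?_ (Nat.cast_nonneg _)
  unfold E1
  refine mul_le_mul_of_nonneg_left ?_ (by norm_num)
  refine Finset.sum_le_sum fun W hW => Finset.sum_le_sum fun Z _ => Finset.sum_le_sum fun Y _ => ?_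
  refine mul_le_mul_of_nonneg_left ?_ (GPb_cM h hW Z Y)
  have hrW : r W = n := by
    have := lev_rank hW
    omega
  rw [← GPb_sub]
  exact Ex_sq (h.lev hW) hrW _

theorem E1_nonneg (h : Gd r w X) (n : ℕ) (f : List (Finset α) → ℝ) : 0 ≤ E1 r w n X f := by
  unfold E1
  refine mul_nonneg (by norm_num) ?_
  refine Finset.sum_nonneg fun W hW => Finset.sum_nonneg fun Z _ => Finset.sum_nonneg fun Y _ => ?_
  exact mul_nonneg (GPb_cM h hW Z Y) (Ex_nonneg (h.lev hW) fun l _ => sq_nonneg _)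

end ACY
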