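import Pool.Agent.ACY.GPb
import Pool.Agent.ACY.GCo

/-!
# ACY-GPc: one step of the variance recursion

With `F Z W = Ex n W (f (Z :: W :: ·))`, `ψ = ps r w X F` and `δ Z = MM Z (F Z · - ψ)` the function `g Z = Ex (n+1) Z (f (Z :: ·)) = MM Z (F Z ·)` is `MM Z ψ + δ Z`. The part `δ` is controlled by `locE`
(`VV_le`, `MM_sq`), the part `MM Z ψ` by the commutation inequality `commut`, and `VV Z ψ` is compared with `VV Z (F Z ·)` by `VV_add` and again `locE`.
-/

set_option autoImplicit false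

namespace ACY

open Finset

variable {α : Type} [DecidableEq α] {r : Finset α → ℕ} {w : α → ℕ} {S A C D F G W X Y Z : Finset α} {e x : α}
  {k j n : ℕ}

theorem vstep (h : Gd r w X) (hn : r X = n + 2) (f : List (Finset α) → ℝ) {ε B : ℝ} (hε : 0 < ε)
    (hB : (om w X : ℝ) ≤ B) :
    VV r w X (fun Z => Ex r w (n + 1) Z (fun l => f (Z :: l))) ≤
      (1 + ε) ^ 2 * ∑ Z ∈ lev r X 1, PP r w X Z *
        VV r w Z (fun W => Ex r w n W (fun l => f (Z :: W :: l))) +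
      (1 + 1 / ε) * (2 + ε) * B ^ 2 * E1 r w n X f := by
  set φ : Finset α → Finset α → ℝ := fun Z W => Ex r w n W (fun l => f (Z :: W :: l)) with hφ
  set ψ : Finset α → ℝ := ps r w X φ with hψ
  have hom : (0 : ℝ) ≤ (om w X : ℝ) := Nat.cast_nonneg _
  have hB0 : 0 ≤ B := hom.trans hB
  have hE : 0 ≤ E1 r w n X f := E1_nonneg h n f
  have hloc : ∑ Z ∈ lev r X 1, PP r w X Z * ∑ W ∈ lev r Z 1, PP r w Z W * (φ Z W - ψ W) ^ 2 ≤
      (om w X : ℝ) * E1 r w n X f := locE h hn f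
  have hεi : 0 < 1 + 1 / ε := by positivity
  have hg : (fun Z => Ex r w (n + 1) Z (fun l => f (Z :: l))) =
      fun Z => MM r w Z ψ + MM r w Z (fun W => φ Z W - ψ W) := by
    funext Z
    rw [← MM_add]
    have h1 : (fun W => ψ W + (φ Z W - ψ W)) = φ Z := by
      funext W
      ring
    rw [h1]
    rfl
  have h1 : VV r w X (fun Z => MM r w Z (fun W => φ Z W - ψ W)) ≤ B ^ 2 * E1 r w n X f := by
    refine (VV_le h _).trans ?_
    have h2 : ∑ Z ∈ lev r X 1, PP r w X Z * MM r w Z (fun W => φ Z W - ψ W) ^ 2 ≤ (om w X : ℝ) * E1 r w n X f := by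
      refine le_trans (Finset.sum_le_sum fun Z hZ => ?_) hloc
      exact mul_le_mul_of_nonneg_left (MM_sq (h.lev hZ) _) (PP_pos h hZ).le
    calc (om w X : ℝ) * ∑ Z ∈ lev r X 1, PP r w X Z * MM r w Z (fun W => φ Z W - ψ W) ^ 2
        ≤ B * (B * E1 r w n X f) :=
          mul_le_mul hB (h2.trans (mul_le_mul_of_nonneg_right hB hE))
            (Finset.sum_nonneg fun Z hZ => mul_nonneg (PP_pos h hZ).le (sq_nonneg _)) hB0
      _ = B ^ 2 * E1 r w n X f := by ring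
  have h2 : VV r w X (fun Z => MM r w Z ψ) ≤ (1 + ε) * (∑ Z ∈ lev r X 1, PP r w X Z * VV r w Z (φ Z)) +
      (1 + 1 / ε) * (B ^ 2 * E1 r w n X f) := by
    refine (commut h ψ).trans ?_
    have h3 : ∀ Z ∈ lev r X 1, PP r w X Z * VV r w Z ψ ≤ (1 + ε) * (PP r w X Z * VV r w Z (φ Z)) +
        (1 + 1 / ε) * (B * (PP r w X Z * ∑ W ∈ lev r Z 1, PP r w Z W * (φ Z W - ψ W) ^ 2)) := by
      intro Z hZ
      have hZg := h.lev hZ
      have h4 : VV r w Z ψ ≤ (1 + ε) * VV r w Z (φ Z) + (1 + 1 / ε) * VV r w Z (fun W => ψ W - φ Z W) := by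
        have h5 := VV_add hZg (φ Z) (fun W => ψ W - φ Z W) hε
        have h6 : (fun W => φ Z W + (ψ W - φ Z W)) = ψ := by
          funext W
          ring
        rwa [h6] at h5
      have h7 : VV r w Z (fun W => ψ W - φ Z W) ≤ B * ∑ W ∈ lev r Z 1, PP r w Z W * (φ Z W - ψ W) ^ 2 := by
        refine (VV_le hZg _).trans ?_
        have h8 : ∑ W ∈ lev r Z 1, PP r w Z W * (ψ W - φ Z W) ^ 2 =
            ∑ W ∈ lev r Z 1, PP r w Z W * (φ Z W - ψ W) ^ 2 :=
          Finset.sum_congr rfl fun W _ => by ring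
        rw [h8]
        refine mul_le_mul_of_nonneg_right (le_trans ?_ hB)
          (Finset.sum_nonneg fun W hW => mul_nonneg (PP_pos hZg hW).le (sq_nonneg _))
        exact_mod_cast om_mono (lev_sub hZ)
      have hP := (PP_pos h hZ).le
      calc PP r w X Z * VV r w Z ψ
          ≤ PP r w X Z * ((1 + ε) * VV r w Z (φ Z) +
            (1 + 1 / ε) * (B * ∑ W ∈ lev r Z 1, PP r w Z W * (φ Z W - ψ W) ^ 2)) :=
            mul_le_mul_of_nonneg_left (h4.trans (add_le_add le_rfl (mul_le_mul_of_nonneg_left h7 hεi.le))) hP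
        _ = (1 + ε) * (PP r w X Z * VV r w Z (φ Z)) +
          (1 + 1 / ε) * (B * (PP r w X Z * ∑ W ∈ lev r Z 1, PP r w Z W * (φ Z W - ψ W) ^ 2)) := by ring
    refine (Finset.sum_le_sum h3).trans ?_
    rw [Finset.sum_add_distrib, ← Finset.mul_sum, ← Finset.mul_sum, ← Finset.mul_sum]
    refine add_le_add le_rfl (mul_le_mul_of_nonneg_left ?_ hεi.le)
    calc B * ∑ Z ∈ lev r X 1, PP r w X Z * ∑ W ∈ lev r Z 1, PP r w Z W * (φ Z W - ψ W) ^ 2
        ≤ B * (B * E1 r w n X f) :=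
          mul_le_mul_of_nonneg_left (hloc.trans (mul_le_mul_of_nonneg_right hB hE)) hB0
      _ = B ^ 2 * E1 r w n X f := by ring
  rw [hg]
  calc VV r w X (fun Z => MM r w Z ψ + MM r w Z (fun W => φ Z W - ψ W))
      ≤ (1 + ε) * VV r w X (fun Z => MM r w Z ψ) +
        (1 + 1 / ε) * VV r w X (fun Z => MM r w Z (fun W => φ Z W - ψ W)) := VV_add h _ _ hε
    _ ≤ (1 + ε) * ((1 + ε) * (∑ Z ∈ lev r X 1, PP r w X Z * VV r w Z (φ Z)) +
        (1 + 1 / ε) * (B ^ 2 * E1 r w n X f)) + (1 + 1 / ε) * (B ^ 2 * E1 r w n X f) :=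
        add_le_add (mul_le_mul_of_nonneg_left h2 (by linarith)) (mul_le_mul_of_nonneg_left h1 hεi.le)
    _ = (1 + ε) ^ 2 * (∑ Z ∈ lev r X 1, PP r w X Z * VV r w Z (φ Z)) +
        (1 + 1 / ε) * (2 + ε) * B ^ 2 * E1 r w n X f := by ring

end ACY
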