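import Pool.Agent.ACY.GPc

/-!
# ACY-GPd: the Poincare inequality for flags

`vrec` iterates the one step recursion `vstep`; `poinc0` is the decomposition of the variance of a flag into the mean of the variances
after the first flat and the variance of the conditional mean, which is controlled by `vrec`; `poincare` is the choice `ε = 1 / n`.
-/

set_option autoImplicit false

namespace ACY

open Finset

variable {α : Type} [DecidableEq α] {r : Finset α → ℕ} {w : α → ℕ} {S A C D F G W X Y Z : Finset α} {e x : α}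
  {k j n : ℕ}

theorem Es_nonneg (h : Gd r w X) (n : ℕ) (f : List (Finset α) → ℝ) : 0 ≤ Es r w n X f := by
  induction n generalizing X f with
  | zero => exact le_rfl
  | succ n ih =>
    cases n with
    | zero => exact le_rfl
    | succ m =>
      have h1 : Es r w (m + 1 + 1) X f = E1 r w m X f +
          ∑ Z ∈ lev r X 1, PP r w X Z * Es r w (m + 1) Z (fun l => f (Z :: l)) := rfl
      rw [h1]
      exact add_nonneg (E1_nonneg h m f) (Finset.sum_nonneg fun Z hZ =>
        mul_nonneg (PP_pos h hZ).le (ih (h.lev hZ) _))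

private theorem GPd_C {ε B : ℝ} (hε : 0 < ε) : 0 ≤ (1 + 1 / ε) * (2 + ε) * B ^ 2 := by
  have h1 : 0 < 1 + 1 / ε := by positivity
  have h2 : 0 < 2 + ε := by linarith
  exact mul_nonneg (mul_pos h1 h2).le (sq_nonneg _)

theorem vrec (h : Gd r w X) (hn : r X = n + 1) (f : List (Finset α) → ℝ) {ε B : ℝ} (hε : 0 < ε)
    (hB : (om w X : ℝ) ≤ B) :
    VV r w X (fun Z => Ex r w n Z (fun l => f (Z :: l))) ≤
      (1 + ε) ^ (2 * n) * ((1 + 1 / ε) * (2 + ε) * B ^ 2) * Es r w (n + 1) X f := by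
  induction n generalizing X f with
  | zero =>
    rw [VV_one h hn]
    have h1 : Es r w (0 + 1) X f = 0 := rfl
    rw [h1, mul_zero]
  | succ n ih =>
    have h1 := vstep h hn f hε hB
    have hC := GPd_C (B := B) hε
    obtain ⟨C, hCd⟩ : ∃ C, C = (1 + 1 / ε) * (2 + ε) * B ^ 2 := ⟨_, rfl⟩
    rw [← hCd] at h1 hC ih ⊢
    have h2 : ∀ Z ∈ lev r X 1, PP r w X Z *
        VV r w Z (fun W => Ex r w n W (fun l => f (Z :: W :: l))) ≤
        (1 + ε) ^ (2 * n) * C * (PP r w X Z * Es r w (n + 1) Z (fun l => f (Z :: l))) := by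
      intro Z hZ
      have hr : r Z = n + 1 := by
        have := lev_rank hZ
        omega
      have hB' : (om w Z : ℝ) ≤ B := by
        have h3 : om w Z ≤ om w X := om_mono (lev_sub hZ)
        have h4 : (om w Z : ℝ) ≤ (om w X : ℝ) := by exact_mod_cast h3
        exact h4.trans hB
      have h3 := ih (h.lev hZ) hr (fun l => f (Z :: l)) hB'
      calc PP r w X Z * VV r w Z (fun W => Ex r w n W (fun l => f (Z :: W :: l)))
          ≤ PP r w X Z * ((1 + ε) ^ (2 * n) * C * Es r w (n + 1) Z (fun l => f (Z :: l))) :=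
            mul_le_mul_of_nonneg_left h3 (PP_pos h hZ).le
        _ = _ := by ring
    have h3 := Finset.sum_le_sum h2
    rw [← Finset.mul_sum] at h3
    have h4 : Es r w (n + 1 + 1) X f = E1 r w n X f +
        ∑ Z ∈ lev r X 1, PP r w X Z * Es r w (n + 1) Z (fun l => f (Z :: l)) := rfl
    rw [h4]
    have h5 : 0 ≤ E1 r w n X f := E1_nonneg h n f
    have h6 : (1 : ℝ) ≤ (1 + ε) ^ (2 * (n + 1)) := one_le_pow₀ (by linarith)
    have h7 : C * E1 r w n X f ≤ (1 + ε) ^ (2 * (n + 1)) * (C * E1 r w n X f) := by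
      have h8 := mul_nonneg hC h5
      nlinarith
    have h9 : (1 + ε) ^ 2 * ∑ Z ∈ lev r X 1, PP r w X Z *
        VV r w Z (fun W => Ex r w n W (fun l => f (Z :: W :: l))) ≤
        (1 + ε) ^ 2 * ((1 + ε) ^ (2 * n) * C *
          ∑ Z ∈ lev r X 1, PP r w X Z * Es r w (n + 1) Z (fun l => f (Z :: l))) :=
      mul_le_mul_of_nonneg_left h3 (sq_nonneg _)
    have h10 : (1 + ε) ^ (2 * (n + 1)) = (1 + ε) ^ 2 * (1 + ε) ^ (2 * n) := by
      rw [← pow_add]
      congr 1
      ring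
    refine h1.trans ((add_le_add h9 h7).trans (le_of_eq ?_))
    rw [h10]
    ring

private theorem GPd_Es (h : Gd r w X) (f : List (Finset α) → ℝ) :
    ∑ Z ∈ lev r X 1, PP r w X Z * Es r w n Z (fun l => f (Z :: l)) ≤ Es r w (n + 1) X f := by
  cases n with
  | zero =>
    refine le_of_eq ?_
    have h1 : Es r w (0 + 1) X f = 0 := rfl
    rw [h1]
    refine Finset.sum_eq_zero fun Z _ => ?_
    have h2 : Es r w 0 Z (fun l => f (Z :: l)) = 0 := rfl
    rw [h2, mul_zero]
  | succ m =>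
    have h1 : Es r w (m + 1 + 1) X f = E1 r w m X f +
        ∑ Z ∈ lev r X 1, PP r w X Z * Es r w (m + 1) Z (fun l => f (Z :: l)) := rfl
    rw [h1]
    exact le_add_of_nonneg_left (E1_nonneg h m f)

/-- decomposition of the variance -/
private theorem GPd_Vr (h : Gd r w X) (hX : X.Nonempty) (f : List (Finset α) → ℝ) :
    Vr r w (n + 1) X f = ∑ Z ∈ lev r X 1, PP r w X Z * Vr r w n Z (fun l => f (Z :: l)) +
      ∑ Z ∈ lev r X 1, PP r w X Z * (Ex r w n Z (fun l => f (Z :: l)) -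
        MM r w X (fun Z => Ex r w n Z (fun l => f (Z :: l)))) ^ 2 := by
  have e1 : Vr r w (n + 1) X f =
      (∑ Z ∈ lev r X 1, PP r w X Z * Ex r w n Z (fun l => f (Z :: l) ^ 2)) -
        (∑ Z ∈ lev r X 1, PP r w X Z * Ex r w n Z (fun l => f (Z :: l))) ^ 2 := rfl
  have e2 : MM r w X (fun Z => Ex r w n Z (fun l => f (Z :: l))) =
      ∑ Z ∈ lev r X 1, PP r w X Z * Ex r w n Z (fun l => f (Z :: l)) := rfl
  have e3 : ∀ Z, Vr r w n Z (fun l => f (Z :: l)) =
      Ex r w n Z (fun l => f (Z :: l) ^ 2) - Ex r w n Z (fun l => f (Z :: l)) ^ 2 := fun _ => rfl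
  rw [e1, e2]
  obtain ⟨m, hm⟩ : ∃ m, m = ∑ Z ∈ lev r X 1, PP r w X Z * Ex r w n Z (fun l => f (Z :: l)) := ⟨_, rfl⟩
  rw [← hm, ← Finset.sum_add_distrib]
  have e4 : ∀ Z ∈ lev r X 1, PP r w X Z * Vr r w n Z (fun l => f (Z :: l)) +
      PP r w X Z * (Ex r w n Z (fun l => f (Z :: l)) - m) ^ 2 =
      PP r w X Z * Ex r w n Z (fun l => f (Z :: l) ^ 2) -
        2 * m * (PP r w X Z * Ex r w n Z (fun l => f (Z :: l))) + m ^ 2 * PP r w X Z := by
    intro Z _
    rw [e3]
    ring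
  rw [Finset.sum_congr rfl e4, Finset.sum_add_distrib, Finset.sum_sub_distrib, ← Finset.mul_sum,
    ← Finset.mul_sum, PP_sum h hX, ← hm]
  ring

theorem poinc0 (h : Gd r w X) (hn : r X = n) (f : List (Finset α) → ℝ) {ε B : ℝ} (hε : 0 < ε)
    (hB : (om w X : ℝ) ≤ B) :
    Vr r w n X f ≤ n * ((1 + ε) ^ (2 * n) * ((1 + 1 / ε) * (2 + ε) * B ^ 2)) * Es r w n X f := by
  induction n generalizing X f with
  | zero =>
    have h1 : Vr r w 0 X f = 0 := sub_self _
    rw [h1, Nat.cast_zero, zero_mul, zero_mul]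
  | succ n ih =>
    have hX : X.Nonempty := by
      rw [Finset.nonempty_iff_ne_empty]
      intro h2
      rw [h2, h.rk.empty] at hn
      omega
    have hC := GPd_C (B := B) hε
    have h1 := vrec h hn f hε hB
    obtain ⟨C, hCd⟩ : ∃ C, C = (1 + 1 / ε) * (2 + ε) * B ^ 2 := ⟨_, rfl⟩
    rw [← hCd] at h1 hC ih ⊢
    rw [GPd_Vr h hX]
    have h2 : ∀ Z ∈ lev r X 1, PP r w X Z * Vr r w n Z (fun l => f (Z :: l)) ≤
        n * ((1 + ε) ^ (2 * n) * C) * (PP r w X Z * Es r w n Z (fun l => f (Z :: l))) := by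
      intro Z hZ
      have hr : r Z = n := by
        have := lev_rank hZ
        omega
      have hB' : (om w Z : ℝ) ≤ B := by
        have h3 : om w Z ≤ om w X := om_mono (lev_sub hZ)
        have h4 : (om w Z : ℝ) ≤ (om w X : ℝ) := by exact_mod_cast h3
        exact h4.trans hB
      have h3 := ih (h.lev hZ) hr (fun l => f (Z :: l)) hB'
      calc PP r w X Z * Vr r w n Z (fun l => f (Z :: l))
          ≤ PP r w X Z * (n * ((1 + ε) ^ (2 * n) * C) * Es r w n Z (fun l => f (Z :: l))) :=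
            mul_le_mul_of_nonneg_left h3 (PP_pos h hZ).le
        _ = _ := by ring
    have h3 := Finset.sum_le_sum h2
    rw [← Finset.mul_sum] at h3
    have hk : (0 : ℝ) ≤ n * ((1 + ε) ^ (2 * n) * C) := by positivity
    have h4 := h3.trans (mul_le_mul_of_nonneg_left (GPd_Es (n := n) h f) hk)
    have h5 := (var_le_VV h (fun Z => Ex r w n Z (fun l => f (Z :: l)))).trans h1
    have h6 : 0 ≤ Es r w (n + 1) X f := Es_nonneg h _ f
    have h7 : (1 + ε) ^ (2 * n) ≤ (1 + ε) ^ (2 * (n + 1)) :=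
      pow_le_pow_right₀ (by linarith) (by omega)
    have h8 : (1 + ε) ^ (2 * n) * (C * Es r w (n + 1) X f) ≤
        (1 + ε) ^ (2 * (n + 1)) * (C * Es r w (n + 1) X f) :=
      mul_le_mul_of_nonneg_right h7 (mul_nonneg hC h6)
    have h9 : (0 : ℝ) ≤ (n : ℝ) + 1 := by positivity
    calc _ ≤ n * ((1 + ε) ^ (2 * n) * C) * Es r w (n + 1) X f +
          (1 + ε) ^ (2 * n) * C * Es r w (n + 1) X f := add_le_add h4 h5
      _ = ((n : ℝ) + 1) * ((1 + ε) ^ (2 * n) * (C * Es r w (n + 1) X f)) := by ring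
      _ ≤ ((n : ℝ) + 1) * ((1 + ε) ^ (2 * (n + 1)) * (C * Es r w (n + 1) X f)) :=
          mul_le_mul_of_nonneg_left h8 h9
      _ = _ := by push_cast; ring

theorem poincare (h : Gd r w X) (hn : r X = n) (f : List (Finset α) → ℝ) {B : ℝ} (hB : (om w X : ℝ) ≤ B) :
    Vr r w n X f ≤ 24 * n * (n + 1) * B ^ 2 * Es r w n X f := by
  rcases Nat.eq_zero_or_pos n with h0 | h0
  · subst h0
    have h1 : Vr r w 0 X f = 0 := sub_self _
    rw [h1, Nat.cast_zero]
    simp
  · have hn0 : (0 : ℝ) < n := by exact_mod_cast h0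
    have hε : (0 : ℝ) < 1 / n := by positivity
    have h1 := poinc0 h hn f hε hB
    refine h1.trans ?_
    have hE : 0 ≤ Es r w n X f := Es_nonneg h n f
    have h2 : (1 + 1 / (n : ℝ)) ^ n ≤ Real.exp 1 := by
      have h3 : 1 + 1 / (n : ℝ) ≤ Real.exp (1 / n) := by
        rw [add_comm]
        exact Real.add_one_le_exp _
      calc (1 + 1 / (n : ℝ)) ^ n ≤ Real.exp (1 / n) ^ n := pow_le_pow_left₀ (by positivity) h3 n
        _ = Real.exp 1 := by
          rw [← Real.exp_nat_mul]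
          congr 1
          field_simp
    have h3 : (1 + 1 / (n : ℝ)) ^ (2 * n) ≤ 8 := by
      rw [mul_comm 2 n, pow_mul]
      have h4 := Real.exp_one_lt_d9
      have h5 : (0 : ℝ) ≤ (1 + 1 / (n : ℝ)) ^ n := by positivity
      nlinarith
    have h4 : (1 + 1 / (1 / (n : ℝ))) * (2 + 1 / (n : ℝ)) ≤ 3 * (n + 1) := by
      have h5 : 1 / (n : ℝ) ≤ 1 := by
        rw [div_le_one hn0]
        exact_mod_cast h0
      have h6 : 1 / (1 / (n : ℝ)) = n := by
        rw [one_div_one_div]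
      rw [h6]
      nlinarith
    have h5 : (1 + 1 / (n : ℝ)) ^ (2 * n) * ((1 + 1 / (1 / (n : ℝ))) * (2 + 1 / (n : ℝ)) * B ^ 2) ≤
        8 * (3 * (n + 1) * B ^ 2) := by
      refine mul_le_mul h3 (mul_le_mul_of_nonneg_right h4 (sq_nonneg _)) ?_ (by norm_num)
      positivity
    calc _ ≤ (n : ℝ) * (8 * (3 * (n + 1) * B ^ 2)) * Es r w n X f :=
          mul_le_mul_of_nonneg_right (mul_le_mul_of_nonneg_left h5 hn0.le) hE
      _ = _ := by ring

end ACY
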