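import Mathlib

set_option autoImplicit false

/-!
# ACY-GPoi: the Poincare inequality for flags (abstract)

`cov X`: the elements covered by `X`; `p X Z`: the probability to go from `X` to `Z`; a complete flag below `X` is the
list of the elements visited. `V h X` is the local variance with the weights `t`, `p ≤ t ≤ m p`. The hypothesis
(`Sys.com`) is the commutation `V (P ψ) X ≤ ∑ p X Z * V ψ Z`.
-/

namespace ACY.GPoi

open Finset

variable {α : Type*}

/-- one step -/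
noncomputable def P (cov : α → Finset α) (p : α → α → ℝ) (h : α → ℝ) (X : α) : ℝ :=
  ∑ Z ∈ cov X, p X Z * h Z

/-- the local variance -/
noncomputable def V (cov : α → Finset α) (p t : α → α → ℝ) (h : α → ℝ) (X : α) : ℝ :=
  ∑ Z ∈ cov X, t X Z * (h Z - P cov p h X) ^ 2

/-- the mean of `f` over the flags of length `n` below `X` -/
noncomputable def Ex (cov : α → Finset α) (p : α → α → ℝ) : ℕ → α → (List α → ℝ) → ℝ
  | 0, _, f => f []
  | n + 1, X, f => ∑ Z ∈ cov X, p X Z * Ex cov p n Z (fun l => f (Z :: l))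

open Classical in
/-- the elements between `X` and `W` -/
noncomputable def mid (cov : α → Finset α) (X W : α) : Finset α :=
  (cov X).filter fun Z => W ∈ cov Z

/-- the mass of the elements between `X` and `W` -/
noncomputable def mass (cov : α → Finset α) (p : α → α → ℝ) (X W : α) : ℝ :=
  ∑ Z ∈ mid cov X W, p X Z * p Z W

/-- the weighted mean over the middle flat -/
noncomputable def fb (cov : α → Finset α) (p : α → α → ℝ) (f : List α → ℝ) (X W : α) (l : List α) : ℝ :=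
  (∑ Z ∈ mid cov X W, p X Z * p Z W * f (Z :: W :: l)) / mass cov p X W

/-- the mean variance of the first flat given the others -/
noncomputable def loc (cov : α → Finset α) (p : α → α → ℝ) (n : ℕ) (X : α) (f : List α → ℝ) : ℝ :=
  ∑ Z ∈ cov X, ∑ W ∈ cov Z, p X Z * p Z W *
    Ex cov p n W (fun l => (f (Z :: W :: l) - fb cov p f X W l) ^ 2)

/-- the sum of the mean variances of the sites -/
noncomputable def Dir (cov : α → Finset α) (p : α → α → ℝ) : ℕ → α → (List α → ℝ) → ℝ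
  | 0, _, _ => 0
  | 1, X, f => ∑ Z ∈ cov X, p X Z * (f [Z] - P cov p (fun Z => f [Z]) X) ^ 2
  | n + 2, X, f => ∑ Z ∈ cov X, p X Z * Dir cov p (n + 1) Z (fun l => f (Z :: l)) + loc cov p n X f

/-- the hypotheses -/
structure Sys (cov : α → Finset α) (p t : α → α → ℝ) (rk : α → ℕ) (ok : α → Prop) (m : ℝ) : Prop where
  hm : 1 ≤ m
  ok' : ∀ X, ok X → ∀ Z ∈ cov X, ok Z
  rk' : ∀ X, ok X → ∀ Z ∈ cov X, rk Z + 1 = rk X
  pos : ∀ X, ok X → ∀ Z ∈ cov X, 0 < p X Z
  one : ∀ X, ok X → 0 < rk X → ∑ Z ∈ cov X, p X Z = 1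
  le : ∀ X, ok X → ∀ Z ∈ cov X, p X Z ≤ t X Z
  ge : ∀ X, ok X → ∀ Z ∈ cov X, t X Z ≤ m * p X Z
  com : ∀ X, ok X → 2 ≤ rk X → ∀ ψ : α → ℝ,
    V cov p t (P cov p ψ) X ≤ ∑ Z ∈ cov X, p X Z * V cov p t ψ Z

variable {cov : α → Finset α} {p t : α → α → ℝ} {rk : α → ℕ} {ok : α → Prop} {m : ℝ}

/-! ## Elementary facts on the mean -/

theorem Ex_sub (n : ℕ) (X : α) (f g : List α → ℝ) :
    Ex cov p n X (fun l => f l - g l) = Ex cov p n X f - Ex cov p n X g := by
  induction n generalizing X f g with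
  | zero => rfl
  | succ n ih =>
    simp only [Ex]
    rw [← Finset.sum_sub_distrib]
    refine Finset.sum_congr rfl fun Z _ => ?_
    rw [ih, mul_sub]

theorem Ex_const (h : Sys cov p t rk ok m) (c : ℝ) (n : ℕ) (X : α) (hX : ok X) (hn : n ≤ rk X) :
    Ex cov p n X (fun _ => c) = c := by
  induction n generalizing X with
  | zero => rfl
  | succ n ih =>
    simp only [Ex]
    rw [Finset.sum_congr rfl fun Z hZ => by
      rw [ih Z (h.ok' X hX Z hZ) (by have := h.rk' X hX Z hZ; omega)], ← Finset.sum_mul,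
      h.one X hX (by omega), one_mul]

theorem Ex_nonneg (h : Sys cov p t rk ok m) (n : ℕ) (X : α) (hX : ok X) (f : List α → ℝ)
    (hf : ∀ l, 0 ≤ f l) : 0 ≤ Ex cov p n X f := by
  induction n generalizing X f with
  | zero => exact hf _
  | succ n ih =>
    exact Finset.sum_nonneg fun Z hZ =>
      mul_nonneg (h.pos X hX Z hZ).le (ih Z (h.ok' X hX Z hZ) _ fun l => hf _)

theorem sq_expand (s : Finset α) (w h : α → ℝ) (c : ℝ) : ∑ x ∈ s, w x * (h x - c) ^ 2 =
    ∑ x ∈ s, w x * h x ^ 2 - 2 * c * ∑ x ∈ s, w x * h x + c ^ 2 * ∑ x ∈ s, w x := by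
  rw [Finset.mul_sum, Finset.mul_sum, ← Finset.sum_sub_distrib, ← Finset.sum_add_distrib]
  exact Finset.sum_congr rfl fun x _ => by ring

/-- the square of a mean is at most the mean of the squares -/
theorem sq_sum_le {s : Finset α} {w h : α → ℝ} (hw : ∀ x ∈ s, 0 ≤ w x) (h1 : ∑ x ∈ s, w x = 1) :
    (∑ x ∈ s, w x * h x) ^ 2 ≤ ∑ x ∈ s, w x * h x ^ 2 := by
  have h2 : 0 ≤ ∑ x ∈ s, w x * (h x - ∑ y ∈ s, w y * h y) ^ 2 :=
    Finset.sum_nonneg fun x hx => mul_nonneg (hw x hx) (sq_nonneg _)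
  have h3 : ∑ x ∈ s, w x * (h x - ∑ y ∈ s, w y * h y) ^ 2 =
      ∑ x ∈ s, w x * h x ^ 2 - (∑ x ∈ s, w x * h x) ^ 2 := by
    rw [sq_expand s w h (∑ y ∈ s, w y * h y), h1]
    ring
  linarith

theorem var_eq {s : Finset α} {w h : α → ℝ} (h1 : ∑ x ∈ s, w x = 1) :
    ∑ x ∈ s, w x * (h x - ∑ y ∈ s, w y * h y) ^ 2 =
      ∑ x ∈ s, w x * h x ^ 2 - (∑ x ∈ s, w x * h x) ^ 2 := by
  rw [sq_expand s w h (∑ y ∈ s, w y * h y), h1]
  ring

theorem Ex_sq (h : Sys cov p t rk ok m) (n : ℕ) (X : α) (hX : ok X) (hn : n ≤ rk X) (f : List α → ℝ) :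
    (Ex cov p n X f) ^ 2 ≤ Ex cov p n X (fun l => f l ^ 2) := by
  induction n generalizing X f with
  | zero => exact le_refl _
  | succ n ih =>
    simp only [Ex]
    refine (sq_sum_le (fun Z hZ => (h.pos X hX Z hZ).le) (h.one X hX (by omega))).trans ?_
    exact Finset.sum_le_sum fun Z hZ => mul_le_mul_of_nonneg_left
      (ih Z (h.ok' X hX Z hZ) (by have := h.rk' X hX Z hZ; omega) _) (h.pos X hX Z hZ).le

/-! ## The quadratic form `V` -/

theorem P_add (a b : α → ℝ) (X : α) : P cov p (fun Z => a Z + b Z) X = P cov p a X + P cov p b X := by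
  simp only [P, mul_add, Finset.sum_add_distrib]

theorem V_add (h : Sys cov p t rk ok m) (a b : α → ℝ) (X : α) (hX : ok X) {ε : ℝ} (hε : 0 < ε) :
    V cov p t (fun Z => a Z + b Z) X ≤ (1 + ε) * V cov p t a X + (1 + 1 / ε) * V cov p t b X := by
  simp only [V, P_add, Finset.mul_sum, ← Finset.sum_add_distrib]
  refine Finset.sum_le_sum fun Z hZ => ?_
  have ht : 0 ≤ t X Z := (h.pos X hX Z hZ).le.trans (h.le X hX Z hZ)
  have h1 : (a Z + b Z - (P cov p a X + P cov p b X)) ^ 2 ≤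
      (1 + ε) * (a Z - P cov p a X) ^ 2 + (1 + 1 / ε) * (b Z - P cov p b X) ^ 2 := by
    set u := a Z - P cov p a X
    set v := b Z - P cov p b X
    have h2 : a Z + b Z - (P cov p a X + P cov p b X) = u + v := by ring
    rw [h2]
    have h3 : (1 + ε) * u ^ 2 + (1 + 1 / ε) * v ^ 2 - (u + v) ^ 2 = (ε * u - v) ^ 2 / ε := by
      field_simp
      ring
    have h4 : 0 ≤ (ε * u - v) ^ 2 / ε := by positivity
    linarith
  calc t X Z * (a Z + b Z - (P cov p a X + P cov p b X)) ^ 2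
      ≤ t X Z * ((1 + ε) * (a Z - P cov p a X) ^ 2 + (1 + 1 / ε) * (b Z - P cov p b X) ^ 2) :=
        mul_le_mul_of_nonneg_left h1 ht
    _ = (1 + ε) * (t X Z * (a Z - P cov p a X) ^ 2) +
        (1 + 1 / ε) * (t X Z * (b Z - P cov p b X) ^ 2) := by ring

theorem V_le (h : Sys cov p t rk ok m) (a : α → ℝ) (X : α) (hX : ok X) :
    V cov p t a X ≤ m * ∑ Z ∈ cov X, p X Z * (a Z - P cov p a X) ^ 2 := by
  rw [V, Finset.mul_sum]
  refine Finset.sum_le_sum fun Z hZ => ?_
  rw [← mul_assoc]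
  exact mul_le_mul_of_nonneg_right (h.ge X hX Z hZ) (sq_nonneg _)

theorem V_le' (h : Sys cov p t rk ok m) (a : α → ℝ) (X : α) (hX : ok X) (hr : 0 < rk X) :
    V cov p t a X ≤ m * ∑ Z ∈ cov X, p X Z * a Z ^ 2 := by
  refine (V_le h a X hX).trans (mul_le_mul_of_nonneg_left ?_ (zero_le_one.trans h.hm))
  have h1 := var_eq (s := cov X) (w := p X) (h := a) (h.one X hX hr)
  have h2 : ∑ Z ∈ cov X, p X Z * (a Z - P cov p a X) ^ 2 =
      ∑ x ∈ cov X, p X x * a x ^ 2 - (∑ x ∈ cov X, p X x * a x) ^ 2 := h1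
  rw [h2]
  linarith [sq_nonneg (∑ x ∈ cov X, p X x * a x)]

theorem V_nonneg (h : Sys cov p t rk ok m) (a : α → ℝ) (X : α) (hX : ok X) : 0 ≤ V cov p t a X :=
  Finset.sum_nonneg fun Z hZ =>
    mul_nonneg ((h.pos X hX Z hZ).le.trans (h.le X hX Z hZ)) (sq_nonneg _)

theorem var_le_V (h : Sys cov p t rk ok m) (a : α → ℝ) (X : α) (hX : ok X) :
    ∑ Z ∈ cov X, p X Z * (a Z - P cov p a X) ^ 2 ≤ V cov p t a X :=
  Finset.sum_le_sum fun Z hZ => mul_le_mul_of_nonneg_right (h.le X hX Z hZ) (sq_nonneg _)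

/-! ## The mean zero property -/

theorem mass_pos (h : Sys cov p t rk ok m) {X Z W : α} (hX : ok X) (hZ : Z ∈ cov X) (hW : W ∈ cov Z) :
    0 < mass cov p X W := by
  classical
  refine Finset.sum_pos (fun Z' hZ' => ?_) ⟨Z, ?_⟩
  · have h1 := Finset.mem_filter.1 hZ'
    exact mul_pos (h.pos X hX Z' h1.1) (h.pos Z' (h.ok' X hX Z' h1.1) W h1.2)
  · exact Finset.mem_filter.2 ⟨hZ, hW⟩

open Classical in
theorem sum_mid (X : α) (F : α → α → ℝ) :
    ∑ Z ∈ cov X, ∑ W ∈ cov Z, F Z W = ∑ W ∈ (cov X).biUnion cov, ∑ Z ∈ mid cov X W, F Z W := by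
  refine Finset.sum_comm' fun Z W => ?_
  simp only [mid, Finset.mem_biUnion, Finset.mem_filter]
  constructor
  · rintro ⟨h1, h2⟩
    exact ⟨⟨h1, h2⟩, Z, h1, h2⟩
  · rintro ⟨⟨h1, h2⟩, _⟩
    exact ⟨h1, h2⟩

theorem Ex_smul (c : ℝ) (n : ℕ) (X : α) (f : List α → ℝ) :
    Ex cov p n X (fun l => c * f l) = c * Ex cov p n X f := by
  induction n generalizing X f with
  | zero => rfl
  | succ n ih =>
    simp only [Ex, Finset.mul_sum]
    refine Finset.sum_congr rfl fun Z _ => ?_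
    rw [ih]
    ring

theorem Ex_sum {ι : Type*} (s : Finset ι) (n : ℕ) (X : α) (f : ι → List α → ℝ) :
    Ex cov p n X (fun l => ∑ i ∈ s, f i l) = ∑ i ∈ s, Ex cov p n X (f i) := by
  induction n generalizing X f with
  | zero => rfl
  | succ n ih =>
    simp only [Ex]
    rw [Finset.sum_comm]
    refine Finset.sum_congr rfl fun Z _ => ?_
    rw [ih, Finset.mul_sum]

theorem mean_zero (h : Sys cov p t rk ok m) (n : ℕ) (X : α) (hX : ok X) (f : List α → ℝ) :
    ∑ Z ∈ cov X, ∑ W ∈ cov Z, p X Z * p Z W *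
      Ex cov p n W (fun l => f (Z :: W :: l) - fb cov p f X W l) = 0 := by
  classical
  rw [sum_mid]
  refine Finset.sum_eq_zero fun W hW => ?_
  obtain ⟨Z0, hZ0, hW0⟩ := Finset.mem_biUnion.1 hW
  have hS := mass_pos h hX hZ0 hW0
  have h1 : ∀ Z ∈ mid cov X W, p X Z * p Z W *
      Ex cov p n W (fun l => f (Z :: W :: l) - fb cov p f X W l) =
      Ex cov p n W (fun l => p X Z * p Z W * (f (Z :: W :: l) - fb cov p f X W l)) := fun Z _ => by
    rw [Ex_smul]
  rw [Finset.sum_congr rfl h1, ← Ex_sum (cov := cov) (p := p) (mid cov X W) n W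
    (fun Z l => p X Z * p Z W * (f (Z :: W :: l) - fb cov p f X W l))]
  have h2 : ∀ l, ∑ Z ∈ mid cov X W, p X Z * p Z W * (f (Z :: W :: l) - fb cov p f X W l) = 0 := by
    intro l
    have h3 : ∑ Z ∈ mid cov X W, p X Z * p Z W * (f (Z :: W :: l) - fb cov p f X W l) =
        ∑ Z ∈ mid cov X W, p X Z * p Z W * f (Z :: W :: l) -
          mass cov p X W * fb cov p f X W l := by
      rw [mass, Finset.sum_mul, ← Finset.sum_sub_distrib]
      exact Finset.sum_congr rfl fun Z _ => by ring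
    rw [h3, fb, mul_div_cancel₀ _ hS.ne', sub_self]
  simp only [h2]
  clear h1 h2
  have h4 := Ex_smul (cov := cov) (p := p) 0 n W (fun _ => 0)
  simpa using h4

/-! ## The recursion -/

/-- the local variance of the conditional mean given the first flat -/
noncomputable def g (cov : α → Finset α) (p t : α → α → ℝ) (n : ℕ) (X : α) (f : List α → ℝ) : ℝ :=
  V cov p t (fun Z => Ex cov p n Z (fun l => f (Z :: l))) X

theorem g_step (h : Sys cov p t rk ok m) (n : ℕ) (X : α) (hX : ok X) (hn : rk X = n + 2)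
    (f : List α → ℝ) {ε : ℝ} (hε : 0 < ε) (hε1 : ε ≤ 1) :
    g cov p t (n + 1) X f ≤
      (1 + ε) ^ 2 * ∑ Z ∈ cov X, p X Z * g cov p t n Z (fun l => f (Z :: l)) +
        3 * (1 + 1 / ε) * m * loc cov p n X f := by
  set ψ : α → ℝ := fun W => Ex cov p n W (fun l => fb cov p f X W l) with hψ
  set δ : α → α → ℝ := fun Z W => Ex cov p n W (fun l => f (Z :: W :: l) - fb cov p f X W l) with hδ
  have hm0 : 0 ≤ m := zero_le_one.trans h.hm
  have hrZ : ∀ Z ∈ cov X, rk Z = n + 1 := fun Z hZ => by have := h.rk' X hX Z hZ; omega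
  -- the error is controlled by `loc`
  have hD : ∑ Z ∈ cov X, p X Z * ∑ W ∈ cov Z, p Z W * δ Z W ^ 2 ≤ loc cov p n X f := by
    rw [loc]
    refine Finset.sum_le_sum fun Z hZ => ?_
    rw [Finset.mul_sum]
    refine Finset.sum_le_sum fun W hW => ?_
    rw [mul_assoc]
    refine mul_le_mul_of_nonneg_left ?_ (h.pos X hX Z hZ).le
    refine mul_le_mul_of_nonneg_left ?_ (h.pos Z (h.ok' X hX Z hZ) W hW).le
    exact Ex_sq h n W (h.ok' Z (h.ok' X hX Z hZ) W hW)
      (by have := h.rk' Z (h.ok' X hX Z hZ) W hW; have := hrZ Z hZ; omega) _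
  -- decomposition of the conditional mean
  have hF : ∀ Z ∈ cov X, Ex cov p (n + 1) Z (fun l => f (Z :: l)) =
      P cov p ψ Z + P cov p (δ Z) Z := by
    intro Z hZ
    rw [← P_add]
    simp only [Ex, P, hψ, hδ]
    refine Finset.sum_congr rfl fun W _ => ?_
    rw [Ex_sub]
    ring
  have h1 : g cov p t (n + 1) X f = V cov p t (fun Z => P cov p ψ Z + P cov p (δ Z) Z) X := by
    have h2 : P cov p (fun Z => Ex cov p (n + 1) Z (fun l => f (Z :: l))) X =
        P cov p (fun Z => P cov p ψ Z + P cov p (δ Z) Z) X :=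
      Finset.sum_congr rfl fun Z hZ => by simp only [hF Z hZ]
    simp only [g, V, h2]
    exact Finset.sum_congr rfl fun Z hZ => by rw [hF Z hZ]
  rw [h1]
  refine (V_add h _ _ X hX hε).trans ?_
  -- the error term
  have h3 : V cov p t (fun Z => P cov p (δ Z) Z) X ≤ m * loc cov p n X f := by
    refine (V_le' h _ X hX (by omega)).trans (mul_le_mul_of_nonneg_left ?_ hm0)
    refine le_trans ?_ hD
    refine Finset.sum_le_sum fun Z hZ => mul_le_mul_of_nonneg_left ?_ (h.pos X hX Z hZ).le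
    exact sq_sum_le (fun W hW => (h.pos Z (h.ok' X hX Z hZ) W hW).le)
      (h.one Z (h.ok' X hX Z hZ) (by have := hrZ Z hZ; omega))
  -- the main term
  have h4 : V cov p t (P cov p ψ) X ≤
      (1 + ε) * ∑ Z ∈ cov X, p X Z * g cov p t n Z (fun l => f (Z :: l)) +
        (1 + 1 / ε) * (m * loc cov p n X f) := by
    refine (h.com X hX (by omega) ψ).trans ?_
    have h5 : ∀ Z ∈ cov X, V cov p t ψ Z ≤ (1 + ε) * g cov p t n Z (fun l => f (Z :: l)) +
        (1 + 1 / ε) * (m * ∑ W ∈ cov Z, p Z W * δ Z W ^ 2) := by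
      intro Z hZ
      have hZok := h.ok' X hX Z hZ
      have h6 : ψ = fun W => Ex cov p n W (fun l => f (Z :: W :: l)) + (- δ Z W) := by
        funext W
        simp only [hψ, hδ]
        rw [Ex_sub]
        ring
      have h7 := V_add h (fun W => Ex cov p n W (fun l => f (Z :: W :: l))) (fun W => - δ Z W) Z hZok hε
      rw [h6]
      refine h7.trans (add_le_add (le_of_eq rfl) (mul_le_mul_of_nonneg_left ?_ (by positivity)))
      refine (V_le' h _ Z hZok (by have := hrZ Z hZ; omega)).trans (le_of_eq ?_)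
      congr 1
      exact Finset.sum_congr rfl fun W _ => by rw [neg_sq]
    refine (Finset.sum_le_sum fun Z hZ =>
      mul_le_mul_of_nonneg_left (h5 Z hZ) (h.pos X hX Z hZ).le).trans ?_
    have h8 : ∑ Z ∈ cov X, p X Z * ((1 + ε) * g cov p t n Z (fun l => f (Z :: l)) +
        (1 + 1 / ε) * (m * ∑ W ∈ cov Z, p Z W * δ Z W ^ 2)) =
        (1 + ε) * ∑ Z ∈ cov X, p X Z * g cov p t n Z (fun l => f (Z :: l)) +
        (1 + 1 / ε) * (m * ∑ Z ∈ cov X, p X Z * ∑ W ∈ cov Z, p Z W * δ Z W ^ 2) := by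
      rw [Finset.mul_sum (s := cov X), Finset.mul_sum (s := cov X), Finset.mul_sum (s := cov X),
        ← Finset.sum_add_distrib]
      exact Finset.sum_congr rfl fun Z _ => by ring
    rw [h8]
    refine add_le_add (le_refl _) (mul_le_mul_of_nonneg_left ?_ (by positivity))
    exact mul_le_mul_of_nonneg_left hD hm0
  have hloc : 0 ≤ loc cov p n X f := by
    refine Finset.sum_nonneg fun Z hZ => Finset.sum_nonneg fun W hW => ?_
    exact mul_nonneg (mul_nonneg (h.pos X hX Z hZ).le (h.pos Z (h.ok' X hX Z hZ) W hW).le)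
      (Ex_nonneg h n W (h.ok' Z (h.ok' X hX Z hZ) W hW) _ fun l => sq_nonneg _)
  set A := ∑ Z ∈ cov X, p X Z * g cov p t n Z (fun l => f (Z :: l)) with hA
  have h9 : (1 + ε) * V cov p t (P cov p ψ) X ≤
      (1 + ε) * ((1 + ε) * A + (1 + 1 / ε) * (m * loc cov p n X f)) :=
    mul_le_mul_of_nonneg_left h4 (by linarith)
  have h10 : (1 + 1 / ε) * V cov p t (fun Z => P cov p (δ Z) Z) X ≤
      (1 + 1 / ε) * (m * loc cov p n X f) := mul_le_mul_of_nonneg_left h3 (by positivity)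
  have h11 : 0 ≤ (1 + 1 / ε) * (m * loc cov p n X f) := by positivity
  have h12 : (1 + ε) * ((1 + ε) * A + (1 + 1 / ε) * (m * loc cov p n X f)) +
      (1 + 1 / ε) * (m * loc cov p n X f) ≤
      (1 + ε) ^ 2 * A + 3 * (1 + 1 / ε) * m * loc cov p n X f := by
    have : (1 + ε) * ((1 + 1 / ε) * (m * loc cov p n X f)) ≤
        2 * ((1 + 1 / ε) * (m * loc cov p n X f)) :=
      mul_le_mul_of_nonneg_right (by linarith) h11
    nlinarith [this]
  have h13 := add_le_add h9 h10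
  exact h13.trans h12

theorem loc_nonneg (h : Sys cov p t rk ok m) (n : ℕ) (X : α) (hX : ok X) (f : List α → ℝ) :
    0 ≤ loc cov p n X f := by
  refine Finset.sum_nonneg fun Z hZ => Finset.sum_nonneg fun W hW => ?_
  exact mul_nonneg (mul_nonneg (h.pos X hX Z hZ).le (h.pos Z (h.ok' X hX Z hZ) W hW).le)
    (Ex_nonneg h n W (h.ok' Z (h.ok' X hX Z hZ) W hW) _ fun l => sq_nonneg _)

theorem Dir_nonneg (h : Sys cov p t rk ok m) (n : ℕ) (X : α) (hX : ok X) (f : List α → ℝ) :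
    0 ≤ Dir cov p n X f := by
  induction n generalizing X f with
  | zero => exact le_refl _
  | succ n ih =>
    cases n with
    | zero => exact Finset.sum_nonneg fun Z hZ => mul_nonneg (h.pos X hX Z hZ).le (sq_nonneg _)
    | succ n =>
      exact add_nonneg (Finset.sum_nonneg fun Z hZ =>
        mul_nonneg (h.pos X hX Z hZ).le (ih Z (h.ok' X hX Z hZ) _)) (loc_nonneg h n X hX f)

theorem sum_Dir_le (h : Sys cov p t rk ok m) (n : ℕ) (X : α) (hX : ok X) (f : List α → ℝ) :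
    ∑ Z ∈ cov X, p X Z * Dir cov p n Z (fun l => f (Z :: l)) ≤ Dir cov p (n + 1) X f := by
  cases n with
  | zero =>
    have : ∑ Z ∈ cov X, p X Z * Dir cov p 0 Z (fun l => f (Z :: l)) = 0 :=
      Finset.sum_eq_zero fun Z _ => by simp [Dir]
    rw [this]
    exact Dir_nonneg h 1 X hX f
  | succ n => exact le_add_of_nonneg_right (loc_nonneg h n X hX f)

theorem g_le (h : Sys cov p t rk ok m) (n : ℕ) (X : α) (hX : ok X) (hn : rk X = n + 1)
    (f : List α → ℝ) {ε : ℝ} (hε : 0 < ε) (hε1 : ε ≤ 1) :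
    g cov p t n X f ≤ (1 + ε) ^ (2 * n) * (3 * (1 + 1 / ε) * m) * Dir cov p (n + 1) X f := by
  have hm0 : 0 ≤ m := zero_le_one.trans h.hm
  induction n generalizing X f with
  | zero =>
    have h1 : g cov p t 0 X f ≤ m * Dir cov p 1 X f := V_le h _ X hX
    refine h1.trans ?_
    rw [mul_zero, pow_zero, one_mul]
    refine mul_le_mul_of_nonneg_right ?_ (Dir_nonneg h 1 X hX f)
    have h2 : 0 ≤ 1 / ε := by positivity
    nlinarith
  | succ n ih =>
    refine (g_step h n X hX hn f hε hε1).trans ?_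
    set c := 3 * (1 + 1 / ε) * m with hc
    have hc0 : 0 ≤ c := by positivity
    have h1 : ∑ Z ∈ cov X, p X Z * g cov p t n Z (fun l => f (Z :: l)) ≤
        (1 + ε) ^ (2 * n) * c * ∑ Z ∈ cov X, p X Z * Dir cov p (n + 1) Z (fun l => f (Z :: l)) := by
      rw [Finset.mul_sum]
      refine Finset.sum_le_sum fun Z hZ => ?_
      have h2 := ih Z (h.ok' X hX Z hZ) (by have := h.rk' X hX Z hZ; omega) (fun l => f (Z :: l))
      calc p X Z * g cov p t n Z (fun l => f (Z :: l))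
          ≤ p X Z * ((1 + ε) ^ (2 * n) * c * Dir cov p (n + 1) Z (fun l => f (Z :: l))) :=
            mul_le_mul_of_nonneg_left h2 (h.pos X hX Z hZ).le
        _ = _ := by ring
    have h3 : (1 : ℝ) ≤ (1 + ε) ^ (2 * (n + 1)) := one_le_pow₀ (by linarith)
    have h4 : (1 + ε) ^ 2 * ∑ Z ∈ cov X, p X Z * g cov p t n Z (fun l => f (Z :: l)) ≤
        (1 + ε) ^ (2 * (n + 1)) * c *
          ∑ Z ∈ cov X, p X Z * Dir cov p (n + 1) Z (fun l => f (Z :: l)) := by
      refine (mul_le_mul_of_nonneg_left h1 (by positivity)).trans (le_of_eq ?_)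
      rw [show 2 * (n + 1) = 2 * n + 2 from by ring, pow_add]
      ring
    have h5 : c * loc cov p n X f ≤ (1 + ε) ^ (2 * (n + 1)) * c * loc cov p n X f := by
      have h6 : 0 ≤ c * loc cov p n X f := mul_nonneg hc0 (loc_nonneg h n X hX f)
      nlinarith
    calc _ ≤ (1 + ε) ^ (2 * (n + 1)) * c *
          ∑ Z ∈ cov X, p X Z * Dir cov p (n + 1) Z (fun l => f (Z :: l)) +
        (1 + ε) ^ (2 * (n + 1)) * c * loc cov p n X f := add_le_add h4 h5
      _ = (1 + ε) ^ (2 * (n + 1)) * c * Dir cov p (n + 2) X f := by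
        rw [Dir]
        ring

/-- decomposition of the variance -/
theorem var_step (h : Sys cov p t rk ok m) (n : ℕ) (X : α) (hX : ok X) (hn : rk X = n + 1)
    (f : List α → ℝ) :
    Ex cov p (n + 1) X (fun l => f l ^ 2) - Ex cov p (n + 1) X f ^ 2 ≤
      g cov p t n X f + ∑ Z ∈ cov X, p X Z * (Ex cov p n Z (fun l => f (Z :: l) ^ 2) -
        Ex cov p n Z (fun l => f (Z :: l)) ^ 2) := by
  have h1 := var_eq (s := cov X) (w := p X) (h := fun Z => Ex cov p n Z (fun l => f (Z :: l)))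
    (h.one X hX (by omega))
  have h2 : Ex cov p (n + 1) X (fun l => f l ^ 2) - Ex cov p (n + 1) X f ^ 2 =
      ∑ Z ∈ cov X, p X Z * (Ex cov p n Z (fun l => f (Z :: l)) -
        ∑ Z ∈ cov X, p X Z * Ex cov p n Z (fun l => f (Z :: l))) ^ 2 +
      ∑ Z ∈ cov X, p X Z * (Ex cov p n Z (fun l => f (Z :: l) ^ 2) -
        Ex cov p n Z (fun l => f (Z :: l)) ^ 2) := by
    rw [h1]
    simp only [Ex, mul_sub, Finset.sum_sub_distrib]
    ring
  rw [h2]
  exact add_le_add (var_le_V h _ X hX) (le_refl _)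

theorem var_le (h : Sys cov p t rk ok m) (n : ℕ) (X : α) (hX : ok X) (hn : rk X = n)
    (f : List α → ℝ) {ε : ℝ} (hε : 0 < ε) (hε1 : ε ≤ 1) :
    Ex cov p n X (fun l => f l ^ 2) - Ex cov p n X f ^ 2 ≤
      n * ((1 + ε) ^ (2 * n) * (3 * (1 + 1 / ε) * m)) * Dir cov p n X f := by
  have hm0 : 0 ≤ m := zero_le_one.trans h.hm
  induction n generalizing X f with
  | zero => simp [Ex, Dir]
  | succ n ih =>
    refine (var_step h n X hX hn f).trans ?_
    set c := 3 * (1 + 1 / ε) * m with hc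
    have hc0 : 0 ≤ c := by positivity
    have hD := Dir_nonneg h (n + 1) X hX f
    have hpow : (1 + ε) ^ (2 * n) ≤ (1 + ε) ^ (2 * (n + 1)) :=
      pow_le_pow_right₀ (by linarith) (by omega)
    have h1 : g cov p t n X f ≤ (1 + ε) ^ (2 * (n + 1)) * c * Dir cov p (n + 1) X f :=
      (g_le h n X hX hn f hε hε1).trans
        (mul_le_mul_of_nonneg_right (mul_le_mul_of_nonneg_right hpow hc0) hD)
    have h2 : ∑ Z ∈ cov X, p X Z * (Ex cov p n Z (fun l => f (Z :: l) ^ 2) -
        Ex cov p n Z (fun l => f (Z :: l)) ^ 2) ≤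
        n * ((1 + ε) ^ (2 * (n + 1)) * c) * Dir cov p (n + 1) X f := by
      have h3 : ∑ Z ∈ cov X, p X Z * (Ex cov p n Z (fun l => f (Z :: l) ^ 2) -
          Ex cov p n Z (fun l => f (Z :: l)) ^ 2) ≤
          n * ((1 + ε) ^ (2 * n) * c) * ∑ Z ∈ cov X, p X Z * Dir cov p n Z (fun l => f (Z :: l)) := by
        rw [Finset.mul_sum]
        refine Finset.sum_le_sum fun Z hZ => ?_
        have h4 := ih Z (h.ok' X hX Z hZ) (by have := h.rk' X hX Z hZ; omega) (fun l => f (Z :: l))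
        calc _ ≤ p X Z * (n * ((1 + ε) ^ (2 * n) * c) * Dir cov p n Z (fun l => f (Z :: l))) :=
              mul_le_mul_of_nonneg_left h4 (h.pos X hX Z hZ).le
          _ = _ := by ring
      refine h3.trans ?_
      have h5 := sum_Dir_le h n X hX f
      have h6 : (n : ℝ) * ((1 + ε) ^ (2 * n) * c) ≤ n * ((1 + ε) ^ (2 * (n + 1)) * c) :=
        mul_le_mul_of_nonneg_left (mul_le_mul_of_nonneg_right hpow hc0) (Nat.cast_nonneg n)
      have h7 : 0 ≤ (n : ℝ) * ((1 + ε) ^ (2 * n) * c) := by positivity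
      exact (mul_le_mul_of_nonneg_left h5 h7).trans (mul_le_mul_of_nonneg_right h6 hD)
    calc _ ≤ (1 + ε) ^ (2 * (n + 1)) * c * Dir cov p (n + 1) X f +
          n * ((1 + ε) ^ (2 * (n + 1)) * c) * Dir cov p (n + 1) X f := add_le_add h1 h2
      _ = _ := by push_cast; ring

/-- **the Poincare inequality for flags** -/
theorem poincare (h : Sys cov p t rk ok m) (R : ℕ) (hR : 1 ≤ R) (n : ℕ) (hnR : n ≤ R) (X : α)
    (hX : ok X) (hn : rk X = n) (f : List α → ℝ) :
    Ex cov p n X (fun l => f l ^ 2) - Ex cov p n X f ^ 2 ≤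
      24 * R * (R + 1) * m * Dir cov p n X f := by
  have hR0 : (0 : ℝ) < R := by exact_mod_cast hR
  have hR1 : (1 : ℝ) ≤ R := by exact_mod_cast hR
  have hm0 : 0 ≤ m := zero_le_one.trans h.hm
  have h1 := var_le h n X hX hn f (ε := 1 / R) (by positivity) (by rw [div_le_one hR0]; exact hR1)
  refine h1.trans (mul_le_mul_of_nonneg_right ?_ (Dir_nonneg h n X hX f))
  have h2 : (1 + 1 / (R : ℝ)) ^ (2 * n) ≤ 8 := by
    have h3 : (1 + 1 / (R : ℝ)) ^ (2 * n) ≤ (1 + 1 / (R : ℝ)) ^ (2 * R) :=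
      pow_le_pow_right₀ (by have : 0 ≤ 1 / (R : ℝ) := by positivity
                            linarith) (by omega)
    refine h3.trans ?_
    have h4 : 1 + 1 / (R : ℝ) ≤ Real.exp (1 / R) := by
      have := Real.add_one_le_exp (1 / (R : ℝ))
      linarith
    have h5 : (1 + 1 / (R : ℝ)) ^ (2 * R) ≤ Real.exp (1 / R) ^ (2 * R) :=
      pow_le_pow_left₀ (by positivity) h4 _
    refine h5.trans ?_
    rw [← Real.exp_nat_mul]
    have h6 : ((2 * R : ℕ) : ℝ) * (1 / R) = 2 := by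
      push_cast
      field_simp
    rw [h6]
    have h7 : Real.exp 2 = Real.exp 1 * Real.exp 1 := by
      rw [← Real.exp_add]
      norm_num
    rw [h7]
    have h8 := Real.exp_one_lt_d9
    nlinarith [Real.exp_pos 1]
  have h9 : (n : ℝ) ≤ R := by exact_mod_cast hnR
  have h10 : 1 + 1 / (1 / (R : ℝ)) = R + 1 := by
    rw [one_div_one_div]
    ring
  rw [h10]
  calc (n : ℝ) * ((1 + 1 / (R : ℝ)) ^ (2 * n) * (3 * (R + 1) * m))
      ≤ R * (8 * (3 * (R + 1) * m)) := by
        refine mul_le_mul h9 (mul_le_mul_of_nonneg_right h2 (by positivity)) (by positivity)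
          (by positivity)
    _ = 24 * R * (R + 1) * m := by ring

end ACY.GPoi
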