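import Pool.Agent.ACY.GSu

/-!
# ACY-GPp: the transition probabilities

Weisner's theorem for every element of `X` gives the sum of the transition probabilities; bounds; the product of two steps.
-/

set_option autoImplicit false

namespace ACY

open Finset

variable {α : Type} [DecidableEq α] {r : Finset α → ℕ} {w : α → ℕ} {S A B C D F G W X Y Z : Finset α} {e f g x : α}
  {k j n : ℕ}

private theorem GPp_ne (hZ : Z ∈ lev r X 1) : X.Nonempty :=
  (sdiff_nonempty (k := 0) hZ).mono Finset.sdiff_subset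

private theorem GPp_om (h : Gd r w X) (hX : X.Nonempty) : (0 : ℝ) < (om w X : ℝ) := by
  exact_mod_cast h.om_pos (Finset.Subset.refl X) hX

private theorem GPp_sd (h : Gd r w X) (hZ : Z ∈ lev r X 1) : 0 < om w (X \ Z) :=
  h.om_pos Finset.sdiff_subset (sdiff_nonempty (k := 0) hZ)

theorem sum_om (h : Gd r w X) :
    ∑ Z ∈ lev r X 1, (om w (X \ Z) : ℝ) * T r Z = (om w X : ℝ) * T r X := by
  have h1 : ∀ Z ∈ lev r X 1, (om w (X \ Z) : ℝ) * T r Z = ∑ e ∈ X, if e ∉ Z then (w e : ℝ) * T r Z else 0 := by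
    intro Z hZ
    have h2 : X \ Z = X.filter (fun e => e ∉ Z) := by
      ext e
      rw [Finset.mem_sdiff, Finset.mem_filter]
    rw [← Finset.sum_filter, ← h2, ← Finset.sum_mul, om]
    push_cast
    rfl
  rw [Finset.sum_congr rfl h1, Finset.sum_comm]
  have h3 : ∀ e ∈ X, (∑ Z ∈ lev r X 1, if e ∉ Z then (w e : ℝ) * T r Z else 0) = (w e : ℝ) * T r X := by
    intro e he
    rw [← Finset.sum_filter, ← Finset.mul_sum, ← weisner h.rk he]
  rw [Finset.sum_congr rfl h3, ← Finset.sum_mul, om]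
  push_cast
  rfl

theorem PP_pos (h : Gd r w X) (hZ : Z ∈ lev r X 1) : 0 < PP r w X Z := by
  have h1 := GPp_om h (GPp_ne hZ)
  have h2 : (0 : ℝ) < (om w (X \ Z) : ℝ) := by exact_mod_cast GPp_sd h hZ
  exact div_pos (mul_pos h2 (h.lev hZ).Tpos) (mul_pos h1 h.Tpos)

theorem PP_sum (h : Gd r w X) (hX : X.Nonempty) : ∑ Z ∈ lev r X 1, PP r w X Z = 1 := by
  have h1 := GPp_om h hX
  unfold PP
  rw [← Finset.sum_div, sum_om h]
  exact div_self (mul_pos h1 h.Tpos).ne'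

theorem PP_le (h : Gd r w X) (hZ : Z ∈ lev r X 1) : PP r w X Z ≤ T r Z / T r X := by
  have h1 := GPp_om h (GPp_ne hZ)
  have h2 : (om w (X \ Z) : ℝ) ≤ (om w X : ℝ) := by exact_mod_cast om_mono Finset.sdiff_subset
  unfold PP
  rw [div_le_div_iff₀ (mul_pos h1 h.Tpos) h.Tpos]
  have h3 : 0 ≤ T r Z * T r X := (mul_pos (h.lev hZ).Tpos h.Tpos).le
  calc (om w (X \ Z) : ℝ) * T r Z * T r X = (om w (X \ Z) : ℝ) * (T r Z * T r X) := by ring
    _ ≤ (om w X : ℝ) * (T r Z * T r X) := mul_le_mul_of_nonneg_right h2 h3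
    _ = T r Z * ((om w X : ℝ) * T r X) := by ring

theorem le_PP (h : Gd r w X) (hZ : Z ∈ lev r X 1) : T r Z / T r X ≤ (om w X : ℝ) * PP r w X Z := by
  have h1 := GPp_om h (GPp_ne hZ)
  have h2 : (1 : ℝ) ≤ (om w (X \ Z) : ℝ) := by exact_mod_cast GPp_sd h hZ
  have h3 := h.Tpos
  have h4 : (om w X : ℝ) * PP r w X Z = (om w (X \ Z) : ℝ) * T r Z / T r X := by
    unfold PP
    field_simp
  rw [h4, div_le_div_iff_of_pos_right h3]
  exact le_mul_of_one_le_left (h.lev hZ).Tpos.le h2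

/-- two steps -/
theorem PP_two (h : Gd r w X) (hZ : Z ∈ lev r X 1) (hW : W ∈ lev r Z 1) :
    PP r w X Z * PP r w Z W * (om w Z : ℝ) =
      T r W / ((om w X : ℝ) * T r X) * ((om w (X \ Z) : ℝ) * (om w (Z \ W) : ℝ)) := by
  have h1 := GPp_om h (GPp_ne hZ)
  have h2 := GPp_om (h.lev hZ) (GPp_ne hW)
  have h3 := h.Tpos
  have h4 := (h.lev hZ).Tpos
  unfold PP
  field_simp

end ACY
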