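import Pool.Agent.ACY.GCb
import Pool.Agent.ACY.GCn

/-!
# ACY-GSt: the averaged step on full lists `F = S :: l`

The average over the moves of the chain on the flags `l` below `S` is the averaged step `stq` on the lists `S :: l`: only the
sites `i` with two further entries and the elements of `X_i` outside of `X_{i+2}` contribute.
-/

set_option autoImplicit false

namespace ACY

open Finset

variable {α : Type} [DecidableEq α] {r : Finset α → ℕ} {w : α → ℕ} {S X : Finset α} {n N0 N1 N2 A : ℕ}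

/-- the proposed flat at the site `i` of the full list `F` -/
def nwF (r : Finset α → ℕ) (F : List (Finset α)) (i : ℕ) (f : α) : Finset α :=
  cl r (F.getD i ∅) (insert f (F.getD (i + 2) ∅))

/-- the averaged step -/
noncomputable def stq (r : Finset α → ℕ) (w : α → ℕ) (kap : ℝ) (ψ : List (Finset α) → ℝ) (F : List (Finset α)) : ℝ :=
  ψ F + kap * ∑ i ∈ Finset.range (F.length - 2), ∑ f ∈ F.getD i ∅ \ F.getD (i + 2) ∅,
    (w f : ℝ) * (om w (F.getD i ∅ \ nwF r F i f) : ℝ) * (om w (F.getD (i + 1) ∅) : ℝ) *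
      (ψ (F.set (i + 1) (nwF r F i f)) - ψ F)

theorem mv_eq (i : ℕ) (X : Finset α) (l : List (Finset α)) (g : α) (v : ℕ) :
    mv r w i X l g v = if i + 1 < l.length ∧ g ∈ (X :: l).getD i ∅ ∧ g ∉ (X :: l).getD (i + 2) ∅ ∧
        v < w g * (om w ((X :: l).getD i ∅ \ nwF r (X :: l) i g) * om w ((X :: l).getD (i + 1) ∅)) then
      l.set i (nwF r (X :: l) i g) else l := by
  induction i generalizing X l with
  | zero =>
    match l with
    | [] => simp [mv]
    | [Z] => simp [mv]
    | Z :: W :: l =>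
      have h1 : 0 + 1 < (Z :: W :: l).length := by
        simp only [List.length_cons]
        omega
      have h2 : nwF r (X :: Z :: W :: l) 0 g = cl r X (insert g W) := rfl
      have e0 : (X :: Z :: W :: l).getD 0 ∅ = X := rfl
      have e1 : (X :: Z :: W :: l).getD (0 + 1) ∅ = Z := rfl
      have e2 : (X :: Z :: W :: l).getD (0 + 2) ∅ = W := rfl
      rw [h2, e0, e1, e2]
      have e3 : (Z :: W :: l).set 0 (cl r X (insert g W)) = cl r X (insert g W) :: W :: l := rfl
      have e4 : mv r w 0 X (Z :: W :: l) g v = mv0 r w X Z W g v :: W :: l := rfl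
      rw [e3, e4]
      unfold mv0
      by_cases hc : g ∈ X ∧ g ∉ W ∧ v < w g * (om w (X \ cl r X (insert g W)) * om w Z)
      · rw [if_pos hc, if_pos ⟨h1, hc⟩]
      · rw [if_neg hc, if_neg fun h => hc h.2]
  | succ i ih =>
    match l with
    | [] => simp [mv]
    | Z :: l =>
      have e0 : (X :: Z :: l).getD (i + 1) ∅ = (Z :: l).getD i ∅ := rfl
      have e1 : (X :: Z :: l).getD (i + 1 + 1) ∅ = (Z :: l).getD (i + 1) ∅ := rfl
      have e2 : (X :: Z :: l).getD (i + 1 + 2) ∅ = (Z :: l).getD (i + 2) ∅ := rfl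
      have h2 : nwF r (X :: Z :: l) (i + 1) g = nwF r (Z :: l) i g := rfl
      have e3 : (Z :: l).set (i + 1) (nwF r (Z :: l) i g) = Z :: l.set i (nwF r (Z :: l) i g) := rfl
      have e4 : mv r w (i + 1) X (Z :: l) g v = Z :: mv r w i Z l g v := rfl
      rw [h2, e0, e1, e2, e3, e4, ih Z l]
      have h3 : i + 1 + 1 < (Z :: l).length ↔ i + 1 < l.length := by
        simp only [List.length_cons]
        omega
      by_cases hc : i + 1 < l.length ∧ g ∈ (Z :: l).getD i ∅ ∧ g ∉ (Z :: l).getD (i + 2) ∅ ∧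
          v < w g * (om w ((Z :: l).getD i ∅ \ nwF r (Z :: l) i g) * om w ((Z :: l).getD (i + 1) ∅))
      · rw [if_pos hc, if_pos ⟨h3.2 hc.1, hc.2⟩]
      · rw [if_neg hc, if_neg fun h => hc ⟨h3.1 h.1, h.2⟩]

theorem Flg_length (X : Finset α) (l : List (Finset α)) (h : Flg r n X l) : l.length = n := by
  induction n generalizing X l with
  | zero =>
    have h1 : l = [] := h
    rw [h1]
    rfl
  | succ n ih =>
    match l, h with
    | Z :: l, h =>
      rw [List.length_cons, ih Z l h.2]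

private theorem GSt_sub (l : List (Finset α)) (X : Finset α) (n : ℕ) (h : Flg r n X l) (i : ℕ) :
    (X :: l).getD i ∅ ⊆ X := by
  induction i generalizing X l n with
  | zero => exact Finset.Subset.refl X
  | succ i ih =>
    match n, l, h with
    | 0, [], _ => exact Finset.empty_subset X
    | n + 1, Z :: l, h => exact (ih l Z n h.2).trans (lev_sub h.1)

private theorem GSt_range {N c : ℕ} (hc : c ≤ N) (a b : ℝ) :
    ∑ v ∈ Finset.range N, (if v < c then a else b) = (N : ℝ) * b + (c : ℝ) * (a - b) := by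
  have h1 : ∀ v ∈ Finset.range N, (if v < c then a else b) = b + (if v < c then a - b else 0) := by
    intro v _
    split_ifs
    · ring
    · ring
  have h2 : (Finset.range N).filter (fun v => v < c) = Finset.range c := by
    ext v
    simp only [Finset.mem_filter, Finset.mem_range]
    omega
  rw [Finset.sum_congr rfl h1, Finset.sum_add_distrib, ← Finset.sum_filter, h2, Finset.sum_const, Finset.sum_const,
    Finset.card_range, Finset.card_range, nsmul_eq_mul, nsmul_eq_mul]

private theorem GSt_sum {E : List α} (hE : E.Nodup) (hES : E.toFinset = S) (hN1 : E.length ≤ N1)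
    (l : List (Finset α)) (G : List (Finset α) → ℝ) :
    ∑ u : Fin N0 × Fin N1 × Fin N2, G (stp r w E S N0 N1 N2 u l) =
      ∑ i ∈ Finset.range N0, (∑ g ∈ S, ∑ v ∈ Finset.range N2, G (mv r w i S l g v) +
        ((N1 - E.length : ℕ) : ℝ) * ((N2 : ℝ) * G l)) := by
  simp only [stp]
  rw [Fintype.sum_prod_type]
  have h1 : ∀ i : Fin N0, ∑ y : Fin N1 × Fin N2, G (mvE r w E S i y.1 y.2 l) =
      ∑ g ∈ S, ∑ v ∈ Finset.range N2, G (mv r w i S l g v) +
        ((N1 - E.length : ℕ) : ℝ) * ((N2 : ℝ) * G l) := by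
    intro i
    rw [Fintype.sum_prod_type]
    have h2 : ∀ j : Fin N1, ∑ v : Fin N2, G (mvE r w E S i j v l) =
        (fun j : ℕ => ∑ v ∈ Finset.range N2, G (mvE r w E S i j v l)) j := by
      intro j
      exact Fin.sum_univ_eq_sum_range (fun v => G (mvE r w E S i j v l)) N2
    rw [Finset.sum_congr rfl fun j _ => h2 j,
      Fin.sum_univ_eq_sum_range (fun j : ℕ => ∑ v ∈ Finset.range N2, G (mvE r w E S i j v l)) N1]
    have h3 := sum_getElem E hE hN1 (fun o : Option α => ∑ v ∈ Finset.range N2,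
      G (match o with
        | none => l
        | some g => mv r w i S l g v))
    have h4 : ∀ j ∈ Finset.range N1, (fun j : ℕ => ∑ v ∈ Finset.range N2, G (mvE r w E S i j v l)) j =
        (fun o : Option α => ∑ v ∈ Finset.range N2,
      G (match o with
        | none => l
        | some g => mv r w i S l g v)) (E[j]?) := by
      intro j _
      simp only [mvE]
      cases E[j]? <;> rfl
    rw [Finset.sum_congr rfl h4, h3, hES]
    simp only [Finset.sum_const, Finset.card_range, nsmul_eq_mul]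
  rw [Finset.sum_congr rfl fun i _ => h1 i]
  exact Fin.sum_univ_eq_sum_range (fun i : ℕ => ∑ g ∈ S, ∑ v ∈ Finset.range N2, G (mv r w i S l g v) +
        ((N1 - E.length : ℕ) : ℝ) * ((N2 : ℝ) * G l)) N0

/-- the contribution of one element at one site -/
private theorem GSt_one (hN2 : A ≤ N2) (hA : ∀ g ∈ S, w g * (om w S * om w S) ≤ A) {l : List (Finset α)}
    (hl : Flg r n S l) (f : List (Finset α) → ℝ) (i : ℕ) (hi : i + 1 < l.length) {g : α} (hg : g ∈ S) :
    ∑ v ∈ Finset.range N2, f (mv r w i S l g v) = (N2 : ℝ) * f l +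
      (if g ∈ (S :: l).getD i ∅ \ (S :: l).getD (i + 2) ∅ then
        (w g : ℝ) * (om w ((S :: l).getD i ∅ \ nwF r (S :: l) i g) : ℝ) * (om w ((S :: l).getD (i + 1) ∅) : ℝ) *
          (f (l.set i (nwF r (S :: l) i g)) - f l) else 0) := by
  by_cases hgi : g ∈ (S :: l).getD i ∅ \ (S :: l).getD (i + 2) ∅
  · rw [if_pos hgi]
    rw [Finset.mem_sdiff] at hgi
    have hc : w g * (om w ((S :: l).getD i ∅ \ nwF r (S :: l) i g) * om w ((S :: l).getD (i + 1) ∅)) ≤ N2 := by
      refine le_trans (Nat.mul_le_mul_left _ (Nat.mul_le_mul ?_ ?_)) ((hA g hg).trans hN2)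
      · exact om_mono (Finset.sdiff_subset.trans (GSt_sub l S n hl i))
      · exact om_mono (GSt_sub l S n hl (i + 1))
    have h1 : ∀ v ∈ Finset.range N2, f (mv r w i S l g v) =
        (if v < w g * (om w ((S :: l).getD i ∅ \ nwF r (S :: l) i g) * om w ((S :: l).getD (i + 1) ∅)) then
          f (l.set i (nwF r (S :: l) i g)) else f l) := by
      intro v _
      rw [mv_eq]
      by_cases hv : v < w g * (om w ((S :: l).getD i ∅ \ nwF r (S :: l) i g) * om w ((S :: l).getD (i + 1) ∅))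
      · rw [if_pos hv, if_pos ⟨hi, hgi.1, hgi.2, hv⟩]
      · rw [if_neg hv, if_neg fun h => hv h.2.2.2]
    rw [Finset.sum_congr rfl h1, GSt_range hc]
    push_cast
    ring
  · rw [if_neg hgi, add_zero]
    rw [Finset.mem_sdiff] at hgi
    have h1 : ∀ v ∈ Finset.range N2, f (mv r w i S l g v) = f l := by
      intro v _
      rw [mv_eq, if_neg fun h => hgi ⟨h.2.1, h.2.2.1⟩]
    rw [Finset.sum_congr rfl h1, Finset.sum_const, Finset.card_range, nsmul_eq_mul]

private theorem GSt_site (hN2 : A ≤ N2) (hA : ∀ g ∈ S, w g * (om w S * om w S) ≤ A) {l : List (Finset α)}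
    (hl : Flg r n S l) (f : List (Finset α) → ℝ) (i : ℕ) :
    ∑ g ∈ S, ∑ v ∈ Finset.range N2, f (mv r w i S l g v) = (S.card : ℝ) * ((N2 : ℝ) * f l) +
      (if i + 1 < l.length then ∑ g ∈ (S :: l).getD i ∅ \ (S :: l).getD (i + 2) ∅,
        (w g : ℝ) * (om w ((S :: l).getD i ∅ \ nwF r (S :: l) i g) : ℝ) * (om w ((S :: l).getD (i + 1) ∅) : ℝ) *
          (f (l.set i (nwF r (S :: l) i g)) - f l) else 0) := by
  by_cases hi : i + 1 < l.length
  · rw [if_pos hi, Finset.sum_congr rfl fun g hg => GSt_one hN2 hA hl f i hi hg, Finset.sum_add_distrib,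
      Finset.sum_const, nsmul_eq_mul, ← Finset.sum_filter]
    have hf : S.filter (fun g => g ∈ (S :: l).getD i ∅ \ (S :: l).getD (i + 2) ∅) =
        (S :: l).getD i ∅ \ (S :: l).getD (i + 2) ∅ := by
      ext g
      rw [Finset.mem_filter]
      exact ⟨fun h => h.2, fun h => ⟨GSt_sub l S n hl i (Finset.mem_sdiff.1 h).1, h⟩⟩
    rw [hf]
  · rw [if_neg hi, add_zero]
    have h1 : ∀ g ∈ S, ∑ v ∈ Finset.range N2, f (mv r w i S l g v) = (N2 : ℝ) * f l := by
      intro g _
      have h2 : ∀ v ∈ Finset.range N2, f (mv r w i S l g v) = f l := by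
        intro v _
        rw [mv_eq, if_neg fun h => hi h.1]
      rw [Finset.sum_congr rfl h2, Finset.sum_const, Finset.card_range, nsmul_eq_mul]
    rw [Finset.sum_congr rfl h1, Finset.sum_const, nsmul_eq_mul]

theorem st_eq (h : Gd r w S) {E : List α} (hE : E.Nodup) (hES : E.toFinset = S)
    (hN0 : n ≤ N0) (hN00 : 0 < N0) (hN1 : E.length ≤ N1) (hN10 : 0 < N1) (hN2 : A ≤ N2) (hN20 : 0 < N2)
    (hA : ∀ g ∈ S, w g * (om w S * om w S) ≤ A) {l : List (Finset α)} (hl : Flg r n S l) (f ψ : List (Finset α) → ℝ)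
    (hf : ∀ l, Flg r n S l → ψ (S :: l) = f l) :
    KK (stp r w E S N0 N1 N2) f l = stq r w (1 / (N0 * (N1 * N2))) ψ (S :: l) := by
  have hlen : l.length = n := Flg_length S l hl
  have hcard : (S.card : ℝ) + ((N1 - E.length : ℕ) : ℝ) = N1 := by
    rw [← hES, List.toFinset_card_of_nodup hE, Nat.cast_sub hN1]
    ring
  unfold KK stq
  rw [GSt_sum hE hES hN1 l f]
  have h1 : ∀ i ∈ Finset.range N0, ∑ g ∈ S, ∑ v ∈ Finset.range N2, f (mv r w i S l g v) +
      ((N1 - E.length : ℕ) : ℝ) * ((N2 : ℝ) * f l) = (N1 : ℝ) * ((N2 : ℝ) * f l) +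
      (if i + 1 < l.length then ∑ g ∈ (S :: l).getD i ∅ \ (S :: l).getD (i + 2) ∅,
        (w g : ℝ) * (om w ((S :: l).getD i ∅ \ nwF r (S :: l) i g) : ℝ) * (om w ((S :: l).getD (i + 1) ∅) : ℝ) *
          (f (l.set i (nwF r (S :: l) i g)) - f l) else 0) := by
    intro i _
    rw [GSt_site hN2 hA hl f i, ← hcard]
    ring
  rw [Finset.sum_congr rfl h1, Finset.sum_add_distrib, Finset.sum_const, Finset.card_range, nsmul_eq_mul,
    ← Finset.sum_filter]
  have h2 : (Finset.range N0).filter (fun i => i + 1 < l.length) = Finset.range ((S :: l).length - 2) := by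
    ext i
    simp only [Finset.mem_filter, Finset.mem_range, List.length_cons]
    omega
  have h3 : ∀ i ∈ Finset.range ((S :: l).length - 2), (∑ g ∈ (S :: l).getD i ∅ \ (S :: l).getD (i + 2) ∅,
        (w g : ℝ) * (om w ((S :: l).getD i ∅ \ nwF r (S :: l) i g) : ℝ) * (om w ((S :: l).getD (i + 1) ∅) : ℝ) *
          (f (l.set i (nwF r (S :: l) i g)) - f l)) =
      ∑ g ∈ (S :: l).getD i ∅ \ (S :: l).getD (i + 2) ∅,
        (w g : ℝ) * (om w ((S :: l).getD i ∅ \ nwF r (S :: l) i g) : ℝ) * (om w ((S :: l).getD (i + 1) ∅) : ℝ) *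
          (ψ ((S :: l).set (i + 1) (nwF r (S :: l) i g)) - ψ (S :: l)) := by
    intro i hi
    rw [Finset.mem_range, List.length_cons] at hi
    refine Finset.sum_congr rfl fun g hg => ?_
    rw [Finset.mem_sdiff] at hg
    have h4 : (S :: l).set (i + 1) (nwF r (S :: l) i g) = S :: l.set i (nwF r (S :: l) i g) := rfl
    rw [h4, hf l hl]
    by_cases hc : 0 < w g * (om w ((S :: l).getD i ∅ \ nwF r (S :: l) i g) * om w ((S :: l).getD (i + 1) ∅))
    · have h5 := mv_flg h i hl g 0
      rw [mv_eq, if_pos ⟨by omega, hg.1, hg.2, hc⟩] at h5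
      rw [hf _ h5]
    · have h6 : w g * (om w ((S :: l).getD i ∅ \ nwF r (S :: l) i g) * om w ((S :: l).getD (i + 1) ∅)) = 0 := by
        omega
      have h7 : (w g : ℝ) * (om w ((S :: l).getD i ∅ \ nwF r (S :: l) i g) : ℝ) *
          (om w ((S :: l).getD (i + 1) ∅) : ℝ) = 0 := by
        rw [mul_assoc]
        exact_mod_cast h6
      rw [h7, zero_mul, zero_mul]
  rw [h2, Finset.sum_congr rfl h3, hf l hl]
  have hc : ((Fintype.card (Fin N0 × Fin N1 × Fin N2) : ℕ) : ℝ) = N0 * (N1 * N2) := by simp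
  rw [hc]
  have h0 : (N0 : ℝ) ≠ 0 := by
    have : N0 ≠ 0 := by omega
    exact_mod_cast this
  have h10 : (N1 : ℝ) ≠ 0 := by
    have : N1 ≠ 0 := by omega
    exact_mod_cast this
  have h20 : (N2 : ℝ) ≠ 0 := by
    have : N2 ≠ 0 := by omega
    exact_mod_cast this
  have h9 : (N0 : ℝ) * (N1 * N2) ≠ 0 := mul_ne_zero h0 (mul_ne_zero h10 h20)
  rw [add_div]
  have h11 : (N0 : ℝ) * ((N1 : ℝ) * ((N2 : ℝ) * f l)) / (N0 * (N1 * N2)) = f l := by
    rw [div_eq_iff h9]
    ring
  rw [h11, div_eq_mul_one_div, mul_comm _ (1 / ((N0 : ℝ) * (N1 * N2)))]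

theorem st_iter (h : Gd r w S) {E : List α} (hE : E.Nodup) (hES : E.toFinset = S)
    (hN0 : n ≤ N0) (hN00 : 0 < N0) (hN1 : E.length ≤ N1) (hN10 : 0 < N1) (hN2 : A ≤ N2) (hN20 : 0 < N2)
    (hA : ∀ g ∈ S, w g * (om w S * om w S) ≤ A) {l : List (Finset α)} (hl : Flg r n S l) (f ψ : List (Finset α) → ℝ)
    (hf : ∀ l, Flg r n S l → ψ (S :: l) = f l) (t : ℕ) :
    (stq r w (1 / (N0 * (N1 * N2))))^[t] ψ (S :: l) = (KK (stp r w E S N0 N1 N2))^[t] f l := by
  induction t generalizing l with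
  | zero => exact hf l hl
  | succ t ih =>
    rw [Function.iterate_succ_apply', Function.iterate_succ_apply']
    exact (st_eq h hE hES hN0 hN00 hN1 hN10 hN2 hN20 hA hl _ _ fun l' hl' => ih hl').symm

end ACY
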