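import Pool.Agent.ACY.Ba

/-!
# ACY-We: Weisner's theorem

The subsets `A` of `X` are paired by `e ∈ A`; the pairs with `r A = r X` cancel. The remaining subsets `A` of `X.erase e`
(with `r A + 1 = r X`, `r (insert e A) = r X`) are grouped by the flat `Z = cl r X A`.
-/

set_option autoImplicit false

namespace ACY

open Finset

variable {α : Type} [DecidableEq α] {r : Finset α → ℕ} {S A B C D F G W X Z : Finset α} {e f x : α} {k j : ℕ}

private theorem We_left (hr : RK r) (he : e ∈ X) :
    T r X = ∑ A ∈ (X.erase e).powerset.filter (fun A => r A + 1 = r X ∧ r (insert e A) = r X),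
      -(-1 : ℝ) ^ (A.card + r X) := by
  unfold T
  rw [Finset.sum_filter, Finset.sum_filter]
  conv_lhs => rw [← Finset.insert_erase he]
  rw [Finset.sum_powerset_insert (Finset.notMem_erase e X), ← Finset.sum_add_distrib, Finset.insert_erase he]
  refine Finset.sum_congr rfl fun A hA => ?_
  have hA' : A ⊆ X.erase e := Finset.mem_powerset.1 hA
  have heA : e ∉ A := fun h => Finset.notMem_erase e X (hA' h)
  have hAX : A ⊆ X := hA'.trans (Finset.erase_subset e X)
  have hins : insert e A ⊆ X := Finset.insert_subset he hAX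
  have h1 : r A ≤ r X := hr.mono _ _ hAX
  have h2 : r (insert e A) ≤ r X := hr.mono _ _ hins
  have h3 : r A ≤ r (insert e A) := hr.mono _ _ (Finset.subset_insert e A)
  have h4 := hr.one A e
  rw [Finset.card_insert_of_notMem heA]
  by_cases h5 : r A = r X
  · have h6 : r (insert e A) = r X := by omega
    have h7 : ¬ (r A + 1 = r X ∧ r (insert e A) = r X) := fun h => by omega
    rw [if_pos h5, if_pos h6, if_neg h7]
    ring
  · by_cases h6 : r (insert e A) = r X
    · have h7 : r A + 1 = r X ∧ r (insert e A) = r X := ⟨by omega, h6⟩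
      rw [if_neg h5, if_pos h6, if_pos h7]
      ring
    · have h7 : ¬ (r A + 1 = r X ∧ r (insert e A) = r X) := fun h => h6 h.2
      rw [if_neg h5, if_neg h6, if_neg h7]
      ring

theorem weisner (hr : RK r) (he : e ∈ X) :
    T r X = ∑ Z ∈ (lev r X 1).filter (fun Z => e ∉ Z), T r Z := by
  rw [We_left hr he]
  have hmaps : ∀ A ∈ (X.erase e).powerset.filter (fun A => r A + 1 = r X ∧ r (insert e A) = r X),
      cl r X A ∈ (lev r X 1).filter (fun Z => e ∉ Z) := by
    intro A hA
    rw [Finset.mem_filter, Finset.mem_powerset] at hA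
    have hAX : A ⊆ X := hA.1.trans (Finset.erase_subset e X)
    have h1 := r_cl hr hAX
    rw [Finset.mem_filter, mem_lev]
    refine ⟨⟨cl_flat hr hAX, by omega⟩, fun h => ?_⟩
    have h2 : r (insert e A) = r A := by
      unfold cl at h
      exact (Finset.mem_filter.1 h).2
    omega
  rw [← Finset.sum_fiberwise_of_maps_to hmaps]
  refine Finset.sum_congr rfl fun Z hZ => ?_
  rw [Finset.mem_filter, mem_lev] at hZ
  obtain ⟨⟨hZ1, hZ2⟩, hZ3⟩ := hZ
  have hZX : Z ⊆ X := (mem_flats.1 hZ1).1
  unfold T
  have hset : ((X.erase e).powerset.filter (fun A => r A + 1 = r X ∧ r (insert e A) = r X)).filter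
      (fun A => cl r X A = Z) = Z.powerset.filter (fun A => r A = r Z) := by
    ext A
    simp only [Finset.mem_filter, Finset.mem_powerset]
    constructor
    · rintro ⟨⟨h1, h2, h3⟩, h4⟩
      have hAX : A ⊆ X := h1.trans (Finset.erase_subset e X)
      have h5 := sub_cl (r := r) hAX
      have h6 := r_cl hr hAX
      rw [h4] at h5 h6
      exact ⟨h5, h6.symm⟩
    · rintro ⟨h1, h2⟩
      have hAX : A ⊆ X := h1.trans hZX
      have heA : e ∉ A := fun h => hZ3 (h1 h)
      have h3 : r (insert e A) = r X := by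
        have h4 := hr.one A e
        have h5 : r A ≤ r (insert e A) := hr.mono _ _ (Finset.subset_insert e A)
        have h6 : r (insert e A) ≠ r A := fun h => hZ3 (mem_of_flat hr hZ1 h1 he h)
        omega
      refine ⟨⟨fun x hx => Finset.mem_erase.2 ⟨fun h => heA (h ▸ hx), hAX hx⟩, by omega, h3⟩, ?_⟩
      exact flat_eq hr (cl_flat hr hAX) hZX (cl_min hr hZ1 h1) ((r_cl hr hAX).trans h2)
  rw [hset]
  refine Finset.sum_congr rfl fun A _ => ?_
  rw [← hZ2, ← add_assoc, pow_succ]
  ring

end ACY
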