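import Pool.Agent.ACY.Td
import Pool.Agent.ACY.We

/-!
# ACY-Tp: positivity of `T`

`T r X` is nonnegative, and positive when `X` has no loop. Both by induction on the cardinality, by deletion and contraction of an element.
-/

set_option autoImplicit false

namespace ACY

open Finset

variable {α : Type} [DecidableEq α] {r : Finset α → ℕ} {S A B C D F G W X Z : Finset α} {e f x : α} {k j : ℕ}

private theorem Tp_nn (n : ℕ) : ∀ (r : Finset α → ℕ) (X : Finset α), RK r → X.card = n → 0 ≤ T r X := by
  induction n with
  | zero =>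
    intro r X hr hX
    rw [Finset.card_eq_zero.1 hX, T_empty hr]
    exact zero_le_one
  | succ n ih =>
    intro r X hr hX
    obtain ⟨f, hf⟩ : X.Nonempty := by
      rw [← Finset.card_pos, hX]
      exact Nat.succ_pos n
    have hc : (X.erase f).card = n := by rw [Finset.card_erase_of_mem hf, hX]; rfl
    rcases hr.sing f with h0 | h1
    · rw [T_loop hr hf h0]
    · rcases Nat.lt_or_ge (r (X.erase f)) (r X) with h2 | h2
      · rw [(T_col hr hf h2).2]
        exact ih r _ hr hc
      · rw [T_del hr hf h1 (le_antisymm (hr.mono _ _ (Finset.erase_subset _ _)) h2)]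
        exact add_nonneg (ih r _ hr hc) (ih _ _ (hr.con _) hc)

private theorem Tp_p (hr : RK r) (n : ℕ) :
    ∀ X : Finset α, (∀ x ∈ X, r {x} = 1) → X.card = n → 0 < T r X := by
  induction n with
  | zero =>
    intro X _ hX
    rw [Finset.card_eq_zero.1 hX, T_empty hr]
    exact zero_lt_one
  | succ n ih =>
    intro X h hX
    obtain ⟨f, hf⟩ : X.Nonempty := by
      rw [← Finset.card_pos, hX]
      exact Nat.succ_pos n
    have hc : (X.erase f).card = n := by rw [Finset.card_erase_of_mem hf, hX]; rfl
    have hp : 0 < T r (X.erase f) := ih _ (fun x hx => h x (Finset.mem_of_mem_erase hx)) hc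
    rcases Nat.lt_or_ge (r (X.erase f)) (r X) with h2 | h2
    · rw [(T_col hr hf h2).2]
      exact hp
    · rw [T_del hr hf (h f hf) (le_antisymm (hr.mono _ _ (Finset.erase_subset _ _)) h2)]
      exact add_pos_of_pos_of_nonneg hp (Tp_nn n _ _ (hr.con _) hc)

theorem T_nonneg (hr : RK r) (X : Finset α) : 0 ≤ T r X :=
  Tp_nn X.card r X hr rfl

theorem T_pos (hr : RK r) (h : ∀ x ∈ X, r {x} = 1) : 0 < T r X :=
  Tp_p hr X.card X h rfl

end ACY
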