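import Pool.Agent.ACY.GDefs
import Pool.Agent.ACY.Tp

/-!
# ACY-GSu: the two lowest steps of a flag, elementary facts

PLAN. `sum_lev2`: `lev r Z 1 = (lev r X 2).filter (· ⊆ Z)` by `lev_restrict`, then `Finset.sum_filter`, `Finset.sum_comm`. `rank_zero`: an element `x` gives `r {x} = 1 ≤ r X`. `rank_one`: a flat of
rank 0 of `X` is empty (loopless), and `∅` is a flat (`r ∅ = 0 < 1 = r {x}`). `sdiff_nonempty`: `Z ⊆ X`, `r Z < r X`.
-/

set_option autoImplicit false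

namespace ACY

open Finset

variable {α : Type} [DecidableEq α] {r : Finset α → ℕ} {w : α → ℕ} {S A B C D F G W X Y Z : Finset α} {e f g x : α}
  {k j n : ℕ}

theorem sum_lev2 (hr : RK r) (X : Finset α) (φ : Finset α → Finset α → ℝ) :
    ∑ Z ∈ lev r X 1, ∑ W ∈ lev r Z 1, φ Z W =
      ∑ W ∈ lev r X 2, ∑ Z ∈ (lev r X 1).filter (fun Z => W ⊆ Z), φ Z W := by
  refine Finset.sum_comm' fun Z W => ?_
  constructor
  · rintro ⟨h1, h2⟩
    rw [lev_restrict hr h1, mem_filter] at h2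
    exact ⟨mem_filter.2 ⟨h1, h2.2⟩, h2.1⟩
  · rintro ⟨h1, h2⟩
    rw [mem_filter] at h1
    refine ⟨h1.1, ?_⟩
    rw [lev_restrict hr h1.1, mem_filter]
    exact ⟨h2, h1.2⟩

theorem lev_sub (hZ : Z ∈ lev r X k) : Z ⊆ X := (mem_flats.1 (mem_lev.1 hZ).1).1

theorem lev_rank (hZ : Z ∈ lev r X k) : r Z + k = r X := (mem_lev.1 hZ).2

theorem Gd.sub (h : Gd r w X) (hY : Y ⊆ X) : Gd r w Y :=
  ⟨h.rk, fun x hx => h.loop x (hY hx), fun x hx => h.pos x (hY hx)⟩

theorem Gd.lev (h : Gd r w X) (hZ : Z ∈ ACY.lev r X k) : Gd r w Z := h.sub (lev_sub hZ)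

theorem Gd.Tpos (h : Gd r w X) : 0 < T r X := T_pos h.rk h.loop

theorem Gd.rank_zero (h : Gd r w X) (h0 : r X = 0) : X = ∅ := by
  rw [eq_empty_iff_forall_notMem]
  intro x hx
  have h1 := h.rk.mono _ _ (singleton_subset_iff.2 hx)
  rw [h.loop x hx, h0] at h1
  omega

theorem Gd.nonempty (h : Gd r w X) (h1 : r X = n + 1) : X.Nonempty := by
  rw [nonempty_iff_ne_empty]
  intro h2
  rw [h2, h.rk.empty] at h1
  omega

theorem Gd.rank_one (h : Gd r w X) (h1 : r X = 1) : ACY.lev r X 1 = {∅} := by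
  ext Z
  rw [mem_singleton]
  constructor
  · intro hZ
    have h2 := lev_rank hZ
    exact (h.lev hZ).rank_zero (by omega)
  · intro hZ
    rw [hZ, mem_lev, mem_flats, h.rk.empty, h1]
    refine ⟨⟨empty_subset X, fun x hx _ => ?_⟩, rfl⟩
    have h3 : r (insert x ∅) = 1 := h.loop x hx
    omega

theorem sdiff_nonempty (hZ : Z ∈ lev r X (k + 1)) : (X \ Z).Nonempty := by
  rw [nonempty_iff_ne_empty]
  intro h
  rw [sdiff_eq_empty_iff_subset] at h
  have h1 := subset_antisymm h (lev_sub hZ)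
  have h2 := lev_rank hZ
  rw [h1] at h2
  omega

theorem Gd.om_pos (h : Gd r w X) (hY : Y ⊆ X) (hne : Y.Nonempty) : 0 < om w Y :=
  Finset.sum_pos (fun x hx => h.pos x (hY hx)) hne

theorem om_mono (hY : Y ⊆ X) : om w Y ≤ om w X := Finset.sum_le_sum_of_subset hY

theorem om_sdiff (hY : Y ⊆ X) : om w (X \ Y) + om w Y = om w X := Finset.sum_sdiff hY

/-- the flats above `W` of corank one -/
theorem up_lev (hr : RK r) (hW : W ∈ lev r X 2) (hg : g ∈ X) (hgW : g ∉ W) :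
    cl r X (insert g W) ∈ lev r X 1 ∧ W ⊆ cl r X (insert g W) ∧ g ∈ cl r X (insert g W) ∧
      ∀ Z ∈ lev r X 1, W ⊆ Z → g ∈ Z → Z = cl r X (insert g W) := by
  have hWX := lev_sub hW
  have hi : insert g W ⊆ X := insert_subset hg hWX
  have h1 := r_cl hr hi
  have h2 := lev_rank hW
  have h3 : r (insert g W) = r W + 1 := by
    rcases hr.ins W g with h | h
    · have := (mem_flats.1 (mem_lev.1 hW).1).2 g hg hgW
      omega
    · exact h
  have h4 := sub_cl (r := r) hi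
  refine ⟨mem_lev.2 ⟨cl_flat hr hi, by omega⟩, (subset_insert g W).trans h4, h4 (mem_insert_self g W), ?_⟩
  intro Z hZ hWZ hgZ
  have h5 := cl_min hr (mem_lev.1 hZ).1 (insert_subset hgZ hWZ)
  have h6 := lev_rank hZ
  exact (flat_eq hr (cl_flat hr hi) (lev_sub hZ) h5 (by omega)).symm

/-- transitivity of the levels -/
theorem lev_trans (hr : RK r) (hZ : Z ∈ lev r X k) (hW : W ∈ lev r Z j) : W ∈ lev r X (k + j) := by
  rw [lev_restrict hr hZ, mem_filter] at hW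
  exact hW.1

theorem lev_in (hr : RK r) (hZ : Z ∈ lev r X k) (hW : W ∈ lev r X (k + j)) (hWZ : W ⊆ Z) : W ∈ lev r Z j := by
  rw [lev_restrict hr hZ, mem_filter]
  exact ⟨hW, hWZ⟩

end ACY
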