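import Pool.Agent.ACY.Defs
import Pool.Agent.Helper47.TR.Tut

/-!
# ACY-Gr: the cycle matroid of a multigraph

The rank function `rG G A = |V| - k(A)` on sets of edge indices is the rank function of a matroid, and `T(G; x, 0)` is the
sum of `(x - 1)^(r(E) - r(A)) (-1)^(|A| + r(A))`.
-/

set_option autoImplicit false

namespace ACY

open Finset Pool.Agent.Helper47.TR

/-- rank function of the cycle matroid -/
noncomputable def rG (G : MG) (A : Finset (Fin G.2.length)) : ℕ := G.1.length - comps G A

theorem RK_of_cl {α : Type} [DecidableEq α] {r : Finset α → ℕ} (h0 : r ∅ = 0)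
    (hm : ∀ A B : Finset α, A ⊆ B → r A ≤ r B) (h1 : ∀ (A : Finset α) (x : α), r (insert x A) ≤ r A + 1)
    (hc : ∀ (A B : Finset α) (x : α), A ⊆ B → r (insert x A) = r A → r (insert x B) = r B) : RK r := by
  refine ⟨h0, hm, h1, ?_⟩
  have key : ∀ (X C B : Finset α), C ⊆ B → r (B ∪ X) + r C ≤ r B + r (C ∪ X) := by
    intro X
    induction X using Finset.induction_on with
    | empty =>
      intro C B _
      rw [union_empty, union_empty]
    | insert x X _ ih =>
      intro C B hCB
      have h2 := ih C B hCB
      have h3 : B ∪ insert x X = insert x (B ∪ X) := by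
        rw [union_insert]
      have h4 : C ∪ insert x X = insert x (C ∪ X) := by
        rw [union_insert]
      rw [h3, h4]
      have h5 := h1 (B ∪ X) x
      have h6 := hm _ _ (subset_insert x (C ∪ X))
      by_cases h7 : r (insert x (C ∪ X)) = r (C ∪ X)
      · have h8 := hc (C ∪ X) (B ∪ X) x (union_subset_union_left hCB) h7
        omega
      · omega
  intro A B
  have h2 := key A (A ∩ B) B inter_subset_right
  rw [union_comm B A, union_eq_right.mpr (inter_subset_left : A ∩ B ⊆ A)] at h2
  omega

private theorem Gr_same {G : MG} (A : Finset (Fin G.2.length)) (i : Fin G.2.length)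
    (a b : Fin G.1.length) (ha : (G.2.get i).1 = a) (hb : (G.2.get i).2 = b) :
    comps G (insert i A) = comps G A ↔ Quot.mk (adj G A) a = Quot.mk (adj G A) b := by
  constructor
  · intro h
    let π : Quot (adj G A) → Quot (adj G (insert i A)) :=
      Quot.lift (fun u => (Quot.mk (adj G (insert i A)) u)) (by
        rintro u v ⟨j, hj, h1⟩
        exact Quot.sound ⟨j, mem_insert_of_mem hj, h1⟩)
    have hs : Function.Surjective π := by
      intro c
      induction c using Quot.ind with
      | mk u => exact ⟨Quot.mk _ u, rfl⟩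
    have hi : Function.Injective π := by
      have h2 : Nat.card (Quot (adj G A)) = Nat.card (Quot (adj G (insert i A))) := h.symm
      exact (hs.bijective_of_nat_card_le (h2.le)).injective
    refine hi ?_
    exact Quot.sound ⟨i, mem_insert_self _ _, ha, hb⟩
  · intro h
    refine le_antisymm (comps_anti G (subset_insert i A)) ?_
    have hφ : ∀ u v, adj G (insert i A) u v → Quot.mk (adj G A) u = Quot.mk (adj G A) v := by
      rintro u v ⟨j, hj, hu, hv⟩
      rcases mem_insert.mp hj with rfl | hj
      · have hu' : u = a := Fin.ext (by rw [← hu, ha])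
        have hv' : v = b := Fin.ext (by rw [← hv, hb])
        rw [hu', hv', h]
      · exact Quot.sound ⟨j, hj, hu, hv⟩
    refine Nat.card_le_card_of_surjective (Quot.lift (fun u => Quot.mk (adj G A) u) hφ) ?_
    intro c
    induction c using Quot.ind with
    | mk u => exact ⟨Quot.mk _ u, rfl⟩

theorem rG_add {G : MG} (A : Finset (Fin G.2.length)) : rG G A + comps G A = G.1.length := by
  unfold rG
  exact Nat.sub_add_cancel (comps_le G A)

theorem RK_rG {G : MG} (hG : Valid G) : RK (rG G) := by
  refine RK_of_cl ?_ ?_ ?_ ?_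
  · have h1 := le_card_add_comps G hG ∅
    have h2 := rG_add (G := G) ∅
    rw [card_empty] at h1
    omega
  · intro A B hAB
    have h1 := comps_anti G hAB
    have h2 := rG_add (G := G) A
    have h3 := rG_add (G := G) B
    omega
  · intro A x
    have h1 := comps_insert G hG A x
    have h2 := rG_add (G := G) A
    have h3 := rG_add (G := G) (insert x A)
    omega
  · intro A B x hAB h
    obtain ⟨h1, h2⟩ := hG (G.2.get x) (List.get_mem _ _)
    have h3 := rG_add (G := G) A
    have h4 := rG_add (G := G) (insert x A)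
    have h5 := rG_add (G := G) B
    have h6 := rG_add (G := G) (insert x B)
    have h7 : comps G (insert x A) = comps G A := by omega
    have h8 := (Gr_same A x ⟨(G.2.get x).1, h1⟩ ⟨(G.2.get x).2, h2⟩ rfl rfl).mp h7
    have h9 : comps G (insert x B) = comps G B := by
      refine (Gr_same B x ⟨(G.2.get x).1, h1⟩ ⟨(G.2.get x).2, h2⟩ rfl rfl).mpr ?_
      let π : Quot (adj G A) → Quot (adj G B) :=
        Quot.lift (fun u => (Quot.mk (adj G B) u)) (by
          rintro u v ⟨j, hj, h1⟩
          exact Quot.sound ⟨j, hAB hj, h1⟩)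
      exact congrArg π h8
    omega

theorem rG_sing {G : MG} (hG : Valid G) (i : Fin G.2.length) :
    rG G {i} = if (G.2.get i).1 = (G.2.get i).2 then 0 else 1 := by
  obtain ⟨h1, h2⟩ := hG (G.2.get i) (List.get_mem _ _)
  have h0 := (RK_rG hG).empty
  have h3 := (RK_rG hG).one ∅ i
  have h4 := rG_add (G := G) ∅
  have h5 := rG_add (G := G) {i}
  have h6 := (Gr_same ∅ i ⟨(G.2.get i).1, h1⟩ ⟨(G.2.get i).2, h2⟩ rfl rfl)
  have h7 : Quot.mk (adj G ∅) (⟨(G.2.get i).1, h1⟩ : Fin G.1.length) = Quot.mk (adj G ∅) ⟨(G.2.get i).2, h2⟩ ↔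
      (G.2.get i).1 = (G.2.get i).2 := by
    constructor
    · intro h
      have h8 := congrArg (Quot.lift (fun u : Fin G.1.length => (u : ℕ)) (by
        rintro u v ⟨j, hj, _⟩
        exact absurd hj (notMem_empty _))) h
      exact h8
    · intro h
      have h8 : (⟨(G.2.get i).1, h1⟩ : Fin G.1.length) = ⟨(G.2.get i).2, h2⟩ := Fin.ext h
      rw [h8]
  rw [h7] at h6
  change comps G {i} = comps G ∅ ↔ _ at h6
  change rG G {i} ≤ rG G ∅ + 1 at h3
  by_cases h : (G.2.get i).1 = (G.2.get i).2
  · rw [if_pos h]
    have := h6.mpr h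
    omega
  · rw [if_neg h]
    have h9 : comps G {i} ≠ comps G ∅ := fun h10 => h (h6.mp h10)
    have h10 := comps_anti G (empty_subset ({i} : Finset (Fin G.2.length)))
    omega

theorem tutte_zero {G : MG} (hG : Valid G) (x : ℚ) :
    ((tutte x 0 G : ℚ) : ℝ) = ∑ A ∈ (univ : Finset (Fin G.2.length)).powerset,
      ((x : ℝ) - 1) ^ (rG G univ - rG G A) * (-1 : ℝ) ^ (A.card + rG G A) := by
  unfold tutte
  rw [powerset_univ]
  push_cast
  refine sum_congr rfl fun A _ => ?_
  have h1 := rG_add (G := G) A
  have h2 := rG_add (G := G) univ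
  have h3 := comps_anti G (subset_univ A)
  have h4 := le_card_add_comps G hG A
  have h5 : comps G A - comps G univ = rG G univ - rG G A := by omega
  have h6 : A.card + rG G A = (A.card + comps G A - G.1.length) + 2 * rG G A := by omega
  rw [h5, h6, pow_add, pow_mul, zero_sub]
  norm_num

end ACY
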