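import Pool.Agent.ACY.Td

/-!
# ACY-Tr: truncations and `T(M; x, 0)`

The truncation `tr r k` to rank `k` is a matroid, and `T(M; x, 0)` is a combination with non-negative coefficients
(for `x ≥ 1`) of the invariants `T` of the truncations.
-/

set_option autoImplicit false

namespace ACY

open Finset

variable {α : Type} [DecidableEq α] {r : Finset α → ℕ} {S : Finset α}

/-- truncation to rank `k` -/
def tr (r : Finset α → ℕ) (k : ℕ) (A : Finset α) : ℕ := min (r A) k

theorem RK.tr (hr : RK r) (k : ℕ) : RK (ACY.tr r k) := by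
  refine ⟨?_, ?_, ?_, ?_⟩
  · unfold ACY.tr
    rw [hr.empty]
    exact Nat.zero_min k
  · intro A B hAB
    exact min_le_min_right k (hr.mono A B hAB)
  · intro A x
    unfold ACY.tr
    have := hr.one A x
    omega
  · intro A B
    unfold ACY.tr
    have h1 := hr.sub A B
    have h2 := hr.mono _ _ (inter_subset_left (s₁ := A) (s₂ := B))
    have h3 := hr.mono _ _ (inter_subset_right (s₁ := A) (s₂ := B))
    omega

theorem tr_sing {k : ℕ} (hk : 1 ≤ k) {x : α} (h : r {x} = 1) : tr r k {x} = 1 := by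
  unfold tr
  omega

theorem tr_top {k : ℕ} (hk : k ≤ r S) : tr r k S = k := min_eq_right hk

theorem T_tr {k : ℕ} (hk : k ≤ r S) :
    T (tr r k) S = ∑ A ∈ S.powerset.filter (fun A => k ≤ r A), (-1 : ℝ) ^ (A.card + k) := by
  unfold T
  rw [tr_top hk]
  refine sum_congr (filter_congr fun A _ => ?_) fun A _ => rfl
  unfold tr
  constructor
  · intro h
    omega
  · intro h
    omega

private theorem Tr_tele (y : ℝ) (R m : ℕ) (hm : m ≤ R) :
    (y + 1) * ∑ j ∈ range m, y ^ (R - 1 - j) * (-1 : ℝ) ^ (j + 1) =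
      (-1 : ℝ) ^ m * y ^ (R - m) - y ^ R := by
  induction m with
  | zero => simp
  | succ m ih =>
    rw [sum_range_succ, mul_add, ih (by omega)]
    have h1 : R - m = (R - 1 - m) + 1 := by omega
    have h2 : R - (m + 1) = R - 1 - m := by omega
    rw [h1, h2, pow_succ (-1 : ℝ) m, pow_succ y (R - 1 - m)]
    ring

/-- `T(M; x, 0)` in terms of truncations -/
theorem tutte_tr (hr : RK r) (h : 1 ≤ r S) (x : ℝ) :
    ∑ A ∈ S.powerset, (x - 1) ^ (r S - r A) * (-1 : ℝ) ^ (A.card + r A) =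
      x * ∑ j ∈ range (r S), (x - 1) ^ (r S - 1 - j) * T (tr r (j + 1)) S := by
  have hne : S.Nonempty := by
    rw [nonempty_iff_ne_empty]
    intro h0
    rw [h0, hr.empty] at h
    omega
  have h0 : ∑ A ∈ S.powerset, (-1 : ℝ) ^ A.card = 0 := by
    have h1 := sum_powerset_neg_one_pow_card_of_nonempty hne
    have h2 := congrArg (fun z : ℤ => (z : ℝ)) h1
    push_cast at h2
    exact h2
  have h3 : ∀ j ∈ range (r S), (x - 1) ^ (r S - 1 - j) * T (tr r (j + 1)) S =
      ∑ A ∈ S.powerset, (-1 : ℝ) ^ A.card *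
        (if j < r A then (x - 1) ^ (r S - 1 - j) * (-1 : ℝ) ^ (j + 1) else 0) := by
    intro j hj
    have hj' := mem_range.mp hj
    rw [T_tr (by omega), sum_filter, mul_sum]
    refine sum_congr rfl fun A _ => ?_
    by_cases hA : j < r A
    · rw [if_pos hA, if_pos (by omega), pow_add]
      ring
    · rw [if_neg hA, if_neg (by omega), mul_zero, mul_zero]
  rw [sum_congr rfl h3, sum_comm, mul_sum]
  have h4 : ∀ A ∈ S.powerset, x * ∑ j ∈ range (r S), (-1 : ℝ) ^ A.card *
      (if j < r A then (x - 1) ^ (r S - 1 - j) * (-1 : ℝ) ^ (j + 1) else 0) =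
      (-1 : ℝ) ^ A.card * ((-1 : ℝ) ^ r A * (x - 1) ^ (r S - r A) - (x - 1) ^ r S) := by
    intro A hA
    have hA' : r A ≤ r S := hr.mono _ _ (mem_powerset.mp hA)
    have h5 := Tr_tele (x - 1) (r S) (r A) hA'
    rw [sub_add_cancel] at h5
    rw [← h5, ← mul_sum]
    have h6 : ∑ j ∈ range (r S), (if j < r A then (x - 1) ^ (r S - 1 - j) * (-1 : ℝ) ^ (j + 1) else 0) =
        ∑ j ∈ range (r A), (x - 1) ^ (r S - 1 - j) * (-1 : ℝ) ^ (j + 1) := by
      rw [← sum_filter]
      refine sum_congr ?_ fun _ _ => rfl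
      ext j
      rw [mem_filter, mem_range, mem_range]
      omega
    rw [h6]
    ring
  rw [sum_congr rfl h4]
  have h7 : ∑ A ∈ S.powerset, (-1 : ℝ) ^ A.card * ((-1 : ℝ) ^ r A * (x - 1) ^ (r S - r A) - (x - 1) ^ r S) =
      ∑ A ∈ S.powerset, (x - 1) ^ (r S - r A) * (-1 : ℝ) ^ (A.card + r A) -
        (∑ A ∈ S.powerset, (-1 : ℝ) ^ A.card) * (x - 1) ^ r S := by
    rw [sum_mul, ← sum_sub_distrib]
    refine sum_congr rfl fun A _ => ?_
    rw [pow_add]
    ring
  rw [h7, h0, zero_mul, sub_zero]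

end ACY
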