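import Pool.Agent.ACY.Gr
import Pool.Agent.ACY.Tr
import Pool.Agent.ACY.Ba
import Pool.Agent.TFP.RkEq
import Pool.Agent.TFP.CpsQ

/-!
# ACY-GrE: the cycle matroid on sets of labelled edges

`TFP.rk` is the rank function of a matroid, and `T(G; x, 0)` is zero if there is a loop, one if there are no edges, and a
sum of invariants `T` of truncations otherwise.
-/

set_option autoImplicit false

namespace ACY

open Finset Pool.Agent.Helper47.TR Pool.Agent.TFP

private theorem GrE_path {A : Finset Ed} {x : Ed} {v w : ℕ} (h : Rch (insert x A) v w) :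
    Rch A v w ∨ (Rch A v x.2.1 ∧ Rch A x.2.2 w) ∨ (Rch A v x.2.2 ∧ Rch A x.2.1 w) := by
  unfold Rch at h
  induction h with
  | refl => exact Or.inl Relation.ReflTransGen.refl
  | tail _ hbc ih =>
    rename_i b c _
    obtain ⟨e, he, hj⟩ := hbc
    rcases mem_insert.mp he with h1 | h1
    · subst h1
      rcases hj with ⟨ha, hb⟩ | ⟨ha, hb⟩
      · rw [ha, hb]
        rw [ha, hb] at ih
        rcases ih with h2 | ⟨h2, _⟩ | ⟨h2, _⟩
        · exact Or.inr (Or.inl ⟨h2, Relation.ReflTransGen.refl⟩)
        · exact Or.inr (Or.inl ⟨h2, Relation.ReflTransGen.refl⟩)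
        · exact Or.inl h2
      · rw [ha, hb]
        rw [ha, hb] at ih
        rcases ih with h2 | ⟨h2, _⟩ | ⟨h2, _⟩
        · exact Or.inr (Or.inr ⟨h2, Relation.ReflTransGen.refl⟩)
        · exact Or.inl h2
        · exact Or.inr (Or.inr ⟨h2, Relation.ReflTransGen.refl⟩)
    · have h2 : Rch A b c := Relation.ReflTransGen.single ⟨e, h1, hj⟩
      rcases ih with h3 | ⟨h3, h4⟩ | ⟨h3, h4⟩
      · exact Or.inl (Relation.ReflTransGen.trans h3 h2)
      · exact Or.inr (Or.inl ⟨h3, Relation.ReflTransGen.trans h4 h2⟩)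
      · exact Or.inr (Or.inr ⟨h3, Relation.ReflTransGen.trans h4 h2⟩)

private noncomputable def GrE_g (B : Finset Ed) (S : Finset ℕ) : Finset ℕ :=
  if h : S.Nonempty then comp B (S.min' h) else ∅

private theorem GrE_gcomp {A B : Finset Ed} (hAB : A ⊆ B) (v : ℕ) : GrE_g B (comp A v) = comp B v := by
  have h : (comp A v).Nonempty := ⟨v, self_mem_comp A v⟩
  unfold GrE_g
  rw [dif_pos h]
  have h1 : (comp A v).min' h ∈ comp A v := min'_mem _ _
  rw [mem_comp] at h1
  exact (comp_eq (h1.mono hAB)).symm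

private theorem GrE_image {A B : Finset Ed} (hAB : A ⊆ B) (V : Finset ℕ) :
    V.image (comp B) = (V.image (comp A)).image (GrE_g B) := by
  rw [image_image]
  refine image_congr fun v _ => ?_
  exact (GrE_gcomp hAB v).symm

private theorem GrE_card {A B : Finset Ed} (hAB : A ⊆ B) (V : Finset ℕ) :
    (V.image (comp B)).card ≤ (V.image (comp A)).card := by
  rw [GrE_image hAB]
  exact card_image_le

private theorem GrE_same {A : Finset Ed} {x : Ed} : rk (insert x A) = rk A ↔ Rch A x.2.1 x.2.2 := by
  have hA : A ⊆ insert x A := subset_insert x A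
  set V := ends (insert x A) with hV
  have h1 := rk_add_card (A := insert x A) (V := V) (le_refl _)
  have h2 := rk_add_card (A := A) (V := V) (ends_mono hA)
  have hx1 : x.2.1 ∈ V := mem_ends_left (mem_insert_self _ _)
  have hx2 : x.2.2 ∈ V := mem_ends_right (mem_insert_self _ _)
  constructor
  · intro h
    have h3 : (V.image (comp (insert x A))).card = (V.image (comp A)).card := by omega
    rw [GrE_image hA] at h3
    have h4 := card_image_iff.mp h3
    have h5 : comp A x.2.1 = comp A x.2.2 := by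
      refine h4 (mem_coe.mpr (mem_image_of_mem _ hx1)) (mem_coe.mpr (mem_image_of_mem _ hx2)) ?_
      change GrE_g _ _ = GrE_g _ _
      rw [GrE_gcomp hA, GrE_gcomp hA]
      exact comp_eq (Relation.ReflTransGen.single ⟨x, mem_insert_self _ _, Or.inl ⟨rfl, rfl⟩⟩)
    have h6 : x.2.2 ∈ comp A x.2.1 := by
      rw [h5]
      exact self_mem_comp _ _
    exact mem_comp.mp h6
  · intro h
    have h3 : ∀ v w, Rch (insert x A) v w → Rch A v w := by
      intro v w hvw
      rcases GrE_path hvw with h4 | ⟨h4, h5⟩ | ⟨h4, h5⟩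
      · exact h4
      · exact Relation.ReflTransGen.trans h4 (Relation.ReflTransGen.trans h h5)
      · exact Relation.ReflTransGen.trans h4 (Relation.ReflTransGen.trans h.symm h5)
    have h4 : ∀ v, comp (insert x A) v = comp A v := by
      intro v
      ext w
      rw [mem_comp, mem_comp]
      exact ⟨h3 v w, fun h5 => h5.mono hA⟩
    have h5 : V.image (comp (insert x A)) = V.image (comp A) := image_congr fun v _ => h4 v
    rw [h5] at h1
    omega

private theorem GrE_one (A : Finset Ed) (x : Ed) : rk (insert x A) ≤ rk A + 1 := by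
  have hA : A ⊆ insert x A := subset_insert x A
  set V := ends (insert x A) with hV
  have h1 := rk_add_card (A := insert x A) (V := V) (le_refl _)
  have h2 := rk_add_card (A := A) (V := V) (ends_mono hA)
  have h3 : ((V.image (comp A)).erase (comp A x.2.2)).card ≤ (V.image (comp (insert x A))).card := by
    refine card_le_card_of_injOn (GrE_g (insert x A)) ?_ ?_
    · intro S hS
      obtain ⟨_, hS⟩ := mem_erase.mp hS
      obtain ⟨v, hv, rfl⟩ := mem_image.mp hS
      rw [GrE_gcomp hA]
      exact mem_image_of_mem _ hv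
    · intro S hS S' hS' h4
      obtain ⟨hn, hS⟩ := mem_erase.mp (mem_coe.mp hS)
      obtain ⟨hn', hS'⟩ := mem_erase.mp (mem_coe.mp hS')
      obtain ⟨v, hv, rfl⟩ := mem_image.mp hS
      obtain ⟨w, hw, rfl⟩ := mem_image.mp hS'
      rw [GrE_gcomp hA, GrE_gcomp hA] at h4
      have h5 : Rch (insert x A) v w := by
        rw [← mem_comp, h4]
        exact self_mem_comp _ _
      rcases GrE_path h5 with h6 | ⟨_, h6⟩ | ⟨h6, _⟩
      · exact comp_eq h6
      · exact absurd (comp_eq h6).symm hn'
      · exact absurd (comp_eq h6) hn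
  have h4 := pred_card_le_card_erase (s := V.image (comp A)) (a := comp A x.2.2)
  omega

theorem RK_rk : RK rk := by
  refine RK_of_cl ?_ ?_ GrE_one ?_
  · have h := rk_add_card (A := ∅) (V := ∅) (by unfold ends; simp)
    simp only [image_empty, card_empty, add_zero] at h
    exact h
  · intro A B hAB
    have h1 := rk_add_card (A := A) (V := ends B) (ends_mono hAB)
    have h2 := rk_add_card (A := B) (V := ends B) (le_refl _)
    have h3 := GrE_card hAB (ends B)
    omega
  · intro A B x hAB h
    exact GrE_same.mpr ((GrE_same.mp h).mono hAB)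

theorem rk_sing (e : Ed) : rk {e} = if e.2.1 = e.2.2 then 0 else 1 := by
  have h0 : rk ∅ = 0 := RK_rk.empty
  have h1 := GrE_same (A := ∅) (x := e)
  have h2 := GrE_one ∅ e
  change rk {e} = rk ∅ ↔ _ at h1
  change rk {e} ≤ rk ∅ + 1 at h2
  by_cases h : e.2.1 = e.2.2
  · rw [if_pos h]
    have h3 : Rch ∅ e.2.1 e.2.2 := by
      rw [h]
      exact Relation.ReflTransGen.refl
    rw [h1.mpr h3, h0]
  · rw [if_neg h]
    have h3 : rk {e} ≠ rk ∅ := by
      intro h4
      have h5 := h1.mp h4
      have h6 : comp ∅ e.2.1 = {e.2.1} := comp_not_ends (by unfold ends; simp)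
      have h7 := mem_comp.mpr h5
      rw [h6, mem_singleton] at h7
      exact h h7.symm
    omega

private theorem GrE_len (l : List (ℕ × ℕ)) : (labE l).length = l.length := by
  induction l with
  | nil => rfl
  | cons e l ih =>
    change (((labE l).length, e) :: labE l).length = _
    rw [List.length_cons, ih, List.length_cons]

private theorem GrE_cons (e : ℕ × ℕ) (l : List (ℕ × ℕ)) : labE (e :: l) = (l.length, e) :: labE l := by
  change ((labE l).length, e) :: labE l = _
  rw [GrE_len]

private theorem GrE_mem (l : List (ℕ × ℕ)) (x : Ed) :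
    x ∈ labE l ↔ ∃ i : Fin l.length, (l.length - 1 - (i : ℕ), l.get i) = x := by
  induction l with
  | nil =>
    constructor
    · intro h
      exact absurd h (List.not_mem_nil)
    · rintro ⟨i, -⟩
      exact i.elim0
  | cons e l ih =>
    rw [GrE_cons, List.mem_cons, ih]
    constructor
    · rintro (rfl | ⟨i, rfl⟩)
      · exact ⟨⟨0, Nat.succ_pos _⟩, by simp⟩
      · refine ⟨⟨(i : ℕ) + 1, Nat.succ_lt_succ i.2⟩, ?_⟩
        have h1 : (e :: l).length - 1 - ((i : ℕ) + 1) = l.length - 1 - (i : ℕ) := by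
          rw [List.length_cons]
          omega
        rw [Prod.mk.injEq]
        exact ⟨h1, rfl⟩
    · rintro ⟨⟨i, hi⟩, rfl⟩
      cases i with
      | zero =>
        left
        simp
      | succ i =>
        right
        refine ⟨⟨i, Nat.lt_of_succ_lt_succ hi⟩, ?_⟩
        rw [Prod.mk.injEq]
        refine ⟨?_, rfl⟩
        change l.length - 1 - i = l.length + 1 - 1 - (i + 1)
        omega

private theorem GrE_univ (G : MG) :
    im G (fun i => G.2.length - 1 - (i : ℕ)) univ = (labE G.2).toFinset := by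
  ext x
  rw [List.mem_toFinset, GrE_mem, im, mem_image]
  constructor
  · rintro ⟨i, _, h⟩
    exact ⟨i, h⟩
  · rintro ⟨i, h⟩
    exact ⟨i, mem_univ _, h⟩

private theorem GrE_inj (G : MG) :
    Function.Injective (fun i : Fin G.2.length => ((G.2.length - 1 - (i : ℕ), G.2.get i) : Ed)) := by
  intro i j h
  have h1 := (Prod.mk.inj h).1
  have h2 := i.2
  have h3 := j.2
  apply Fin.ext
  omega

private theorem GrE_rk {G : MG} (hG : Valid G) (A : Finset (Fin G.2.length)) :
    rk (im G (fun i => G.2.length - 1 - (i : ℕ)) A) = rG G A := by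
  have h3 := comps_eq_card hG (fun i => G.2.length - 1 - (i : ℕ)) A
  have h4 := rk_add_card (ends_im hG (fun i => G.2.length - 1 - (i : ℕ)) A)
  have h5 := rG_add (G := G) A
  rw [card_range, ← h3] at h4
  omega

/-- `T(G; x, 0)` as a sum over the sets of labelled edges -/
theorem tutte_lab {G : MG} (hG : Valid G) (x : ℚ) :
    ((tutte x 0 G : ℚ) : ℝ) = ∑ A ∈ (labE G.2).toFinset.powerset,
      ((x : ℝ) - 1) ^ (rk (labE G.2).toFinset - rk A) * (-1 : ℝ) ^ (A.card + rk A) := by
  rw [tutte_zero hG, ← GrE_univ, GrE_rk hG]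
  have h1 : (im G (fun i => G.2.length - 1 - (i : ℕ)) univ).powerset =
      (univ : Finset (Fin G.2.length)).powerset.image
        (fun A => im G (fun i => G.2.length - 1 - (i : ℕ)) A) := by
    unfold im
    rw [powerset_image]
  rw [h1, sum_image]
  · refine sum_congr rfl fun A _ => ?_
    have h2 : (im G (fun i => G.2.length - 1 - (i : ℕ)) A).card = A.card :=
      card_image_of_injective _ (GrE_inj G)
    rw [GrE_rk hG, h2]
  · intro A _ B _ h
    exact image_injective (GrE_inj G) h

/-- a loop makes the sum zero -/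
theorem sum_loop {α : Type} [DecidableEq α] {r : Finset α → ℕ} (hr : RK r) {S : Finset α} {e : α} (he : e ∈ S)
    (h : r {e} = 0) (y : ℝ) : ∑ A ∈ S.powerset, y ^ (r S - r A) * (-1 : ℝ) ^ (A.card + r A) = 0 := by
  have h1 : ∀ A : Finset α, r (insert e A) = r A := by
    intro A
    have h2 : r (insert e ∅) = r ∅ := by
      rw [hr.empty]
      exact h
    exact hr.cl_mono (empty_subset A) h2
  rw [← insert_erase he, sum_powerset_insert (notMem_erase e S), ← sum_add_distrib]
  refine sum_eq_zero fun A hA => ?_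
  have h3 : e ∉ A := fun h4 => notMem_erase e S (mem_powerset.mp hA h4)
  rw [h1 A, card_insert_of_notMem h3]
  have h4 : (-1 : ℝ) ^ (A.card + 1 + r A) = - (-1 : ℝ) ^ (A.card + r A) := by
    rw [show A.card + 1 + r A = (A.card + r A) + 1 by omega, pow_succ]
    ring
  rw [h4]
  ring

/-- the ground set of an MG -/
def ground (G : MG) : Finset Ed := (labE G.2).toFinset

theorem mem_ground {G : MG} {e : Ed} (he : e ∈ ground G) : e.2 ∈ G.2 := by
  unfold ground at he
  rw [List.mem_toFinset, GrE_mem] at he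
  obtain ⟨i, rfl⟩ := he
  exact List.get_mem _ _

theorem ground_nlE {G : MG} (h : ∀ e ∈ G.2, e.1 ≠ e.2) : (nlE G.2).toFinset = ground G := by
  unfold ground
  ext e
  rw [List.mem_toFinset, List.mem_toFinset]
  unfold nlE
  rw [List.mem_filter]
  constructor
  · exact fun h1 => h1.1
  · intro h1
    refine ⟨h1, ?_⟩
    have h2 := h e.2 (mem_ground (by unfold ground; rw [List.mem_toFinset]; exact h1))
    simpa using h2

theorem ground_loopless {G : MG} (h : ∀ e ∈ G.2, e.1 ≠ e.2) : ∀ e ∈ ground G, rk {e} = 1 := by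
  intro e he
  rw [rk_sing, if_neg (h e.2 (mem_ground he))]

theorem tutte_loop {G : MG} (hG : Valid G) (h : ∃ e ∈ G.2, e.1 = e.2) (x : ℚ) : tutte x 0 G = 0 := by
  obtain ⟨e, he, h1⟩ := h
  obtain ⟨i, hi⟩ := List.get_of_mem he
  have h2 : ((G.2.length - 1 - (i : ℕ), G.2.get i) : Ed) ∈ (labE G.2).toFinset := by
    rw [List.mem_toFinset, GrE_mem]
    exact ⟨i, rfl⟩
  have h3 : rk {((G.2.length - 1 - (i : ℕ), G.2.get i) : Ed)} = 0 := by
    rw [rk_sing, if_pos (by rw [hi]; exact h1)]
  have h4 := tutte_lab hG x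
  rw [sum_loop RK_rk h2 h3] at h4
  exact_mod_cast h4

theorem tutte_nil {G : MG} (hG : Valid G) (h : G.2 = []) (x : ℚ) : tutte x 0 G = 1 := by
  have h4 := tutte_lab hG x
  have h5 : (labE G.2).toFinset = ∅ := by
    rw [h]
    rfl
  have h6 : rk ∅ = 0 := RK_rk.empty
  rw [h5, powerset_empty, sum_singleton, h6] at h4
  simp only [Nat.sub_self, pow_zero, card_empty, add_zero, one_mul] at h4
  exact_mod_cast h4

theorem tutte_main {G : MG} (hG : Valid G) (h : ∀ e ∈ G.2, e.1 ≠ e.2) (hne : G.2 ≠ []) (x : ℚ) :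
    1 ≤ rk (ground G) ∧ ((tutte x 0 G : ℚ) : ℝ) = x * ∑ j ∈ range (rk (ground G)),
      ((x : ℝ) - 1) ^ (rk (ground G) - 1 - j) * T (tr rk (j + 1)) (ground G) := by
  have h1 : 1 ≤ rk (ground G) := by
    obtain ⟨e, l, hl⟩ := List.exists_cons_of_ne_nil hne
    have h2 : ((l.length, e) : Ed) ∈ ground G := by
      unfold ground
      rw [hl, GrE_cons, List.mem_toFinset]
      exact List.mem_cons_self
    have h3 := ground_loopless h _ h2
    have h4 := RK_rk.mono _ _ (singleton_subset_iff.mpr h2)
    omega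
  refine ⟨h1, ?_⟩
  rw [tutte_lab hG x]
  exact tutte_tr RK_rk h1 x

end ACY
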