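import Pool.Agent.ACY.Bp
import Pool.Agent.ACY.Mu

/-!
# ACY-Kp: positivity of `kap`

All terms of `kap` are nonnegative; the term of the closure of the circuit `C` is positive, as `C.erase f` is a spanning circuit
of `F.erase f` in the contraction of `f` (`bet_circuit`).
-/

set_option autoImplicit false

namespace ACY

open Finset

variable {α : Type} [DecidableEq α] {r : Finset α → ℕ} {S A B C D F G W X Z : Finset α} {e f x : α} {k j : ℕ}

private theorem Kp_union (h : f ∈ A) : A.erase f ∪ {f} = A := by
  rw [Finset.union_comm, ← Finset.insert_eq, Finset.insert_erase h]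

private theorem Kp_con (hr : RK r) (h : f ∈ A) : con r {f} (A.erase f) + r {f} = r A := by
  rw [con_add hr, Kp_union h]

theorem kap_pos (hr : RK r) (hf : f ∈ S) (he : e ∈ S) (hef : e ≠ f)
    (hB : ∀ x ∈ S.erase f, con r {f} {x} = 1) (hC : C ⊆ S) (heC : e ∈ C) (hfC : f ∈ C) (hc : r C + 1 = C.card)
    (hC' : ∀ x ∈ C, r (C.erase x) = r C) : 0 < kap r S e f := by
  have hCF : C ⊆ cl r S C := sub_cl hC
  have hrF : r (cl r S C) = r C := r_cl hr hC
  have hFf : cl r S C ∈ flats r S := cl_flat hr hC
  have hFS : cl r S C ⊆ S := cl_sub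
  generalize cl r S C = F at hCF hrF hFf hFS
  have hfF : f ∈ F := hCF hfC
  -- `f` is not a loop
  have hf1 : r {f} = 1 := by
    rcases hr.sing f with h0 | h1
    · exfalso
      have h2 : f ∈ C.erase e := Finset.mem_erase.2 ⟨fun h => hef h.symm, hfC⟩
      have h3 : r (insert f ((C.erase e).erase f)) = r ((C.erase e).erase f) := by
        refine hr.cl_mono (A := ∅) (Finset.empty_subset _) ?_
        rw [hr.empty]
        exact h0
      rw [Finset.insert_erase h2] at h3
      have h4 := hr.le_card ((C.erase e).erase f)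
      rw [Finset.card_erase_of_mem h2, Finset.card_erase_of_mem heC] at h4
      have h5 := hC' e heC
      have h6 : 2 ≤ C.card := by
        have h7 := Finset.card_pos.2 ⟨f, h2⟩
        rw [Finset.card_erase_of_mem heC] at h7
        omega
      omega
    · exact h1
  have kC := Kp_con hr hfC
  have kF := Kp_con hr hfF
  have hcd : (C.erase f).card = C.card - 1 := Finset.card_erase_of_mem hfC
  have hpc : 0 < C.card := Finset.card_pos.2 ⟨f, hfC⟩
  have heE : e ∈ C.erase f := Finset.mem_erase.2 ⟨hef, heC⟩
  have h1 : 1 ≤ con r {f} (C.erase f) := by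
    rw [← hB e (Finset.mem_erase.2 ⟨hef, he⟩)]
    exact (hr.con {f}).mono _ _ (Finset.singleton_subset_iff.2 heE)
  have hbet : 0 < bet (con r {f}) (F.erase f) := by
    refine bet_circuit (hr.con {f}) (fun x hx => hB x ?_) (Finset.erase_subset_erase f hCF) (by omega) (by omega)
      (by omega) (fun x hx => ?_)
    · rw [Finset.mem_erase] at hx ⊢
      exact ⟨hx.1, hFS hx.2⟩
    · rw [Finset.mem_erase] at hx
      have h2 : f ∈ C.erase x := Finset.mem_erase.2 ⟨fun h => hx.1 h.symm, hfC⟩
      have h3 := Kp_con hr h2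
      have h4 := hC' x hx.2
      rw [Finset.erase_right_comm] at h3
      omega
  unfold kap
  refine Finset.sum_pos' (fun G hG => ?_) ⟨F, ?_, ?_⟩
  · rw [Finset.mem_filter] at hG
    exact mul_nonneg (bet_nonneg (hr.con {f}) _) (mu_pos hr hG.1 (Finset.Subset.refl S)).le
  · rw [Finset.mem_filter]
    refine ⟨hFf, hCF heC, hfF, fun h => ?_⟩
    have h2 := hr.mono _ _ (Finset.erase_subset_erase f hCF)
    have h3 := hC' f hfC
    have h4 := h.2
    omega
  · exact mul_pos hbet (mu_pos hr hFf (Finset.Subset.refl S))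

end ACY
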