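import Pool.Agent.ACY.To

/-!
# ACY-Si: the sums over the flats not containing `f`

`sid`: Weisner's theorem for the intervals `[F, X]`, exchange of the sums, and `tot` for the hyperplanes; `swap`: Weisner's theorem for `f` and
for `e`.
-/

set_option autoImplicit false

namespace ACY

open Finset

variable {α : Type} [DecidableEq α] {r : Finset α → ℕ} {S A B C D F G W X Z : Finset α} {e f x : α} {k j : ℕ}

theorem sid (hr : RK r) (he : e ∈ X) (hf : f ∈ X) (hef : e ≠ f) :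
    ∑ F ∈ (flats r X).filter (fun F => e ∈ F ∧ f ∉ F), bet r F * mu r F X =
      ∑ Z ∈ (lev r X 1).filter (fun Z => e ∈ Z ∧ f ∉ Z), T r Z := by
  have h1 : ∑ F ∈ (flats r X).filter (fun F => e ∈ F ∧ f ∉ F), bet r F * mu r F X =
      ∑ F ∈ (flats r X).filter (fun F => e ∈ F ∧ f ∉ F),
        ∑ Z ∈ (lev r X 1).filter (fun Z => F ⊆ Z ∧ f ∉ Z), bet r F * mu r F Z := by
    refine Finset.sum_congr rfl fun F hF => ?_
    rw [Finset.mem_filter] at hF
    rw [mu_weisner hr hF.1 hf hF.2.2, Finset.mul_sum]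
  have h2 : ∑ Z ∈ (lev r X 1).filter (fun Z => e ∈ Z ∧ f ∉ Z), T r Z =
      ∑ Z ∈ (lev r X 1).filter (fun Z => e ∈ Z ∧ f ∉ Z),
        ∑ F ∈ (flats r Z).filter (fun F => e ∈ F), bet r F * mu r F Z := by
    refine Finset.sum_congr rfl fun Z hZ => ?_
    rw [Finset.mem_filter] at hZ
    exact tot hr hZ.2.1
  rw [h1, h2]
  refine Finset.sum_comm' fun F Z => ?_
  constructor
  · rintro ⟨hF, hZ⟩
    rw [Finset.mem_filter] at hF hZ
    have hZX := (mem_lev.1 hZ.1).1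
    refine ⟨?_, ?_⟩
    · rw [Finset.mem_filter, flats_restrict hr hZX, Finset.mem_filter]
      exact ⟨⟨hF.1, hZ.2.1⟩, hF.2.1⟩
    · rw [Finset.mem_filter]
      exact ⟨hZ.1, hZ.2.1 hF.2.1, hZ.2.2⟩
  · rintro ⟨hF, hZ⟩
    rw [Finset.mem_filter] at hF hZ
    have hZX := (mem_lev.1 hZ.1).1
    rw [flats_restrict hr hZX, Finset.mem_filter] at hF
    refine ⟨?_, ?_⟩
    · rw [Finset.mem_filter]
      exact ⟨hF.1.1, hF.2, fun h => hZ.2.2 (hF.1.2 h)⟩
    · rw [Finset.mem_filter]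
      exact ⟨hZ.1, hF.1.2, hZ.2.2⟩

omit [DecidableEq α] in
private theorem Si_split (s : Finset (Finset α)) (p q : Finset α → Prop) [DecidablePred p] [DecidablePred q]
    (φ : Finset α → ℝ) :
    ∑ Z ∈ s.filter p, φ Z = ∑ Z ∈ s.filter (fun Z => p Z ∧ q Z), φ Z + ∑ Z ∈ s.filter (fun Z => p Z ∧ ¬ q Z), φ Z := by
  rw [← Finset.sum_filter_add_sum_filter_not (s.filter p) q φ, Finset.filter_filter, Finset.filter_filter]

theorem swap (hr : RK r) (he : e ∈ X) (hf : f ∈ X) :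
    ∑ Z ∈ (lev r X 1).filter (fun Z => e ∈ Z ∧ f ∉ Z), T r Z =
      ∑ Z ∈ (lev r X 1).filter (fun Z => e ∉ Z ∧ f ∈ Z), T r Z := by
  have h1 := weisner hr he
  have h2 := weisner hr hf
  rw [Si_split _ (fun Z => e ∉ Z) (fun Z => f ∈ Z)] at h1
  rw [Si_split _ (fun Z => f ∉ Z) (fun Z => e ∈ Z)] at h2
  have h3 : (lev r X 1).filter (fun Z => f ∉ Z ∧ e ∈ Z) = (lev r X 1).filter (fun Z => e ∈ Z ∧ f ∉ Z) :=
    Finset.filter_congr fun Z _ => and_comm
  have h4 : (lev r X 1).filter (fun Z => f ∉ Z ∧ ¬ e ∈ Z) = (lev r X 1).filter (fun Z => e ∉ Z ∧ ¬ f ∈ Z) :=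
    Finset.filter_congr fun Z _ => and_comm
  rw [h3, h4] at h2
  linarith

end ACY
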