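import Pool.Agent.ACY.Re
import Pool.Agent.ACY.Be
import Pool.Agent.ACY.Mu
import Pool.Agent.ACY.Si

/-!
# ACY-Li: the linear form under deletion and contraction

`lid`: the sum of the linear forms of the deletion and of the contraction; `kap_eq`: the linear form of the deletion as a
function of the twist.
-/

set_option autoImplicit false

namespace ACY

open Finset

variable {α : Type} [DecidableEq α] {r : Finset α → ℕ} {S A B C D F G W X Z : Finset α} {e f x : α} {k j : ℕ}

/-- the first sums -/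
private theorem Li_first (hr : RK r) (hf : f ∈ S) (hef : e ≠ f) (h1 : r {f} = 1) (h2 : r (S.erase f) = r S)
    (v : Finset α → ℝ) (t : ℝ) :
    ∑ Z ∈ (lev r (S.erase f) 1).filter (fun Z => e ∉ Z), T r Z * vA r e f t v Z +
      ∑ Z ∈ (lev (con r {f}) (S.erase f) 1).filter (fun Z => e ∉ Z), T (con r {f}) Z * vB e f t v Z =
    ∑ Z ∈ (lev r S 1).filter (fun Z => e ∉ Z), T r Z * v Z -
      t * ∑ Z ∈ (lev r S 1).filter (fun Z => e ∉ Z ∧ f ∈ Z), T r Z := by
  rw [sum_del hr hf h2 1 (fun Z => e ∉ Z) (fun Z => T r Z * vA r e f t v Z),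
    sum_con hr hf h1 1 (fun Z => e ∉ Z) (fun Z => T (con r {f}) Z * vB e f t v Z)]
  rw [Finset.sum_filter, Finset.sum_filter, Finset.sum_filter, Finset.sum_filter, Finset.mul_sum,
    ← Finset.sum_add_distrib, ← Finset.sum_sub_distrib]
  refine Finset.sum_congr rfl fun Z hZ => ?_
  have hZf := (mem_lev.1 hZ).1
  by_cases heZ : e ∈ Z
  · have heZ' : e ∈ Z.erase f := Finset.mem_erase.2 ⟨hef, heZ⟩
    rw [if_neg (fun h => h.2 heZ'), if_neg (fun h => h.2 heZ'), if_neg (not_not.2 heZ), if_neg (fun h => h.1 heZ)]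
    ring
  · have heZ' : e ∉ Z.erase f := fun h => heZ (Finset.mem_of_mem_erase h)
    by_cases hfZ : f ∈ Z
    · have hins := Finset.insert_erase hfZ
      have hvB : vB e f t v (Z.erase f) = v Z - t := by
        unfold vB
        rw [hins, if_neg heZ']
      rw [if_pos (show f ∈ Z ∧ e ∉ Z.erase f from ⟨hfZ, heZ'⟩), if_pos heZ, if_pos (show e ∉ Z ∧ f ∈ Z from ⟨heZ, hfZ⟩), hvB]
      by_cases hc : Col r f Z
      · rw [if_neg (fun h => h.1 hc), (T_col hr hfZ hc.2).1]
        ring
      · have h3 := r_erase hc hr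
        have hvA : vA r e f t v (Z.erase f) = v Z - t := by
          unfold vA
          rw [hins, if_pos h3.symm, if_neg heZ']
        rw [if_pos (show ¬ Col r f Z ∧ e ∉ Z.erase f from ⟨hc, heZ'⟩), T_del hr hfZ h1 h3, hvA]
        ring
    · have hc : ¬ Col r f Z := fun h => hfZ h.1
      have h3 := (mem_flats.1 hZf).2 f hf hfZ
      have he3 : Z.erase f = Z := Finset.erase_eq_of_notMem hfZ
      have hvA : vA r e f t v Z = v Z := by
        unfold vA
        rw [if_neg (by omega), if_neg heZ, add_zero]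
      rw [if_pos (show ¬ Col r f Z ∧ e ∉ Z.erase f from ⟨hc, heZ'⟩), if_neg (fun h => hfZ h.1), if_pos heZ,
        if_neg (fun h => hfZ h.2), he3, hvA]
      ring

private theorem Li_con_eq (hr : RK r) (h1 : r {f} = 1) (hc : Col r f F) (hA : A ⊆ F.erase f) :
    con r {f} A = r A := by
  have h2 := con_add hr {f} A
  have h3 : A ∪ {f} = insert f A := by
    rw [Finset.union_comm]
    rfl
  rw [h3, h1] at h2
  rcases hr.ins A f with h4 | h4
  · exfalso
    have h5 := hr.cl_mono hA h4
    rw [Finset.insert_erase hc.1] at h5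
    exact absurd hc.2 (by omega)
  · omega

/-- the second sum of the contraction -/
private theorem Li_sec (hr : RK r) (hf : f ∈ S) (h1 : r {f} = 1) (g : Finset α → ℝ) (t : ℝ) :
    ∑ F ∈ (flats (con r {f}) (S.erase f)).filter (fun F => e ∈ F),
        bet (con r {f}) F * mu (con r {f}) F (S.erase f) * gA r f t g F =
      ∑ F ∈ (flats r S).filter (fun F => (f ∈ F ∧ e ∈ F.erase f) ∧ ¬ Col r f F),
        bet (con r {f}) (F.erase f) * mu (con r {f}) (F.erase f) (S.erase f) * gA r f t g (F.erase f) +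
      ∑ F ∈ (flats r S).filter (fun F => (f ∉ F ∧ insert f F ∈ flats r S) ∧ e ∈ F),
        bet r F * mu (con r {f}) F (S.erase f) * (g F + t) := by
  rw [sum_con_flats hr hf (fun F => e ∈ F)
    (fun F => bet (con r {f}) F * mu (con r {f}) F (S.erase f) * gA r f t g F),
    sum_col hr hf (fun F => e ∈ F) (fun F => bet r F * mu (con r {f}) F (S.erase f) * (g F + t)),
    ← Finset.sum_filter_add_sum_filter_not _ (fun F => ¬ Col r f F), Finset.filter_filter, Finset.filter_filter]
  congr 1
  have e1 : (flats r S).filter (fun F => (f ∈ F ∧ e ∈ F.erase f) ∧ ¬ ¬ Col r f F) =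
      (flats r S).filter (fun F => Col r f F ∧ e ∈ F.erase f) := by
    refine Finset.filter_congr fun F _ => ?_
    rw [not_not]
    exact ⟨fun h => ⟨h.2, h.1.2⟩, fun h => ⟨⟨h.1.1, h.2⟩, h.1⟩⟩
  rw [e1]
  refine Finset.sum_congr rfl fun F hF => ?_
  rw [Finset.mem_filter] at hF
  have hc := hF.2.1
  have h3 : gA r f t g (F.erase f) = g (F.erase f) + t := by
    unfold gA
    rw [Finset.insert_erase hc.1, if_neg (fun h => absurd hc.2 (by omega))]
  have h4 : bet (con r {f}) (F.erase f) = bet r (F.erase f) := bet_congr fun A hA => Li_con_eq hr h1 hc hA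
  rw [h3, h4]

/-- the second sums -/
private theorem Li_second (hr : RK r) (hf : f ∈ S) (hef : e ≠ f) (h1 : r {f} = 1) (h2 : r (S.erase f) = r S)
    (g : Finset α → ℝ) (t : ℝ) :
    ∑ F ∈ (flats r (S.erase f)).filter (fun F => e ∈ F), bet r F * mu r F (S.erase f) * gA r f t g F +
      ∑ F ∈ (flats (con r {f}) (S.erase f)).filter (fun F => e ∈ F),
        bet (con r {f}) F * mu (con r {f}) F (S.erase f) * gA r f t g F =
    ∑ F ∈ (flats r S).filter (fun F => e ∈ F), bet r F * mu r F S * g F +
      t * ∑ F ∈ (flats r S).filter (fun F => e ∈ F ∧ f ∉ F), bet r F * mu r F S := by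
  rw [sum_del_flats hr hf (fun F => e ∈ F) (fun F => bet r F * mu r F (S.erase f) * gA r f t g F), Li_sec hr hf h1]
  rw [Finset.sum_filter, Finset.sum_filter, Finset.sum_filter, Finset.sum_filter, Finset.sum_filter, Finset.mul_sum,
    ← Finset.sum_add_distrib, ← Finset.sum_add_distrib, ← Finset.sum_add_distrib]
  refine Finset.sum_congr rfl fun F hF => ?_
  have hFS := (mem_flats.1 hF).1
  by_cases heF : e ∈ F
  · have heF' : e ∈ F.erase f := Finset.mem_erase.2 ⟨hef, heF⟩
    by_cases hfF : f ∈ F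
    · have hins := Finset.insert_erase hfF
      rw [if_neg (show ¬ ((f ∉ F ∧ insert f F ∈ flats r S) ∧ e ∈ F) from fun h => h.1.1 hfF), if_pos heF,
        if_neg (show ¬ (e ∈ F ∧ f ∉ F) from fun h => h.2 hfF)]
      by_cases hc : Col r f F
      · rw [if_neg (fun h => h.1 hc), if_neg (fun h => h.2 hc), bet_col hr hfF heF hef hc.2]
        ring
      · have h3 := r_erase hc hr
        have hg : gA r f t g (F.erase f) = g F := by
          unfold gA
          rw [hins, if_pos h3.symm]
        rw [if_pos (show ¬ Col r f F ∧ e ∈ F.erase f from ⟨hc, heF'⟩),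
          if_pos (show (f ∈ F ∧ e ∈ F.erase f) ∧ ¬ Col r f F from ⟨⟨hfF, heF'⟩, hc⟩), hg,
          mu1 hr hfF h3 hFS, mu2 hr hfF hFS, bet_del hr hfF h1 h3]
        ring
    · have hc : ¬ Col r f F := fun h => hfF h.1
      have h3 := (mem_flats.1 hF).2 f hf hfF
      have he3 : F.erase f = F := Finset.erase_eq_of_notMem hfF
      have hg : gA r f t g F = g F + t := by
        unfold gA
        rw [if_neg (by omega)]
      have h4 := mu4 hr hF (self_flat (r := r) (S := S)) hFS hf hfF
      rw [if_pos h2] at h4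
      rw [if_pos (show ¬ Col r f F ∧ e ∈ F.erase f from ⟨hc, heF'⟩),
        if_neg (show ¬ ((f ∈ F ∧ e ∈ F.erase f) ∧ ¬ Col r f F) from fun h => hfF h.1.1), if_pos heF,
        if_pos (show e ∈ F ∧ f ∉ F from ⟨heF, hfF⟩), he3, hg, h4]
      by_cases h5 : insert f F ∈ flats r S
      · rw [if_pos (show (f ∉ F ∧ insert f F ∈ flats r S) ∧ e ∈ F from ⟨⟨hfF, h5⟩, heF⟩), if_pos h5]
        ring
      · rw [if_neg (fun h => h5 h.1.2), if_neg h5]
        ring
  · have heF' : e ∉ F.erase f := fun h => heF (Finset.mem_of_mem_erase h)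
    rw [if_neg (fun h => heF' h.2), if_neg (fun h => heF' h.1.2), if_neg (fun h => heF h.2), if_neg heF,
      if_neg (fun h => heF h.1)]
    ring

theorem lid (hr : RK r) (he : e ∈ S) (hf : f ∈ S) (hef : e ≠ f) (h1 : r {f} = 1) (h2 : r (S.erase f) = r S)
    (v g : Finset α → ℝ) (t : ℝ) :
    L r (S.erase f) e (vA r e f t v) (gA r f t g) + L (con r {f}) (S.erase f) e (vB e f t v) (gA r f t g) =
      L r S e v g := by
  have a1 := Li_first hr hf hef h1 h2 v t
  have a2 := Li_second hr hf hef h1 h2 g t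
  have a3 := sid hr he hf hef
  have a4 := swap hr he hf
  rw [a3, a4] at a2
  unfold L
  linarith

/-- the linear form of the contraction as a function of `t` -/
private theorem Li_con (hr : RK r) (he : e ∈ S) (hf : f ∈ S) (hef : e ≠ f) (v g : Finset α → ℝ) (t : ℝ) :
    L (con r {f}) (S.erase f) e (vB e f t v) (gA r f t g) + t * kap r S e f =
      L (con r {f}) (S.erase f) e (vB e f 0 v) (gA r f 0 g) := by
  have he' : e ∈ S.erase f := Finset.mem_erase.2 ⟨hef, he⟩
  have hc := hr.con {f}
  -- the first sum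
  have a1 : ∑ Z ∈ (lev (con r {f}) (S.erase f) 1).filter (fun Z => e ∉ Z), T (con r {f}) Z * vB e f t v Z =
      ∑ Z ∈ (lev (con r {f}) (S.erase f) 1).filter (fun Z => e ∉ Z), T (con r {f}) Z * vB e f 0 v Z -
        t * T (con r {f}) (S.erase f) := by
    rw [weisner hc he', Finset.mul_sum, ← Finset.sum_sub_distrib]
    refine Finset.sum_congr rfl fun Z hZ => ?_
    rw [Finset.mem_filter] at hZ
    unfold vB
    rw [if_neg hZ.2, if_neg hZ.2]
    ring
  -- the second sum
  have a2 : ∑ F ∈ (flats (con r {f}) (S.erase f)).filter (fun F => e ∈ F),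
        bet (con r {f}) F * mu (con r {f}) F (S.erase f) * gA r f t g F =
      ∑ F ∈ (flats (con r {f}) (S.erase f)).filter (fun F => e ∈ F),
        bet (con r {f}) F * mu (con r {f}) F (S.erase f) * gA r f 0 g F + t * T (con r {f}) (S.erase f) -
        t * ∑ F ∈ (flats (con r {f}) (S.erase f)).filter (fun F => e ∈ F),
          (if r (insert f F) = r F then bet (con r {f}) F * mu (con r {f}) F (S.erase f) else 0) := by
    rw [tot hc he', Finset.mul_sum, Finset.mul_sum, ← Finset.sum_add_distrib, ← Finset.sum_sub_distrib]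
    refine Finset.sum_congr rfl fun F _ => ?_
    unfold gA
    by_cases h : r (insert f F) = r F
    · rw [if_pos h, if_pos h, if_pos h]
      ring
    · rw [if_neg h, if_neg h, if_neg h]
      ring
  have a3 : ∑ F ∈ (flats (con r {f}) (S.erase f)).filter (fun F => e ∈ F),
      (if r (insert f F) = r F then bet (con r {f}) F * mu (con r {f}) F (S.erase f) else 0) = kap r S e f := by
    rw [← Finset.sum_filter, Finset.filter_filter,
      sum_con_flats hr hf (fun F => e ∈ F ∧ r (insert f F) = r F)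
        (fun F => bet (con r {f}) F * mu (con r {f}) F (S.erase f))]
    unfold kap
    have e1 : (flats r S).filter (fun F => f ∈ F ∧ (e ∈ F.erase f ∧ r (insert f (F.erase f)) = r (F.erase f))) =
        (flats r S).filter (fun F => e ∈ F ∧ f ∈ F ∧ ¬ Col r f F) := by
      refine Finset.filter_congr fun F _ => ?_
      unfold Col
      constructor
      · rintro ⟨b1, b2, b3⟩
        rw [Finset.insert_erase b1] at b3
        exact ⟨Finset.mem_of_mem_erase b2, b1, fun h => absurd h.2 (by rw [b3]; exact lt_irrefl _)⟩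
      · rintro ⟨b1, b2, b3⟩
        refine ⟨b2, Finset.mem_erase.2 ⟨hef, b1⟩, ?_⟩
        rw [Finset.insert_erase b2]
        have b4 := hr.mono _ _ (Finset.erase_subset f F)
        have b5 : ¬ r (F.erase f) < r F := fun h => b3 ⟨b2, h⟩
        omega
    rw [e1]
    refine Finset.sum_congr rfl fun F hF => ?_
    rw [Finset.mem_filter] at hF
    rw [mu2 hr hF.2.2.1 (mem_flats.1 hF.1).1]
  unfold L
  rw [a1, a2, a3]
  ring

theorem kap_eq (hr : RK r) (he : e ∈ S) (hf : f ∈ S) (hef : e ≠ f) (h1 : r {f} = 1) (h2 : r (S.erase f) = r S)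
    (v g : Finset α → ℝ) (t : ℝ) :
    L r (S.erase f) e (vA r e f t v) (gA r f t g) =
      L r (S.erase f) e (vA r e f 0 v) (gA r f 0 g) + t * kap r S e f := by
  have b1 := lid hr he hf hef h1 h2 v g t
  have b2 := lid hr he hf hef h1 h2 v g 0
  have b3 := Li_con hr he hf hef v g t
  linarith

end ACY
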