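import Pool.Agent.ACY.Ba

/-!
# ACY-Td: the invariant `T`, deletion and contraction

The powerset of `X` is split by the element `f` (`Td_split`): the sets without `f` belong to the deletion, the sets with `f` to the
contraction.
-/

set_option autoImplicit false

namespace ACY

open Finset

variable {α : Type} [DecidableEq α] {r : Finset α → ℕ} {S A B C D F G W X Z : Finset α} {e f x : α} {k j : ℕ}

omit [DecidableEq α] in
private theorem Td_ite (r : Finset α → ℕ) (X : Finset α) :
    T r X = ∑ A ∈ X.powerset, if r A = r X then (-1 : ℝ) ^ (A.card + r X) else 0 := by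
  unfold T
  rw [sum_filter]

private theorem Td_split (r : Finset α → ℕ) (hf : f ∈ X) :
    T r X = (∑ A ∈ (X.erase f).powerset, if r A = r X then (-1 : ℝ) ^ (A.card + r X) else 0) +
      ∑ A ∈ (X.erase f).powerset, if r (insert f A) = r X then (-1 : ℝ) ^ (A.card + 1 + r X) else 0 := by
  rw [Td_ite]
  have h1 : X = insert f (X.erase f) := (insert_erase hf).symm
  have h2 : ∀ F : Finset α → ℝ, ∑ A ∈ X.powerset, F A =
      ∑ A ∈ (X.erase f).powerset, F A + ∑ A ∈ (X.erase f).powerset, F (insert f A) := by
    intro F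
    have h3 := sum_powerset_insert (notMem_erase f X) F
    rw [← h1] at h3
    exact h3
  rw [h2]
  congr 1
  refine sum_congr rfl fun A hA => ?_
  have h4 : f ∉ A := fun h => notMem_erase f X (mem_powerset.1 hA h)
  rw [card_insert_of_notMem h4]

private theorem Td_con (hr : RK r) (h1 : r {f} = 1) (A : Finset α) : con r {f} A + 1 = r (insert f A) := by
  have h2 := con_add hr {f} A
  rw [h1] at h2
  rw [h2, union_comm, insert_eq]

theorem T_congr {r' : Finset α → ℕ} (h : ∀ A, A ⊆ X → r A = r' A) : T r X = T r' X := by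
  rw [Td_ite, Td_ite]
  refine sum_congr rfl fun A hA => ?_
  rw [h A (mem_powerset.1 hA), h X (Subset.refl X)]

theorem T_empty (hr : RK r) : T r ∅ = 1 := by
  rw [Td_ite, powerset_empty, sum_singleton, if_pos rfl, hr.empty, card_empty, Nat.add_zero, pow_zero]

theorem T_loop (hr : RK r) (hx : x ∈ X) (h : r {x} = 0) : T r X = 0 := by
  rw [Td_split r hx, ← sum_add_distrib]
  refine sum_eq_zero fun A _ => ?_
  have h1 : r (insert x A) = r A := by
    refine hr.cl_mono (A := ∅) (empty_subset A) ?_
    rw [hr.empty]
    exact h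
  rw [h1]
  split_ifs
  · ring
  · ring

theorem T_del (hr : RK r) (hf : f ∈ X) (h1 : r {f} = 1) (h2 : r (X.erase f) = r X) :
    T r X = T r (X.erase f) + T (con r {f}) (X.erase f) := by
  rw [Td_split r hf, Td_ite r (X.erase f), Td_ite (con r {f}) (X.erase f), h2]
  congr 1
  refine sum_congr rfl fun A _ => ?_
  have h3 := Td_con hr h1 A
  have h4 := Td_con hr h1 (X.erase f)
  rw [insert_erase hf] at h4
  rw [← h3, ← h4]
  by_cases h5 : con r {f} A = con r {f} (X.erase f)
  · rw [if_pos (by rw [h5]), if_pos h5]
    ring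
  · rw [if_neg (by omega), if_neg h5]

theorem T_col (hr : RK r) (hf : f ∈ X) (h2 : r (X.erase f) < r X) :
    T r X = T (con r {f}) (X.erase f) ∧ T r X = T r (X.erase f) := by
  have h3 : ∀ A, A ⊆ X.erase f → r (insert f A) = r A + 1 := by
    intro A hA
    rcases hr.ins A f with h | h
    · have h4 := hr.cl_mono hA h
      rw [insert_erase hf] at h4
      omega
    · exact h
  have h5 : r {f} = 1 := by
    have h6 := h3 ∅ (empty_subset _)
    rw [hr.empty] at h6
    exact h6
  have h7 : T r X = T r (X.erase f) := by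
    rw [Td_split r hf, Td_ite r (X.erase f)]
    have h8 : (∑ A ∈ (X.erase f).powerset, if r A = r X then (-1 : ℝ) ^ (A.card + r X) else 0) = 0 := by
      refine sum_eq_zero fun A hA => ?_
      have h9 := hr.mono A (X.erase f) (mem_powerset.1 hA)
      rw [if_neg (by omega)]
    rw [h8, zero_add]
    refine sum_congr rfl fun A hA => ?_
    have h10 := h3 A (mem_powerset.1 hA)
    have h11 := h3 (X.erase f) (Subset.refl _)
    rw [insert_erase hf] at h11
    rw [h10, h11]
    by_cases h12 : r A = r (X.erase f)
    · rw [if_pos (by rw [h12]), if_pos h12]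
      ring
    · rw [if_neg (by omega), if_neg h12]
  refine ⟨?_, h7⟩
  rw [h7]
  refine T_congr fun A hA => ?_
  have h13 := Td_con hr h5 A
  have h14 := h3 A hA
  omega

end ACY
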