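import Pool.Agent.ACY.Be
import Pool.Agent.ACY.Td

/-!
# ACY-Lo: matroids with loops

A flat contains every loop `x`, so `T = 0` (`T_loop`) and `bet = 0` (`bet_loop`) for all flats of `S`, and both forms vanish.
-/

set_option autoImplicit false

namespace ACY

open Finset

variable {α : Type} [DecidableEq α] {r : Finset α → ℕ} {S A B C D F G W X Z : Finset α} {e f x : α} {k j : ℕ}

private theorem Lo_mem (hr : RK r) (hx : x ∈ S) (h : r {x} = 0) (hF : F ∈ flats r S) : x ∈ F := by
  refine mem_of_flat hr hF (Finset.empty_subset F) hx ?_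
  rw [insert_empty_eq, h, hr.empty]

private theorem Lo_T (hr : RK r) (hx : x ∈ S) (h : r {x} = 0) (hF : F ∈ lev r S k) : T r F = 0 :=
  T_loop hr (Lo_mem hr hx h (mem_lev.1 hF).1) h

private theorem Lo_b (hr : RK r) (hx : x ∈ S) (h : r {x} = 0) (hF : F ∈ flats r S) : bet r F = 0 :=
  bet_loop hr (Lo_mem hr hx h hF) h

theorem loopQ (hr : RK r) (hx : x ∈ S) (h : r {x} = 0) (v g : Finset α → ℝ) : Q r S e v g = 0 := by
  have h1 : Qa r S e v = 0 := by
    unfold Qa
    rw [Finset.sum_eq_zero, Finset.sum_eq_zero, sub_zero]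
    · intro W hW
      refine Finset.sum_eq_zero fun Z _ => ?_
      rw [Lo_T hr hx h (Finset.mem_filter.1 hW).1, zero_mul]
    · intro Z hZ
      rw [Lo_T hr hx h (Finset.mem_filter.1 hZ).1, zero_mul]
  have h2 : Qb r S e v = 0 := by
    unfold Qb
    refine Finset.sum_eq_zero fun Z hZ => ?_
    rw [Lo_T hr hx h (Finset.mem_filter.1 hZ).1, zero_mul, sub_zero]
    refine Finset.sum_eq_zero fun W hW => ?_
    rw [Lo_T hr hx h (Finset.mem_filter.1 hW).1, mul_zero, zero_mul, zero_mul]
  have h3 : Qc r S e v g = 0 := by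
    unfold Qc
    refine Finset.sum_eq_zero fun F hF => ?_
    rw [Lo_b hr hx h (Finset.mem_filter.1 hF).1, zero_mul]
  unfold Q
  rw [h1, h2, h3, add_zero, add_zero]

theorem loopL (hr : RK r) (hx : x ∈ S) (h : r {x} = 0) (v g : Finset α → ℝ) : L r S e v g = 0 := by
  unfold L
  rw [Finset.sum_eq_zero, Finset.sum_eq_zero, add_zero]
  · intro F hF
    rw [Lo_b hr hx h (Finset.mem_filter.1 hF).1, zero_mul, zero_mul]
  · intro Z hZ
    rw [Lo_T hr hx h (Finset.mem_filter.1 hZ).1, zero_mul]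

end ACY
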