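import Pool.Agent.TFP.Defs

/-!
# ACY machine layer, Av: real averages over bit strings

As Pool/Agent/TFP/Avg.lean, with real values.
-/

set_option autoImplicit false

namespace ACY.M

open Finset

/-- the average of `F` over all lists of `n` bits -/
noncomputable def av : ℕ → (List Bool → ℝ) → ℝ
  | 0, F => F []
  | n + 1, F => (av n (fun l => F (false :: l)) + av n (fun l => F (true :: l))) / 2

theorem av_const (n : ℕ) (c : ℝ) : av n (fun _ => c) = c := by
  induction n with
  | zero => rfl
  | succ n ih =>
    show (av n (fun _ => c) + av n (fun _ => c)) / 2 = c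
    rw [ih]
    ring

theorem av_add (n : ℕ) (F H : List Bool → ℝ) : av n (fun l => F l + H l) = av n F + av n H := by
  induction n generalizing F H with
  | zero => rfl
  | succ n ih =>
    show (av n (fun l => F (false :: l) + H (false :: l)) +
      av n (fun l => F (true :: l) + H (true :: l))) / 2 =
      (av n (fun l => F (false :: l)) + av n (fun l => F (true :: l))) / 2 +
      (av n (fun l => H (false :: l)) + av n (fun l => H (true :: l))) / 2
    rw [ih (fun l => F (false :: l)) (fun l => H (false :: l)),
      ih (fun l => F (true :: l)) (fun l => H (true :: l))]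
    ring

theorem av_smul (n : ℕ) (c : ℝ) (F : List Bool → ℝ) : av n (fun l => c * F l) = c * av n F := by
  induction n generalizing F with
  | zero => rfl
  | succ n ih =>
    show (av n (fun l => c * F (false :: l)) + av n (fun l => c * F (true :: l))) / 2 =
      c * ((av n (fun l => F (false :: l)) + av n (fun l => F (true :: l))) / 2)
    rw [ih (fun l => F (false :: l)), ih (fun l => F (true :: l))]
    ring

theorem av_congr {n : ℕ} {F H : List Bool → ℝ} (h : ∀ l, l.length = n → F l = H l) :
    av n F = av n H := by
  induction n generalizing F H with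
  | zero => exact h [] rfl
  | succ n ih =>
    show (av n (fun l => F (false :: l)) + av n (fun l => F (true :: l))) / 2 =
      (av n (fun l => H (false :: l)) + av n (fun l => H (true :: l))) / 2
    rw [ih (F := fun l => F (false :: l)) (H := fun l => H (false :: l))
        (fun l hl => h _ (by rw [List.length_cons, hl])),
      ih (F := fun l => F (true :: l)) (H := fun l => H (true :: l))
        (fun l hl => h _ (by rw [List.length_cons, hl]))]

theorem av_sub (n : ℕ) (F H : List Bool → ℝ) : av n (fun l => F l - H l) = av n F - av n H := by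
  have e : av n (fun l => F l - H l) = av n (fun l => F l + (-1) * H l) :=
    av_congr fun l _ => by ring
  rw [e, av_add n F (fun l => (-1) * H l), av_smul]
  ring

theorem av_mono {n : ℕ} {F H : List Bool → ℝ} (h : ∀ l, l.length = n → F l ≤ H l) :
    av n F ≤ av n H := by
  induction n generalizing F H with
  | zero => exact h [] rfl
  | succ n ih =>
    show (av n (fun l => F (false :: l)) + av n (fun l => F (true :: l))) / 2 ≤
      (av n (fun l => H (false :: l)) + av n (fun l => H (true :: l))) / 2
    have h1 := ih (F := fun l => F (false :: l)) (H := fun l => H (false :: l))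
        (fun l hl => h _ (by rw [List.length_cons, hl]))
    have h2 := ih (F := fun l => F (true :: l)) (H := fun l => H (true :: l))
        (fun l hl => h _ (by rw [List.length_cons, hl]))
    linarith

/-- independence: a bit string of length `m + n` is the concatenation of two independent ones -/
theorem av_append (m n : ℕ) (F : List Bool → ℝ) :
    av (m + n) F = av m (fun l => av n (fun l' => F (l ++ l'))) := by
  induction m generalizing F with
  | zero =>
    rw [zero_add]
    rfl
  | succ m ih =>
    have e : m + 1 + n = (m + n) + 1 := by omega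
    rw [e]
    show (av (m + n) (fun l => F (false :: l)) + av (m + n) (fun l => F (true :: l))) / 2 =
      (av m (fun l => av n (fun l' => F ((false :: l) ++ l'))) +
        av m (fun l => av n (fun l' => F ((true :: l) ++ l')))) / 2
    rw [ih (fun l => F (false :: l)), ih (fun l => F (true :: l))]
    rfl

/-- independence, with `take` and `drop` -/
theorem av_take_drop (m n : ℕ) (F : List Bool → List Bool → ℝ) :
    av (m + n) (fun l => F (l.take m) (l.drop m)) = av m (fun l => av n (fun l' => F l l')) := by
  rw [av_append]
  refine av_congr fun l hl => av_congr fun l' _ => ?_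
  rw [← hl, List.take_left, List.drop_left]

theorem av_take {m n : ℕ} (h : m ≤ n) (F : List Bool → ℝ) :
    av n (fun l => F (l.take m)) = av m F := by
  obtain ⟨k, rfl⟩ := Nat.exists_eq_add_of_le h
  rw [av_take_drop m k (fun l _ => F l)]
  refine av_congr fun l _ => av_const k (F l)

/-- the average as a count -/
theorem av_count (n : ℕ) (F : List Bool → ℝ) :
    av n F = (∑ r : Fin n → Bool, F (List.ofFn r)) / 2 ^ n := by
  induction n generalizing F with
  | zero =>
    rw [Fintype.sum_unique, List.ofFn_zero, pow_zero, div_one]
    rfl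
  | succ n ih =>
    have h1 := Fintype.sum_equiv (Fin.consEquiv (fun _ : Fin (n + 1) => Bool))
      (fun q : Bool × (Fin n → Bool) => F (q.1 :: List.ofFn q.2)) (fun r => F (List.ofFn r))
      (fun q => by
        have e : List.ofFn ((Fin.consEquiv (fun _ : Fin (n + 1) => Bool)) q) = q.1 :: List.ofFn q.2 := by
          rw [List.ofFn_succ]
          rfl
        rw [e])
    have h2 : av (n + 1) F = (av n (fun l => F (false :: l)) + av n (fun l => F (true :: l))) / 2 := rfl
    rw [h2, ← h1, Fintype.sum_prod_type, Fintype.sum_bool, ih (fun l => F (false :: l)),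
      ih (fun l => F (true :: l)), pow_succ]
    field_simp
    ring

private theorem av_sum_two (m : ℕ) (F : ℕ → ℝ) :
    ∑ U ∈ range (2 * m), F U = ∑ U ∈ range m, F (2 * U) + ∑ U ∈ range m, F (2 * U + 1) := by
  induction m with
  | zero => simp
  | succ m ih =>
    have e : 2 * (m + 1) = 2 * m + 1 + 1 := by ring
    rw [e, Finset.sum_range_succ, Finset.sum_range_succ, ih, Finset.sum_range_succ,
      Finset.sum_range_succ]
    ring

/-- `val` of `b` random bits is a uniform number `< 2 ^ b` -/
theorem av_val (b : ℕ) (F : ℕ → ℝ) :
    av b (fun l => F (Pool.Agent.Helper6.WB.val l)) = (∑ U ∈ range (2 ^ b), F U) / 2 ^ b := by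
  induction b generalizing F with
  | zero =>
    rw [pow_zero, Finset.range_one, Finset.sum_singleton, pow_zero, div_one]
    rfl
  | succ b ih =>
    have h2 : av (b + 1) (fun l => F (Pool.Agent.Helper6.WB.val l)) =
        (av b (fun l => F (Pool.Agent.Helper6.WB.val (false :: l))) +
          av b (fun l => F (Pool.Agent.Helper6.WB.val (true :: l)))) / 2 := rfl
    have e1 : av b (fun l => F (Pool.Agent.Helper6.WB.val (false :: l))) =
        av b (fun l => (fun U => F (2 * U)) (Pool.Agent.Helper6.WB.val l)) :=
      av_congr fun l _ => by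
        rw [Pool.Agent.Helper6.WB.val_cons, Nat.bit_false]
    have e2 : av b (fun l => F (Pool.Agent.Helper6.WB.val (true :: l))) =
        av b (fun l => (fun U => F (2 * U + 1)) (Pool.Agent.Helper6.WB.val l)) :=
      av_congr fun l _ => by
        rw [Pool.Agent.Helper6.WB.val_cons, Nat.bit_true]
    rw [h2, e1, e2, ih (fun U => F (2 * U)), ih (fun U => F (2 * U + 1))]
    have e3 : 2 ^ (b + 1) = 2 * 2 ^ b := by ring
    rw [e3, av_sum_two, pow_succ]
    field_simp

/-! ## Events -/

open Classical in
/-- the probability of the event `P` -/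
noncomputable def pr (n : ℕ) (P : List Bool → Prop) : ℝ := av n (fun l => if P l then 1 else 0)

theorem av_nonneg {n : ℕ} {F : List Bool → ℝ} (h : ∀ l, l.length = n → 0 ≤ F l) : 0 ≤ av n F := by
  have h1 := av_mono (n := n) (F := fun _ => 0) (H := F) h
  rwa [av_const] at h1

theorem pr_nonneg (n : ℕ) (P : List Bool → Prop) : 0 ≤ pr n P := by
  classical
  refine av_nonneg fun l _ => ?_
  split_ifs
  · exact zero_le_one
  · exact le_refl _

theorem pr_mono {n : ℕ} {P Q : List Bool → Prop} (h : ∀ l, l.length = n → P l → Q l) : pr n P ≤ pr n Q := by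
  classical
  refine av_mono fun l hl => ?_
  by_cases h1 : P l
  · rw [if_pos h1, if_pos (h l hl h1)]
  · rw [if_neg h1]
    split_ifs
    · exact zero_le_one
    · exact le_refl _

theorem pr_congr {n : ℕ} {P Q : List Bool → Prop} (h : ∀ l, l.length = n → (P l ↔ Q l)) : pr n P = pr n Q :=
  le_antisymm (pr_mono fun l hl => (h l hl).1) (pr_mono fun l hl => (h l hl).2)

theorem pr_or (n : ℕ) (P Q : List Bool → Prop) : pr n (fun l => P l ∨ Q l) ≤ pr n P + pr n Q := by
  classical
  unfold pr
  rw [← av_add]
  refine av_mono fun l _ => ?_
  by_cases h1 : P l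
  · rw [if_pos (Or.inl h1), if_pos h1]
    split_ifs <;> norm_num
  · rw [if_neg h1, zero_add]
    by_cases h2 : Q l
    · rw [if_pos (Or.inr h2), if_pos h2]
    · rw [if_neg (not_or.2 ⟨h1, h2⟩), if_neg h2]

theorem pr_false (n : ℕ) : pr n (fun _ => False) = 0 := by
  classical
  unfold pr
  simp only [if_false]
  exact av_const n 0

theorem pr_take {m n : ℕ} (P : List Bool → Prop) : pr (m + n) (fun l => P (l.take m)) = pr m P := by
  classical
  unfold pr
  exact av_take (Nat.le_add_right m n) (fun l => if P l then (1 : ℝ) else 0)

theorem pr_drop {m n : ℕ} (P : List Bool → Prop) : pr (m + n) (fun l => P (l.drop m)) = pr n P := by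
  classical
  unfold pr
  rw [av_take_drop m n (fun _ l => if P l then (1 : ℝ) else 0)]
  exact av_const m _

/-- Markov's inequality -/
theorem pr_markov {n : ℕ} {F : List Bool → ℝ} (hF : ∀ l, l.length = n → 0 ≤ F l) {a : ℝ} (ha : 0 < a) :
    pr n (fun l => a ≤ F l) ≤ av n F / a := by
  classical
  rw [le_div_iff₀ ha, mul_comm]
  unfold pr
  rw [← av_smul]
  refine av_mono fun l hl => ?_
  by_cases h1 : a ≤ F l
  · rw [if_pos h1, mul_one]
    exact h1
  · rw [if_neg h1, mul_zero]
    exact hF l hl

/-- the probability as a count -/
theorem pr_count (n : ℕ) (P : List Bool → Prop) [DecidablePred fun r : Fin n → Bool => P (List.ofFn r)] :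
    pr n P = ((Finset.univ.filter fun r : Fin n → Bool => P (List.ofFn r)).card : ℝ) / 2 ^ n := by
  classical
  unfold pr
  rw [av_count, Finset.card_filter]
  push_cast
  congr 1
  refine Finset.sum_congr rfl fun r _ => ?_
  by_cases h : P (List.ofFn r)
  · rw [if_pos h, if_pos h]
  · rw [if_neg h, if_neg h]

theorem pr_not (n : ℕ) (P : List Bool → Prop) : pr n (fun l => ¬ P l) = 1 - pr n P := by
  classical
  unfold pr
  have h := av_sub n (fun _ => (1 : ℝ)) (fun l => if P l then (1 : ℝ) else 0)
  rw [av_const] at h
  rw [← h]
  refine av_congr fun l _ => ?_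
  by_cases h : P l
  · rw [if_neg (not_not.2 h), if_pos h, sub_self]
  · rw [if_pos h, if_neg h, sub_zero]

end ACY.M
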