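import Pool.Agent.ACY.MDefs
import Pool.Agent.ACY.MAv

/-!
# ACY machine layer, Ch: Chebyshev's inequality for the number of successes

The number of successes in `K` independent trials has mean `K * p` and variance at most `K`; Markov's inequality for the square.
-/

set_option autoImplicit false

namespace ACY.M

open Finset

open Pool.Agent.TFP (Ed)

private theorem MCh_mean {m : ℕ} {g : List Bool → ℝ} {h : ℕ → List Bool → ℝ} (h0 : ∀ l, h 0 l = 0)
    (hs : ∀ K l, h (K + 1) l = g (l.take m) + h K (l.drop m)) (K : ℕ) :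
    av (K * m) (h K) = K * av m g := by
  induction K with
  | zero =>
    rw [Nat.zero_mul, Nat.cast_zero, zero_mul]
    exact h0 []
  | succ K ih =>
    have e : (K + 1) * m = m + K * m := by ring
    have e1 : av (m + K * m) (h (K + 1)) = av (m + K * m) (fun l => g (l.take m) + h K (l.drop m)) :=
      av_congr fun l _ => hs K l
    rw [e, e1, av_take_drop m (K * m) (fun l l' => g l + h K l')]
    have e2 : av m (fun l => av (K * m) (fun l' => g l + h K l')) = av m (fun l => g l + K * av m g) := by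
      refine av_congr fun l _ => ?_
      rw [av_add (K * m) (fun _ => g l) (h K), av_const, ih]
    rw [e2, av_add m g (fun _ => K * av m g), av_const]
    push_cast
    ring

private theorem MCh_var {m : ℕ} {g : List Bool → ℝ} (hg0 : ∀ l, 0 ≤ g l) (hg1 : ∀ l, g l ≤ 1)
    {h : ℕ → List Bool → ℝ} (h0 : ∀ l, h 0 l = 0)
    (hs : ∀ K l, h (K + 1) l = g (l.take m) + h K (l.drop m)) (K : ℕ) :
    av (K * m) (fun l => (h K l - K * av m g) ^ 2) ≤ K := by
  have hp0 : 0 ≤ av m g := av_nonneg fun l _ => hg0 l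
  have hp1 : av m g ≤ 1 := by
    have h1 := av_mono (n := m) (F := g) (H := fun _ => 1) fun l _ => hg1 l
    rwa [av_const] at h1
  induction K with
  | zero =>
    rw [Nat.zero_mul]
    show (h 0 [] - ((0 : ℕ) : ℝ) * av m g) ^ 2 ≤ ((0 : ℕ) : ℝ)
    rw [h0, Nat.cast_zero, zero_mul, sub_zero, zero_pow two_ne_zero]
  | succ K ih =>
    have e : (K + 1) * m = m + K * m := by ring
    have e1 : av (m + K * m) (fun l => (h (K + 1) l - ((K + 1 : ℕ) : ℝ) * av m g) ^ 2) =
        av (m + K * m) (fun l => ((g (l.take m) - av m g) + (h K (l.drop m) - K * av m g)) ^ 2) := by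
      refine av_congr fun l _ => ?_
      rw [hs]
      push_cast
      ring
    rw [e, e1, av_take_drop m (K * m) (fun l l' => ((g l - av m g) + (h K l' - K * av m g)) ^ 2)]
    have hc : av (K * m) (fun l => h K l - K * av m g) = 0 := by
      rw [av_sub (K * m) (h K) (fun _ => K * av m g), av_const, MCh_mean h0 hs, sub_self]
    have e2 : av m (fun l => av (K * m) (fun l' => ((g l - av m g) + (h K l' - K * av m g)) ^ 2)) =
        av m (fun l => (g l - av m g) ^ 2 + av (K * m) (fun l => (h K l - K * av m g) ^ 2)) := by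
      refine av_congr fun l _ => ?_
      have e3 : av (K * m) (fun l' => ((g l - av m g) + (h K l' - K * av m g)) ^ 2) =
          av (K * m) (fun l' => ((g l - av m g) ^ 2 + 2 * (g l - av m g) * (h K l' - K * av m g)) +
            (h K l' - K * av m g) ^ 2) := av_congr fun l' _ => by ring
      rw [e3, av_add (K * m) (fun l' => (g l - av m g) ^ 2 + 2 * (g l - av m g) * (h K l' - K * av m g))
          (fun l' => (h K l' - K * av m g) ^ 2),
        av_add (K * m) (fun _ => (g l - av m g) ^ 2)
          (fun l' => 2 * (g l - av m g) * (h K l' - K * av m g)), av_const,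
        av_smul (K * m) (2 * (g l - av m g)) (fun l' => h K l' - K * av m g), hc, mul_zero, add_zero]
    rw [e2, av_add m (fun l => (g l - av m g) ^ 2)
      (fun _ => av (K * m) (fun l => (h K l - K * av m g) ^ 2)), av_const]
    have e4 : av m (fun l => (g l - av m g) ^ 2) ≤ 1 := by
      have h1 := av_mono (n := m) (F := fun l => (g l - av m g) ^ 2) (H := fun _ => 1) (by
        intro l _
        have a1 := hg0 l
        have a2 := hg1 l
        rw [sq_le_one_iff_abs_le_one, abs_le]
        constructor <;> linarith)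
      rwa [av_const] at h1
    push_cast
    linarith

private theorem MCh_gen {m : ℕ} {g : List Bool → ℝ} (hg0 : ∀ l, 0 ≤ g l) (hg1 : ∀ l, g l ≤ 1)
    {h : ℕ → List Bool → ℝ} (h0 : ∀ l, h 0 l = 0)
    (hs : ∀ K l, h (K + 1) l = g (l.take m) + h K (l.drop m)) {K : ℕ} (hK : 0 < K) {δ : ℝ} (hδ : 0 < δ) :
    pr (K * m) (fun l => ¬ |h K l / K - av m g| ≤ δ) ≤ 1 / (K * δ ^ 2) := by
  have hK' : (0 : ℝ) < K := by exact_mod_cast hK
  have hKδ : 0 < (K * δ) ^ 2 := by positivity
  have h1 := pr_markov (n := K * m) (F := fun l => (h K l - K * av m g) ^ 2)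
    (fun l _ => sq_nonneg _) hKδ
  have h2 : pr (K * m) (fun l => ¬ |h K l / K - av m g| ≤ δ) ≤
      pr (K * m) (fun l => (K * δ) ^ 2 ≤ (h K l - K * av m g) ^ 2) := by
    refine pr_mono fun l _ hl => ?_
    have h3 : h K l - K * av m g = K * (h K l / K - av m g) := by
      field_simp
    have h4 : δ ≤ |h K l / K - av m g| := (not_le.1 hl).le
    rw [h3, mul_pow, mul_pow, ← sq_abs (h K l / K - av m g)]
    exact mul_le_mul_of_nonneg_left (pow_le_pow_left₀ hδ.le h4 2) (sq_nonneg _)
  refine h2.trans (h1.trans ?_)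
  rw [div_le_div_iff₀ hKδ (by positivity), one_mul]
  have h5 := MCh_var hg0 hg1 h0 hs K
  have h6 : (0 : ℝ) ≤ K * δ ^ 2 := by positivity
  calc av (K * m) (fun l => (h K l - K * av m g) ^ 2) * (K * δ ^ 2) ≤ K * (K * δ ^ 2) :=
        mul_le_mul_of_nonneg_right h5 h6
    _ = (K * δ) ^ 2 := by ring

theorem pr_cnt (k s b c T : ℕ) (e : Ed) (S : List Ed) {K : ℕ} (hK : 0 < K) {δ : ℝ} (hδ : 0 < δ) :
    pr (K * nb b c T) (fun l => ¬ |(cnt k s b c T e S K l : ℝ) / K -
      av (nb b c T) (fun l => (trial k s b c T e S l : ℝ))| ≤ δ) ≤ 1 / (K * δ ^ 2) := by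
  refine MCh_gen (m := nb b c T) (g := fun l => (trial k s b c T e S l : ℝ))
    (h := fun K l => (cnt k s b c T e S K l : ℝ)) (fun l => Nat.cast_nonneg _) (fun l => ?_)
    (fun l => ?_) (fun K l => ?_) hK hδ
  · show (trial k s b c T e S l : ℝ) ≤ 1
    unfold trial
    split_ifs
    · rw [Nat.cast_one]
    · rw [Nat.cast_zero]
      exact zero_le_one
  · exact Nat.cast_zero
  · exact Nat.cast_add _ _

end ACY.M
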