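import Pool.Agent.TFP.FpL
import Pool.Agent.Helper47.TR.Rank
import Pool.Agent.ACY.Defs

/-!
# ACY machine layer: definitions (helper15)

The elements are labelled edges (`Ed = ℕ × (ℕ × ℕ)`, as in TFP). Sets are lists without duplicates. A complete flag
is the list `[F_r, ..., F_1, F_0]` of its flats, the largest first.

`stepL`: one step of the flag chain with the three random numbers `u1 < 2 ^ b` (site), `u2 < 2 ^ b` (element of the ground set),
`u3 < 2 ^ c` (acceptance). The element `e` has weight `1`, the others have weight `s`.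
-/

set_option autoImplicit false

namespace ACY.M

open Pool.Agent.TFP (Ed)

/-- rank of a list of edges -/
def rkL (A : List Ed) : ℕ := (Pool.Agent.Helper47.TR.mergers (([] : List Bool), A.map Prod.snd)).length

/-- rank function truncated at `k` -/
def rkT (k : ℕ) (A : List Ed) : ℕ := min (rkL A) k

/-- closure of `A` in `S` -/
def clL (k : ℕ) (S A : List Ed) : List Ed := S.filter fun x => rkT k (x :: A) == rkT k A

/-- the weight of an element -/
def wt (e : Ed) (s : ℕ) (x : Ed) : ℕ := if x = e then 1 else s

/-- the weight of a set -/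
def omL (e : Ed) (s : ℕ) (A : List Ed) : ℕ := (A.map (wt e s)).sum

/-- difference of sets -/
def difL (X Z : List Ed) : List Ed := X.filter fun x => !(Z.contains x)

/-- the new flat of a proposal at the site `i` with the element `f` -/
def newF (k : ℕ) (fl : List (List Ed)) (i : ℕ) (f : Ed) : List Ed :=
  clL k (fl.getD i []) (f :: fl.getD (i + 2) [])

/-- the condition for the acceptance of the proposal -/
def accL (k s : ℕ) (e : Ed) (fl : List (List Ed)) (i : ℕ) (f : Ed) (v : ℕ) : Bool :=
  decide (i + 2 < fl.length) && ((fl.getD i []).contains f && (!((fl.getD (i + 2) []).contains f) &&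
    decide (v < wt e s f * (omL e s (difL (fl.getD i []) (newF k fl i f)) * omL e s (fl.getD (i + 1) [])))))

/-- one step of the chain -/
def stepL (k s : ℕ) (e : Ed) (S : List Ed) (u1 u2 u3 : ℕ) (fl : List (List Ed)) : List (List Ed) :=
  if decide (u2 < S.length) && accL k s e fl u1 (S.getD u2 (0, (0, 0))) u3 then
    fl.set (u1 + 1) (newF k fl u1 (S.getD u2 (0, (0, 0)))) else fl

/-- `T` steps; every step uses `b + b + c` random bits -/
def runL (k s : ℕ) (e : Ed) (S : List Ed) (b c : ℕ) : ℕ → List Bool → List (List Ed) → List (List Ed)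
  | 0, _, fl => fl
  | T + 1, l, fl => runL k s e S b c T (l.drop (b + (b + c)))
      (stepL k s e S (Pool.Agent.Helper6.WB.val (l.take b)) (Pool.Agent.Helper6.WB.val ((l.drop b).take b))
        (Pool.Agent.Helper6.WB.val ((l.drop (b + b)).take c)) fl)

/-- the initial flag of the ground set `S` -/
def iniL (k : ℕ) (S : List Ed) : List (List Ed) :=
  S.foldl (fun acc x => if (acc.headD []).contains x then acc else clL k S (x :: acc.headD []) :: acc) [[]]

/-- the observable: `{e}` is not a flat of the flag -/
def obsL (e : Ed) (fl : List (List Ed)) : Bool :=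
  !(fl.any fun A => !A.isEmpty && A.all fun x => x == e)

/-- one trial for the factor of the first element `e` of the ground set `S` -/
def trial (k s b c T : ℕ) (e : Ed) (S : List Ed) (l : List Bool) : ℕ :=
  if obsL e (runL k s e S b c T l (iniL k S)) then 1 else 0

/-- the number of random bits of a trial -/
def nb (b c T : ℕ) : ℕ := T * (b + (b + c))

/-- `K` trials -/
def cnt (k s b c T : ℕ) (e : Ed) (S : List Ed) : ℕ → List Bool → ℕ
  | 0, _ => 0
  | K + 1, l => trial k s b c T e S (l.take (nb b c T)) + cnt k s b c T e S K (l.drop (nb b c T))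

/-- numerator and denominator of the estimate of `T(r_k; E)` -/
def est (k s b c T K : ℕ) : List Ed → List Bool → ℕ × ℕ
  | [], _ => (1, 1)
  | e :: E, l =>
    if rkT k E < rkT k (e :: E) then est k s b c T K E (l.drop (K * nb b c T))
    else (K * (est k s b c T K E (l.drop (K * nb b c T))).1,
      cnt k s b c T e (e :: E) K (l.take (K * nb b c T)) * (est k s b c T K E (l.drop (K * nb b c T))).2)

/-- Horner scheme for `∑_{j < R} (x - 1)^(R-1-j) T_{k+j}`, `x = a / d`; `(P, Q)` is the value for the ranks below `k` -/
def hor (a d s b c T K : ℕ) (E : List Ed) : ℕ → ℕ → List Bool → ℕ × ℕ → ℕ × ℕ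
  | 0, _, _, p => p
  | R + 1, k, l, p => hor a d s b c T K E R (k + 1) (l.drop (E.length * (K * nb b c T)))
      ((a - d) * p.1 * (est k s b c T K E (l.take (E.length * (K * nb b c T)))).2 +
        d * p.2 * (est k s b c T K E (l.take (E.length * (K * nb b c T)))).1,
        d * p.2 * (est k s b c T K E (l.take (E.length * (K * nb b c T)))).2)

/-- size parameter -/
def tt (inp : Pool.Agent.Helper47.TR.MG × List Bool) : ℕ := inp.1.2.length + inp.2.length + 1

/-- the number of bits of a random number for the acceptance -/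
def cb (s t : ℕ) : ℕ := Nat.size (2 * (s * (s * t) * (s * t)))

/-- the algorithm for `T(G; a/d, 0)`; parameters: polynomials for the weight, the number of trials, the number of steps -/
noncomputable def alg (a d : ℕ) (ps pK pT : Polynomial ℕ)
    (inp : (Pool.Agent.Helper47.TR.MG × List Bool) × List Bool) : ℤ × ℕ :=
  if (Pool.Agent.TFP.lps inp.1.1.2).isEmpty then
    if rkL (Pool.Agent.TFP.nlE inp.1.1.2) = 0 then (1, 1) else
      ((a * (hor a d (ps.eval (tt inp.1)) (Nat.size (tt inp.1)) (cb (ps.eval (tt inp.1)) (tt inp.1))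
          (pT.eval (tt inp.1)) (pK.eval (tt inp.1)) (Pool.Agent.TFP.nlE inp.1.1.2)
          (rkL (Pool.Agent.TFP.nlE inp.1.1.2)) 1 inp.2 (0, 1)).1 : ℕ),
        d * (hor a d (ps.eval (tt inp.1)) (Nat.size (tt inp.1)) (cb (ps.eval (tt inp.1)) (tt inp.1))
          (pT.eval (tt inp.1)) (pK.eval (tt inp.1)) (Pool.Agent.TFP.nlE inp.1.1.2)
          (rkL (Pool.Agent.TFP.nlE inp.1.1.2)) 1 inp.2 (0, 1)).2)
  else (0, 1)

end ACY.M
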