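import Pool.Agent.ACY.MFa
import Pool.Agent.ACY.GLo

/-!
# ACY machine layer, Es: the estimate of `T(r_k; E)`

Induction on `E`. For a coloop the factor is `1` and the first block of random bits is not used; otherwise the bad event is
contained in the union of the bad event of the factor (first block) and the bad event of the tail (second block).
-/

set_option autoImplicit false

namespace ACY.M

open Finset

open Pool.Agent.TFP (Ed)

private theorem MEs_mono {τ σ a b : ℝ} (h : τ ≤ σ) (hb : 0 ≤ b) (hab : RC τ a b) : RC σ a b := by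
  obtain ⟨h1, h2⟩ := hab
  refine ⟨le_trans (mul_le_mul_of_nonneg_right (Real.exp_le_exp.2 (neg_le_neg h)) hb) h1,
    le_trans h2 (mul_le_mul_of_nonneg_right (Real.exp_le_exp.2 h) hb)⟩

private theorem MEs_mul {τ σ x y a b : ℝ} (hy : 0 ≤ y) (h1 : RC τ x a) (h2 : RC σ (y * a) b) :
    RC (σ + τ) (y * x) b := by
  obtain ⟨h3, h4⟩ := h1
  obtain ⟨h5, h6⟩ := h2
  have e1 := Real.exp_pos (-τ)
  have e2 := Real.exp_pos τ
  refine ⟨?_, ?_⟩
  · calc Real.exp (-(σ + τ)) * b = Real.exp (-τ) * (Real.exp (-σ) * b) := by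
          rw [neg_add, Real.exp_add]
          ring
      _ ≤ Real.exp (-τ) * (y * a) := mul_le_mul_of_nonneg_left h5 e1.le
      _ = y * (Real.exp (-τ) * a) := by ring
      _ ≤ y * x := mul_le_mul_of_nonneg_left h3 hy
  · calc y * x ≤ y * (Real.exp τ * a) := mul_le_mul_of_nonneg_left h4 hy
      _ = Real.exp τ * (y * a) := by ring
      _ ≤ Real.exp τ * (Real.exp σ * b) := mul_le_mul_of_nonneg_left h6 e2.le
      _ = Real.exp (σ + τ) * b := by
          rw [Real.exp_add]
          ring

theorem pr_est {k s t T D K : ℕ} (E : List Ed) (hk : 1 ≤ k) (hE : E.Nodup)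
    (hl : ∀ x ∈ E, Pool.Agent.TFP.rk {x} = 1) (hEt : E.length ≤ t) (hs : t ≤ s) (hD : 1 ≤ D) (hK : 0 < K)
    (hT : 768 * s ^ 5 * t ^ 8 * (2 * D + s * t ^ 2 + t) ≤ T) {η : ℝ} (hη : 0 < η) (hη1 : η ≤ 1 / 2)
    (h1 : 1 / (D : ℝ) + 2 * t / s ≤ η / (2 * t)) :
    pr (E.length * (K * nb (Nat.size t) (cb s t) T)) (fun l =>
      ¬ ((est k s (Nat.size t) (cb s t) T K E l).2 ≠ 0 ∧
        RC (2 * η * E.length) (((est k s (Nat.size t) (cb s t) T K E l).1 : ℝ) /
          (est k s (Nat.size t) (cb s t) T K E l).2) (ACY.T (ACY.tr Pool.Agent.TFP.rk k) E.toFinset))) ≤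
      E.length * (4 * t ^ 2 / (K * η ^ 2)) := by
  have hr : RK (ACY.tr Pool.Agent.TFP.rk k) := RK_rk.tr k
  induction E with
  | nil =>
    have h0 : ∀ l : List Bool, ¬ ¬ ((est k s (Nat.size t) (cb s t) T K [] l).2 ≠ 0 ∧
        RC (2 * η * ([] : List Ed).length) (((est k s (Nat.size t) (cb s t) T K [] l).1 : ℝ) /
          (est k s (Nat.size t) (cb s t) T K [] l).2)
          (ACY.T (ACY.tr Pool.Agent.TFP.rk k) ([] : List Ed).toFinset)) := by
      intro l
      rw [not_not]
      refine ⟨one_ne_zero, ?_⟩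
      rw [List.toFinset_nil, T_empty hr]
      show RC (2 * η * ((0 : ℕ) : ℝ)) (((1 : ℕ) : ℝ) / ((1 : ℕ) : ℝ)) 1
      unfold RC
      simp
    refine le_trans (pr_mono (Q := fun _ => False) fun l _ h => h0 l h) ?_
    rw [pr_false]
    simp
  | cons e E ih =>
    have hE' : E.Nodup := (List.nodup_cons.1 hE).2
    have heE : e ∉ E := (List.nodup_cons.1 hE).1
    have hl' : ∀ x ∈ E, Pool.Agent.TFP.rk {x} = 1 := fun x hx => hl x (List.mem_cons_of_mem e hx)
    have hEt' : E.length ≤ t := le_trans (by rw [List.length_cons]; omega) hEt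
    have ih' := ih hE' hl' hEt'
    set W := K * nb (Nat.size t) (cb s t) T with hW
    have hlen : (e :: E).length * W = W + E.length * W := by
      rw [List.length_cons]
      ring
    have hTS : 0 ≤ ACY.T (ACY.tr Pool.Agent.TFP.rk k) (e :: E).toFinset := T_nonneg hr _
    have hq : (0 : ℝ) ≤ 4 * (t : ℝ) ^ 2 / (K * η ^ 2) := by positivity
    have hcast : (((e :: E).length : ℕ) : ℝ) = (E.length : ℝ) + 1 := by
      rw [List.length_cons]
      push_cast
      ring
    rw [hlen]
    by_cases hco : rkT k E < rkT k (e :: E)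
    · have hTE : ACY.T (ACY.tr Pool.Agent.TFP.rk k) (e :: E).toFinset =
          ACY.T (ACY.tr Pool.Agent.TFP.rk k) E.toFinset := by
        have h3 : (e :: E).toFinset.erase e = E.toFinset := by
          rw [List.toFinset_cons, Finset.erase_insert (by rwa [List.mem_toFinset])]
        have h2 : ACY.tr Pool.Agent.TFP.rk k ((e :: E).toFinset.erase e) <
            ACY.tr Pool.Agent.TFP.rk k (e :: E).toFinset := by
          rw [h3, ← rkT_eq, ← rkT_eq]
          exact hco
        rw [(T_col hr (by rw [List.toFinset_cons]; exact Finset.mem_insert_self e _) h2).2, h3]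
      have hest : ∀ l, est k s (Nat.size t) (cb s t) T K (e :: E) l =
          est k s (Nat.size t) (cb s t) T K E (l.drop W) := by
        intro l
        rw [est, if_pos hco]
      refine le_trans (pr_mono (Q := fun l => ¬ ((est k s (Nat.size t) (cb s t) T K E (l.drop W)).2 ≠ 0 ∧
        RC (2 * η * E.length) (((est k s (Nat.size t) (cb s t) T K E (l.drop W)).1 : ℝ) /
          (est k s (Nat.size t) (cb s t) T K E (l.drop W)).2)
          (ACY.T (ACY.tr Pool.Agent.TFP.rk k) E.toFinset))) fun l _ h h2 => h ?_) ?_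
      · rw [hest, hTE]
        refine ⟨h2.1, MEs_mono ?_ (T_nonneg hr _) h2.2⟩
        rw [hcast]
        nlinarith
      · rw [pr_drop (m := W) (n := E.length * W) (P := fun l => ¬ ((est k s (Nat.size t) (cb s t) T K E l).2 ≠ 0 ∧
          RC (2 * η * E.length) (((est k s (Nat.size t) (cb s t) T K E l).1 : ℝ) /
            (est k s (Nat.size t) (cb s t) T K E l).2) (ACY.T (ACY.tr Pool.Agent.TFP.rk k) E.toFinset)))]
        refine le_trans ih' ?_
        rw [hcast]
        nlinarith
    · have hfac := pr_fac (e := e) (E := E) hk hE hl hco hEt hs hD hK hT hη hη1 h1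
      rw [← hW] at hfac
      have hest : ∀ l, est k s (Nat.size t) (cb s t) T K (e :: E) l =
          (K * (est k s (Nat.size t) (cb s t) T K E (l.drop W)).1,
            cnt k s (Nat.size t) (cb s t) T e (e :: E) K (l.take W) *
              (est k s (Nat.size t) (cb s t) T K E (l.drop W)).2) := by
        intro l
        rw [est, if_neg hco]
      refine le_trans (pr_mono (Q := fun l =>
        (¬ (0 < cnt k s (Nat.size t) (cb s t) T e (e :: E) K (l.take W) ∧
          RC (2 * η) ((K : ℝ) / cnt k s (Nat.size t) (cb s t) T e (e :: E) K (l.take W) *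
            ACY.T (ACY.tr Pool.Agent.TFP.rk k) E.toFinset)
            (ACY.T (ACY.tr Pool.Agent.TFP.rk k) (e :: E).toFinset))) ∨
        (¬ ((est k s (Nat.size t) (cb s t) T K E (l.drop W)).2 ≠ 0 ∧
        RC (2 * η * E.length) (((est k s (Nat.size t) (cb s t) T K E (l.drop W)).1 : ℝ) /
          (est k s (Nat.size t) (cb s t) T K E (l.drop W)).2)
          (ACY.T (ACY.tr Pool.Agent.TFP.rk k) E.toFinset)))) fun l _ h => ?_) ?_
      · by_contra hcon
        push Not at hcon
        obtain ⟨⟨h3, h4⟩, h5, h6⟩ := hcon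
        apply h
        rw [hest]
        refine ⟨Nat.mul_ne_zero h3.ne' h5, ?_⟩
        have h7 : (0 : ℝ) ≤ (K : ℝ) / cnt k s (Nat.size t) (cb s t) T e (e :: E) K (l.take W) := by positivity
        have h8 := MEs_mul h7 h6 h4
        have h9 : 2 * η + 2 * η * (E.length : ℝ) = 2 * η * ((e :: E).length : ℝ) := by
          rw [hcast]
          ring
        rw [h9] at h8
        have h10 : (((K * (est k s (Nat.size t) (cb s t) T K E (l.drop W)).1,
            cnt k s (Nat.size t) (cb s t) T e (e :: E) K (l.take W) *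
              (est k s (Nat.size t) (cb s t) T K E (l.drop W)).2) : ℕ × ℕ).1 : ℝ) /
            (((K * (est k s (Nat.size t) (cb s t) T K E (l.drop W)).1,
            cnt k s (Nat.size t) (cb s t) T e (e :: E) K (l.take W) *
              (est k s (Nat.size t) (cb s t) T K E (l.drop W)).2) : ℕ × ℕ).2 : ℝ) =
            (K : ℝ) / cnt k s (Nat.size t) (cb s t) T e (e :: E) K (l.take W) *
              (((est k s (Nat.size t) (cb s t) T K E (l.drop W)).1 : ℝ) /
                (est k s (Nat.size t) (cb s t) T K E (l.drop W)).2) := by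
          push_cast
          rw [div_mul_div_comm]
        rw [h10]
        exact h8
      · refine le_trans (pr_or _ _ _) ?_
        rw [pr_take (m := W) (n := E.length * W) (P := fun l =>
            ¬ (0 < cnt k s (Nat.size t) (cb s t) T e (e :: E) K l ∧
          RC (2 * η) ((K : ℝ) / cnt k s (Nat.size t) (cb s t) T e (e :: E) K l *
            ACY.T (ACY.tr Pool.Agent.TFP.rk k) E.toFinset)
            (ACY.T (ACY.tr Pool.Agent.TFP.rk k) (e :: E).toFinset))),
          pr_drop (m := W) (n := E.length * W) (P := fun l => ¬ ((est k s (Nat.size t) (cb s t) T K E l).2 ≠ 0 ∧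
          RC (2 * η * E.length) (((est k s (Nat.size t) (cb s t) T K E l).1 : ℝ) /
            (est k s (Nat.size t) (cb s t) T K E l).2) (ACY.T (ACY.tr Pool.Agent.TFP.rk k) E.toFinset)))]
        refine le_trans (add_le_add hfac ih') ?_
        rw [hcast]
        nlinarith

end ACY.M
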