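import Pool.Agent.ACY.MTr
import Pool.Agent.ACY.MCh
import Pool.Agent.ACY.GLo

/-!
# ACY machine layer, Fa: one factor

`RC τ a b`: relative closeness. The quotient `T(E) / T(e :: E)` is at least `1 / t` (`del_low`), a trial has mean close to it (`av_trial`), and the
number of successes is close to its mean with high probability (`pr_cnt`).
-/

set_option autoImplicit false

namespace ACY.M

open Finset

open Pool.Agent.TFP (Ed)

/-- `a` is close to `b` -/
def RC (τ a b : ℝ) : Prop := Real.exp (-τ) * b ≤ a ∧ a ≤ Real.exp τ * b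

private theorem MFa_core {a b p : ℝ} {K c : ℕ} {t η : ℝ} (ha : 0 < a) (hb : 0 < b) (ht : 0 < t) (hab : b ≤ t * a)
    (hK : 0 < K) (hη : 0 < η) (hη1 : η ≤ 1 / 2) (h1 : |p - a / b| ≤ η / (2 * t))
    (h2 : |(c : ℝ) / K - p| ≤ η / (2 * t)) :
    0 < c ∧ RC (2 * η) ((K : ℝ) / c * a) b := by
  have hK' : (0 : ℝ) < K := by exact_mod_cast hK
  have h3 : |(c : ℝ) / K - a / b| ≤ η / t := by
    have h4 := abs_sub_le ((c : ℝ) / K) p (a / b)
    have h5 : η / (2 * t) + η / (2 * t) = η / t := by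
      field_simp
      ring
    linarith
  have h6 : η / t ≤ η * (a / b) := by
    rw [div_eq_mul_one_div]
    refine mul_le_mul_of_nonneg_left ?_ hη.le
    rw [div_le_div_iff₀ ht hb]
    linarith
  have h7 := abs_le.1 (h3.trans h6)
  have h8 : a / b * b = a := div_mul_cancel₀ a hb.ne'
  have h9 : (1 - η) * a ≤ (c : ℝ) / K * b := by
    have h10 : (1 - η) * (a / b) ≤ (c : ℝ) / K := by linarith [h7.1]
    have h11 := mul_le_mul_of_nonneg_right h10 hb.le
    rw [mul_assoc, h8] at h11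
    exact h11
  have h12 : (c : ℝ) / K * b ≤ (1 + η) * a := by
    have h10 : (c : ℝ) / K ≤ (1 + η) * (a / b) := by linarith [h7.2]
    have h11 := mul_le_mul_of_nonneg_right h10 hb.le
    rw [mul_assoc, h8] at h11
    exact h11
  have h13 : 0 < (1 - η) * a := mul_pos (by linarith) ha
  have hc : 0 < c := by
    rcases Nat.eq_zero_or_pos c with h0 | h0
    · rw [h0, Nat.cast_zero, zero_div, zero_mul] at h9
      linarith
    · exact h0
  have hc' : (0 : ℝ) < c := by exact_mod_cast hc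
  have h14 : 1 + 2 * η ≤ Real.exp (2 * η) := by
    have := Real.add_one_le_exp (2 * η)
    linarith
  have he : 0 < Real.exp (2 * η) := Real.exp_pos _
  have h15 : (c : ℝ) * b ≤ (1 + η) * a * K := by
    have h16 : (c : ℝ) / K * b * K = c * b := by field_simp
    rw [← h16]
    exact mul_le_mul_of_nonneg_right h12 hK'.le
  have h17 : (1 - η) * a * K ≤ (c : ℝ) * b := by
    have h16 : (c : ℝ) / K * b * K = c * b := by field_simp
    rw [← h16]
    exact mul_le_mul_of_nonneg_right h9 hK'.le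
  refine ⟨hc, ?_, ?_⟩
  · rw [Real.exp_neg, inv_mul_le_iff₀ he]
    have e1 : Real.exp (2 * η) * ((K : ℝ) / c * a) = Real.exp (2 * η) * (a * K) / c := by ring
    rw [e1, le_div_iff₀ hc']
    calc b * c = c * b := mul_comm _ _
      _ ≤ (1 + η) * a * K := h15
      _ = (1 + η) * (a * K) := by ring
      _ ≤ Real.exp (2 * η) * (a * K) := mul_le_mul_of_nonneg_right (by linarith) (by positivity)
  · have e1 : (K : ℝ) / c * a = (a * K) / c := by ring
    rw [e1, div_le_iff₀ hc']
    have h18 : (a * K) ≤ Real.exp (2 * η) * ((1 - η) * a * K) := by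
      have h19 : 1 ≤ Real.exp (2 * η) * (1 - η) := by
        have h20 : (1 + 2 * η) * (1 - η) ≤ Real.exp (2 * η) * (1 - η) :=
          mul_le_mul_of_nonneg_right h14 (by linarith)
        nlinarith
      have h21 := mul_le_mul_of_nonneg_right h19 (mul_pos ha hK').le
      calc a * K = 1 * (a * K) := (one_mul _).symm
        _ ≤ Real.exp (2 * η) * (1 - η) * (a * K) := h21
        _ = Real.exp (2 * η) * ((1 - η) * a * K) := by ring
    calc a * K ≤ Real.exp (2 * η) * ((1 - η) * a * K) := h18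
      _ ≤ Real.exp (2 * η) * (c * b) := mul_le_mul_of_nonneg_left h17 he.le
      _ = Real.exp (2 * η) * b * c := by ring

theorem pr_fac {k s t T D K : ℕ} {e : Ed} {E : List Ed} (hk : 1 ≤ k) (hE : (e :: E).Nodup)
    (hl : ∀ x ∈ e :: E, Pool.Agent.TFP.rk {x} = 1) (hco : ¬ rkT k E < rkT k (e :: E))
    (hEt : (e :: E).length ≤ t) (hs : t ≤ s) (hD : 1 ≤ D) (hK : 0 < K)
    (hT : 768 * s ^ 5 * t ^ 8 * (2 * D + s * t ^ 2 + t) ≤ T) {η : ℝ} (hη : 0 < η) (hη1 : η ≤ 1 / 2)
    (h1 : 1 / (D : ℝ) + 2 * t / s ≤ η / (2 * t)) :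
    pr (K * nb (Nat.size t) (cb s t) T) (fun l => ¬ (0 < cnt k s (Nat.size t) (cb s t) T e (e :: E) K l ∧
      RC (2 * η) ((K : ℝ) / cnt k s (Nat.size t) (cb s t) T e (e :: E) K l *
        ACY.T (ACY.tr Pool.Agent.TFP.rk k) E.toFinset) (ACY.T (ACY.tr Pool.Agent.TFP.rk k) (e :: E).toFinset))) ≤
      4 * t ^ 2 / (K * η ^ 2) := by
  have hr : RK (ACY.tr Pool.Agent.TFP.rk k) := RK_rk.tr k
  have he : e ∈ e :: E := List.mem_cons_self
  have hef : e ∈ (e :: E).toFinset := List.mem_toFinset.2 he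
  have hnE : e ∉ E := (List.nodup_cons.1 hE).1
  have her : (e :: E).toFinset.erase e = E.toFinset := by
    rw [List.toFinset_cons]
    exact erase_insert fun h => hnE (List.mem_toFinset.1 h)
  have hlf : ∀ x ∈ (e :: E).toFinset, ACY.tr Pool.Agent.TFP.rk k {x} = 1 := fun x hx =>
    tr_sing hk (hl x (List.mem_toFinset.1 hx))
  have h2 : ACY.tr Pool.Agent.TFP.rk k ((e :: E).toFinset.erase e) = ACY.tr Pool.Agent.TFP.rk k (e :: E).toFinset := by
    refine le_antisymm (hr.mono _ _ (erase_subset _ _)) ?_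
    rw [her, ← rkT_eq, ← rkT_eq]
    exact not_lt.1 hco
  have hT0 : 0 < ACY.T (ACY.tr Pool.Agent.TFP.rk k) (e :: E).toFinset := T_pos hr hlf
  have hT1 : 0 < ACY.T (ACY.tr Pool.Agent.TFP.rk k) E.toFinset := by
    refine T_pos hr fun x hx => hlf x ?_
    rw [List.toFinset_cons]
    exact mem_insert_of_mem hx
  have ht : 1 ≤ t := (List.length_pos_of_mem he).trans_le hEt
  have ht' : (0 : ℝ) < t := by exact_mod_cast ht
  have hK' : (0 : ℝ) < K := by exact_mod_cast hK
  have hab : ACY.T (ACY.tr Pool.Agent.TFP.rk k) (e :: E).toFinset ≤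
      t * ACY.T (ACY.tr Pool.Agent.TFP.rk k) E.toFinset := by
    have h3 := del_low hr hlf hef h2
    rw [her] at h3
    refine h3.trans (mul_le_mul_of_nonneg_right ?_ hT1.le)
    rw [List.toFinset_card_of_nodup hE]
    exact_mod_cast hEt
  have hav := av_trial hk hE hl he h2 hEt hs hD hT
  rw [her] at hav
  have hδ : 0 < η / (2 * t) := by positivity
  have hc := pr_cnt k s (Nat.size t) (cb s t) T e (e :: E) hK hδ
  have e1 : 1 / ((K : ℝ) * (η / (2 * t)) ^ 2) = 4 * t ^ 2 / (K * η ^ 2) := by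
    field_simp
    ring
  rw [e1] at hc
  refine (pr_mono fun l _ hn => ?_).trans hc
  exact fun hab' => hn (MFa_core hT1 hT0 ht' hab hK hη hη1 (hav.trans h1) hab')

end ACY.M
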