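import Pool.Agent.ACY.MFpC
import Pool.Agent.TFP.FpE

/-!
# ACY machine layer, FpD: the algorithm is polynomial time computable

`FP.hor` (model: TFP/FpN.lean): `R` in unary; state `((s, (B, C)), ((T, K), (E, (k, (l, p)))))`; one step multiplies and adds numbers `≤ (K + 1) ^ |E|` (`est_le`), so the sizes of `p.1`, `p.2` grow by at most a polynomial in the sizes of the
data. `alg_poly` (model: TFP/FpA.lean): `t` in unary: `un E.length ++ (N ++ [true])` with `E = inp.1.1.2`; `pT.eval t`, `pK.eval t` in unary by `FP.un_poly`; `s = ps.eval t`: `FP.length` of `FP.un_poly`; `b = Nat.size t`: the list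
`encodeNat t` (`FP.bits` in Helper6/WB/Arith.lean) has the length `Nat.size t` (`Pool.Agent` has a lemma; or `length_encodeNat`), `c = cb s t` in the same way; `R = rkL E` in unary: `FP.un_length` of the list of mergers (`FP.mergers`; its length is `rkL E`).
`isPolyTime_iff`, `FP.ite`, `FP.isEmpty`, `FP.lps`, `FP.nlE` (TFP/FpE.lean), `FP.intPos`, `FP.pair`.
-/

set_option autoImplicit false

namespace ACY.M

open Turing Function N487b59b3 N68a2faeb Pool.Agent.Helper22 Pool.Agent.Helper6.WB Computability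
  Pool.Agent.Helper47.TR

open Pool.Agent.TFP (Ed)

variable {α : Type} [N487b59b3 α]

/-- parameters of the loop for `hor`: `((s, E), (B, (C, (T, K))))` -/
private abbrev MFpDx : Type := (ℕ × List Ed) × (List Bool × (List Bool × (List Bool × List Bool)))

/-- state of the loop for `hor` -/
private abbrev MFpDs : Type := MFpDx × (ℕ × (List Bool × (ℕ × ℕ)))

/-- the number of random bits of one rank, in unary -/
private def mfpdW (x : MFpDx) : List Bool :=
  un ((un x.1.2.length).length * (un (x.2.2.2.2.length *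
    (un (x.2.2.2.1.length * (x.2.1 ++ (x.2.1 ++ x.2.2.1)).length)).length)).length)

private theorem mfpdW_length (x : MFpDx) : (mfpdW x).length =
    x.1.2.length * (x.2.2.2.2.length * nb x.2.1.length x.2.2.1.length x.2.2.2.1.length) := by
  unfold mfpdW nb
  simp only [un_length, List.length_append]

private theorem mfpdW_fp {x : α → MFpDx} (hx : FP x) : FP fun a => mfpdW (x a) := by
  unfold mfpdW
  exact FP.unMul (FP.un_length (by fun_prop)) (FP.unMul (by fun_prop) (FP.unMul (by fun_prop) (by fun_prop)))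

/-- the estimate for one rank -/
private def mfpdP (s : MFpDs) : ℕ × ℕ :=
  est s.2.1 s.1.1.1 s.1.2.1.length s.1.2.2.1.length s.1.2.2.2.1.length s.1.2.2.2.2.length s.1.1.2
    (s.2.2.1.take (mfpdW s.1).length)

private theorem mfpdP_fp : FP mfpdP := by
  have h1 : FP fun s : MFpDs => s.1 := by fun_prop
  exact FP.est (k := fun s : MFpDs => s.2.1) (s := fun s => s.1.1.1) (E := fun s => s.1.1.2)
    (B := fun s => s.1.2.1) (C := fun s => s.1.2.2.1) (T := fun s => s.1.2.2.2.1)
    (K := fun s => s.1.2.2.2.2) (by fun_prop) (by fun_prop) (by fun_prop) (by fun_prop) (by fun_prop)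
    (by fun_prop) (by fun_prop) (FP.take (by fun_prop) (mfpdW_fp h1))

/-- one step of the loop for `hor` -/
private def mfpdS (x d : ℕ) (s : MFpDs) : MFpDs :=
  (s.1, (s.2.1 + 1, (s.2.2.1.drop (mfpdW s.1).length,
    ((x - d) * s.2.2.2.1 * (mfpdP s).2 + d * s.2.2.2.2 * (mfpdP s).1, d * s.2.2.2.2 * (mfpdP s).2))))

private theorem mfpdS_fp (x d : ℕ) : FP (mfpdS x d) := by
  have h1 : FP fun s : MFpDs => s.1 := by fun_prop
  have hk : FP fun s : MFpDs => s.2.1 := by fun_prop
  have hl : FP fun s : MFpDs => s.2.2.1 := by fun_prop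
  have hP : FP fun s : MFpDs => s.2.2.2.1 := by fun_prop
  have hQ : FP fun s : MFpDs => s.2.2.2.2 := by fun_prop
  have hp : FP fun s : MFpDs => (mfpdP s).1 := mfpdP_fp.fst'
  have hq : FP fun s : MFpDs => (mfpdP s).2 := mfpdP_fp.snd'
  have hdQ : FP fun s : MFpDs => d * s.2.2.2.2 := FP.natMul (FP.const d) hQ
  exact FP.pair h1 (FP.pair (FP.natAdd hk (FP.const 1)) (FP.pair (FP.drop hl (mfpdW_fp h1))
    (FP.pair (FP.natAdd (FP.natMul (FP.natMul (FP.const (x - d)) hP) hq) (FP.natMul hdQ hp))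
      (FP.natMul hdQ hq))))

private theorem mfpd_pow (K E : ℕ) : (K + 1) ^ E ≤ 2 ^ (K * E) := by
  rw [pow_mul]
  exact Nat.pow_le_pow_left Nat.lt_two_pow_self E

private theorem mfpd_mul {y P q a M N : ℕ} (h1 : y ≤ 2 ^ a) (h2 : P ≤ 2 ^ M) (h3 : q ≤ 2 ^ N) :
    y * P * q ≤ 2 ^ (a + M + N) := by
  rw [pow_add, pow_add]
  exact Nat.mul_le_mul (Nat.mul_le_mul h1 h2) h3

private theorem mfpd_add {x d M N P Q p q : ℕ} (hP : P ≤ 2 ^ M) (hQ : Q ≤ 2 ^ M) (hp : p ≤ 2 ^ N)
    (hq : q ≤ 2 ^ N) : (x - d) * P * q + d * Q * p ≤ 2 ^ (M + (x + d + N + 1)) ∧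
      d * Q * q ≤ 2 ^ (M + (x + d + N + 1)) := by
  have hx : x - d ≤ 2 ^ x := (Nat.sub_le x d).trans Nat.lt_two_pow_self.le
  have hd : d ≤ 2 ^ d := Nat.lt_two_pow_self.le
  have h1 := mfpd_mul hx hP hq
  have h2 := mfpd_mul hd hQ hp
  have h3 := mfpd_mul hd hQ hq
  have h4 : 2 ^ (x + M + N) ≤ 2 ^ (M + (x + d + N)) := Nat.pow_le_pow_right (by omega) (by omega)
  have h5 : 2 ^ (d + M + N) ≤ 2 ^ (M + (x + d + N)) := Nat.pow_le_pow_right (by omega) (by omega)
  have h6 : 2 ^ (M + (x + d + N + 1)) = 2 * 2 ^ (M + (x + d + N)) := by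
    rw [← pow_succ']
    congr 1
  omega

private theorem mfpdS_iter (x d : ℕ) (i : ℕ) (s : MFpDs) :
    ∃ (l' : List Bool) (P Q : ℕ), (mfpdS x d)^[i] s = (s.1, (s.2.1 + i, (l', (P, Q)))) ∧
      l'.length ≤ s.2.2.1.length ∧
      P ≤ 2 ^ (Nat.size s.2.2.2.1 + Nat.size s.2.2.2.2 +
        i * (x + d + s.1.2.2.2.2.length * s.1.1.2.length + 1)) ∧
      Q ≤ 2 ^ (Nat.size s.2.2.2.1 + Nat.size s.2.2.2.2 +
        i * (x + d + s.1.2.2.2.2.length * s.1.1.2.length + 1)) := by
  induction i with
  | zero =>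
    refine ⟨s.2.2.1, s.2.2.2.1, s.2.2.2.2, by simp, le_rfl, ?_, ?_⟩
    · rw [zero_mul, add_zero]
      exact (Nat.lt_size_self _).le.trans (Nat.pow_le_pow_right (by omega) (by omega))
    · rw [zero_mul, add_zero]
      exact (Nat.lt_size_self _).le.trans (Nat.pow_le_pow_right (by omega) (by omega))
  | succ i ih =>
    obtain ⟨l', P, Q, h1, h2, h3, h4⟩ := ih
    have h5 := est_le (s.2.1 + i) s.1.1.1 s.1.2.1.length s.1.2.2.1.length s.1.2.2.2.1.length
      s.1.2.2.2.2.length s.1.1.2 (l'.take (mfpdW s.1).length)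
    have h6 := mfpd_pow s.1.2.2.2.2.length s.1.1.2.length
    have h7 := mfpd_add (x := x) (d := d) h3 h4 (h5.1.trans h6) (h5.2.trans h6)
    have h8 : Nat.size s.2.2.2.1 + Nat.size s.2.2.2.2 +
        (i + 1) * (x + d + s.1.2.2.2.2.length * s.1.1.2.length + 1) =
        Nat.size s.2.2.2.1 + Nat.size s.2.2.2.2 +
        i * (x + d + s.1.2.2.2.2.length * s.1.1.2.length + 1) +
        (x + d + s.1.2.2.2.2.length * s.1.1.2.length + 1) := by ring
    rw [h8]
    refine ⟨l'.drop (mfpdW s.1).length, _, _, ?_, ?_, h7.1, h7.2⟩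
    · rw [Function.iterate_succ_apply', h1]
      rfl
    · rw [List.length_drop]
      omega

private theorem mfpdS_run (x d : ℕ) (X : MFpDx) (R : ℕ) : ∀ (k : ℕ) (l : List Bool) (p : ℕ × ℕ),
    ((mfpdS x d)^[R] (X, (k, (l, p)))).2.2.2 =
      hor x d X.1.1 X.2.1.length X.2.2.1.length X.2.2.2.1.length X.2.2.2.2.length X.1.2 R k l p := by
  induction R with
  | zero =>
    intro k l p
    rfl
  | succ R ih =>
    intro k l p
    rw [Function.iterate_succ_apply, hor, ← ih]
    have h1 : mfpdS x d (X, (k, (l, p))) = (X, (k + 1, (l.drop (X.1.2.length * (X.2.2.2.2.length *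
        nb X.2.1.length X.2.2.1.length X.2.2.2.1.length)),
        ((x - d) * p.1 * (est k X.1.1 X.2.1.length X.2.2.1.length X.2.2.2.1.length X.2.2.2.2.length X.1.2
          (l.take (X.1.2.length * (X.2.2.2.2.length *
            nb X.2.1.length X.2.2.1.length X.2.2.2.1.length)))).2 +
        d * p.2 * (est k X.1.1 X.2.1.length X.2.2.1.length X.2.2.2.1.length X.2.2.2.2.length X.1.2
          (l.take (X.1.2.length * (X.2.2.2.2.length *
            nb X.2.1.length X.2.2.1.length X.2.2.2.1.length)))).1,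
        d * p.2 * (est k X.1.1 X.2.1.length X.2.2.1.length X.2.2.2.1.length X.2.2.2.2.length X.1.2
          (l.take (X.1.2.length * (X.2.2.2.2.length *
            nb X.2.1.length X.2.2.1.length X.2.2.2.1.length)))).2)))) := by
      unfold mfpdS mfpdP
      simp only [mfpdW_length]
    rw [h1]

theorem FP.hor (x d : ℕ) {s k : α → ℕ} {E : α → List Ed} {B C T K R l : α → List Bool} {p : α → ℕ × ℕ} (hs : FP s) (hB : FP B) (hC : FP C) (hT : FP T) (hK : FP K) (hE : FP E)
    (hR : FP R) (hk : FP k) (hl : FP l) (hp : FP p) :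
    FP fun a => ACY.M.hor x d (s a) (B a).length (C a).length (T a).length (K a).length (E a) (R a).length (k a)
      (l a) (p a) := by
  have h1 : FP fun q : List Bool × MFpDs => (mfpdS x d)^[q.1.length] q.2 := by
    refine FP.iterate (mfpdS_fp x d)
      (B := fun n => 3 * n + 3 * (n + n * (x + d + n * n + 1) + 1)) (by fun_prop) ?_
    intro lst s i hi
    obtain ⟨l', P, Q, h2, h3, h4, h5⟩ := mfpdS_iter x d i s
    rw [h2]
    obtain ⟨⟨⟨s0, E0⟩, B0, C0, T0, K0⟩, k0, l0, P0, Q0⟩ := s
    simp only at h3 h4 h5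
    have h6 : i ≤ sz lst := hi.trans (length_le_sz lst)
    have h7 : K0.length ≤ sz K0 := length_le_sz K0
    have h8 : E0.length ≤ sz E0 := length_le_sz E0
    have h9 : sz l' ≤ sz l0 := by
      rw [sz_bits, sz_bits]
      omega
    have h10 := size_add_le k0 i
    obtain ⟨n, hn⟩ : ∃ n, n = sz lst + sz ((((s0, E0), (B0, (C0, (T0, K0)))),
      (k0, (l0, (P0, Q0)))) : MFpDs) := ⟨_, rfl⟩
    have h11 : K0.length * E0.length ≤ n * n := by
      refine Nat.mul_le_mul ?_ ?_
      · rw [hn]
        simp only [sz_pair]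
        omega
      · rw [hn]
        simp only [sz_pair]
        omega
    have h12 : i * (x + d + K0.length * E0.length + 1) ≤ n * (x + d + n * n + 1) :=
      Nat.mul_le_mul (by omega) (by omega)
    have h13 : Nat.size P ≤ Nat.size P0 + Nat.size Q0 + i * (x + d + K0.length * E0.length + 1) + 1 :=
      Nat.size_le.2 (lt_of_le_of_lt h4 (Nat.pow_lt_pow_right (by omega) (by omega)))
    have h14 : Nat.size Q ≤ Nat.size P0 + Nat.size Q0 + i * (x + d + K0.length * E0.length + 1) + 1 :=
      Nat.size_le.2 (lt_of_le_of_lt h5 (Nat.pow_lt_pow_right (by omega) (by omega)))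
    show _ ≤ 3 * (sz lst + sz ((((s0, E0), (B0, (C0, (T0, K0)))), (k0, (l0, (P0, Q0)))) : MFpDs)) + _
    rw [← hn]
    generalize n * (x + d + n * n + 1) = N at h12 ⊢
    generalize i * (x + d + K0.length * E0.length + 1) = N' at h12 h13 h14
    simp only [sz_pair, sz_nat] at *
    omega
  have h2 := h1.comp (hR.pair (((hs.pair hE).pair (hB.pair (hC.pair (hT.pair hK)))).pair
    (hk.pair (hl.pair hp))))
  have h3 := h2.snd'.snd'.snd'
  refine (congrArg FP (funext fun a => ?_)).mp h3
  show ((mfpdS x d)^[(R a).length] (((s a, E a), (B a, (C a, (T a, K a)))), (k a, (l a, p a)))).2.2.2 = _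
  rw [mfpdS_run]

private theorem mfpd_size (n : ℕ) : (encodeNat n).length = Nat.size n := sz_nat n

theorem alg_poly (x d : ℕ) (ps pK pT : Polynomial ℕ) : N68a2faeb.IsPolyTime (alg x d ps pK pT) := by
  rw [isPolyTime_iff]
  have hE : FP fun inp : (MG × List Bool) × List Bool => inp.1.1.2 := by fun_prop
  have hN : FP fun inp : (MG × List Bool) × List Bool => inp.1.2 := by fun_prop
  have hr : FP fun inp : (MG × List Bool) × List Bool => inp.2 := by fun_prop
  have hT : FP fun inp : (MG × List Bool) × List Bool =>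
      un inp.1.1.2.length ++ (inp.1.2 ++ [true]) :=
    FP.append (FP.un_length hE) (FP.append hN (FP.const [true]))
  have hTl : ∀ inp : (MG × List Bool) × List Bool,
      (un inp.1.1.2.length ++ (inp.1.2 ++ [true])).length = tt inp.1 := by
    intro inp
    simp only [List.length_append, un_length, List.length_singleton, tt]
    ring
  have ht : FP fun inp : (MG × List Bool) × List Bool => tt inp.1 := by
    have h := FP.length hT
    simp only [hTl] at h
    exact h
  have hKu := FP.un_poly hT pK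
  have hTu := FP.un_poly hT pT
  have hs := FP.length (FP.un_poly hT ps)
  simp only [hTl, un_length] at hKu hTu hs
  have hB := FP.bits ht
  have hC := FP.bits (FP.natMul (FP.const 2) (FP.natMul (FP.natMul hs (FP.natMul hs ht)) (FP.natMul hs ht)))
  have hnl := Pool.Agent.TFP.FP.nlE hE
  have hR : FP fun inp : (MG × List Bool) × List Bool =>
      un (mergers (([] : List Bool), (Pool.Agent.TFP.nlE inp.1.1.2).map Prod.snd)).length :=
    FP.un_length (FP.mergers (FP.pair (FP.const []) (FP.map (f := fun e : Ed => e.2) (by fun_prop) hnl)))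
  have hh := FP.hor x d hs hB hC hTu hKu hnl hR (FP.const 1) hr (FP.const (0, 1))
  simp only [un_length, mfpd_size] at hh
  have h0 : FP fun inp : (MG × List Bool) × List Bool => decide (rkL (Pool.Agent.TFP.nlE inp.1.1.2) = 0) :=
    FP.natEq (FP.rkL hnl) (FP.const 0)
  have h1 := FP.ite (FP.isEmpty (Pool.Agent.TFP.FP.lps hE)) (FP.ite h0 (FP.const ((1 : ℤ), (1 : ℕ)))
    (FP.pair (FP.intPos (FP.natMul (FP.const x) hh.fst')) (FP.natMul (FP.const d) hh.snd')))
    (FP.const ((0 : ℤ), (1 : ℕ)))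
  refine (congrArg FP (funext fun inp => ?_)).mp h1
  unfold alg
  by_cases h2 : rkL (Pool.Agent.TFP.nlE inp.1.1.2) = 0
  · rw [if_pos (decide_eq_true h2), if_pos h2]
  · rw [if_neg (fun h => h2 (of_decide_eq_true h)), if_neg h2]
    rfl

end ACY.M
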