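import Pool.Agent.ACY.MHo
import Pool.Agent.ACY.MFpD
import Pool.Agent.TFP.Stmt
import Pool.Agent.TFP.TutR

/-!
# ACY machine layer, Fi: the approximation scheme

`HasFPRAS (fun _ => True) (tutte x 0)` for every rational `x ≥ 1`.
-/

set_option autoImplicit false

namespace ACY.M

open Finset Pool.Agent.Helper47.TR

open Pool.Agent.TFP (Ed HasFPRAS Close nlE labE lps)

theorem hor_take (a d s b c T K : ℕ) (E : List Ed) (R k : ℕ) (l : List Bool) (p : ℕ × ℕ) :
    hor a d s b c T K E R k (l.take (R * (E.length * (K * nb b c T)))) p = hor a d s b c T K E R k l p := by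
  induction R generalizing k l p with
  | zero => rfl
  | succ R ih =>
    have h1 : E.length * (K * nb b c T) ≤ (R + 1) * (E.length * (K * nb b c T)) :=
      Nat.le_mul_of_pos_left _ (Nat.succ_pos R)
    have h2 : (R + 1) * (E.length * (K * nb b c T)) - E.length * (K * nb b c T) =
        R * (E.length * (K * nb b c T)) := by
      rw [Nat.succ_mul, Nat.add_sub_cancel]
    rw [hor, hor, List.take_take, min_eq_left h1, List.drop_take, h2, ih]

private theorem MFi_len (l : List (ℕ × ℕ)) : (nlE l).length ≤ l.length := by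
  have h : (labE l).length = l.length := by
    induction l with
    | nil => rfl
    | cons e l ih =>
      show (((labE l).length, e) :: labE l).length = _
      rw [List.length_cons, ih, List.length_cons]
  rw [← h]
  exact List.length_filter_le _ _

private theorem MFi_tt (G : MG) (N : List Bool) :
    tt (G, N) ≤ (N487b59b3.bitEncode (G, N)).length := by
  show tt (G, N) ≤ Pool.Agent.Helper22.sz (G, N)
  have h1 : Pool.Agent.Helper22.sz (G, N) = 2 * Pool.Agent.Helper22.sz G + 1 + Pool.Agent.Helper22.sz N :=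
    Pool.Agent.Helper22.sz_pair G N
  have h2 : Pool.Agent.Helper22.sz G = 2 * Pool.Agent.Helper22.sz G.1 + 1 + Pool.Agent.Helper22.sz G.2 :=
    Pool.Agent.Helper22.sz_pair G.1 G.2
  have h3 := Pool.Agent.Helper22.length_le_sz G.2
  have h4 := Pool.Agent.Helper22.length_le_sz N
  have h5 : tt (G, N) = G.2.length + N.length + 1 := rfl
  omega

private theorem MFi_lps {l : List (ℕ × ℕ)} : (lps l).isEmpty = true ↔ ∀ e ∈ l, e.1 ≠ e.2 := by
  unfold lps
  rw [List.isEmpty_iff, List.filter_eq_nil_iff]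
  constructor
  · intro h e he h1
    exact h e he (by rw [h1]; exact beq_self_eq_true _)
  · intro h e he h1
    exact h e he (beq_iff_eq.1 h1)

/-- the weight -/
noncomputable def pS : Polynomial ℕ := Polynomial.C 16 * Polynomial.X ^ 4

/-- the number of trials -/
noncomputable def pKK : Polynomial ℕ := Polynomial.C 64 * Polynomial.X ^ 8

/-- the number of steps -/
noncomputable def pTT : Polynomial ℕ := Polynomial.C 768 * (Polynomial.C 16 * Polynomial.X ^ 4) ^ 5 * Polynomial.X ^ 8 *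
  (Polynomial.C 2 * (Polynomial.C 8 * Polynomial.X ^ 3) + Polynomial.C 16 * Polynomial.X ^ 4 * Polynomial.X ^ 2 +
    Polynomial.X)

/-- the number of random bits -/
noncomputable def pNN : Polynomial ℕ := Polynomial.X * (Polynomial.X * (pKK * (pTT * (Polynomial.X + (Polynomial.X +
  Polynomial.C 2 * (pS * (pS * Polynomial.X) * (pS * Polynomial.X)))))))

private theorem pS_eval (t : ℕ) : pS.eval t = 16 * t ^ 4 := by simp [pS]

private theorem pKK_eval (t : ℕ) : pKK.eval t = 64 * t ^ 8 := by simp [pKK]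

private theorem pTT_eval (t : ℕ) : pTT.eval t =
    768 * (16 * t ^ 4) ^ 5 * t ^ 8 * (2 * (8 * t ^ 3) + 16 * t ^ 4 * t ^ 2 + t) := by simp [pTT]

private theorem pNN_eval (t : ℕ) : pNN.eval t = t * (t * (pKK.eval t * (pTT.eval t * (t + (t +
    2 * (pS.eval t * (pS.eval t * t) * (pS.eval t * t))))))) := by
  simp [pNN]

private theorem pNN_mono {t u : ℕ} (h : t ≤ u) : pNN.eval t ≤ pNN.eval u := by
  rw [pNN_eval, pNN_eval, pKK_eval, pKK_eval, pTT_eval, pTT_eval, pS_eval, pS_eval]
  gcongr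

private theorem MFi_size (n : ℕ) : Nat.size n ≤ n := Nat.size_le.2 Nat.lt_two_pow_self

private theorem MFi_bits {E R t : ℕ} (hE : E ≤ t) (hR : R ≤ t) :
    R * (E * (pKK.eval t * nb (Nat.size t) (cb (pS.eval t) t) (pTT.eval t))) ≤ pNN.eval t := by
  have h1 := MFi_size t
  have h2 : cb (pS.eval t) t ≤ 2 * (pS.eval t * (pS.eval t * t) * (pS.eval t * t)) := MFi_size _
  rw [pNN_eval]
  unfold nb
  gcongr

/-- the estimate of the parameters -/
private theorem MFi_par {t : ℕ} (ht : 0 < t) :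
    1 / ((8 * t ^ 3 : ℕ) : ℝ) + 2 * t / ((16 * t ^ 4 : ℕ) : ℝ) ≤ 1 / (2 * (t : ℝ) ^ 2) / (2 * t) := by
  have h : (0 : ℝ) < t := by exact_mod_cast ht
  refine le_of_eq ?_
  push_cast
  field_simp
  norm_num

private theorem MFi_prob {t R E : ℕ} (ht : 0 < t) (hR : R ≤ t) (hE : E ≤ t) :
    (R : ℝ) * (E * (4 * t ^ 2 / (((64 * t ^ 8 : ℕ) : ℝ) * (1 / (2 * (t : ℝ) ^ 2)) ^ 2))) ≤ 1 / 4 := by
  have h : (0 : ℝ) < t := by exact_mod_cast ht
  have hR' : (R : ℝ) ≤ t := by exact_mod_cast hR
  have hE' : (E : ℝ) ≤ t := by exact_mod_cast hE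
  have e1 : 4 * (t : ℝ) ^ 2 / (((64 * t ^ 8 : ℕ) : ℝ) * (1 / (2 * (t : ℝ) ^ 2)) ^ 2) = 1 / (4 * t ^ 2) := by
    push_cast
    field_simp
    norm_num
  rw [e1]
  calc (R : ℝ) * (E * (1 / (4 * t ^ 2))) ≤ t * (t * (1 / (4 * t ^ 2))) := by gcongr
    _ = 1 / 4 := by field_simp

private theorem MFi_close {x f a : ℚ} {Y W τ ε : ℝ} (hx : 0 < x) (hW : 0 < W) (hf : (f : ℝ) = x * W)
    (ha : (a : ℝ) = x * Y) (hτ : τ ≤ ε) (h : RC τ Y W) : Close ε f a := by
  obtain ⟨h1, h2⟩ := h
  have hx' : (0 : ℝ) < x := by exact_mod_cast hx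
  have hY : 0 < Y := lt_of_lt_of_le (mul_pos (Real.exp_pos _) hW) h1
  have hf0 : (0 : ℝ) < f := by rw [hf]; exact mul_pos hx' hW
  have ha0 : (0 : ℝ) < a := by rw [ha]; exact mul_pos hx' hY
  have hf1 : 0 < f := by exact_mod_cast hf0
  have ha1 : 0 < a := by exact_mod_cast ha0
  refine ⟨⟨fun _ => hf1, fun _ => ha1⟩, ⟨fun h => absurd h ha1.not_gt, fun h => absurd h hf1.not_gt⟩, ?_, ?_⟩
  · rw [abs_of_pos hf0, abs_of_pos ha0, hf, ha]
    calc Real.exp (-ε) * (x * W) ≤ Real.exp (-τ) * (x * W) := by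
          gcongr
      _ = x * (Real.exp (-τ) * W) := by ring
      _ ≤ x * Y := by gcongr
  · rw [abs_of_pos hf0, abs_of_pos ha0, hf, ha]
    calc (x : ℝ) * Y ≤ x * (Real.exp τ * W) := by gcongr
      _ ≤ x * (Real.exp ε * W) := by gcongr
      _ = Real.exp ε * (x * W) := by ring

private theorem MFi_count {n : ℕ} {P : List Bool → Prop} (Q : (Fin n → Bool) → Prop) [DecidablePred Q]
    (hPQ : ∀ r : Fin n → Bool, P (List.ofFn r) → Q r) (h : pr n (fun l => ¬ P l) ≤ 1 / 4) :
    (3 / 4 : ℚ) * 2 ^ n ≤ ((Finset.univ.filter Q).card : ℚ) := by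
  classical
  rw [pr_not] at h
  have h1 := pr_count n P
  have h2 : (0 : ℝ) < 2 ^ n := by positivity
  have h3 : (3 / 4 : ℝ) * 2 ^ n ≤ ((Finset.univ.filter fun r : Fin n → Bool => P (List.ofFn r)).card : ℝ) := by
    rw [← le_div_iff₀ h2, ← h1]
    linarith
  have h4 : ((Finset.univ.filter fun r : Fin n → Bool => P (List.ofFn r)).card : ℝ) ≤ (Finset.univ.filter Q).card := by
    exact_mod_cast Finset.card_le_card fun r hr => by
      rw [Finset.mem_filter] at hr ⊢
      exact ⟨hr.1, hPQ r hr.2⟩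
  have h5 := h3.trans h4
  have h6 : (((3 / 4 : ℚ) * 2 ^ n : ℚ) : ℝ) ≤ (((Finset.univ.filter Q).card : ℚ) : ℝ) := by
    push_cast
    exact h5
  exact_mod_cast h6

theorem fpras_zero {x : ℚ} (hx : 1 ≤ x) : HasFPRAS (fun _ => True) (tutte x 0) := by
  classical
  obtain ⟨a, d, hd, had, hxa⟩ : ∃ a d : ℕ, 0 < d ∧ d ≤ a ∧ x = (a : ℚ) / d := by
    refine ⟨x.num.toNat, x.den, x.den_pos, ?_, ?_⟩
    · have h1 : (x.den : ℤ) ≤ x.num := by
        have h2 : (1 : ℚ) ≤ x.num / x.den := by rw [Rat.num_div_den]; exact hx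
        have h3 : (0 : ℚ) < x.den := by exact_mod_cast x.den_pos
        rw [le_div_iff₀ h3, one_mul] at h2
        exact_mod_cast h2
      omega
    · have h0 : 0 ≤ x.num := Rat.num_nonneg.2 (by linarith)
      have h1 : ((x.num.toNat : ℕ) : ℚ) = (x.num : ℚ) := by
        have h2 : ((x.num.toNat : ℕ) : ℤ) = x.num := Int.toNat_of_nonneg h0
        exact_mod_cast h2
      rw [h1]
      exact (Rat.num_div_den x).symm
  refine ⟨pNN, alg a d pS pKK pTT, alg_poly a d pS pKK pTT, ?_⟩
  intro G hG _ N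
  obtain ⟨n, hn⟩ : ∃ n, n = pNN.eval (N487b59b3.bitEncode (G, N)).length := ⟨_, rfl⟩
  rw [← hn]
  obtain ⟨t, ht⟩ : ∃ t, t = tt (G, N) := ⟨_, rfl⟩
  have htd : tt (G, N) = G.2.length + N.length + 1 := rfl
  have ht0 : 0 < t := by omega
  have htt := MFi_tt G N
  obtain ⟨E, hEd⟩ : ∃ E, E = nlE G.2 := ⟨_, rfl⟩
  have hEt : E.length ≤ t := by
    have := MFi_len G.2
    rw [hEd]
    omega
  have hNt : N.length + 1 ≤ t := by omega
  have hε : (0 : ℝ) < 1 / (N.length + 1) := by positivity
  by_cases hl : (lps G.2).isEmpty = true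
  · have hnl := MFi_lps.1 hl
    have hgr := ground_nlE hnl
    rw [← hEd] at hgr
    have hrk : rkL E = Pool.Agent.TFP.rk (ground G) := by rw [rkL_eq, hgr]
    by_cases hG2 : G.2 = []
    · -- no edges
      have hR0 : rkL (nlE G.2) = 0 := by
        rw [hG2]
        rfl
      have halg : ∀ r, alg a d pS pKK pTT ((G, N), r) = (1, 1) := by
        intro r
        unfold alg
        rw [if_pos hl, if_pos hR0]
      refine MFi_count (P := fun _ => True) _ (fun r _ => ?_) ?_
      · rw [halg, tutte_nil hG hG2]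
        refine ⟨one_ne_zero, ?_⟩
        refine MFi_close (x := 1) (Y := 1) (W := 1) (τ := 0) one_pos one_pos (by norm_num) (by norm_num) hε.le ?_
        unfold RC
        simp
      · rw [pr_congr (Q := fun _ => False) (fun l _ => by simp), pr_false]
        norm_num
    · -- the main case
      obtain ⟨hR1, htut⟩ := tutte_main hG hnl hG2 x
      rw [← hrk] at hR1 htut
      obtain ⟨R, hR⟩ : ∃ R, R = rkL E := ⟨_, rfl⟩
      rw [← hR] at hR1 htut
      have hRt : R ≤ t := by
        have h1 : Pool.Agent.TFP.rk E.toFinset ≤ E.toFinset.card := RK_rk.le_card _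
        have h2 := E.toFinset_card_le
        rw [hR, rkL_eq]
        omega
      have hsing : ∀ y ∈ E, Pool.Agent.TFP.rk {y} = 1 := by
        intro y hy
        refine ground_loopless hnl y ?_
        rw [← hgr, List.mem_toFinset]
        exact hy
      have hnd : E.Nodup := by
        rw [hEd]
        exact Pool.Agent.TFP.nodup_nlE _
      have hη : (0 : ℝ) < 1 / (2 * (t : ℝ) ^ 2) := by positivity
      have ht1 : (1 : ℝ) ≤ t := by exact_mod_cast ht0
      have hη1 : 1 / (2 * (t : ℝ) ^ 2) ≤ 1 / 2 := by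
        apply one_div_le_one_div_of_le (by norm_num)
        nlinarith
      have hs : t ≤ pS.eval t := by
        rw [pS_eval]
        calc t = t ^ 1 := (pow_one t).symm
          _ ≤ t ^ 4 := Nat.pow_le_pow_right ht0 (by norm_num)
          _ ≤ 16 * t ^ 4 := by omega
      have hD : 1 ≤ 8 * t ^ 3 := by
        have : 0 < t ^ 3 := by positivity
        omega
      have hK : 0 < pKK.eval t := by
        rw [pKK_eval]
        positivity
      have hT : 768 * (pS.eval t) ^ 5 * t ^ 8 * (2 * (8 * t ^ 3) + pS.eval t * t ^ 2 + t) ≤ pTT.eval t := by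
        rw [pTT_eval, pS_eval]
      have h1 : 1 / ((8 * t ^ 3 : ℕ) : ℝ) + 2 * t / ((pS.eval t : ℕ) : ℝ) ≤ 1 / (2 * (t : ℝ) ^ 2) / (2 * t) := by
        rw [pS_eval]
        exact MFi_par ht0
      have key := pr_hor hd had E hnd hsing hEt hs hD hK hT hη hη1 h1 R 1 (le_refl 1)
      have hq : (R : ℝ) * (E.length * (4 * t ^ 2 / (((pKK.eval t : ℕ) : ℝ) * (1 / (2 * (t : ℝ) ^ 2)) ^ 2))) ≤ 1 / 4 := by
        rw [pKK_eval]
        exact MFi_prob ht0 hRt hEt
      have key2 := key.trans hq
      have hbits : R * (E.length * (pKK.eval t * nb (Nat.size t) (cb (pS.eval t) t) (pTT.eval t))) ≤ n := by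
        rw [hn]
        refine (MFi_bits hEt hRt).trans (pNN_mono ?_)
        rw [ht]
        exact htt
      obtain ⟨m, hm⟩ := Nat.exists_eq_add_of_le hbits
      rw [← pr_take (n := m), ← hm] at key2
      simp only [hor_take] at key2
      refine MFi_count _ (fun r hr => ?_) key2
      obtain ⟨h2, Y, h3, h4⟩ := hr (0, 1) one_ne_zero
      have halg : alg a d pS pKK pTT ((G, N), List.ofFn r) =
          (((a * (hor a d (pS.eval t) (Nat.size t) (cb (pS.eval t) t) (pTT.eval t) (pKK.eval t) E R 1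
              (List.ofFn r) (0, 1)).1 : ℕ) : ℤ),
            d * (hor a d (pS.eval t) (Nat.size t) (cb (pS.eval t) t) (pTT.eval t) (pKK.eval t) E R 1
              (List.ofFn r) (0, 1)).2) := by
        have hR0 : ¬ rkL (nlE G.2) = 0 := by
          rw [← hEd, ← hR]
          omega
        unfold alg
        rw [if_pos hl, if_neg hR0, ht, hR, hEd]
      rw [halg]
      refine ⟨Nat.mul_ne_zero hd.ne' h2, ?_⟩
      have hW : 0 < ∑ j ∈ Finset.range R, ((x : ℝ) - 1) ^ (R - 1 - j) *
          ACY.T (ACY.tr Pool.Agent.TFP.rk (j + 1)) (ground G) := by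
        have hx1 : (0 : ℝ) ≤ (x : ℝ) - 1 := by
          have : (1 : ℝ) ≤ x := by exact_mod_cast hx
          linarith
        have hTp : ∀ j : ℕ, 0 < ACY.T (ACY.tr Pool.Agent.TFP.rk (j + 1)) (ground G) := fun j =>
          T_pos (RK_rk.tr _) fun y hy => tr_sing (Nat.succ_le_succ (Nat.zero_le j)) (ground_loopless hnl y hy)
        refine Finset.sum_pos' (fun j _ => mul_nonneg (pow_nonneg hx1 _) (hTp j).le) ?_
        refine ⟨R - 1, Finset.mem_range.2 (by omega), ?_⟩
        rw [Nat.sub_self, pow_zero, one_mul]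
        exact hTp _
      have hxr : (x : ℝ) = (a : ℝ) / d := by
        rw [hxa]
        push_cast
        rfl
      have hcast : (N.length : ℝ) + 1 ≤ t := by exact_mod_cast hNt
      have hEc : (E.length : ℝ) ≤ t := by exact_mod_cast hEt
      refine MFi_close (x := x) (Y := Y) (τ := 2 * (1 / (2 * (t : ℝ) ^ 2)) * E.length) (by linarith) hW htut ?_ ?_ ?_
      · -- the value
        rw [Nat.cast_zero, Nat.cast_one, zero_div, mul_zero, zero_add] at h3
        rw [← h3, hxr]
        push_cast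
        rw [mul_div_mul_comm]
      · have e1 : 2 * (1 / (2 * (t : ℝ) ^ 2)) * (E.length : ℝ) ≤ 2 * (1 / (2 * (t : ℝ) ^ 2)) * (t : ℝ) := by gcongr
        have e2 : 2 * (1 / (2 * (t : ℝ) ^ 2)) * (t : ℝ) = 1 / (t : ℝ) := by field_simp
        have e3 : (1 : ℝ) / (t : ℝ) ≤ 1 / ((N.length : ℝ) + 1) := one_div_le_one_div_of_le (by positivity) hcast
        rw [e2] at e1
        exact e1.trans e3
      · rw [← hxr, hgr] at h4
        have e : ∀ j ∈ Finset.range R, ((x : ℝ) - 1) ^ (R - 1 - j) *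
            ACY.T (ACY.tr Pool.Agent.TFP.rk (j + 1)) (ground G) = ((x : ℝ) - 1) ^ (R - 1 - j) *
            ACY.T (ACY.tr Pool.Agent.TFP.rk (1 + j)) (ground G) := fun j _ => by rw [add_comm j 1]
        rw [Finset.sum_congr rfl e]
        exact h4
  · -- a loop
    have hlo : ∃ e ∈ G.2, e.1 = e.2 := by
      by_contra hcon
      push Not at hcon
      exact hl (MFi_lps.2 hcon)
    have halg : ∀ r, alg a d pS pKK pTT ((G, N), r) = (0, 1) := by
      intro r
      unfold alg
      rw [if_neg hl]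
    refine MFi_count (P := fun _ => True) _ (fun r _ => ?_) ?_
    · rw [halg, tutte_loop hG hlo]
      refine ⟨one_ne_zero, ?_⟩
      unfold Close
      simp
    · rw [pr_congr (Q := fun _ => False) (fun l _ => by simp), pr_false]
      norm_num

end ACY.M
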