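import Pool.Agent.ACY.MDefs
import Pool.Agent.G4.UPList

/-!
# ACY machine layer, FpA: one step is polynomial time computable

Models: Pool/Agent/TFP/FpL.lean, FpS.lean (same style: `FP.ite`, `FP.pair`, `(congrArg FP (funext fun a => ?_)).mp`), the general combinators of
Pool/Agent/G4/UPList.lean (`FP.filter_ctx'`, `FP.map_ctx'`, `FP.any_ctx'`, `FP.all_ctx'`, `FP.getDNat`, `FP.lengthNat`; with the context
as a tuple), `FP.natMul`, `FP.natAdd`, `FP.natLe`, `FP.natEq`, `FP.length` (Helper47/TR/FPx.lean), `FP.mergers` (Helper47/TR/Rank.lean).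
`rkL`: `FP.mergers` for the graph `([], A.map Prod.snd)`. `rkT`: `FP.ite` with `FP.natLe`. Equality of `Ed`: `edEq'` of TFP/FpL.lean (copy it). `omL`: prove `omL e s A = s * (A.filter (!(x == e))).length + (A.filter (x == e)).length` and use
`FP.length`, `FP.natMul`, `FP.natAdd`. `fl.set (u1 + 1) Z`: it is equal to `(List.range fl.length).map fun j => if j = u1 + 1 then Z else fl.getD j []` (`List.ext_getElem`); `FP.range`
(Helper6/WB/Arith.lean) gives the list `List.range fl.length`, `FP.map_ctx'`. `u2 < S.length`: `FP.natLe` for `u2 + 1 ≤ S.length`. It is convenient to prove FP for `newF`, `accL` first.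
-/

set_option autoImplicit false

namespace ACY.M

open Turing Function N487b59b3 N68a2faeb Pool.Agent.Helper22 Pool.Agent.Helper6.WB Computability
  Pool.Agent.Helper47.TR

open Pool.Agent.TFP (Ed)

variable {α : Type} [N487b59b3 α]

private theorem FpA_edEq {e f : α → Ed} (he : FP e) (hf : FP f) : FP fun a => (e a == f a) := by
  have h1 : FP fun a => ((e a).1 == (f a).1) && (((e a).2.1 == (f a).2.1) && ((e a).2.2 == (f a).2.2)) :=
    FP.and (Pool.Agent.G4.FP.beqNat (by fun_prop) (by fun_prop))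
      (FP.and (Pool.Agent.G4.FP.beqNat (by fun_prop) (by fun_prop))
        (Pool.Agent.G4.FP.beqNat (by fun_prop) (by fun_prop)))
  exact h1

private theorem FpA_contains {l : α → List Ed} {x : α → Ed} (hl : FP l) (hx : FP x) :
    FP fun a => (l a).contains (x a) := by
  refine (congrArg FP (funext fun a => ?_)).mp
    (Pool.Agent.G4.FP.any_ctx' (P := fun (c : Ed) (b : Ed) => c == b)
      (FpA_edEq FP.fst FP.snd) hx hl)
  rw [List.contains_eq_any_beq]

theorem FP.rkL {A : α → List Ed} (hA : FP A) : FP fun a => ACY.M.rkL (A a) := by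
  have h1 : FP fun a => (A a).map Prod.snd := FP.map (f := Prod.snd) FP.snd hA
  have h2 : FP fun a => (([] : List Bool), (A a).map Prod.snd) := FP.pair (FP.const []) h1
  exact FP.length (FP.mergers h2)

theorem FP.rkT {k : α → ℕ} {A : α → List Ed} (hk : FP k) (hA : FP A) : FP fun a => ACY.M.rkT (k a) (A a) := by
  have h1 := FP.ite (FP.natLe (FP.rkL hA) hk) (FP.rkL hA) hk
  refine (congrArg FP (funext fun a => ?_)).mp h1
  unfold ACY.M.rkT
  by_cases h : ACY.M.rkL (A a) ≤ k a
  · simp [h]
  · simp only [h, decide_false, Bool.false_eq_true, if_false]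
    omega

theorem FP.clL {k : α → ℕ} {S A : α → List Ed} (hk : FP k) (hS : FP S) (hA : FP A) :
    FP fun a => ACY.M.clL (k a) (S a) (A a) := by
  have h1 : FP fun p : (ℕ × List Ed) × Ed =>
      (ACY.M.rkT p.1.1 (p.2 :: p.1.2) == ACY.M.rkT p.1.1 p.1.2) :=
    Pool.Agent.G4.FP.beqNat (FP.rkT (by fun_prop) (FP.cons (by fun_prop) (by fun_prop)))
      (FP.rkT (by fun_prop) (by fun_prop))
  exact Pool.Agent.G4.FP.filter_ctx' (P := fun (c : ℕ × List Ed) (x : Ed) =>
    (ACY.M.rkT c.1 (x :: c.2) == ACY.M.rkT c.1 c.2)) h1 (FP.pair hk hA) hS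

private theorem FpA_omL_eq (e : Ed) (s : ℕ) (A : List Ed) : ACY.M.omL e s A =
    s * (A.filter fun x => !(x == e)).length + (A.filter fun x => x == e).length := by
  unfold ACY.M.omL
  induction A with
  | nil => simp
  | cons x A ih =>
    rw [List.map_cons, List.sum_cons, ih, List.filter_cons, List.filter_cons]
    unfold ACY.M.wt
    by_cases h : x = e
    · subst h
      simp
      ring
    · have h1 : (x == e) = false := by simpa using h
      rw [if_neg h, h1]
      simp
      ring

private theorem FpA_omL {e : α → Ed} {s : α → ℕ} {A : α → List Ed} (he : FP e) (hs : FP s)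
    (hA : FP A) : FP fun a => ACY.M.omL (e a) (s a) (A a) := by
  have h1 : FP fun a => (A a).filter fun x => !(x == e a) :=
    Pool.Agent.G4.FP.filter_ctx' (P := fun (c : Ed) (x : Ed) => !(x == c))
      (FP.not (FpA_edEq FP.snd FP.fst)) he hA
  have h2 : FP fun a => (A a).filter fun x => (x == e a) :=
    Pool.Agent.G4.FP.filter_ctx' (P := fun (c : Ed) (x : Ed) => (x == c))
      (FpA_edEq FP.snd FP.fst) he hA
  have h3 := FP.natAdd (FP.natMul hs (FP.length h1)) (FP.length h2)
  refine (congrArg FP (funext fun a => ?_)).mp h3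
  exact (FpA_omL_eq _ _ _).symm

private theorem FpA_difL {X Z : α → List Ed} (hX : FP X) (hZ : FP Z) :
    FP fun a => ACY.M.difL (X a) (Z a) :=
  Pool.Agent.G4.FP.filter_ctx' (P := fun (c : List Ed) (x : Ed) => !(c.contains x))
    (FP.not (FpA_contains FP.fst FP.snd)) hZ hX

private theorem FpA_newF {k i : α → ℕ} {f : α → Ed} {fl : α → List (List Ed)} (hk : FP k)
    (hi : FP i) (hf : FP f) (hfl : FP fl) :
    FP fun a => ACY.M.newF (k a) (fl a) (i a) (f a) :=
  FP.clL hk (Pool.Agent.G4.FP.getDNat hfl hi [])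
    (FP.cons hf (Pool.Agent.G4.FP.getDNat hfl (FP.natAdd hi (FP.const 2)) []))

private theorem FpA_lt {m n : α → ℕ} (hm : FP m) (hn : FP n) : FP fun a => decide (m a < n a) := by
  refine (congrArg FP (funext fun a => ?_)).mp (FP.natLe (FP.natAdd hm (FP.const 1)) hn)
  exact decide_eq_decide.mpr Nat.succ_le_iff

private theorem FpA_wt {e f : α → Ed} {s : α → ℕ} (he : FP e) (hs : FP s) (hf : FP f) :
    FP fun a => ACY.M.wt (e a) (s a) (f a) := by
  refine (congrArg FP (funext fun a => ?_)).mp (FP.ite (FpA_edEq hf he) (FP.const 1) hs)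
  unfold ACY.M.wt
  by_cases h : f a = e a
  · simp [h]
  · have h1 : (f a == e a) = false := by simpa using h
    rw [if_neg h, h1]
    rfl

private theorem FpA_accL {k s i v : α → ℕ} {e f : α → Ed} {fl : α → List (List Ed)} (hk : FP k)
    (hs : FP s) (he : FP e) (hfl : FP fl) (hi : FP i) (hf : FP f) (hv : FP v) :
    FP fun a => ACY.M.accL (k a) (s a) (e a) (fl a) (i a) (f a) (v a) := by
  have h0 : FP fun a => (fl a).getD (i a) [] := Pool.Agent.G4.FP.getDNat hfl hi []
  have h1 : FP fun a => (fl a).getD (i a + 1) [] :=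
    Pool.Agent.G4.FP.getDNat hfl (FP.natAdd hi (FP.const 1)) []
  have h2 : FP fun a => (fl a).getD (i a + 2) [] :=
    Pool.Agent.G4.FP.getDNat hfl (FP.natAdd hi (FP.const 2)) []
  exact FP.and (FpA_lt (FP.natAdd hi (FP.const 2)) (FP.length hfl))
    (FP.and (FpA_contains h0 hf) (FP.and (FP.not (FpA_contains h2 hf))
      (FpA_lt hv (FP.natMul (FpA_wt he hs hf) (FP.natMul
        (FpA_omL he hs (FpA_difL h0 (FpA_newF hk hi hf hfl))) (FpA_omL he hs h1))))))

private theorem FpA_set_eq (l : List (List Ed)) (j : ℕ) (Z : List Ed) :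
    l.set j Z = (List.range l.length).map fun m => if m == j then Z else l.getD m [] := by
  apply List.ext_getElem
  · simp
  · intro n h1 h2
    rw [List.length_set] at h1
    rw [List.getElem_set, List.getElem_map, List.getElem_range]
    by_cases h : j = n
    · subst h
      simp
    · have h3 : (n == j) = false := by
        rw [beq_eq_false_iff_ne]
        exact fun h' => h h'.symm
      rw [if_neg h, h3, List.getD_eq_getElem _ _ h1]
      rfl

private theorem FpA_set {l : α → List (List Ed)} {j : α → ℕ} {Z : α → List Ed} (hl : FP l)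
    (hj : FP j) (hZ : FP Z) : FP fun a => (l a).set (j a) (Z a) := by
  have h1 : FP fun p : (List (List Ed) × (ℕ × List Ed)) × ℕ =>
      if p.2 == p.1.2.1 then p.1.2.2 else p.1.1.getD p.2 [] :=
    FP.ite (Pool.Agent.G4.FP.beqNat (by fun_prop) (by fun_prop)) (by fun_prop)
      (Pool.Agent.G4.FP.getDNat (by fun_prop) (by fun_prop) [])
  have h2 := Pool.Agent.G4.FP.map_ctx' (h := fun (c : List (List Ed) × (ℕ × List Ed)) (m : ℕ) =>
    if m == c.2.1 then c.2.2 else c.1.getD m []) h1 (FP.pair hl (FP.pair hj hZ)) (FP.range hl)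
  refine (congrArg FP (funext fun a => ?_)).mp h2
  exact (FpA_set_eq _ _ _).symm

theorem FP.stepL {k s u1 u2 u3 : α → ℕ} {e : α → Ed} {S : α → List Ed} {fl : α → List (List Ed)} (hk : FP k)
    (hs : FP s) (he : FP e) (hS : FP S) (h1 : FP u1) (h2 : FP u2) (h3 : FP u3) (hfl : FP fl) :
    FP fun a => ACY.M.stepL (k a) (s a) (e a) (S a) (u1 a) (u2 a) (u3 a) (fl a) := by
  have hg : FP fun a => (S a).getD (u2 a) (0, (0, 0)) := Pool.Agent.G4.FP.getDNat hS h2 (0, (0, 0))
  exact FP.ite (FP.and (FpA_lt h2 (FP.length hS)) (FpA_accL hk hs he hfl h1 hg h3))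
    (FpA_set hfl (FP.natAdd h1 (FP.const 1)) (FpA_newF hk h1 hg hfl)) hfl

end ACY.M
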