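import Pool.Agent.ACY.MFpA

/-!
# ACY machine layer, FpB: a trial is polynomial time computable

`runL` is an iteration of `stepL` with the consumption of random bits; the number of sets of a flag does not change and every
new set is a sublist of an old one, which bounds the size. `iniL` is a fold, `obsL` a combination of `any` and `all`.
-/

set_option autoImplicit false

namespace ACY.M

open Turing Function N487b59b3 N68a2faeb Pool.Agent.Helper22 Pool.Agent.Helper6.WB Computability
  Pool.Agent.Helper47.TR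

open Pool.Agent.TFP (Ed)

variable {α : Type} [N487b59b3 α]

private theorem MFpB_natBeq {f g : α → ℕ} (hf : FP f) (hg : FP g) : FP fun a => (f a == g a) := by
  refine (congrArg FP (funext fun a => ?_)).mp (FP.natEq hf hg)
  exact (beq_eq_decide _ _).symm

private theorem MFpB_edEq {e f : α → Ed} (he : FP e) (hf : FP f) : FP fun a => (e a == f a) := by
  have h1 : FP fun a => ((e a).1 == (f a).1) && (((e a).2.1 == (f a).2.1) && ((e a).2.2 == (f a).2.2)) :=
    FP.and (MFpB_natBeq (by fun_prop) (by fun_prop))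
      (FP.and (MFpB_natBeq (by fun_prop) (by fun_prop)) (MFpB_natBeq (by fun_prop) (by fun_prop)))
  exact h1

private theorem MFpB_contains {f : α → List Ed} {g : α → Ed} (hf : FP f) (hg : FP g) :
    FP fun a => (f a).contains (g a) := by
  have h1 : FP fun q : Ed × Ed => (q.1 == q.2) := MFpB_edEq (by fun_prop) (by fun_prop)
  have h2 := (FP.any_ctx h1).comp (FP.pair hg hf)
  refine (congrArg FP (funext fun a => ?_)).mp h2
  simp only
  rw [List.contains_eq_any_beq]

private theorem MFpB_filter {β : Type} [N487b59b3 β] (q : β → Bool) (l : List β) :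
    sz (l.filter q) ≤ sz l := by
  induction l with
  | nil => exact le_rfl
  | cons a l ih =>
    rw [List.filter_cons, sz_cons]
    split_ifs
    · rw [sz_cons]
      omega
    · omega

private theorem MFpB_getD {M : ℕ} {fl : List (List Ed)} (h : ∀ A ∈ fl, sz A ≤ M) (i : ℕ) :
    sz (fl.getD i []) ≤ M := by
  rcases Nat.lt_or_ge i fl.length with h1 | h1
  · rw [List.getD_eq_getElem _ _ h1]
    exact h _ (List.getElem_mem h1)
  · rw [List.getD_eq_default _ _ h1]
    exact Nat.zero_le _

/-- the invariant for the size -/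
private def MFpB_I (M n : ℕ) (fl : List (List Ed)) : Prop := fl.length = n ∧ ∀ A ∈ fl, sz A ≤ M

private theorem MFpB_step {M n : ℕ} {fl : List (List Ed)} (h : MFpB_I M n fl) (k s : ℕ) (e : Ed) (S : List Ed)
    (u1 u2 u3 : ℕ) : MFpB_I M n (ACY.M.stepL k s e S u1 u2 u3 fl) := by
  unfold ACY.M.stepL
  split_ifs
  · refine ⟨by rw [List.length_set]; exact h.1, fun A hA => ?_⟩
    rcases List.mem_or_eq_of_mem_set hA with hA | hA
    · exact h.2 A hA
    · rw [hA]
      exact (MFpB_filter _ _).trans (MFpB_getD h.2 _)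
  · exact h

private theorem MFpB_sz {M n : ℕ} {fl : List (List Ed)} (h : MFpB_I M n fl) : sz fl ≤ n * (2 * M + 1) := by
  rw [← h.1]
  exact sz_list_le fl M h.2

/-- the type of the context -/
private abbrev MFpB_C : Type := (ℕ × ℕ) × (Ed × List Ed)

/-- the type of the states -/
private abbrev MFpB_T : Type := MFpB_C × ((List Bool × List Bool) × (List Bool × List (List Ed)))

/-- one step together with the consumption of random bits -/
private def MFpB_r (p : MFpB_T) : MFpB_T :=
  (p.1, (p.2.1, (p.2.2.1.drop (p.2.1.1 ++ (p.2.1.1 ++ p.2.1.2)).length,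
    ACY.M.stepL p.1.1.1 p.1.1.2 p.1.2.1 p.1.2.2 (Pool.Agent.Helper6.WB.val (p.2.2.1.take p.2.1.1.length))
      (Pool.Agent.Helper6.WB.val ((p.2.2.1.drop p.2.1.1.length).take p.2.1.1.length))
      (Pool.Agent.Helper6.WB.val ((p.2.2.1.drop (p.2.1.1 ++ p.2.1.1).length).take p.2.1.2.length)) p.2.2.2)))

private theorem MFpB_rFP : FP MFpB_r := by
  unfold MFpB_r
  have a1 : FP fun p : MFpB_T => p.1 := by fun_prop
  have a2 : FP fun p : MFpB_T => p.2.1 := by fun_prop
  have a3 : FP fun p : MFpB_T => p.2.1.1 := by fun_prop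
  have a4 : FP fun p : MFpB_T => p.2.1.2 := by fun_prop
  have a5 : FP fun p : MFpB_T => p.2.2.1 := by fun_prop
  have a6 : FP fun p : MFpB_T => p.2.2.2 := by fun_prop
  refine a1.pair (a2.pair ((FP.drop a5 (FP.append a3 (FP.append a3 a4))).pair ?_))
  refine FP.stepL (by fun_prop) (by fun_prop) (by fun_prop) (by fun_prop) ?_ ?_ ?_ a6
  · exact Pool.Agent.TFP.FP.val (FP.take a5 a3)
  · exact Pool.Agent.TFP.FP.val (FP.take (FP.drop a5 a3) a3)
  · exact Pool.Agent.TFP.FP.val (FP.take (FP.drop a5 (FP.append a3 a3)) a4)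

private theorem MFpB_run (k s : ℕ) (e : Ed) (S : List Ed) (B C : List Bool) (T : ℕ) (l : List Bool)
    (fl : List (List Ed)) : ACY.M.runL k s e S B.length C.length T l fl =
      (MFpB_r^[T] (((k, s), (e, S)), ((B, C), (l, fl)))).2.2.2 := by
  induction T generalizing l fl with
  | zero => rfl
  | succ T ih =>
    rw [Function.iterate_succ_apply]
    have h1 : MFpB_r (((k, s), (e, S)), ((B, C), (l, fl))) = (((k, s), (e, S)), ((B, C),
        (l.drop (B.length + (B.length + C.length)), ACY.M.stepL k s e S (Pool.Agent.Helper6.WB.val (l.take B.length))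
          (Pool.Agent.Helper6.WB.val ((l.drop B.length).take B.length))
          (Pool.Agent.Helper6.WB.val ((l.drop (B.length + B.length)).take C.length)) fl))) := by
      unfold MFpB_r
      simp only [List.length_append]
    rw [h1, ← ih]
    rfl

private theorem MFpB_inv (a : MFpB_T) (i : ℕ) : (MFpB_r^[i] a).1 = a.1 ∧ (MFpB_r^[i] a).2.1 = a.2.1 ∧
    sz (MFpB_r^[i] a).2.2.1 ≤ sz a.2.2.1 ∧ MFpB_I (sz a.2.2.2) a.2.2.2.length (MFpB_r^[i] a).2.2.2 := by
  induction i with
  | zero => exact ⟨rfl, rfl, le_rfl, rfl, fun A hA => sz_mem_le hA⟩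
  | succ i ih =>
    obtain ⟨h1, h2, h3, h4⟩ := ih
    rw [Function.iterate_succ_apply']
    exact ⟨h1, h2, (sz_drop _ _).trans h3, MFpB_step h4 _ _ _ _ _ _ _⟩

private theorem MFpB_bound (a : MFpB_T) (i : ℕ) : sz (MFpB_r^[i] a) ≤ sz a + sz a * (2 * sz a + 1) := by
  obtain ⟨h1, h2, h3, h4⟩ := MFpB_inv a i
  have h5 := MFpB_sz h4
  obtain ⟨a1, a2, a3, a4⟩ := a
  generalize MFpB_r^[i] (a1, (a2, (a3, a4))) = q at *
  obtain ⟨q1, q2, q3, q4⟩ := q
  simp only at h1 h2 h3 h4 h5
  subst h1 h2
  have h6 : a4.length ≤ sz a4 := length_le_sz a4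
  have h7 : sz (q1, (q2, (a3, a4))) = 2 * sz q1 + 1 + (2 * sz q2 + 1 + (2 * sz a3 + 1 + sz a4)) := by
    rw [sz_pair q1 _, sz_pair q2 _, sz_pair a3 a4]
  have h8 : sz (q1, (q2, (q3, q4))) = 2 * sz q1 + 1 + (2 * sz q2 + 1 + (2 * sz q3 + 1 + sz q4)) := by
    rw [sz_pair q1 _, sz_pair q2 _, sz_pair q3 q4]
  generalize sz (q1, (q2, (a3, a4))) = N at *
  have h9 : a4.length * (2 * sz a4 + 1) ≤ N * (2 * N + 1) := Nat.mul_le_mul (by omega) (by omega)
  rw [h8]
  omega

theorem FP.runL {k s : α → ℕ} {e : α → Ed} {S : α → List Ed} {B C T l : α → List Bool} {fl : α → List (List Ed)}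
    (hk : FP k) (hs : FP s) (he : FP e) (hS : FP S) (hB : FP B) (hC : FP C) (hT : FP T) (hl : FP l) (hfl : FP fl) :
    FP fun a => ACY.M.runL (k a) (s a) (e a) (S a) (B a).length (C a).length (T a).length (l a) (fl a) := by
  have h : FP fun p : List Bool × MFpB_T => MFpB_r^[p.1.length] p.2 := by
    refine FP.iterate MFpB_rFP (B := fun n => n + n * (2 * n + 1)) (by fun_prop) ?_
    intro c a i _
    refine (MFpB_bound a i).trans ?_
    exact Nat.add_le_add (by omega) (Nat.mul_le_mul (by omega) (by omega))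
  have h2 := (h.comp (hT.pair (((hk.pair hs).pair (he.pair hS)).pair ((hB.pair hC).pair (hl.pair hfl))))).snd'.snd'.snd'
  refine (congrArg FP (funext fun a => ?_)).mp h2
  exact (MFpB_run _ _ _ _ _ _ _ _ _).symm

private theorem MFpB_g : FP fun p : (ℕ × List Ed) × (List (List Ed) × Ed) =>
    if (p.2.1.headD []).contains p.2.2 then p.2.1 else ACY.M.clL p.1.1 p.1.2 (p.2.2 :: p.2.1.headD []) :: p.2.1 := by
  have a1 : FP fun p : (ℕ × List Ed) × (List (List Ed) × Ed) => p.2.1.headD [] := FP.headD (by fun_prop) _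
  have a2 : FP fun p : (ℕ × List Ed) × (List (List Ed) × Ed) => p.2.2 := by fun_prop
  have a3 : FP fun p : (ℕ × List Ed) × (List (List Ed) × Ed) => p.2.1 := by fun_prop
  exact FP.ite (MFpB_contains a1 a2) a3 (FP.cons (FP.clL (by fun_prop) (by fun_prop) (FP.cons a2 a1)) a3)

private theorem MFpB_fold (c : ℕ × List Ed) (M : ℕ) (l : List Ed) (a : List (List Ed)) (hc : sz c.2 ≤ M)
    (ha : ∀ A ∈ a, sz A ≤ M) :
    (l.foldl (fun (acc : List (List Ed)) x => if (acc.headD []).contains x then acc else
      ACY.M.clL c.1 c.2 (x :: acc.headD []) :: acc) a).length ≤ a.length + l.length ∧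
    ∀ A ∈ l.foldl (fun (acc : List (List Ed)) x => if (acc.headD []).contains x then acc else
      ACY.M.clL c.1 c.2 (x :: acc.headD []) :: acc) a, sz A ≤ M := by
  induction l generalizing a with
  | nil => exact ⟨by simp, ha⟩
  | cons x l ih =>
    rw [List.foldl_cons]
    by_cases h : (a.headD []).contains x = true
    · rw [if_pos h]
      have h1 := ih a ha
      refine ⟨h1.1.trans ?_, h1.2⟩
      rw [List.length_cons]
      omega
    · rw [if_neg h]
      have h1 := ih (ACY.M.clL c.1 c.2 (x :: a.headD []) :: a) (fun A hA => by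
        rcases List.mem_cons.1 hA with rfl | hA
        · exact (MFpB_filter _ _).trans hc
        · exact ha A hA)
      refine ⟨h1.1.trans ?_, h1.2⟩
      rw [List.length_cons, List.length_cons]
      omega

theorem FP.iniL {k : α → ℕ} {S : α → List Ed} (hk : FP k) (hS : FP S) : FP fun a => ACY.M.iniL (k a) (S a) := by
  have h := Pool.Agent.G4.FP.foldl_ctx' (γ := ℕ × List Ed) (β := Ed) (α := List (List Ed)) (g := fun c acc x =>
    if (acc.headD []).contains x then acc else ACY.M.clL c.1 c.2 (x :: acc.headD []) :: acc) MFpB_g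
    (B := fun n => n * (2 * n + 1)) (by fun_prop) (by
      intro c l a
      have h1 : sz c.2 ≤ sz c := by
        obtain ⟨c1, c2⟩ := c
        show sz c2 ≤ _
        rw [sz_pair]
        omega
      obtain ⟨h2, h3⟩ := MFpB_fold c (sz c + sz a) l a (by omega) (fun A hA => (sz_mem_le hA).trans (by omega))
      refine (sz_list_le _ _ h3).trans (Nat.mul_le_mul ?_ (by omega))
      have h4 := length_le_sz a
      have h5 := length_le_sz l
      omega) (hk.pair hS) hS (FP.const [[]])
  exact h

private theorem MFpB_obs {e : α → Ed} {fl : α → List (List Ed)} (he : FP e) (hfl : FP fl) :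
    FP fun a => ACY.M.obsL (e a) (fl a) := by
  have h1 : FP fun p : Ed × List Ed => (!p.2.isEmpty && p.2.all fun x => x == p.1) := by
    refine FP.and (FP.not (FP.isEmpty (by fun_prop))) ?_
    exact Pool.Agent.G4.FP.all_ctx' (P := fun e x : Ed => x == e) (MFpB_edEq (by fun_prop) (by fun_prop)) (c := fun p : Ed × List Ed => p.1)
      (by fun_prop) (by fun_prop)
  have h2 := Pool.Agent.G4.FP.any_ctx' (P := fun (e : Ed) (A : List Ed) => (!A.isEmpty && A.all fun x => x == e)) h1 he hfl
  exact FP.not h2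

theorem FP.trial {k s : α → ℕ} {e : α → Ed} {S : α → List Ed} {B C T l : α → List Bool}
    (hk : FP k) (hs : FP s) (he : FP e) (hS : FP S) (hB : FP B) (hC : FP C) (hT : FP T) (hl : FP l) :
    FP fun a => ACY.M.trial (k a) (s a) (B a).length (C a).length (T a).length (e a) (S a) (l a) := by
  have h1 := MFpB_obs he (FP.runL hk hs he hS hB hC hT hl (FP.iniL hk hS))
  exact FP.ite h1 (FP.const 1) (FP.const 0)

end ACY.M
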