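import Pool.Agent.ACY.MFpB

/-!
# ACY machine layer, FpC: the number of successes and the estimate of `T`

A loop with an accumulator for `cnt` (`cnt ≤ K` bounds its size), and a loop over the list `E` with two accumulators,
numerator and denominator, for `est`; each step multiplies them by numbers `≤ K`.
-/

set_option autoImplicit false

namespace ACY.M

open Turing Function N487b59b3 N68a2faeb Pool.Agent.Helper22 Pool.Agent.Helper6.WB Computability
  Pool.Agent.Helper47.TR

open Pool.Agent.TFP (Ed)

variable {α : Type} [N487b59b3 α]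

theorem cnt_le (k s b c T : ℕ) (e : Ed) (S : List Ed) (K : ℕ) (l : List Bool) :
    cnt k s b c T e S K l ≤ K := by
  induction K generalizing l with
  | zero => exact le_rfl
  | succ K ih =>
    have h1 : trial k s b c T e S (l.take (nb b c T)) ≤ 1 := by
      unfold trial
      split_ifs
      · exact le_rfl
      · exact Nat.zero_le 1
    have h2 := ih (l.drop (nb b c T))
    rw [cnt]
    omega

/-- parameters: `(k, s)` and the unary numbers `B`, `C`, `T` -/
private abbrev MFpCx : Type := (ℕ × ℕ) × (List Bool × (List Bool × List Bool))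

/-- the number of random bits of a trial, in unary -/
private def mfpW (x : MFpCx) : List Bool :=
  un (x.2.2.2.length * (x.2.1 ++ (x.2.1 ++ x.2.2.1)).length)

private theorem mfpW_length (x : MFpCx) :
    (mfpW x).length = nb x.2.1.length x.2.2.1.length x.2.2.2.length := by
  unfold mfpW nb
  rw [un_length, List.length_append, List.length_append]

private theorem mfpW_fp {x : α → MFpCx} (hx : FP x) : FP fun a => mfpW (x a) := by
  unfold mfpW
  exact FP.unMul (by fun_prop) (by fun_prop)

/-- one trial, accumulated -/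
private def mfpStep (s : (MFpCx × (Ed × List Ed)) × (List Bool × ℕ)) :
    (MFpCx × (Ed × List Ed)) × (List Bool × ℕ) :=
  (s.1, (s.2.1.drop (mfpW s.1.1).length,
    s.2.2 + trial s.1.1.1.1 s.1.1.1.2 s.1.1.2.1.length s.1.1.2.2.1.length s.1.1.2.2.2.length
      s.1.2.1 s.1.2.2 (s.2.1.take (mfpW s.1.1).length)))

private theorem mfpStep_iter (x : MFpCx) (e : Ed) (S : List Ed) (i : ℕ)
    (l : List Bool) (acc : ℕ) : mfpStep^[i] ((x, (e, S)), (l, acc)) =
      ((x, (e, S)), (l.drop (i * nb x.2.1.length x.2.2.1.length x.2.2.2.length),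
        acc + cnt x.1.1 x.1.2 x.2.1.length x.2.2.1.length x.2.2.2.length e S i l)) := by
  induction i generalizing l acc with
  | zero => simp [cnt]
  | succ i ih =>
    rw [Function.iterate_succ_apply]
    have h1 : mfpStep ((x, (e, S)), (l, acc)) = ((x, (e, S)),
        (l.drop (nb x.2.1.length x.2.2.1.length x.2.2.2.length),
        acc + trial x.1.1 x.1.2 x.2.1.length x.2.2.1.length x.2.2.2.length e S
          (l.take (nb x.2.1.length x.2.2.1.length x.2.2.2.length)))) := by
      unfold mfpStep
      simp only [mfpW_length]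
    rw [h1, ih]
    simp only [cnt, List.drop_drop, Prod.mk.injEq, true_and]
    refine ⟨?_, ?_⟩
    · congr 1
      ring
    · rw [add_assoc]

private theorem mfpStep_FP : FP mfpStep := by
  have hW : FP fun s : (MFpCx × (Ed × List Ed)) × (List Bool × ℕ) => mfpW s.1.1 :=
    mfpW_fp (by fun_prop)
  have hd : FP fun s : (MFpCx × (Ed × List Ed)) × (List Bool × ℕ) =>
      s.2.1.drop (mfpW s.1.1).length := FP.drop (by fun_prop) hW
  have ht : FP fun s : (MFpCx × (Ed × List Ed)) × (List Bool × ℕ) =>
      s.2.1.take (mfpW s.1.1).length := FP.take (by fun_prop) hW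
  have htr := FP.trial (k := fun s : (MFpCx × (Ed × List Ed)) × (List Bool × ℕ) => s.1.1.1.1)
    (s := fun s => s.1.1.1.2) (e := fun s => s.1.2.1) (S := fun s => s.1.2.2)
    (B := fun s => s.1.1.2.1) (C := fun s => s.1.1.2.2.1) (T := fun s => s.1.1.2.2.2)
    (by fun_prop) (by fun_prop) (by fun_prop) (by fun_prop) (by fun_prop) (by fun_prop)
    (by fun_prop) ht
  exact FP.pair (by fun_prop) (FP.pair hd (FP.natAdd (by fun_prop) htr))

theorem FP.cnt {k s : α → ℕ} {e : α → Ed} {S : α → List Ed} {B C T K l : α → List Bool}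
    (hk : FP k) (hs : FP s) (he : FP e) (hS : FP S) (hB : FP B) (hC : FP C) (hT : FP T) (hK : FP K) (hl : FP l) :
    FP fun a => ACY.M.cnt (k a) (s a) (B a).length (C a).length (T a).length (e a) (S a) (K a).length (l a) := by
  have hit : FP fun p : List Bool × ((MFpCx × (Ed × List Ed)) × (List Bool × ℕ)) =>
      mfpStep^[p.1.length] p.2 := by
    refine FP.iterate mfpStep_FP (B := fun n => n + n) (by fun_prop) ?_
    rintro c ⟨⟨x, e, S⟩, l, acc⟩ i hi
    rw [mfpStep_iter]
    have h1 := sz_drop l (i * nb x.2.1.length x.2.2.1.length x.2.2.2.length)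
    have h2 := size_add_le acc
      (ACY.M.cnt x.1.1 x.1.2 x.2.1.length x.2.2.1.length x.2.2.2.length e S i l)
    have h3 := cnt_le x.1.1 x.1.2 x.2.1.length x.2.2.1.length x.2.2.2.length e S i l
    have h4 := length_le_sz c
    simp only [sz_pair, sz_nat]
    omega
  have h := hit.comp (hK.pair ((((hk.pair hs).pair (hB.pair (hC.pair hT))).pair (he.pair hS)).pair
    (hl.pair (FP.const 0))))
  have h2 := FP.snd.comp (FP.snd.comp h)
  refine (congrArg FP (funext fun a => ?_)).mp h2
  simp only [mfpStep_iter, zero_add]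

theorem est_le (k s b c T K : ℕ) (E : List Ed) (l : List Bool) :
    (est k s b c T K E l).1 ≤ (K + 1) ^ E.length ∧ (est k s b c T K E l).2 ≤ (K + 1) ^ E.length := by
  induction E generalizing l with
  | nil => exact ⟨le_rfl, le_rfl⟩
  | cons e E ih =>
    obtain ⟨h1, h2⟩ := ih (l.drop (K * nb b c T))
    rw [est, List.length_cons, pow_succ']
    have h3 := cnt_le k s b c T e (e :: E) K (l.take (K * nb b c T))
    split_ifs
    · exact ⟨h1.trans (Nat.le_mul_of_pos_left _ (Nat.succ_pos K)),
        h2.trans (Nat.le_mul_of_pos_left _ (Nat.succ_pos K))⟩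
    · exact ⟨Nat.mul_le_mul (Nat.le_succ K) h1, Nat.mul_le_mul (h3.trans (Nat.le_succ K)) h2⟩

/-- state of the loop for `est` -/
private abbrev MFpEs : Type := (MFpCx × List Bool) × (List Ed × (List Bool × (ℕ × ℕ)))

/-- the number of random bits of a factor, in unary -/
private def mfpV (x : MFpCx × List Bool) : List Bool := un (x.2.length * (mfpW x.1).length)

private theorem mfpV_length (x : MFpCx × List Bool) :
    (mfpV x).length = x.2.length * nb x.1.2.1.length x.1.2.2.1.length x.1.2.2.2.length := by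
  unfold mfpV
  rw [un_length, mfpW_length]

private theorem mfpV_fp {x : α → MFpCx × List Bool} (hx : FP x) : FP fun a => mfpV (x a) := by
  unfold mfpV
  exact FP.unMul (by fun_prop) (mfpW_fp (by fun_prop))

/-- the factors -/
private def mfpC (x : MFpCx × List Bool) (E : List Ed) (l : List Bool) : ℕ :=
  cnt x.1.1.1 x.1.1.2 x.1.2.1.length x.1.2.2.1.length x.1.2.2.2.length (E.headD (0, (0, 0))) E
    x.2.length l

/-- one step of the loop for `est` -/
private def mfpEst (s : MFpEs) : MFpEs :=
  (s.1, (s.2.1.tail, (s.2.2.1.drop (mfpV s.1).length,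
    if decide (rkT s.1.1.1.1 s.2.1.tail + 1 ≤ rkT s.1.1.1.1 s.2.1) then s.2.2.2 else
      (s.2.2.2.1 * s.1.2.length, s.2.2.2.2 * mfpC s.1 s.2.1 (s.2.2.1.take (mfpV s.1).length)))))

private theorem mfpEst_fp : FP mfpEst := by
  have h1 : FP fun s : MFpEs => s.1 := by fun_prop
  have hE : FP fun s : MFpEs => s.2.1 := by fun_prop
  have hl : FP fun s : MFpEs => s.2.2.1 := by fun_prop
  have hV : FP fun s : MFpEs => mfpV s.1 := mfpV_fp h1
  have hP : FP fun s : MFpEs => s.2.2.2.1 := by fun_prop
  have hQ : FP fun s : MFpEs => s.2.2.2.2 := by fun_prop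
  have hPQ : FP fun s : MFpEs => s.2.2.2 := by fun_prop
  have hk : FP fun s : MFpEs => s.1.1.1.1 := by fun_prop
  have hK : FP fun s : MFpEs => s.1.2 := by fun_prop
  have hr1 : FP fun s : MFpEs => rkT s.1.1.1.1 s.2.1.tail + 1 :=
    FP.natAdd (FP.rkT hk (FP.tail hE)) (FP.const 1)
  have hr2 : FP fun s : MFpEs => rkT s.1.1.1.1 s.2.1 := FP.rkT hk hE
  have hC : FP fun s : MFpEs => mfpC s.1 s.2.1 (s.2.2.1.take (mfpV s.1).length) := by
    unfold mfpC
    exact FP.cnt (by fun_prop) (by fun_prop) (FP.headD hE _) hE (by fun_prop) (by fun_prop)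
      (by fun_prop) hK (FP.take hl hV)
  exact FP.pair h1 (FP.pair (FP.tail hE) (FP.pair (FP.drop hl hV)
    (FP.ite (FP.natLe hr1 hr2) hPQ
      (FP.pair (FP.natMul hP (FP.length hK)) (FP.natMul hQ hC)))))

private theorem mfp_size_le (n : ℕ) : Nat.size n ≤ n := by
  rw [Nat.size_le]
  exact Nat.lt_two_pow_self

private theorem mfpEst_iter (i : ℕ) (s : MFpEs) :
    ∃ (l' : List Bool) (P Q : ℕ), mfpEst^[i] s = (s.1, (s.2.1.drop i, (l', (P, Q)))) ∧
      l'.length ≤ s.2.2.1.length ∧ Nat.size P ≤ Nat.size s.2.2.2.1 + i * s.1.2.length ∧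
      Nat.size Q ≤ Nat.size s.2.2.2.2 + i * s.1.2.length := by
  induction i with
  | zero => exact ⟨s.2.2.1, s.2.2.2.1, s.2.2.2.2, by simp, le_rfl, by simp, by simp⟩
  | succ i ih =>
    obtain ⟨l', P, Q, h1, h2, h3, h4⟩ := ih
    have h5 : mfpEst^[i + 1] s = (s.1, (s.2.1.drop (i + 1), (l'.drop (mfpV s.1).length,
        if decide (rkT s.1.1.1.1 (s.2.1.drop i).tail + 1 ≤ rkT s.1.1.1.1 (s.2.1.drop i)) then
          (P, Q) else (P * s.1.2.length,
            Q * mfpC s.1 (s.2.1.drop i) (l'.take (mfpV s.1).length))))) := by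
      rw [Function.iterate_succ_apply', h1]
      unfold mfpEst
      simp only [List.tail_drop]
    have h6 : (l'.drop (mfpV s.1).length).length ≤ s.2.2.1.length := by
      rw [List.length_drop]
      omega
    have h7 := size_mul_le P s.1.2.length
    have h8 := size_mul_le Q (mfpC s.1 (s.2.1.drop i) (l'.take (mfpV s.1).length))
    have h9 := mfp_size_le s.1.2.length
    have h10 : Nat.size (mfpC s.1 (s.2.1.drop i) (l'.take (mfpV s.1).length)) ≤ s.1.2.length :=
      (mfp_size_le _).trans (cnt_le _ _ _ _ _ _ _ _ _)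
    have h11 : (i + 1) * s.1.2.length = i * s.1.2.length + s.1.2.length := by ring
    rw [h5]
    split_ifs
    · exact ⟨_, P, Q, rfl, h6, by omega, by omega⟩
    · exact ⟨_, _, _, rfl, h6, by omega, by omega⟩

private theorem mfpEst_run (x : MFpCx × List Bool) (E : List Ed) :
    ∀ (l : List Bool) (P Q : ℕ), (mfpEst^[E.length] (x, (E, (l, (P, Q))))).2.2.2 =
      (P * (est x.1.1.1 x.1.1.2 x.1.2.1.length x.1.2.2.1.length x.1.2.2.2.length x.2.length E l).1,
       Q * (est x.1.1.1 x.1.1.2 x.1.2.1.length x.1.2.2.1.length x.1.2.2.2.length x.2.length E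
        l).2) := by
  induction E with
  | nil =>
    intro l P Q
    simp [est]
  | cons e E ih =>
    intro l P Q
    rw [List.length_cons, Function.iterate_succ_apply]
    have h1 : mfpEst (x, (e :: E, (l, (P, Q)))) = (x, (E,
        (l.drop (x.2.length * nb x.1.2.1.length x.1.2.2.1.length x.1.2.2.2.length),
          if decide (rkT x.1.1.1 E + 1 ≤ rkT x.1.1.1 (e :: E)) then (P, Q) else
          (P * x.2.length, Q * mfpC x (e :: E)
            (l.take (x.2.length * nb x.1.2.1.length x.1.2.2.1.length x.1.2.2.2.length)))))) := by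
      unfold mfpEst
      simp only [mfpV_length, List.tail_cons]
      rfl
    rw [h1, est]
    by_cases hc : rkT x.1.1.1 E < rkT x.1.1.1 (e :: E)
    · rw [if_pos hc, if_pos (decide_eq_true (Nat.succ_le_of_lt hc)), ih]
    · rw [if_neg hc, if_neg (fun h => hc (Nat.lt_of_succ_le (of_decide_eq_true h))), ih]
      refine Prod.ext ?_ ?_
      · exact mul_assoc _ _ _
      · exact mul_assoc _ _ _

theorem FP.est {k s : α → ℕ} {E : α → List Ed} {B C T K l : α → List Bool}
    (hk : FP k) (hs : FP s) (hE : FP E) (hB : FP B) (hC : FP C) (hT : FP T) (hK : FP K) (hl : FP l) :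
    FP fun a => ACY.M.est (k a) (s a) (B a).length (C a).length (T a).length (K a).length (E a) (l a) := by
  have h1 : FP fun p : List Ed × MFpEs => mfpEst^[p.1.length] p.2 := by
    refine FP.iterate mfpEst_fp (B := fun n => 4 * n + 4 * (n * n)) (by fun_prop) ?_
    intro lst s i hi
    obtain ⟨l', P, Q, h2, h3, h4, h5⟩ := mfpEst_iter i s
    rw [h2]
    obtain ⟨⟨x, K⟩, E, l, P0, Q0⟩ := s
    have h6 := sz_drop E i
    have h7 : i ≤ sz lst := hi.trans (length_le_sz lst)
    have h8 : K.length ≤ sz K := length_le_sz K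
    have h9 : i * K.length ≤ (sz lst + sz (((x, K), (E, (l, (P0, Q0)))) : MFpEs)) *
        (sz lst + sz (((x, K), (E, (l, (P0, Q0)))) : MFpEs)) := by
      refine Nat.mul_le_mul (by omega) ?_
      simp only [sz_pair]
      omega
    generalize (sz lst + sz (((x, K), (E, (l, (P0, Q0)))) : MFpEs)) *
      (sz lst + sz (((x, K), (E, (l, (P0, Q0)))) : MFpEs)) = N at h9 ⊢
    have h10 : sz l' ≤ sz l := by
      rw [sz_bits, sz_bits]
      simp only at h3
      omega
    simp only [sz_pair, sz_nat] at *
    omega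
  have h2 := h1.comp (hE.pair ((((hk.pair hs).pair (hB.pair (hC.pair hT))).pair hK).pair
    (hE.pair (hl.pair ((FP.const 1).pair (FP.const 1))))))
  have h3 := h2.snd'.snd'.snd'
  refine (congrArg FP (funext fun a => ?_)).mp h3
  show (mfpEst^[(E a).length] ((((k a, s a), (B a, (C a, T a))), K a), (E a, (l a, (1, 1))))).2.2.2 = _
  rw [mfpEst_run, one_mul, one_mul]

end ACY.M
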