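import Pool.Agent.ACY.MEs

/-!
# ACY machine layer, Ho: the Horner scheme

Induction on the number `R` of blocks: the bad event is contained in the union of the bad event of the first block (for `est`) and of the bad event
of the other blocks; one step of the Horner scheme on the values is `Ho_step`.
-/

set_option autoImplicit false

namespace ACY.M

open Finset

open Pool.Agent.TFP (Ed)

private theorem Ho_zero (τ : ℝ) : RC τ 0 0 := by
  constructor
  · rw [mul_zero]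
  · rw [mul_zero]

private theorem Ho_add {τ a b c d : ℝ} (h1 : RC τ a b) (h2 : RC τ c d) : RC τ (a + c) (b + d) := by
  obtain ⟨h3, h4⟩ := h1
  obtain ⟨h5, h6⟩ := h2
  constructor
  · rw [mul_add]
    exact add_le_add h3 h5
  · rw [mul_add]
    exact add_le_add h4 h6

private theorem Ho_mul {τ a b c : ℝ} (hc : 0 ≤ c) (h1 : RC τ a b) : RC τ (c * a) (c * b) := by
  obtain ⟨h3, h4⟩ := h1
  constructor
  · calc Real.exp (-τ) * (c * b) = c * (Real.exp (-τ) * b) := by ring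
      _ ≤ c * a := mul_le_mul_of_nonneg_left h3 hc
  · calc c * a ≤ c * (Real.exp τ * b) := mul_le_mul_of_nonneg_left h4 hc
      _ = Real.exp τ * (c * b) := by ring

private theorem Ho_pr {m n : ℕ} {P P1 P2 : List Bool → Prop} {c1 c2 : ℝ}
    (h : ∀ l : List Bool, ¬ P1 (l.take m) → ¬ P2 (l.drop m) → ¬ P l) (h1 : pr m P1 ≤ c1) (h2 : pr n P2 ≤ c2) :
    pr (m + n) P ≤ c1 + c2 := by
  have h3 : pr (m + n) P ≤ pr (m + n) (fun l => P1 (l.take m) ∨ P2 (l.drop m)) := by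
    refine pr_mono fun l _ hP => ?_
    by_contra h4
    rw [not_or] at h4
    exact h l h4.1 h4.2 hP
  have h4 := pr_or (m + n) (fun l => P1 (l.take m)) (fun l => P2 (l.drop m))
  rw [pr_take, pr_drop] at h4
  linarith

private theorem Ho_step {a d : ℕ} (hd : 0 < d) (had : d ≤ a) {p q : ℕ × ℕ} (hp : p.2 ≠ 0) (hq : q.2 ≠ 0) :
    d * p.2 * q.2 ≠ 0 ∧ (((a - d) * p.1 * q.2 + d * p.2 * q.1 : ℕ) : ℝ) / ((d * p.2 * q.2 : ℕ) : ℝ) =
      ((a : ℝ) / d - 1) * ((p.1 : ℝ) / p.2) + (q.1 : ℝ) / q.2 := by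
  refine ⟨Nat.mul_ne_zero (Nat.mul_ne_zero hd.ne' hp) hq, ?_⟩
  have h1 : (d : ℝ) ≠ 0 := Nat.cast_ne_zero.2 hd.ne'
  have h2 : (p.2 : ℝ) ≠ 0 := Nat.cast_ne_zero.2 hp
  have h3 : (q.2 : ℝ) ≠ 0 := Nat.cast_ne_zero.2 hq
  have h4 : ((a - d : ℕ) : ℝ) = (a : ℝ) - d := Nat.cast_sub had
  push_cast [h4]
  field_simp

theorem pr_hor {a d s t T D K : ℕ} (hd : 0 < d) (had : d ≤ a) (E : List Ed) (hE : E.Nodup)
    (hl : ∀ x ∈ E, Pool.Agent.TFP.rk {x} = 1) (hEt : E.length ≤ t) (hs : t ≤ s) (hD : 1 ≤ D) (hK : 0 < K)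
    (hT : 768 * s ^ 5 * t ^ 8 * (2 * D + s * t ^ 2 + t) ≤ T) {η : ℝ} (hη : 0 < η) (hη1 : η ≤ 1 / 2)
    (h1 : 1 / (D : ℝ) + 2 * t / s ≤ η / (2 * t)) (R k : ℕ) (hk : 1 ≤ k) :
    pr (R * (E.length * (K * nb (Nat.size t) (cb s t) T))) (fun l =>
      ¬ ∀ p : ℕ × ℕ, p.2 ≠ 0 → (hor a d s (Nat.size t) (cb s t) T K E R k l p).2 ≠ 0 ∧ ∃ Y : ℝ,
        ((hor a d s (Nat.size t) (cb s t) T K E R k l p).1 : ℝ) / (hor a d s (Nat.size t) (cb s t) T K E R k l p).2 =
          ((a : ℝ) / d - 1) ^ R * ((p.1 : ℝ) / p.2) + Y ∧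
        RC (2 * η * E.length) Y (∑ j ∈ Finset.range R, ((a : ℝ) / d - 1) ^ (R - 1 - j) *
          ACY.T (ACY.tr Pool.Agent.TFP.rk (k + j)) E.toFinset)) ≤
      R * (E.length * (4 * t ^ 2 / (K * η ^ 2))) := by
  have hx : (0 : ℝ) ≤ (a : ℝ) / d - 1 := by
    have h2 : (0 : ℝ) < d := Nat.cast_pos.2 hd
    rw [sub_nonneg, le_div_iff₀ h2, one_mul]
    exact_mod_cast had
  induction R generalizing k with
  | zero =>
    have h2 : ((0 : ℕ) : ℝ) * (E.length * (4 * t ^ 2 / (K * η ^ 2))) = 0 := by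
      rw [Nat.cast_zero, zero_mul]
    rw [h2, Nat.zero_mul, ← pr_false 0]
    refine pr_mono fun l _ hP => hP ?_
    intro p hp
    refine ⟨hp, 0, ?_, ?_⟩
    · rw [pow_zero, one_mul, add_zero]
      rfl
    · rw [Finset.range_zero, Finset.sum_empty]
      exact Ho_zero _
  | succ R ih =>
    have hW : (R + 1) * (E.length * (K * nb (Nat.size t) (cb s t) T)) =
        E.length * (K * nb (Nat.size t) (cb s t) T) + R * (E.length * (K * nb (Nat.size t) (cb s t) T)) := by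
      ring
    have hc : ((R + 1 : ℕ) : ℝ) * (E.length * (4 * t ^ 2 / (K * η ^ 2))) =
        E.length * (4 * t ^ 2 / (K * η ^ 2)) + R * (E.length * (4 * t ^ 2 / (K * η ^ 2))) := by
      push_cast
      ring
    rw [hW, hc]
    refine Ho_pr ?_ (pr_est E hk hE hl hEt hs hD hK hT hη hη1 h1) (ih (k + 1) (by omega))
    intro l g1 g2 g3
    rw [not_not] at g1 g2
    apply g3
    intro p hp
    obtain ⟨g4, g5⟩ := g1
    obtain ⟨g6, g7⟩ := Ho_step hd had (p := p) hp g4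
    obtain ⟨g8, Y, g9, g10⟩ := g2 ((a - d) * p.1 * (est k s (Nat.size t) (cb s t) T K E
        (l.take (E.length * (K * nb (Nat.size t) (cb s t) T)))).2 +
        d * p.2 * (est k s (Nat.size t) (cb s t) T K E (l.take (E.length * (K * nb (Nat.size t) (cb s t) T)))).1,
        d * p.2 * (est k s (Nat.size t) (cb s t) T K E (l.take (E.length * (K * nb (Nat.size t) (cb s t) T)))).2) g6
    refine ⟨g8, ((a : ℝ) / d - 1) ^ R * (((est k s (Nat.size t) (cb s t) T K E
        (l.take (E.length * (K * nb (Nat.size t) (cb s t) T)))).1 : ℝ) / (est k s (Nat.size t) (cb s t) T K E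
        (l.take (E.length * (K * nb (Nat.size t) (cb s t) T)))).2) + Y, ?_, ?_⟩
    · rw [pow_succ]
      refine Eq.trans g9 ?_
      rw [g7]
      ring
    · rw [Finset.sum_range_succ', add_comm (∑ j ∈ Finset.range R, _) _]
      refine Ho_add ?_ ?_
      · have e1 : R + 1 - 1 - 0 = R := by omega
        rw [e1, add_zero]
        exact Ho_mul (pow_nonneg hx R) g5
      · have e2 : ∑ j ∈ Finset.range R, ((a : ℝ) / d - 1) ^ (R + 1 - 1 - (j + 1)) *
            ACY.T (ACY.tr Pool.Agent.TFP.rk (k + (j + 1))) E.toFinset =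
            ∑ j ∈ Finset.range R, ((a : ℝ) / d - 1) ^ (R - 1 - j) *
            ACY.T (ACY.tr Pool.Agent.TFP.rk (k + 1 + j)) E.toFinset := by
          refine Finset.sum_congr rfl fun j _ => ?_
          have e3 : R + 1 - 1 - (j + 1) = R - 1 - j := by omega
          have e4 : k + (j + 1) = k + 1 + j := by omega
          rw [e3, e4]
        rw [e2]
        exact g10

end ACY.M
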