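import Pool.Agent.ACY.MRk
import Pool.Agent.ACY.GSt

/-!
# ACY machine layer, Ls: the operations on lists and on finsets

PLAN. `clL_fin`: `rkT_eq`, `List.toFinset_filter`, `List.toFinset_cons`. `step_fin`: both sides: the position `u2` in `S` (`S[u2]? = some (S.getD u2 _)` if `u2 < S.length`, else `none`: `mvE` is a `match`), then `mv_eq` (GSt.lean); the entries of `(S :: fl).map toFinset` are the `toFinset`
of the entries (`List.getD_map` with the default values `[]`, `∅`); `omL` of a list without repetitions is the sum over the finset (`List.sum_toFinset`); `(S :: fl).set (u1 + 1) Z = S :: fl.set u1 Z`; `List.map_set`. `wt = ws` by `rfl` (`funext`).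
-/

set_option autoImplicit false

namespace ACY.M

open Finset

open Pool.Agent.TFP (Ed)

theorem clL_fin (k : ℕ) (S A : List Ed) :
    (clL k S A).toFinset = cl (ACY.tr Pool.Agent.TFP.rk k) S.toFinset A.toFinset := by
  ext x
  unfold clL cl
  rw [List.mem_toFinset, List.mem_filter, Finset.mem_filter, List.mem_toFinset, beq_iff_eq, rkT_eq, rkT_eq,
    List.toFinset_cons]

private theorem MLs_getD (L : List (List Ed)) (i : ℕ) :
    (L.map List.toFinset).getD i ∅ = (L.getD i []).toFinset := by
  have h : (∅ : Finset Ed) = ([] : List Ed).toFinset := rfl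
  rw [h, List.getD_map]

private theorem MLs_om (e : Ed) (s : ℕ) {A : List Ed} (hA : A.Nodup) : omL e s A = om (ws e s) A.toFinset := by
  unfold omL om
  rw [List.sum_toFinset _ hA]
  rfl

private theorem MLs_dif (X Z : List Ed) : (difL X Z).toFinset = X.toFinset \ Z.toFinset := by
  ext x
  unfold difL
  simp

private theorem MLs_new (k : ℕ) (L : List (List Ed)) (i : ℕ) (f : Ed) :
    (newF k L i f).toFinset = nwF (ACY.tr Pool.Agent.TFP.rk k) (L.map List.toFinset) i f := by
  unfold newF nwF
  rw [clL_fin, List.toFinset_cons, MLs_getD, MLs_getD]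

private theorem MLs_nodup {L : List (List Ed)} (hL : ∀ A ∈ L, A.Nodup) (i : ℕ) : (L.getD i []).Nodup := by
  rw [List.getD_eq_getElem?_getD]
  rcases h : L[i]? with _ | A
  · exact List.nodup_nil
  · exact hL A (List.mem_of_getElem? h)

private theorem MLs_acc (k s : ℕ) (e : Ed) {L : List (List Ed)} (hL : ∀ A ∈ L, A.Nodup) (i : ℕ) (f : Ed) (v : ℕ) :
    accL k s e L i f v = true ↔ i + 2 < L.length ∧ f ∈ (L.map List.toFinset).getD i ∅ ∧
      f ∉ (L.map List.toFinset).getD (i + 2) ∅ ∧
      v < ws e s f * (om (ws e s) ((L.map List.toFinset).getD i ∅ \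
        nwF (ACY.tr Pool.Agent.TFP.rk k) (L.map List.toFinset) i f) *
          om (ws e s) ((L.map List.toFinset).getD (i + 1) ∅)) := by
  have h1 : omL e s (difL (L.getD i []) (newF k L i f)) = om (ws e s) ((L.map List.toFinset).getD i ∅ \
      nwF (ACY.tr Pool.Agent.TFP.rk k) (L.map List.toFinset) i f) := by
    rw [MLs_om e s (show (difL (L.getD i []) (newF k L i f)).Nodup from (MLs_nodup hL i).filter _), MLs_dif,
      MLs_getD, MLs_new]
  have h2 : omL e s (L.getD (i + 1) []) = om (ws e s) ((L.map List.toFinset).getD (i + 1) ∅) := by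
    rw [MLs_om e s (MLs_nodup hL (i + 1)), MLs_getD]
  have h3 : wt e s f = ws e s f := rfl
  unfold accL
  rw [h1, h2, h3, MLs_getD, MLs_getD, MLs_getD]
  simp [Bool.and_eq_true]


theorem step_fin (k s : ℕ) (e : Ed) {S : List Ed} (hS : S.Nodup) {fl : List (List Ed)} (hfl : ∀ A ∈ fl, A.Nodup)
    (u1 u2 u3 : ℕ) : ∃ fl' : List (List Ed), stepL k s e S u1 u2 u3 (S :: fl) = S :: fl' ∧ (∀ A ∈ fl', A.Nodup) ∧
      fl'.map List.toFinset = mvE (ACY.tr Pool.Agent.TFP.rk k) (ws e s) S S.toFinset u1 u2 u3
        (fl.map List.toFinset) := by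
  have hSL : ∀ A ∈ S :: fl, A.Nodup := fun A hA => by
    rcases List.mem_cons.1 hA with h | h
    · rw [h]
      exact hS
    · exact hfl A h
  unfold mvE
  by_cases hu : u2 < S.length
  · have e1 : S[u2]? = some (S.getD u2 (0, (0, 0))) := by
      rw [List.getElem?_eq_getElem hu, List.getD_eq_getElem _ _ hu]
    rw [e1]
    simp only []
    rw [mv_eq]
    have e2 : (S.toFinset :: fl.map List.toFinset) = (S :: fl).map List.toFinset := rfl
    have e3 : u1 + 1 < (fl.map List.toFinset).length ↔ u1 + 2 < (S :: fl).length := by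
      rw [List.length_map, List.length_cons]
      omega
    rw [e2]
    have e4 := MLs_acc k s e hSL u1 (S.getD u2 (0, (0, 0))) u3
    rw [← e3] at e4
    by_cases hc : accL k s e (S :: fl) u1 (S.getD u2 (0, (0, 0))) u3 = true
    · refine ⟨fl.set u1 (newF k (S :: fl) u1 (S.getD u2 (0, (0, 0)))), ?_, ?_, ?_⟩
      · unfold stepL
        rw [hc, Bool.and_true, if_pos (decide_eq_true hu)]
        rfl
      · intro A hA
        rcases List.mem_or_eq_of_mem_set hA with h | h
        · exact hfl A h
        · rw [h]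
          exact (MLs_nodup hSL u1).filter _
      · rw [if_pos (e4.1 hc), List.map_set, MLs_new]
    · refine ⟨fl, ?_, hfl, ?_⟩
      · unfold stepL
        rw [Bool.not_eq_true] at hc
        rw [hc, Bool.and_false]
        rfl
      · rw [if_neg fun h => hc (e4.2 h)]
  · have e1 : S[u2]? = none := List.getElem?_eq_none (not_lt.1 hu)
    rw [e1]
    refine ⟨fl, ?_, hfl, rfl⟩
    unfold stepL
    rw [decide_eq_false hu, Bool.false_and]
    rfl


end ACY.M
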