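import Pool.Agent.ACY.MRk
import Pool.Agent.ACY.MLs
import Pool.Agent.ACY.GDefs

/-!
# ACY machine layer, Ini: the initial flag

Induction over the processed part of the ground set: the list is `F :: l` where `F` is a flat of `S` which contains all
processed elements, given as a sublist of `S`, and `l` is a complete flag below `F`.
-/

set_option autoImplicit false

namespace ACY.M

open Finset

open Pool.Agent.TFP (Ed)

/-- the invariant: `acc` is a complete flag whose first flat contains the processed elements `P` -/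
private def MIni_Inv (r : Finset Ed → ℕ) (S P : List Ed) (acc : List (List Ed)) : Prop :=
  ∃ (F : List Ed) (l : List (List Ed)), acc = F :: l ∧ F.Nodup ∧ F = S.filter (fun x => decide (x ∈ F)) ∧
    F.toFinset ∈ flats r S.toFinset ∧ (∀ A ∈ l, A.Nodup) ∧ Flg r (r F.toFinset) F.toFinset (l.map List.toFinset) ∧
    ∀ x ∈ P, x ∈ F

private theorem MIni_step (k : ℕ) {S P : List Ed} (hS : S.Nodup) {acc : List (List Ed)} {x : Ed} (hx : x ∈ S)
    (h : MIni_Inv (ACY.tr Pool.Agent.TFP.rk k) S P acc) :
    MIni_Inv (ACY.tr Pool.Agent.TFP.rk k) S (P ++ [x])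
      (if (acc.headD []).contains x then acc else clL k S (x :: acc.headD []) :: acc) := by
  have hr : RK (ACY.tr Pool.Agent.TFP.rk k) := RK.tr RK_rk k
  obtain ⟨F, l, rfl, hF, hFS, hfl, hl, hfg, hP⟩ := h
  show MIni_Inv _ S (P ++ [x]) (if F.contains x then F :: l else clL k S (x :: F) :: F :: l)
  by_cases hxF : x ∈ F
  · rw [if_pos (List.contains_iff_mem.2 hxF)]
    refine ⟨F, l, rfl, hF, hFS, hfl, hl, hfg, fun y hy => ?_⟩
    rcases List.mem_append.1 hy with h1 | h1
    · exact hP y h1
    · rw [List.mem_singleton.1 h1]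
      exact hxF
  · rw [if_neg fun h1 => hxF (List.contains_iff_mem.1 h1)]
    have hsub : F.toFinset ⊆ S.toFinset := (mem_flats.1 hfl).1
    have hins : insert x F.toFinset ⊆ S.toFinset :=
      insert_subset (List.mem_toFinset.2 hx) hsub
    have hcl : (clL k S (x :: F)).toFinset =
        cl (ACY.tr Pool.Agent.TFP.rk k) S.toFinset (insert x F.toFinset) := by
      rw [clL_fin, List.toFinset_cons]
    have hfl' : (clL k S (x :: F)).toFinset ∈ flats (ACY.tr Pool.Agent.TFP.rk k) S.toFinset := by
      rw [hcl]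
      exact cl_flat hr hins
    have hrk : ACY.tr Pool.Agent.TFP.rk k (clL k S (x :: F)).toFinset =
        ACY.tr Pool.Agent.TFP.rk k F.toFinset + 1 := by
      rw [hcl, r_cl hr hins]
      have h1 := hr.one F.toFinset x
      have h2 := (mem_flats.1 hfl).2 x (List.mem_toFinset.2 hx) fun h3 => hxF (List.mem_toFinset.1 h3)
      omega
    have hincl : insert x F.toFinset ⊆ (clL k S (x :: F)).toFinset := by
      rw [hcl]
      exact sub_cl hins
    have hlev : F.toFinset ∈ lev (ACY.tr Pool.Agent.TFP.rk k) (clL k S (x :: F)).toFinset 1 := by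
      rw [mem_lev, flats_restrict hr hfl', mem_filter]
      exact ⟨⟨hfl, (subset_insert _ _).trans hincl⟩, hrk.symm⟩
    refine ⟨clL k S (x :: F), F :: l, rfl, hS.filter _, ?_, hfl', ?_, ?_, fun y hy => ?_⟩
    · unfold clL
      refine List.filter_congr fun y hy => ?_
      rw [Bool.eq_iff_iff, decide_eq_true_iff, List.mem_filter]
      exact ⟨fun h1 => ⟨hy, h1⟩, fun h1 => h1.2⟩
    · intro A hA
      rcases List.mem_cons.1 hA with rfl | h1
      · exact hF
      · exact hl A h1
    · rw [hrk, List.map_cons]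
      exact ⟨hlev, hfg⟩
    · rw [← List.mem_toFinset]
      refine hincl ?_
      rw [mem_insert, List.mem_toFinset]
      rcases List.mem_append.1 hy with h1 | h1
      · exact Or.inr (hP y h1)
      · exact Or.inl (List.mem_singleton.1 h1)

private theorem MIni_fold (k : ℕ) {S : List Ed} (hS : S.Nodup) (Q : List Ed) :
    ∀ (P : List Ed) (acc : List (List Ed)), (∀ x ∈ Q, x ∈ S) →
      MIni_Inv (ACY.tr Pool.Agent.TFP.rk k) S P acc → MIni_Inv (ACY.tr Pool.Agent.TFP.rk k) S (P ++ Q)
        (Q.foldl (fun acc x => if (acc.headD []).contains x then acc else clL k S (x :: acc.headD []) :: acc) acc) := by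
  induction Q with
  | nil =>
    intro P acc _ h
    rw [List.append_nil]
    exact h
  | cons x Q ih =>
    intro P acc hQ h
    have h1 := ih (P ++ [x]) _ (fun y hy => hQ y (List.mem_cons_of_mem _ hy))
      (MIni_step k hS (hQ x List.mem_cons_self) h)
    rw [List.append_assoc, List.singleton_append] at h1
    exact h1

theorem ini_fin (k : ℕ) {S : List Ed} (hS : S.Nodup) (hl : ∀ x ∈ S, ACY.tr Pool.Agent.TFP.rk k {x} = 1) :
    ∃ fl : List (List Ed), iniL k S = S :: fl ∧ (∀ A ∈ fl, A.Nodup) ∧
      Flg (ACY.tr Pool.Agent.TFP.rk k) (ACY.tr Pool.Agent.TFP.rk k S.toFinset) S.toFinset (fl.map List.toFinset) := by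
  have hr : RK (ACY.tr Pool.Agent.TFP.rk k) := RK.tr RK_rk k
  have h0 : MIni_Inv (ACY.tr Pool.Agent.TFP.rk k) S [] [[]] := by
    refine ⟨[], [], rfl, List.nodup_nil, ?_, ?_, ?_, ?_, ?_⟩
    · symm
      rw [List.filter_eq_nil_iff]
      intro x _ h1
      exact List.not_mem_nil (decide_eq_true_iff.1 h1)
    · rw [mem_flats]
      refine ⟨?_, fun x hx _ => ?_⟩
      · rw [List.toFinset_nil]
        exact empty_subset _
      · rw [List.toFinset_nil, hr.empty, insert_empty, hl x (List.mem_toFinset.1 hx)]
        exact Nat.one_pos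
    · intro A hA
      exact absurd hA List.not_mem_nil
    · rw [List.toFinset_nil, hr.empty]
      rfl
    · intro x hx
      exact absurd hx List.not_mem_nil
  obtain ⟨F, l, h1, -, h3, -, h5, h6, h7⟩ := MIni_fold k hS S [] [[]] (fun x hx => hx) h0
  have h8 : F = S := by
    rw [h3, List.filter_eq_self]
    intro x hx
    exact decide_eq_true (h7 x hx)
  subst h8
  exact ⟨l, h1, h5, h6⟩

end ACY.M
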