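import Pool.Agent.ACY.MDefs
import Pool.Agent.ACY.Tr
import Pool.Agent.ACY.GrE

/-!
# ACY machine layer, Rk: the rank of a list of edges

`rkL_eq`: the multigraph with `N` vertices (`N` larger than all ends) and the edges `A.map Prod.snd`, the labels of `A` as labels:
`comps_add_mergers`, `comps_eq_card` and `rk_add_card`.
-/

set_option autoImplicit false

namespace ACY.M

open Finset

open Pool.Agent.TFP (Ed)

private theorem MRk_bound (A : List Ed) : ∃ N : ℕ, ∀ e ∈ A, e.2.1 < N ∧ e.2.2 < N := by
  induction A with
  | nil => exact ⟨0, fun e he => absurd he List.not_mem_nil⟩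
  | cons x A ih =>
    obtain ⟨N, hN⟩ := ih
    refine ⟨N + (x.2.1 + (x.2.2 + 1)), ?_⟩
    intro e he
    rcases List.mem_cons.mp he with h | h
    · subst h
      omega
    · have := hN e h
      omega

theorem rkL_eq (A : List Ed) : rkL A = Pool.Agent.TFP.rk A.toFinset := by
  obtain ⟨N, hN⟩ := MRk_bound A
  let G : Pool.Agent.Helper47.TR.MG := (List.replicate N true, A.map Prod.snd)
  have hG1 : G.1.length = N := List.length_replicate
  have hG2 : G.2 = A.map Prod.snd := rfl
  have hG : Pool.Agent.Helper47.TR.Valid G := by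
    intro e he
    rw [hG1]
    obtain ⟨x, hx, rfl⟩ := List.mem_map.mp he
    exact hN x hx
  have hl : G.2.length = A.length := List.length_map ..
  let lb : Fin G.2.length → ℕ := fun i => (A.get (Fin.cast hl i)).1
  have him : Pool.Agent.TFP.im G lb Finset.univ = A.toFinset := by
    ext x
    rw [Pool.Agent.TFP.im, mem_image, List.mem_toFinset]
    constructor
    · rintro ⟨i, -, rfl⟩
      have h1 : (lb i, G.2.get i) = A.get (Fin.cast hl i) := by
        refine Prod.ext rfl ?_
        change (A.map Prod.snd).get i = _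
        simp
      rw [h1]
      exact List.get_mem _ _
    · intro hx
      obtain ⟨i, rfl⟩ := List.get_of_mem hx
      refine ⟨Fin.cast hl.symm i, mem_univ _, ?_⟩
      refine Prod.ext rfl ?_
      change (A.map Prod.snd).get _ = _
      simp
  have h1 := Pool.Agent.Helper47.TR.comps_add_mergers hG
  have h2 := Pool.Agent.TFP.comps_eq_card hG lb Finset.univ
  have h3 := Pool.Agent.TFP.ends_im hG lb Finset.univ
  rw [him] at h2 h3
  have h4 := Pool.Agent.TFP.rk_add_card h3
  rw [card_range] at h4
  have h5 : (Pool.Agent.Helper47.TR.mergers G).length = rkL A := rfl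
  omega

theorem rkT_eq (k : ℕ) (A : List Ed) : rkT k A = ACY.tr Pool.Agent.TFP.rk k A.toFinset := by
  unfold rkT ACY.tr
  rw [rkL_eq]

end ACY.M
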