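import Pool.Agent.ACY.MLs
import Pool.Agent.ACY.MAv

/-!
# ACY machine layer, Run: the average over the random bits of `T` steps

PLAN. Induction on `T` (`Function.iterate_succ_apply'` or `Function.iterate_succ_apply`; generalise `fl`). `nb b c (T + 1) = (b + (b + c)) + nb b c T`, `av_take_drop`. One step: the bits of the step are `l.take b`, `(l.drop b).take b`, `(l.drop (b + b)).take c` of a list of `b + (b + c)` bits
(`av_take_drop` twice, `av_val`): the average is `(∑ U1 < 2^b, ∑ U2 < 2^b, ∑ U3 < 2^c, ..) / 2^(b + (b + c))`, which is `KK` for `U = Fin (2^b) × Fin (2^b) × Fin (2^c)` (`Fintype.sum_prod_type`, `Finset.sum_range`), by `step_fin`.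
-/

set_option autoImplicit false

namespace ACY.M

open Finset

open Pool.Agent.TFP (Ed)

private theorem MRun_av3 (b c : ℕ) (G : ℕ → ℕ → ℕ → ℝ) :
    av (b + (b + c)) (fun l => G (Pool.Agent.Helper6.WB.val (l.take b))
      (Pool.Agent.Helper6.WB.val ((l.drop b).take b))
      (Pool.Agent.Helper6.WB.val ((l.drop (b + b)).take c))) =
      (∑ u : Fin (2 ^ b) × Fin (2 ^ b) × Fin (2 ^ c), G u.1 u.2.1 u.2.2) /
        (Fintype.card (Fin (2 ^ b) × Fin (2 ^ b) × Fin (2 ^ c)) : ℝ) := by
  have h1 : av (b + (b + c)) (fun l => G (Pool.Agent.Helper6.WB.val (l.take b))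
      (Pool.Agent.Helper6.WB.val ((l.drop b).take b))
      (Pool.Agent.Helper6.WB.val ((l.drop (b + b)).take c))) =
      av b (fun l => av (b + c) (fun l' => G (Pool.Agent.Helper6.WB.val l)
        (Pool.Agent.Helper6.WB.val (l'.take b))
        (Pool.Agent.Helper6.WB.val ((l'.drop b).take c)))) := by
    rw [← av_take_drop b (b + c) (fun l l' => G (Pool.Agent.Helper6.WB.val l)
        (Pool.Agent.Helper6.WB.val (l'.take b))
        (Pool.Agent.Helper6.WB.val ((l'.drop b).take c)))]
    refine av_congr fun l _ => ?_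
    rw [List.drop_drop]
  have h2 : ∀ U1 : ℕ, av (b + c) (fun l' => G U1
        (Pool.Agent.Helper6.WB.val (l'.take b))
        (Pool.Agent.Helper6.WB.val ((l'.drop b).take c))) =
      av b (fun l => av c (fun l' => G U1 (Pool.Agent.Helper6.WB.val l)
        (Pool.Agent.Helper6.WB.val l'))) := by
    intro U1
    rw [← av_take_drop b c (fun l l' => G U1 (Pool.Agent.Helper6.WB.val l)
        (Pool.Agent.Helper6.WB.val l'))]
    refine av_congr fun l hl => ?_
    have h3 : (l.drop b).take c = l.drop b := by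
      refine List.take_of_length_le ?_
      rw [List.length_drop, hl]
      omega
    rw [h3]
  have h4 : ∀ U1 U2 : ℕ, av c (fun l' => G U1 U2 (Pool.Agent.Helper6.WB.val l')) =
      (∑ U3 ∈ range (2 ^ c), G U1 U2 U3) / 2 ^ c := fun U1 U2 => av_val c (G U1 U2)
  rw [h1]
  simp only [h2, h4]
  have h5 : ∀ U1 : ℕ, av b (fun l => (∑ U3 ∈ range (2 ^ c), G U1 (Pool.Agent.Helper6.WB.val l) U3) / 2 ^ c) =
      (∑ U2 ∈ range (2 ^ b), (∑ U3 ∈ range (2 ^ c), G U1 U2 U3) / 2 ^ c) / 2 ^ b :=
    fun U1 => av_val b (fun U2 => (∑ U3 ∈ range (2 ^ c), G U1 U2 U3) / 2 ^ c)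
  simp only [h5]
  have h6 : av b (fun l => (∑ U2 ∈ range (2 ^ b),
      (∑ U3 ∈ range (2 ^ c), G (Pool.Agent.Helper6.WB.val l) U2 U3) / 2 ^ c) / 2 ^ b) =
      (∑ U1 ∈ range (2 ^ b), (∑ U2 ∈ range (2 ^ b),
      (∑ U3 ∈ range (2 ^ c), G U1 U2 U3) / 2 ^ c) / 2 ^ b) / 2 ^ b :=
    av_val b (fun U1 => (∑ U2 ∈ range (2 ^ b), (∑ U3 ∈ range (2 ^ c), G U1 U2 U3) / 2 ^ c) / 2 ^ b)
  rw [h6]
  rw [Fintype.sum_prod_type]
  simp only [Fintype.sum_prod_type]
  rw [Fintype.card_prod, Fintype.card_prod, Fintype.card_fin, Fintype.card_fin]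
  rw [Finset.sum_range]
  simp only [Finset.sum_range, ← Finset.sum_div]
  push_cast
  rw [div_div, div_div]
  congr 1
  ring

theorem av_run (k s b c T : ℕ) (e : Ed) {S : List Ed} (hS : S.Nodup) {fl : List (List Ed)} (hfl : ∀ A ∈ fl, A.Nodup)
    (f : List (Finset Ed) → ℝ) :
    av (nb b c T) (fun l => f ((runL k s e S b c T l (S :: fl)).tail.map List.toFinset)) =
      (KK (stp (ACY.tr Pool.Agent.TFP.rk k) (ws e s) S S.toFinset (2 ^ b) (2 ^ b) (2 ^ c)))^[T] f
        (fl.map List.toFinset) := by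
  induction T generalizing fl with
  | zero =>
    have h0 : nb b c 0 = 0 := by
      unfold nb
      exact Nat.zero_mul _
    rw [h0]
    rfl
  | succ T ih =>
    have h0 : nb b c (T + 1) = (b + (b + c)) + nb b c T := by
      unfold nb
      ring
    rw [h0, Function.iterate_succ_apply']
    have h1 : av ((b + (b + c)) + nb b c T)
        (fun l => f ((runL k s e S b c (T + 1) l (S :: fl)).tail.map List.toFinset)) =
        av (b + (b + c)) (fun l => av (nb b c T) (fun l' => f ((runL k s e S b c T l'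
          (stepL k s e S (Pool.Agent.Helper6.WB.val (l.take b)) (Pool.Agent.Helper6.WB.val ((l.drop b).take b))
            (Pool.Agent.Helper6.WB.val ((l.drop (b + b)).take c)) (S :: fl))).tail.map List.toFinset))) := by
      rw [← av_take_drop (b + (b + c)) (nb b c T) (fun l l' => f ((runL k s e S b c T l'
          (stepL k s e S (Pool.Agent.Helper6.WB.val (l.take b)) (Pool.Agent.Helper6.WB.val ((l.drop b).take b))
            (Pool.Agent.Helper6.WB.val ((l.drop (b + b)).take c)) (S :: fl))).tail.map List.toFinset))]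
      refine av_congr fun l _ => ?_
      have e1 : (l.take (b + (b + c))).take b = l.take b := by
        rw [List.take_take, Nat.min_eq_left (by omega)]
      have e2 : ((l.take (b + (b + c))).drop b).take b = (l.drop b).take b := by
        rw [List.drop_take, List.take_take, Nat.min_eq_left (by omega)]
      have e3 : ((l.take (b + (b + c))).drop (b + b)).take c = (l.drop (b + b)).take c := by
        rw [List.drop_take, List.take_take, Nat.min_eq_left (by omega)]
      rw [e1, e2, e3]
      rfl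
    rw [h1]
    have h2 : ∀ u1 u2 u3 : ℕ, av (nb b c T) (fun l' => f ((runL k s e S b c T l'
          (stepL k s e S u1 u2 u3 (S :: fl))).tail.map List.toFinset)) =
        (KK (stp (ACY.tr Pool.Agent.TFP.rk k) (ws e s) S S.toFinset (2 ^ b) (2 ^ b) (2 ^ c)))^[T] f
        (mvE (ACY.tr Pool.Agent.TFP.rk k) (ws e s) S S.toFinset u1 u2 u3 (fl.map List.toFinset)) := by
      intro u1 u2 u3
      obtain ⟨fl', e1, e2, e3⟩ := step_fin k s e hS hfl u1 u2 u3
      rw [e1, ih e2, e3]
    simp only [h2]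
    rw [MRun_av3 b c (fun u1 u2 u3 =>
      (KK (stp (ACY.tr Pool.Agent.TFP.rk k) (ws e s) S S.toFinset (2 ^ b) (2 ^ b) (2 ^ c)))^[T] f
        (mvE (ACY.tr Pool.Agent.TFP.rk k) (ws e s) S S.toFinset u1 u2 u3 (fl.map List.toFinset)))]
    rfl

end ACY.M
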