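import Pool.Agent.ACY.MRun
import Pool.Agent.ACY.MIni
import Pool.Agent.ACY.GNu

/-!
# ACY machine layer, Tr: the mean of a trial

The run keeps the first entry `S` of the flag, so a trial is the value of the observable `obs e` on the flag below `S`; its average over the random bits is given by
`av_run` and `st_iter`, and estimated by `flag_num`.
-/

set_option autoImplicit false

namespace ACY.M

open Finset

open Pool.Agent.TFP (Ed)

private theorem MTr_head (k s b c : ℕ) (e : Ed) {S : List Ed} (hS : S.Nodup) (T : ℕ) :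
    ∀ (l : List Bool) (fl : List (List Ed)), (∀ A ∈ fl, A.Nodup) →
      ∃ fl' : List (List Ed), runL k s e S b c T l (S :: fl) = S :: fl' := by
  induction T with
  | zero =>
    intro l fl _
    exact ⟨fl, rfl⟩
  | succ T ih =>
    intro l fl hfl
    obtain ⟨fl', h1, h2, _⟩ := step_fin k s e hS hfl (Pool.Agent.Helper6.WB.val (l.take b))
      (Pool.Agent.Helper6.WB.val ((l.drop b).take b)) (Pool.Agent.Helper6.WB.val ((l.drop (b + b)).take c))
    have h3 : runL k s e S b c (T + 1) l (S :: fl) = runL k s e S b c T (l.drop (b + (b + c)))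
      (stepL k s e S (Pool.Agent.Helper6.WB.val (l.take b)) (Pool.Agent.Helper6.WB.val ((l.drop b).take b))
        (Pool.Agent.Helper6.WB.val ((l.drop (b + b)).take c)) (S :: fl)) := rfl
    rw [h3, h1]
    exact ih _ fl' h2

private theorem MTr_single (e : Ed) (A : List Ed) :
    (!A.isEmpty && A.all fun x => x == e) = true ↔ A.toFinset = {e} := by
  rw [Bool.and_eq_true, List.all_eq_true]
  constructor
  · rintro ⟨h1, h2⟩
    have h3 : A ≠ [] := by
      rintro rfl
      simp at h1
    obtain ⟨x, hx⟩ := List.exists_mem_of_ne_nil A h3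
    ext y
    rw [List.mem_toFinset, mem_singleton]
    constructor
    · intro hy
      exact beq_iff_eq.1 (h2 y hy)
    · intro hy
      have h4 : x = e := beq_iff_eq.1 (h2 x hx)
      rw [hy, ← h4]
      exact hx
  · intro h
    have he : e ∈ A := by
      rw [← List.mem_toFinset, h]
      exact mem_singleton_self e
    constructor
    · cases A with
      | nil => exact absurd he List.not_mem_nil
      | cons a A => rfl
    · intro x hx
      rw [← List.mem_toFinset, h, mem_singleton] at hx
      exact beq_iff_eq.2 hx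

private theorem MTr_obs (e : Ed) (fl : List (List Ed)) :
    obsL e fl = true ↔ ({e} : Finset Ed) ∉ fl.map List.toFinset := by
  unfold obsL
  rw [Bool.not_eq_true', ← Bool.not_eq_true, List.any_eq_true, List.mem_map]
  refine not_congr ?_
  constructor
  · rintro ⟨A, hA, h⟩
    exact ⟨A, hA, (MTr_single e A).1 h⟩
  · rintro ⟨A, hA, h⟩
    exact ⟨A, hA, (MTr_single e A).2 h⟩

theorem av_trial {k s t T D : ℕ} {e : Ed} {S : List Ed} (hk : 1 ≤ k) (hS : S.Nodup)
    (hl : ∀ x ∈ S, Pool.Agent.TFP.rk {x} = 1) (he : e ∈ S)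
    (h2 : ACY.tr Pool.Agent.TFP.rk k (S.toFinset.erase e) = ACY.tr Pool.Agent.TFP.rk k S.toFinset)
    (hSt : S.length ≤ t) (hs : t ≤ s) (hD : 1 ≤ D)
    (hT : 768 * s ^ 5 * t ^ 8 * (2 * D + s * t ^ 2 + t) ≤ T) :
    |av (nb (Nat.size t) (cb s t) T) (fun l => (trial k s (Nat.size t) (cb s t) T e S l : ℝ)) -
      ACY.T (ACY.tr Pool.Agent.TFP.rk k) (S.toFinset.erase e) / ACY.T (ACY.tr Pool.Agent.TFP.rk k) S.toFinset| ≤
      1 / D + 2 * t / s := by
  have hr : RK (ACY.tr Pool.Agent.TFP.rk k) := RK_rk.tr k
  have hl' : ∀ x ∈ S, ACY.tr Pool.Agent.TFP.rk k {x} = 1 := fun x hx => tr_sing hk (hl x hx)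
  have hlf : ∀ x ∈ S.toFinset, ACY.tr Pool.Agent.TFP.rk k {x} = 1 := fun x hx => hl' x (List.mem_toFinset.1 hx)
  have hef : e ∈ S.toFinset := List.mem_toFinset.2 he
  have hn1 : 1 ≤ ACY.tr Pool.Agent.TFP.rk k S.toFinset := by
    rw [← hl' e he]
    exact hr.mono _ _ (singleton_subset_iff.2 hef)
  have hcard : S.toFinset.card = S.length := List.toFinset_card_of_nodup hS
  have hlen : 1 ≤ S.length := List.length_pos_of_mem he
  have ht1 : 1 ≤ t := hlen.trans hSt
  have hs1 : 1 ≤ s := ht1.trans hs
  have hG : Gd (ACY.tr Pool.Agent.TFP.rk k) (ws e s) S.toFinset := ⟨hr, hlf, fun x _ => by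
    unfold ws
    split_ifs
    · exact Nat.one_pos
    · exact hs1⟩
  have hne : ({e} : Finset Ed) ≠ S.toFinset := by
    intro h
    rw [← h, Finset.erase_singleton, hr.empty] at h2
    rw [← h] at hn1
    omega
  obtain ⟨fl, hini, hnd, hflg⟩ := ini_fin k hS hl'
  -- the trial is the observable
  have htr : ∀ l : List Bool, (trial k s (Nat.size t) (cb s t) T e S l : ℝ) =
      obs e ((runL k s e S (Nat.size t) (cb s t) T l (S :: fl)).tail.map List.toFinset) := by
    intro l
    obtain ⟨fl', h1⟩ := MTr_head k s (Nat.size t) (cb s t) e hS T l fl hnd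
    unfold trial
    rw [hini, h1, List.tail_cons]
    unfold obs
    have h3 : obsL e (S :: fl') = true ↔ ({e} : Finset Ed) ∉ fl'.map List.toFinset := by
      rw [MTr_obs, List.map_cons, List.mem_cons]
      refine not_congr ?_
      constructor
      · rintro (h | h)
        · exact absurd h hne
        · exact h
      · intro h
        exact Or.inr h
    by_cases h4 : ({e} : Finset Ed) ∈ fl'.map List.toFinset
    · rw [if_pos h4, if_neg (fun h => (h3.1 h) h4), Nat.cast_zero]
    · rw [if_neg h4, if_pos (h3.2 h4), Nat.cast_one]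
  have hav : av (nb (Nat.size t) (cb s t) T) (fun l => (trial k s (Nat.size t) (cb s t) T e S l : ℝ)) =
      (KK (stp (ACY.tr Pool.Agent.TFP.rk k) (ws e s) S S.toFinset (2 ^ Nat.size t) (2 ^ Nat.size t)
        (2 ^ cb s t)))^[T] (obs e) (fl.map List.toFinset) := by
    rw [← av_run k s (Nat.size t) (cb s t) T e hS hnd (obs e)]
    exact av_congr fun l _ => htr l
  -- the averaged step on full flags
  have hsz : t < 2 ^ Nat.size t := Nat.lt_size_self t
  have hom : om (ws e s) S.toFinset ≤ s * t := by
    unfold om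
    calc ∑ x ∈ S.toFinset, ws e s x ≤ ∑ _x ∈ S.toFinset, s := by
          refine sum_le_sum fun x _ => ?_
          unfold ws
          split_ifs
          · exact hs1
          · exact le_rfl
      _ = S.toFinset.card * s := by rw [sum_const, smul_eq_mul]
      _ ≤ s * t := by
          rw [hcard, mul_comm]
          exact Nat.mul_le_mul_left s hSt
  have hA : ∀ g ∈ S.toFinset, ws e s g * (om (ws e s) S.toFinset * om (ws e s) S.toFinset) ≤
      s * (s * t) * (s * t) := by
    intro g _
    have h1 : ws e s g ≤ s := by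
      unfold ws
      split_ifs
      · exact hs1
      · exact le_rfl
    calc ws e s g * (om (ws e s) S.toFinset * om (ws e s) S.toFinset) ≤ s * ((s * t) * (s * t)) :=
          Nat.mul_le_mul h1 (Nat.mul_le_mul hom hom)
      _ = s * (s * t) * (s * t) := by ring
  have hN2 : s * (s * t) * (s * t) ≤ 2 ^ cb s t := by
    have h1 : 2 * (s * (s * t) * (s * t)) < 2 ^ cb s t := Nat.lt_size_self _
    omega
  have hnt : ACY.tr Pool.Agent.TFP.rk k S.toFinset ≤ 2 ^ Nat.size t := by
    have h1 := hr.le_card S.toFinset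
    rw [hcard] at h1
    omega
  have hf : ∀ l, Flg (ACY.tr Pool.Agent.TFP.rk k) (ACY.tr Pool.Agent.TFP.rk k S.toFinset) S.toFinset l →
      obs e (S.toFinset :: l) = obs e l := by
    intro l _
    unfold obs
    have h3 : ({e} ∈ S.toFinset :: l) ↔ ({e} ∈ l) := by
      rw [List.mem_cons]
      constructor
      · rintro (h | h)
        · exact absurd h hne
        · exact h
      · intro h
        exact Or.inr h
    simp only [h3]
  have hit := st_iter (N0 := 2 ^ Nat.size t) (N1 := 2 ^ Nat.size t) (N2 := 2 ^ cb s t) hG hS rfl hnt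
    (by positivity) (by omega) (by positivity) hN2 (by positivity) hA hflg (obs e) (obs e) hf T
  have hk' : (1 / (((2 ^ Nat.size t : ℕ) : ℝ) * (((2 ^ Nat.size t : ℕ) : ℝ) * ((2 ^ cb s t : ℕ) : ℝ)))) =
      1 / 2 ^ (Nat.size t + (Nat.size t + Nat.size (2 * (s * (s * t) * (s * t))))) := by
    unfold cb
    push_cast
    rw [pow_add, pow_add]
  rw [hk'] at hit
  rw [hav, ← hit]
  exact flag_num hr hlf rfl hn1 hef h2 (by rw [hcard]; exact hSt) hs hD hT hflg

end ACY.M
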