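import Pool.Agent.ACY.St
import Pool.Agent.ACY.Li
import Pool.Agent.ACY.Kp
import Pool.Agent.ACY.Ci
import Pool.Agent.ACY.Lo
import Pool.Agent.ACY.Co

/-!
# ACY-Main: the index theorem and inequality (III)

-/

set_option autoImplicit false

namespace ACY

open Finset

variable {α : Type} [DecidableEq α] {r : Finset α → ℕ} {S A B C D F G W X Z : Finset α} {e f x : α} {k j : ℕ}

/-- the index theorem -/
theorem index (hr : RK r) (he : e ∈ S) (v g : Finset α → ℝ) (hL : L r S e v g = 0) : Q r S e v g ≤ 0 := by
  induction hn : S.card generalizing r S v g with
  | zero =>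
    rw [card_eq_zero] at hn
    rw [hn] at he
    exact absurd he (notMem_empty _)
  | succ n ih =>
    by_cases hl : ∀ x ∈ S, r {x} = 1
    · by_cases hco : r (S.erase e) < r S
      · exact coloop hr hl he hco v g hL
      · have hco' : r (S.erase e) = r S := le_antisymm (hr.mono _ _ (erase_subset _ _)) (not_lt.mp hco)
        obtain ⟨C, hC, f, hfC, heC, hfe, hc, hC'⟩ := circuit hr he (hl e he) hco'
        have hf : f ∈ S := hC hfC
        have h2 : r (S.erase f) = r S := by
          refine le_antisymm (hr.mono _ _ (erase_subset _ _)) ?_
          have h3 : r (insert f (C.erase f)) = r (C.erase f) := by rw [insert_erase hfC, hC' f hfC]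
          have h4 := hr.cl_mono (erase_subset_erase f hC) h3
          rw [insert_erase hf] at h4
          exact h4.le
        have hcard : (S.erase f).card = n := by rw [card_erase_of_mem hf, hn]; rfl
        have heA : e ∈ S.erase f := mem_erase.mpr ⟨hfe.symm, he⟩
        by_cases hB : ∀ x ∈ S.erase f, con r {f} {x} = 1
        · have hk := kap_pos hr hf he hfe.symm hB hC heC hfC hc hC'
          set l0 := L r (S.erase f) e (vA r e f 0 v) (gA r f 0 g) with hl0
          set t : ℝ := - l0 / kap r S e f with ht
          have h5 := kap_eq hr he hf hfe.symm (hl f hf) h2 v g t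
          have h6 : L r (S.erase f) e (vA r e f t v) (gA r f t g) = 0 := by
            rw [h5, ht]
            field_simp
            ring
          have h7 := lid hr he hf hfe.symm (hl f hf) h2 v g t
          rw [h6, hL, zero_add] at h7
          have h8 := step hr he hf hfe.symm (hl f hf) h2 v g t
          have h9 := ih hr heA _ _ h6 hcard
          have h10 := ih (hr.con {f}) heA _ _ h7 hcard
          linarith
        · push_neg at hB
          obtain ⟨x, hx, hx1⟩ := hB
          have hx0 : con r {f} {x} = 0 := by
            rcases (hr.con {f}).sing x with h | h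
            · exact h
            · exact absurd h hx1
          have h7 := lid hr he hf hfe.symm (hl f hf) h2 v g 0
          rw [loopL (hr.con {f}) hx hx0, hL, add_zero] at h7
          have h8 := step hr he hf hfe.symm (hl f hf) h2 v g 0
          rw [loopQ (hr.con {f}) hx hx0, add_zero] at h8
          exact h8.trans (ih hr heA _ _ h7 hcard)
    · push_neg at hl
      obtain ⟨x, hx, hx1⟩ := hl
      have hx0 : r {x} = 0 := by
        rcases hr.sing x with h | h
        · exact h
        · exact absurd h hx1
      rw [loopQ hr hx hx0]

end ACY
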