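import Pool.Agent.ACY.Re
import Pool.Agent.ACY.Tp

/-!
# ACY-StB: the second part of the quadratic form under deletion and contraction

Both sides are written as sums over the hyperplanes `Z ∋ e`; the summands are compared for `f ∉ Z`, for `f ∈ Z` not a
coloop of `Z`, and for `f` a coloop of `Z` (then `f` is a coloop of every `W` which occurs).
-/

set_option autoImplicit false

namespace ACY

open Finset

variable {α : Type} [DecidableEq α] {r : Finset α → ℕ} {S A B C D F G W X Z : Finset α} {e f x : α} {k j : ℕ}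

private theorem StB_and {ι : Type*} (s : Finset ι) (p q : ι → Prop) [DecidablePred p] [DecidablePred q]
    (φ : ι → ℝ) : ∑ x ∈ s.filter (fun x => p x ∧ q x), φ x = ∑ x ∈ s.filter p, if q x then φ x else 0 := by
  rw [← Finset.filter_filter, Finset.sum_filter (p := q)]

private theorem StB_lin {ι : Type*} (s : Finset ι) (a b : ι → ℝ) (c d : ℝ) :
    ∑ x ∈ s, (a x - c * (b x * d)) = (∑ x ∈ s, a x) - c * ((∑ x ∈ s, b x) * d) := by
  rw [Finset.sum_sub_distrib, Finset.sum_mul, Finset.mul_sum]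

private theorem StB_del (hr : RK r) (hf : f ∈ S) (hef : e ≠ f) (h2 : r (S.erase f) = r S) (u : Finset α → ℝ) :
    Qb r (S.erase f) e u = ∑ Z ∈ (lev r S 1).filter (fun Z => e ∈ Z), (if ¬ Col r f Z then
      ((∑ W ∈ (lev r S 2).filter (fun W => e ∉ W ∧ W ⊆ Z), if ¬ Col r f W then
        2 * T r (W.erase f) * u (W.erase f) * u (Z.erase f) else 0) - T r (Z.erase f) * u (Z.erase f) ^ 2)
      else 0) := by
  unfold Qb
  rw [sum_del hr hf h2 1 (fun Z => e ∈ Z), ← StB_and]
  have hset : (lev r S 1).filter (fun F => ¬ Col r f F ∧ e ∈ F.erase f) =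
      (lev r S 1).filter (fun F => e ∈ F ∧ ¬ Col r f F) := by
    refine Finset.filter_congr fun F _ => ?_
    rw [Finset.mem_erase]
    tauto
  rw [hset]
  refine Finset.sum_congr rfl fun Z hZ => ?_
  rw [Finset.mem_filter, mem_lev] at hZ
  rw [sum_del hr hf h2 2 (fun W => e ∉ W ∧ W ⊆ Z.erase f), ← StB_and]
  have hset2 : (lev r S 2).filter (fun F => ¬ Col r f F ∧ e ∉ F.erase f ∧ F.erase f ⊆ Z.erase f) =
      (lev r S 2).filter (fun F => (e ∉ F ∧ F ⊆ Z) ∧ ¬ Col r f F) := by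
    refine Finset.filter_congr fun F hF => ?_
    rw [mem_lev] at hF
    rw [Finset.mem_erase]
    constructor
    · rintro ⟨a, b, c⟩
      exact ⟨⟨fun h => b ⟨hef, h⟩, (sub_del hr hF.1 hZ.1.1 a).1 c⟩, a⟩
    · rintro ⟨⟨a, b⟩, c⟩
      exact ⟨c, fun h => a h.2, (sub_del hr hF.1 hZ.1.1 c).2 b⟩
  rw [hset2]

private theorem StB_con (hr : RK r) (hf : f ∈ S) (hef : e ≠ f) (h1 : r {f} = 1) (u : Finset α → ℝ) :
    Qb (con r {f}) (S.erase f) e u = ∑ Z ∈ (lev r S 1).filter (fun Z => e ∈ Z), (if f ∈ Z then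
      ((∑ W ∈ (lev r S 2).filter (fun W => e ∉ W ∧ W ⊆ Z), if f ∈ W then
        2 * T (con r {f}) (W.erase f) * u (W.erase f) * u (Z.erase f) else 0) -
          T (con r {f}) (Z.erase f) * u (Z.erase f) ^ 2)
      else 0) := by
  unfold Qb
  rw [sum_con hr hf h1 1 (fun Z => e ∈ Z), ← StB_and]
  have hset : (lev r S 1).filter (fun F => f ∈ F ∧ e ∈ F.erase f) =
      (lev r S 1).filter (fun F => e ∈ F ∧ f ∈ F) := by
    refine Finset.filter_congr fun F _ => ?_
    rw [Finset.mem_erase]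
    tauto
  rw [hset]
  refine Finset.sum_congr rfl fun Z hZ => ?_
  rw [Finset.mem_filter] at hZ
  rw [sum_con hr hf h1 2 (fun W => e ∉ W ∧ W ⊆ Z.erase f), ← StB_and]
  have hset2 : (lev r S 2).filter (fun F => f ∈ F ∧ e ∉ F.erase f ∧ F.erase f ⊆ Z.erase f) =
      (lev r S 2).filter (fun F => (e ∉ F ∧ F ⊆ Z) ∧ f ∈ F) := by
    refine Finset.filter_congr fun F _ => ?_
    rw [Finset.mem_erase]
    constructor
    · rintro ⟨a, b, c⟩
      exact ⟨⟨fun h => b ⟨hef, h⟩, (sub_con a hZ.2.2).1 c⟩, a⟩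
    · rintro ⟨⟨a, b⟩, c⟩
      exact ⟨c, fun h => a h.2, (sub_con c hZ.2.2).2 b⟩
  rw [hset2]

private theorem StB_swap (v : Finset α → ℝ) (t : ℝ) :
    2 * t * ∑ W ∈ (lev r S 2).filter (fun W => e ∉ W ∧ f ∉ W),
        ∑ _Z ∈ (lev r S 1).filter (fun Z => f ∉ Z ∧ e ∈ Z ∧ W ⊆ Z), T r W * v W =
      ∑ Z ∈ (lev r S 1).filter (fun Z => e ∈ Z), (if f ∉ Z then
        2 * t * ∑ W ∈ (lev r S 2).filter (fun W => e ∉ W ∧ W ⊆ Z), T r W * v W else 0) := by
  have h1 : ∑ W ∈ (lev r S 2).filter (fun W => e ∉ W ∧ f ∉ W),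
        ∑ _Z ∈ (lev r S 1).filter (fun Z => f ∉ Z ∧ e ∈ Z ∧ W ⊆ Z), T r W * v W =
      ∑ Z ∈ (lev r S 1).filter (fun Z => e ∈ Z ∧ f ∉ Z),
        ∑ W ∈ (lev r S 2).filter (fun W => e ∉ W ∧ W ⊆ Z), T r W * v W := by
    refine Finset.sum_comm' fun W Z => ?_
    simp only [Finset.mem_filter]
    constructor
    · rintro ⟨⟨a, b, c⟩, d, g, h, k⟩
      exact ⟨⟨a, b, k⟩, d, h, g⟩
    · rintro ⟨⟨a, b, k⟩, d, h, g⟩
      exact ⟨⟨a, b, fun h' => g (k h')⟩, d, g, h, k⟩
  rw [h1, StB_and, Finset.mul_sum]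
  refine Finset.sum_congr rfl fun Z _ => ?_
  by_cases h : f ∈ Z
  · rw [if_neg (not_not.2 h), if_neg (not_not.2 h), mul_zero]
  · rw [if_pos h, if_pos h]

private theorem StB_vN (hF : F ∈ flats r S) (hf : f ∈ S) (hfF : f ∉ F) (v : Finset α → ℝ) (t : ℝ) :
    vA r e f t v (F.erase f) = v F + (if e ∈ F then t else 0) := by
  rw [Finset.erase_eq_of_notMem hfF]
  unfold vA
  rw [if_neg]
  have := (mem_flats.1 hF).2 f hf hfF
  omega

private theorem StB_vP (hfF : f ∈ F) (hef : e ≠ f) (h : r (F.erase f) = r F) (v : Finset α → ℝ) (t : ℝ) :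
    vA r e f t v (F.erase f) = v F - (if e ∈ F then 0 else t) := by
  unfold vA
  rw [Finset.insert_erase hfF, if_pos h.symm]
  congr 1
  have : e ∈ F.erase f ↔ e ∈ F := by
    rw [Finset.mem_erase]
    tauto
  simp only [this]

private theorem StB_vB (hfF : f ∈ F) (hef : e ≠ f) (v : Finset α → ℝ) (t : ℝ) :
    vB e f t v (F.erase f) = v F - (if e ∈ F then 0 else t) := by
  unfold vB
  rw [Finset.insert_erase hfF]
  congr 1
  have : e ∈ F.erase f ↔ e ∈ F := by
    rw [Finset.mem_erase]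
    tauto
  simp only [this]

theorem stepB (hr : RK r) (he : e ∈ S) (hf : f ∈ S) (hef : e ≠ f) (h1 : r {f} = 1) (h2 : r (S.erase f) = r S)
    (v : Finset α → ℝ) (t : ℝ) :
    Qb r (S.erase f) e (vA r e f t v) + Qb (con r {f}) (S.erase f) e (vB e f t v) =
      Qb r S e v + 2 * t * ∑ W ∈ (lev r S 2).filter (fun W => e ∉ W ∧ f ∉ W),
        ∑ _Z ∈ (lev r S 1).filter (fun Z => f ∉ Z ∧ e ∈ Z ∧ W ⊆ Z), T r W * v W -
      2 * t * ∑ Z ∈ (lev r S 1).filter (fun Z => e ∈ Z ∧ f ∈ Z),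
        (∑ W ∈ (lev r S 2).filter (fun W => (e ∉ W ∧ f ∈ W) ∧ W ⊆ Z), T r W) * v Z -
      ∑ Z ∈ (lev r S 1).filter (fun Z => e ∈ Z ∧ f ∉ Z), T r Z * (2 * t * v Z + t ^ 2) := by
  rw [StB_del hr hf hef h2, StB_con hr hf hef h1, StB_swap]
  have h3 : 2 * t * ∑ Z ∈ (lev r S 1).filter (fun Z => e ∈ Z ∧ f ∈ Z),
        (∑ W ∈ (lev r S 2).filter (fun W => (e ∉ W ∧ f ∈ W) ∧ W ⊆ Z), T r W) * v Z =
      ∑ Z ∈ (lev r S 1).filter (fun Z => e ∈ Z), (if f ∈ Z then 2 * t *
        ((∑ W ∈ (lev r S 2).filter (fun W => e ∉ W ∧ W ⊆ Z), if f ∈ W then T r W else 0) * v Z) else 0) := by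
    rw [StB_and, Finset.mul_sum]
    refine Finset.sum_congr rfl fun Z _ => ?_
    split_ifs with h
    · congr 2
      rw [← StB_and]
      refine Finset.sum_congr (Finset.filter_congr fun W _ => ?_) fun _ _ => rfl
      tauto
    · rw [mul_zero]
  have h4 : ∑ Z ∈ (lev r S 1).filter (fun Z => e ∈ Z ∧ f ∉ Z), T r Z * (2 * t * v Z + t ^ 2) =
      ∑ Z ∈ (lev r S 1).filter (fun Z => e ∈ Z), (if f ∉ Z then T r Z * (2 * t * v Z + t ^ 2) else 0) :=
    StB_and _ _ _ _
  rw [h3, h4]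
  unfold Qb
  rw [← Finset.sum_add_distrib, ← Finset.sum_add_distrib, ← Finset.sum_sub_distrib, ← Finset.sum_sub_distrib]
  refine Finset.sum_congr rfl fun Z hZ => ?_
  rw [Finset.mem_filter, mem_lev] at hZ
  obtain ⟨⟨hZf, hZr⟩, heZ⟩ := hZ
  by_cases hfZ : f ∈ Z
  · by_cases hc : Col r f Z
    · -- type Q
      have hlt : r (Z.erase f) < r Z := hc.2
      have hTZ : T (con r {f}) (Z.erase f) = T r Z := (T_col hr hfZ hlt).1.symm
      rw [if_neg (not_not.2 hc), if_pos hfZ, if_neg (not_not.2 hfZ), if_pos hfZ, if_neg (not_not.2 hfZ),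
        StB_vB hfZ hef, if_pos heZ, hTZ]
      have hW : ∀ W ∈ (lev r S 2).filter (fun W => e ∉ W ∧ W ⊆ Z), f ∈ W ∧ r (W.erase f) < r W := by
        intro W hW
        rw [Finset.mem_filter, mem_lev] at hW
        obtain ⟨⟨hWf, hWr⟩, heW, hWZ⟩ := hW
        have hfW : f ∈ W := by
          by_contra hfW
          have hsub : W ⊆ Z.erase f := Finset.subset_erase.2 ⟨hWZ, hfW⟩
          have hi := hr.ins (Z.erase f) f
          rw [Finset.insert_erase hfZ] at hi
          have hE : W = Z.erase f := by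
            refine flat_eq hr hWf ((Finset.erase_subset _ _).trans (mem_flats.1 hZf).1) hsub ?_
            omega
          exact heW (by rw [hE]; exact Finset.mem_erase.2 ⟨hef, heZ⟩)
        refine ⟨hfW, ?_⟩
        have hi := hr.ins (W.erase f) f
        rw [Finset.insert_erase hfW] at hi
        rcases hi with hi | hi
        · exfalso
          have h5 := hr.cl_mono (x := f) (A := W.erase f) (B := Z.erase f) (Finset.erase_subset_erase f hWZ)
            (by rw [Finset.insert_erase hfW]; exact hi)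
          rw [Finset.insert_erase hfZ] at h5
          omega
        · omega
      have hs1 : (∑ W ∈ (lev r S 2).filter (fun W => e ∉ W ∧ W ⊆ Z), if f ∈ W then
          2 * T (con r {f}) (W.erase f) * vB e f t v (W.erase f) * (v Z - 0) else 0) =
          ∑ W ∈ (lev r S 2).filter (fun W => e ∉ W ∧ W ⊆ Z), (2 * T r W * v W * v Z -
            2 * t * ((if f ∈ W then T r W else 0) * v Z)) := by
        refine Finset.sum_congr rfl fun W hW' => ?_
        obtain ⟨a, b⟩ := hW W hW'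
        have heW : e ∉ W := (Finset.mem_filter.1 hW').2.1
        rw [if_pos a, if_pos a, StB_vB a hef, if_neg heW, ← (T_col hr a b).1]
        ring
      rw [hs1, StB_lin]
      ring
    · -- type P
      have hrZ : r (Z.erase f) = r Z := r_erase hc hr
      have hTZ : T r Z = T r (Z.erase f) + T (con r {f}) (Z.erase f) := T_del hr hfZ h1 hrZ
      rw [if_pos hc, if_pos hfZ, if_neg (not_not.2 hfZ), if_pos hfZ, if_neg (not_not.2 hfZ),
        StB_vB hfZ hef, StB_vP hfZ hef hrZ, if_pos heZ, hTZ]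
      have hs1 : (∑ W ∈ (lev r S 2).filter (fun W => e ∉ W ∧ W ⊆ Z), if ¬ Col r f W then
          2 * T r (W.erase f) * vA r e f t v (W.erase f) * (v Z - 0) else 0) +
          (∑ W ∈ (lev r S 2).filter (fun W => e ∉ W ∧ W ⊆ Z), if f ∈ W then
          2 * T (con r {f}) (W.erase f) * vB e f t v (W.erase f) * (v Z - 0) else 0) =
          ∑ W ∈ (lev r S 2).filter (fun W => e ∉ W ∧ W ⊆ Z), (2 * T r W * v W * v Z -
            2 * t * ((if f ∈ W then T r W else 0) * v Z)) := by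
        rw [← Finset.sum_add_distrib]
        refine Finset.sum_congr rfl fun W hW' => ?_
        obtain ⟨hWl, heW, hWZ⟩ := Finset.mem_filter.1 hW'
        have hWf := (mem_lev.1 hWl).1
        by_cases a : f ∈ W
        · by_cases b : Col r f W
          · rw [if_neg (not_not.2 b), if_pos a, if_pos a, StB_vB a hef, if_neg heW, ← (T_col hr a b.2).1]
            ring
          · rw [if_pos b, if_pos a, if_pos a, StB_vB a hef, StB_vP a hef (r_erase b hr), if_neg heW,
              T_del hr a h1 (r_erase b hr)]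
            ring
        · have b : ¬ Col r f W := fun b => a b.1
          rw [if_pos b, if_neg a, if_neg a, StB_vN hWf hf a, if_neg heW, Finset.erase_eq_of_notMem a]
          ring
      have hs2 : ∑ W ∈ (lev r S 2).filter (fun W => e ∉ W ∧ W ⊆ Z), (2 * T r W * v W * v Z -
            2 * t * ((if f ∈ W then T r W else 0) * v Z)) =
          (∑ W ∈ (lev r S 2).filter (fun W => e ∉ W ∧ W ⊆ Z), 2 * T r W * v W * v Z) -
            2 * t * ((∑ W ∈ (lev r S 2).filter (fun W => e ∉ W ∧ W ⊆ Z), if f ∈ W then T r W else 0) * v Z) :=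
        StB_lin _ _ _ _ _
      linear_combination hs1 + hs2
  · -- type N
    have hc : ¬ Col r f Z := fun h => hfZ h.1
    rw [if_pos hc, if_neg hfZ, if_pos hfZ, if_neg hfZ, if_pos hfZ, StB_vN hZf hf hfZ, if_pos heZ,
      Finset.erase_eq_of_notMem hfZ]
    have hs1 : (∑ W ∈ (lev r S 2).filter (fun W => e ∉ W ∧ W ⊆ Z), if ¬ Col r f W then
          2 * T r (W.erase f) * vA r e f t v (W.erase f) * (v Z + t) else 0) =
        ∑ W ∈ (lev r S 2).filter (fun W => e ∉ W ∧ W ⊆ Z), (2 * T r W * v W * v Z +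
            2 * t * (T r W * v W)) := by
      refine Finset.sum_congr rfl fun W hW' => ?_
      obtain ⟨hWl, heW, hWZ⟩ := Finset.mem_filter.1 hW'
      have hWf := (mem_lev.1 hWl).1
      have a : f ∉ W := fun h => hfZ (hWZ h)
      have b : ¬ Col r f W := fun b => a b.1
      rw [if_pos b, StB_vN hWf hf a, if_neg heW, Finset.erase_eq_of_notMem a]
      ring
    rw [hs1, Finset.sum_add_distrib, ← Finset.mul_sum]
    ring

end ACY
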