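import Pool.Agent.ACY.Re
import Pool.Agent.ACY.Be
import Pool.Agent.ACY.Mu

/-!
# ACY-StC: the third part of the quadratic form under deletion and contraction

Types of flats `F` of `S`: N: `f ∉ F`; P: `f ∈ F`, `¬ Col r f F`; Q: `Col r f F`.
The forms of the deletion and of the contraction are rewritten as sums over flats `F ∋ e` and `Z` of `S`
(`StC_del`, `StC_con`). P: the weights add up by `bet_del`. Q: `bet r F = 0`; the term of the contraction is moved
to the flat `F.erase f` of type N by `sum_col`. N: `mu4` and `mu_weisner`.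
-/

set_option autoImplicit false

namespace ACY

open Finset

variable {α : Type} [DecidableEq α] {r : Finset α → ℕ} {S A B C D F G W X Z : Finset α} {e f x : α} {k j : ℕ}

private lemma StC_mem_erase (hef : e ≠ f) : e ∈ F.erase f ↔ e ∈ F := by
  rw [mem_erase]
  exact ⟨fun h => h.2, fun h => ⟨hef, h⟩⟩

private lemma StC_gA_N (hF : F ∈ flats r S) (hf : f ∈ S) (hfF : f ∉ F) (t : ℝ) (g : Finset α → ℝ) :
    gA r f t g F = g F + t := by
  unfold gA
  have h := (mem_flats.1 hF).2 f hf hfF
  rw [if_neg (by omega)]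

private lemma StC_gA_P (hfF : f ∈ F) (hc : ¬ Col r f F) (hr : RK r) (t : ℝ) (g : Finset α → ℝ) :
    gA r f t g (F.erase f) = g F := by
  unfold gA
  rw [insert_erase hfF, r_erase hc hr, if_pos rfl]

private lemma StC_gA_Q (hc : Col r f F) (t : ℝ) (g : Finset α → ℝ) :
    gA r f t g (F.erase f) = g (F.erase f) + t := by
  unfold gA
  rw [insert_erase hc.1, if_neg]
  have := hc.2
  omega

private lemma StC_vA_N (hZ : Z ∈ flats r S) (hf : f ∈ S) (hfZ : f ∉ Z) (heZ : e ∈ Z) (t : ℝ)
    (v : Finset α → ℝ) : vA r e f t v Z = v Z + t := by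
  unfold vA
  have h := (mem_flats.1 hZ).2 f hf hfZ
  rw [if_neg (by omega), if_pos heZ]

private lemma StC_vA_P (hfZ : f ∈ Z) (hc : ¬ Col r f Z) (hr : RK r) (heZ : e ∈ Z) (hef : e ≠ f) (t : ℝ)
    (v : Finset α → ℝ) : vA r e f t v (Z.erase f) = v Z := by
  unfold vA
  rw [insert_erase hfZ, r_erase hc hr, if_pos rfl, if_pos ((StC_mem_erase hef).2 heZ), sub_zero]

private lemma StC_vB (hfZ : f ∈ Z) (heZ : e ∈ Z) (hef : e ≠ f) (t : ℝ) (v : Finset α → ℝ) :
    vB e f t v (Z.erase f) = v Z := by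
  unfold vB
  rw [insert_erase hfZ, if_pos ((StC_mem_erase hef).2 heZ), sub_zero]

private lemma StC_notCol (hr : RK r) (hf : f ∈ F) (hc : ¬ Col r f F) (hFZ : F ⊆ Z) : ¬ Col r f Z := by
  rintro ⟨hfZ, hlt⟩
  have h1 : r (insert f (F.erase f)) = r (F.erase f) := by rw [insert_erase hf, r_erase hc hr]
  have h2 : r (insert f (Z.erase f)) = r (Z.erase f) := hr.cl_mono (erase_subset_erase f hFZ) h1
  rw [insert_erase hfZ] at h2
  omega

private lemma StC_del (hr : RK r) (hf : f ∈ S) (hef : e ≠ f) (h2 : r (S.erase f) = r S)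
    (v' g' : Finset α → ℝ) :
    Qc r (S.erase f) e v' g' =
      ∑ F ∈ (flats r S).filter (fun F => ¬ Col r f F ∧ e ∈ F), bet r (F.erase f) *
        (2 * g' (F.erase f) * ∑ Z ∈ (lev r S 1).filter (fun Z => ¬ Col r f Z ∧ F ⊆ Z),
          mu r (F.erase f) (Z.erase f) * v' (Z.erase f) -
            mu r (F.erase f) (S.erase f) * g' (F.erase f) ^ 2) := by
  unfold Qc
  rw [sum_del_flats hr hf (fun F => e ∈ F)]
  refine Finset.sum_congr ?_ ?_
  · refine filter_congr fun F _ => ?_
    rw [StC_mem_erase hef]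
  · intro F hF
    rw [mem_filter] at hF
    rw [sum_del hr hf h2 1 (fun Z => F.erase f ⊆ Z)]
    have h3 : (lev r S 1).filter (fun Z => ¬ Col r f Z ∧ F.erase f ⊆ Z.erase f) =
        (lev r S 1).filter (fun Z => ¬ Col r f Z ∧ F ⊆ Z) := by
      refine filter_congr fun Z hZ => ?_
      rw [sub_del hr hF.1 (mem_lev.1 hZ).1 hF.2.1]
    rw [h3]

private lemma StC_con (hr : RK r) (hf : f ∈ S) (hef : e ≠ f) (h1 : r {f} = 1)
    (v' g' : Finset α → ℝ) :
    Qc (con r {f}) (S.erase f) e v' g' =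
      ∑ F ∈ (flats r S).filter (fun F => f ∈ F ∧ e ∈ F), bet (con r {f}) (F.erase f) *
        (2 * g' (F.erase f) * ∑ Z ∈ (lev r S 1).filter (fun Z => f ∈ Z ∧ F ⊆ Z),
          mu (con r {f}) (F.erase f) (Z.erase f) * v' (Z.erase f) -
            mu (con r {f}) (F.erase f) (S.erase f) * g' (F.erase f) ^ 2) := by
  unfold Qc
  rw [sum_con_flats hr hf (fun F => e ∈ F)]
  refine Finset.sum_congr ?_ ?_
  · refine filter_congr fun F _ => ?_
    rw [StC_mem_erase hef]
  · intro F hF
    rw [mem_filter] at hF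
    rw [sum_con hr hf h1 1 (fun Z => F.erase f ⊆ Z)]
    have h3 : (lev r S 1).filter (fun Z => f ∈ Z ∧ F.erase f ⊆ Z.erase f) =
        (lev r S 1).filter (fun Z => f ∈ Z ∧ F ⊆ Z) := by
      refine filter_congr fun Z _ => ?_
      constructor
      · rintro ⟨hZ, h⟩
        exact ⟨hZ, (sub_con hF.2.1 hZ).1 h⟩
      · rintro ⟨hZ, h⟩
        exact ⟨hZ, (sub_con hF.2.1 hZ).2 h⟩
    rw [h3]

private lemma StC_split_del (φ : Finset α → ℝ) :
    ∑ F ∈ (flats r S).filter (fun F => ¬ Col r f F ∧ e ∈ F), φ F =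
      ∑ F ∈ (flats r S).filter (fun F => e ∈ F ∧ f ∉ F), φ F +
        ∑ F ∈ (flats r S).filter (fun F => e ∈ F ∧ f ∈ F ∧ ¬ Col r f F), φ F := by
  rw [sum_filter, sum_filter, sum_filter, ← sum_add_distrib]
  refine sum_congr rfl fun F _ => ?_
  have hc : Col r f F → f ∈ F := fun h => h.1
  by_cases h1 : e ∈ F <;> by_cases h2 : f ∈ F <;> by_cases h3 : Col r f F <;> simp [h1, h2, h3]
  exact absurd (hc h3) h2

private lemma StC_split_con (φ : Finset α → ℝ) :
    ∑ F ∈ (flats r S).filter (fun F => f ∈ F ∧ e ∈ F), φ F =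
      ∑ F ∈ (flats r S).filter (fun F => e ∈ F ∧ f ∈ F ∧ ¬ Col r f F), φ F +
        ∑ F ∈ (flats r S).filter (fun F => e ∈ F ∧ Col r f F), φ F := by
  rw [sum_filter, sum_filter, sum_filter, ← sum_add_distrib]
  refine sum_congr rfl fun F _ => ?_
  have hc : Col r f F → f ∈ F := fun h => h.1
  by_cases h1 : e ∈ F <;> by_cases h2 : f ∈ F <;> by_cases h3 : Col r f F <;> simp [h1, h2, h3]
  exact absurd (hc h3) h2

private lemma StC_split_all (φ : Finset α → ℝ) :
    ∑ F ∈ (flats r S).filter (fun F => e ∈ F), φ F =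
      ∑ F ∈ (flats r S).filter (fun F => e ∈ F ∧ f ∉ F), φ F +
      ∑ F ∈ (flats r S).filter (fun F => e ∈ F ∧ f ∈ F ∧ ¬ Col r f F), φ F +
        ∑ F ∈ (flats r S).filter (fun F => e ∈ F ∧ Col r f F), φ F := by
  rw [sum_filter, sum_filter, sum_filter, sum_filter, ← sum_add_distrib, ← sum_add_distrib]
  refine sum_congr rfl fun F _ => ?_
  have hc : Col r f F → f ∈ F := fun h => h.1
  by_cases h1 : e ∈ F <;> by_cases h2 : f ∈ F <;> by_cases h3 : Col r f F <;> simp [h1, h2, h3]
  exact absurd (hc h3) h2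

/-- type N: the sums over `Z` -/
private lemma StC_sumZ (hr : RK r) (hf : f ∈ S) (hef : e ≠ f) (hG : G ∈ flats r S) (heG : e ∈ G) (hfG : f ∉ G)
    (v : Finset α → ℝ) (t : ℝ) :
    ∑ Z ∈ (lev r S 1).filter (fun Z => ¬ Col r f Z ∧ G ⊆ Z), mu r G (Z.erase f) * vA r e f t v (Z.erase f) +
      (if insert f G ∈ flats r S then ∑ Z ∈ (lev r S 1).filter (fun Z => insert f G ⊆ Z),
        mu (con r {f}) G (Z.erase f) * v Z else 0) =
      ∑ Z ∈ (lev r S 1).filter (fun Z => G ⊆ Z), mu r G Z * v Z + t * mu r G S := by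
  have hW : t * mu r G S = ∑ Z ∈ lev r S 1, if G ⊆ Z ∧ f ∉ Z then t * mu r G Z else 0 := by
    rw [mu_weisner hr hG hf hfG, mul_sum, sum_filter]
  have hI : (if insert f G ∈ flats r S then ∑ Z ∈ (lev r S 1).filter (fun Z => insert f G ⊆ Z),
        mu (con r {f}) G (Z.erase f) * v Z else 0) =
      ∑ Z ∈ lev r S 1, if insert f G ∈ flats r S ∧ insert f G ⊆ Z then
        mu (con r {f}) G (Z.erase f) * v Z else 0 := by
    split_ifs with h
    · rw [sum_filter]
      refine sum_congr rfl fun Z _ => ?_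
      simp [h]
    · symm
      refine sum_eq_zero fun Z _ => ?_
      simp [h]
  rw [hW, hI, sum_filter, sum_filter, ← sum_add_distrib, ← sum_add_distrib]
  refine sum_congr rfl fun Z hZ => ?_
  have hZf := (mem_lev.1 hZ).1
  by_cases hGZ : G ⊆ Z
  · by_cases hfZ : f ∈ Z
    · have hins : insert f G ⊆ Z := insert_subset hfZ hGZ
      have h4 := mu4 hr hG hZf hGZ hfZ hfG
      by_cases hc : Col r f Z
      · have hne : r (Z.erase f) ≠ r Z := by
          have := hc.2
          omega
        rw [if_neg hne] at h4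
        by_cases hfl : insert f G ∈ flats r S
        · rw [if_pos hfl] at h4
          simp only [hc, hGZ, hfZ, hins, hfl, not_true_eq_false, false_and, if_false, and_true,
            and_false, if_true, h4]
          ring
        · rw [if_neg hfl] at h4
          simp only [hc, hGZ, hfZ, hfl, not_true_eq_false, false_and, if_false,
            and_false, if_true, h4]
          ring
      · have heq : r (Z.erase f) = r Z := r_erase hc hr
        rw [if_pos heq] at h4
        have hv := StC_vA_P (e := e) hfZ hc hr (hGZ heG) hef t v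
        by_cases hfl : insert f G ∈ flats r S
        · rw [if_pos hfl] at h4
          simp only [hc, hGZ, hfZ, hins, hfl, not_true_eq_false, not_false_eq_true,
            if_false, and_true, and_false, true_and, if_true, h4, hv]
          ring
        · rw [if_neg hfl] at h4
          simp only [hc, hGZ, hfZ, hfl, not_true_eq_false, not_false_eq_true, false_and,
            if_false, and_true, and_false, if_true, h4, hv]
          ring
    · have hins : ¬ insert f G ⊆ Z := fun h => hfZ (h (mem_insert_self f G))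
      have hc : ¬ Col r f Z := fun h => hfZ h.1
      have hv := StC_vA_N (e := e) hZf hf hfZ (hGZ heG) t v
      simp only [hc, hGZ, hfZ, hins, not_false_eq_true, if_false, and_true, and_false,
        if_true, erase_eq_of_notMem hfZ, hv]
      ring
  · have hins : ¬ insert f G ⊆ Z := fun h => hGZ (fun y hy => h (mem_insert_of_mem hy))
    simp only [hGZ, hins, and_false, false_and, if_false, add_zero]

theorem stepC (hr : RK r) (he : e ∈ S) (hf : f ∈ S) (hef : e ≠ f) (h1 : r {f} = 1) (h2 : r (S.erase f) = r S)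
    (v g : Finset α → ℝ) (t : ℝ) :
    Qc r (S.erase f) e (vA r e f t v) (gA r f t g) + Qc (con r {f}) (S.erase f) e (vB e f t v) (gA r f t g) =
      Qc r S e v g + t ^ 2 * ∑ F ∈ (flats r S).filter (fun F => e ∈ F ∧ f ∉ F), bet r F * mu r F S +
        2 * t * ∑ Z ∈ (lev r S 1).filter (fun Z => e ∈ Z), v Z *
          ∑ F ∈ (flats r S).filter (fun F => (e ∈ F ∧ f ∉ F) ∧ F ⊆ Z), bet r F * mu r F Z := by
  -- the last sum
  have hswap : ∑ Z ∈ (lev r S 1).filter (fun Z => e ∈ Z), v Z *
          ∑ F ∈ (flats r S).filter (fun F => (e ∈ F ∧ f ∉ F) ∧ F ⊆ Z), bet r F * mu r F Z =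
      ∑ F ∈ (flats r S).filter (fun F => e ∈ F ∧ f ∉ F), bet r F *
        ∑ Z ∈ (lev r S 1).filter (fun Z => F ⊆ Z), mu r F Z * v Z := by
    have hl : ∀ Z : Finset α, v Z *
          ∑ F ∈ (flats r S).filter (fun F => (e ∈ F ∧ f ∉ F) ∧ F ⊆ Z), bet r F * mu r F Z =
        ∑ F ∈ flats r S, if (e ∈ F ∧ f ∉ F) ∧ F ⊆ Z then bet r F * (mu r F Z * v Z) else 0 := by
      intro Z
      rw [mul_sum, sum_filter]
      refine sum_congr rfl fun F _ => ?_
      split_ifs
      · ring
      · rfl
    have hrr : ∀ F : Finset α, bet r F *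
        ∑ Z ∈ (lev r S 1).filter (fun Z => F ⊆ Z), mu r F Z * v Z =
        ∑ Z ∈ lev r S 1, if F ⊆ Z then bet r F * (mu r F Z * v Z) else 0 := by
      intro F
      rw [mul_sum, sum_filter]
    rw [sum_congr rfl (fun Z _ => hl Z), sum_congr rfl (fun F _ => hrr F), sum_filter, sum_filter]
    have hl2 : ∀ Z : Finset α, (if e ∈ Z then ∑ F ∈ flats r S,
        (if (e ∈ F ∧ f ∉ F) ∧ F ⊆ Z then bet r F * (mu r F Z * v Z) else 0) else 0) =
        ∑ F ∈ flats r S, if (e ∈ F ∧ f ∉ F) ∧ F ⊆ Z then bet r F * (mu r F Z * v Z) else 0 := by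
      intro Z
      split_ifs with h
      · rfl
      · symm
        refine sum_eq_zero fun F _ => if_neg ?_
        rintro ⟨⟨h3, -⟩, h4⟩
        exact h (h4 h3)
    have hr2 : ∀ F : Finset α, (if e ∈ F ∧ f ∉ F then ∑ Z ∈ lev r S 1,
        (if F ⊆ Z then bet r F * (mu r F Z * v Z) else 0) else 0) =
        ∑ Z ∈ lev r S 1, if (e ∈ F ∧ f ∉ F) ∧ F ⊆ Z then bet r F * (mu r F Z * v Z) else 0 := by
      intro F
      split_ifs with h
      · refine sum_congr rfl fun Z _ => ?_
        simp [h]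
      · symm
        refine sum_eq_zero fun Z _ => if_neg fun h3 => h h3.1
    rw [sum_congr rfl (fun Z _ => hl2 Z), sum_congr rfl (fun F _ => hr2 F), sum_comm]
  rw [hswap, StC_del hr hf hef h2, StC_con hr hf hef h1]
  unfold Qc
  rw [StC_split_del, StC_split_con, StC_split_all (f := f)]
  -- type Q, form of `S`
  have hQ0 : ∑ F ∈ (flats r S).filter (fun F => e ∈ F ∧ Col r f F), bet r F *
      (2 * g F * ∑ Z ∈ (lev r S 1).filter (fun Z => F ⊆ Z), mu r F Z * v Z - mu r F S * g F ^ 2) =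
      0 := by
    refine sum_eq_zero fun F hF => ?_
    rw [mem_filter] at hF
    rw [bet_col hr hF.2.2.1 hF.2.1 hef hF.2.2.2, zero_mul]
  -- type P
  have hP : ∑ F ∈ (flats r S).filter (fun F => e ∈ F ∧ f ∈ F ∧ ¬ Col r f F), bet r (F.erase f) *
        (2 * gA r f t g (F.erase f) * ∑ Z ∈ (lev r S 1).filter (fun Z => ¬ Col r f Z ∧ F ⊆ Z),
          mu r (F.erase f) (Z.erase f) * vA r e f t v (Z.erase f) -
            mu r (F.erase f) (S.erase f) * gA r f t g (F.erase f) ^ 2) +
      ∑ F ∈ (flats r S).filter (fun F => e ∈ F ∧ f ∈ F ∧ ¬ Col r f F),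
        bet (con r {f}) (F.erase f) *
        (2 * gA r f t g (F.erase f) * ∑ Z ∈ (lev r S 1).filter (fun Z => f ∈ Z ∧ F ⊆ Z),
          mu (con r {f}) (F.erase f) (Z.erase f) * vB e f t v (Z.erase f) -
            mu (con r {f}) (F.erase f) (S.erase f) * gA r f t g (F.erase f) ^ 2) =
      ∑ F ∈ (flats r S).filter (fun F => e ∈ F ∧ f ∈ F ∧ ¬ Col r f F), bet r F *
      (2 * g F * ∑ Z ∈ (lev r S 1).filter (fun Z => F ⊆ Z), mu r F Z * v Z - mu r F S * g F ^ 2) := by
    rw [← sum_add_distrib]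
    refine sum_congr rfl fun F hF => ?_
    rw [mem_filter] at hF
    obtain ⟨hFf, heF, hfF, hc⟩ := hF
    have hFS := (mem_flats.1 hFf).1
    have hre := r_erase hc hr
    have hz1 : ∑ Z ∈ (lev r S 1).filter (fun Z => ¬ Col r f Z ∧ F ⊆ Z),
          mu r (F.erase f) (Z.erase f) * vA r e f t v (Z.erase f) =
        ∑ Z ∈ (lev r S 1).filter (fun Z => F ⊆ Z), mu r F Z * v Z := by
      refine sum_congr ?_ fun Z hZ => ?_
      · refine filter_congr fun Z _ => ?_
        exact ⟨fun h => h.2, fun h => ⟨StC_notCol hr hfF hc h, h⟩⟩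
      · rw [mem_filter] at hZ
        rw [mu1 hr hfF hre hZ.2, StC_vA_P (hZ.2 hfF) (StC_notCol hr hfF hc hZ.2) hr (hZ.2 heF) hef]
    have hz2 : ∑ Z ∈ (lev r S 1).filter (fun Z => f ∈ Z ∧ F ⊆ Z),
          mu (con r {f}) (F.erase f) (Z.erase f) * vB e f t v (Z.erase f) =
        ∑ Z ∈ (lev r S 1).filter (fun Z => F ⊆ Z), mu r F Z * v Z := by
      refine sum_congr ?_ fun Z hZ => ?_
      · refine filter_congr fun Z _ => ?_
        exact ⟨fun h => h.2, fun h => ⟨h hfF, h⟩⟩
      · rw [mem_filter] at hZ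
        rw [mu2 hr hfF hZ.2, StC_vB (hZ.2 hfF) (hZ.2 heF) hef]
    rw [hz1, hz2, mu1 hr hfF hre hFS, mu2 hr hfF hFS, StC_gA_P hfF hc hr,
      bet_del hr hfF h1 hre]
    ring
  -- type Q, form of the contraction
  have hQ : ∑ F ∈ (flats r S).filter (fun F => e ∈ F ∧ Col r f F),
        bet (con r {f}) (F.erase f) *
        (2 * gA r f t g (F.erase f) * ∑ Z ∈ (lev r S 1).filter (fun Z => f ∈ Z ∧ F ⊆ Z),
          mu (con r {f}) (F.erase f) (Z.erase f) * vB e f t v (Z.erase f) -
            mu (con r {f}) (F.erase f) (S.erase f) * gA r f t g (F.erase f) ^ 2) =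
      ∑ G ∈ (flats r S).filter (fun F => e ∈ F ∧ f ∉ F), bet r G * (2 * (g G + t) *
        (if insert f G ∈ flats r S then ∑ Z ∈ (lev r S 1).filter (fun Z => insert f G ⊆ Z),
          mu (con r {f}) G (Z.erase f) * v Z else 0) -
        (if insert f G ∈ flats r S then mu (con r {f}) G (S.erase f) else 0) * (g G + t) ^ 2) := by
    have hsc := sum_col (r := r) (S := S) hr hf (fun F => e ∈ F) (fun G => bet r G * (2 * (g G + t) *
        (if insert f G ∈ flats r S then ∑ Z ∈ (lev r S 1).filter (fun Z => insert f G ⊆ Z),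
          mu (con r {f}) G (Z.erase f) * v Z else 0) -
        (if insert f G ∈ flats r S then mu (con r {f}) G (S.erase f) else 0) * (g G + t) ^ 2))
    have hl : ∑ G ∈ (flats r S).filter (fun F => e ∈ F ∧ f ∉ F), bet r G * (2 * (g G + t) *
        (if insert f G ∈ flats r S then ∑ Z ∈ (lev r S 1).filter (fun Z => insert f G ⊆ Z),
          mu (con r {f}) G (Z.erase f) * v Z else 0) -
        (if insert f G ∈ flats r S then mu (con r {f}) G (S.erase f) else 0) * (g G + t) ^ 2) =
        ∑ G ∈ (flats r S).filter (fun F => (f ∉ F ∧ insert f F ∈ flats r S) ∧ e ∈ F),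
          bet r G * (2 * (g G + t) *
        (if insert f G ∈ flats r S then ∑ Z ∈ (lev r S 1).filter (fun Z => insert f G ⊆ Z),
          mu (con r {f}) G (Z.erase f) * v Z else 0) -
        (if insert f G ∈ flats r S then mu (con r {f}) G (S.erase f) else 0) * (g G + t) ^ 2) := by
      rw [sum_filter, sum_filter]
      refine sum_congr rfl fun G _ => ?_
      by_cases h3 : e ∈ G <;> by_cases h4 : f ∉ G <;> by_cases h5 : insert f G ∈ flats r S <;>
        simp [h3, h4, h5]
    rw [hl, hsc]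
    refine sum_congr ?_ fun F hF => ?_
    · refine filter_congr fun F _ => ?_
      rw [StC_mem_erase hef, and_comm]
    · rw [mem_filter] at hF
      obtain ⟨hFf, hc, heF'⟩ := hF
      have heF := (StC_mem_erase hef).1 heF'
      have hfF := hc.1
      have hFS := (mem_flats.1 hFf).1
      have hbet : bet (con r {f}) (F.erase f) = bet r (F.erase f) := by
        refine bet_congr fun A hA => ?_
        have h3 := con_add hr {f} A
        rw [h1, union_singleton] at h3
        have h4 : r (insert f A) = r A + 1 := by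
          rcases hr.ins A f with h5 | h5
          · have h6 := hr.cl_mono hA h5
            rw [insert_erase hfF] at h6
            have := hc.2
            omega
          · exact h5
        omega
      have hz2 : ∑ Z ∈ (lev r S 1).filter (fun Z => f ∈ Z ∧ F ⊆ Z),
          mu (con r {f}) (F.erase f) (Z.erase f) * vB e f t v (Z.erase f) =
          ∑ Z ∈ (lev r S 1).filter (fun Z => insert f (F.erase f) ⊆ Z),
            mu (con r {f}) (F.erase f) (Z.erase f) * v Z := by
        rw [insert_erase hfF]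
        refine sum_congr ?_ fun Z hZ => ?_
        · refine filter_congr fun Z _ => ?_
          exact ⟨fun h => h.2, fun h => ⟨h hfF, h⟩⟩
        · rw [mem_filter] at hZ
          rw [StC_vB (hZ.2 hfF) (hZ.2 heF) hef]
      have hfl : insert f (F.erase f) ∈ flats r S := by
        rw [insert_erase hfF]
        exact hFf
      simp only [if_pos hfl]
      rw [hbet, hz2, StC_gA_Q hc]
  -- type N
  have hN : ∑ F ∈ (flats r S).filter (fun F => e ∈ F ∧ f ∉ F), bet r (F.erase f) *
        (2 * gA r f t g (F.erase f) * ∑ Z ∈ (lev r S 1).filter (fun Z => ¬ Col r f Z ∧ F ⊆ Z),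
          mu r (F.erase f) (Z.erase f) * vA r e f t v (Z.erase f) -
            mu r (F.erase f) (S.erase f) * gA r f t g (F.erase f) ^ 2) +
      ∑ G ∈ (flats r S).filter (fun F => e ∈ F ∧ f ∉ F), bet r G * (2 * (g G + t) *
        (if insert f G ∈ flats r S then ∑ Z ∈ (lev r S 1).filter (fun Z => insert f G ⊆ Z),
          mu (con r {f}) G (Z.erase f) * v Z else 0) -
        (if insert f G ∈ flats r S then mu (con r {f}) G (S.erase f) else 0) * (g G + t) ^ 2) =
      ∑ F ∈ (flats r S).filter (fun F => e ∈ F ∧ f ∉ F), bet r F *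
        (2 * g F * ∑ Z ∈ (lev r S 1).filter (fun Z => F ⊆ Z), mu r F Z * v Z - mu r F S * g F ^ 2) +
      t ^ 2 * ∑ F ∈ (flats r S).filter (fun F => e ∈ F ∧ f ∉ F), bet r F * mu r F S +
      2 * t * ∑ F ∈ (flats r S).filter (fun F => e ∈ F ∧ f ∉ F), bet r F *
        ∑ Z ∈ (lev r S 1).filter (fun Z => F ⊆ Z), mu r F Z * v Z := by
    rw [mul_sum, mul_sum, ← sum_add_distrib, ← sum_add_distrib, ← sum_add_distrib]
    refine sum_congr rfl fun G hG => ?_
    rw [mem_filter] at hG
    obtain ⟨hGf, heG, hfG⟩ := hG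
    have hGS := (mem_flats.1 hGf).1
    have h3 := StC_sumZ hr hf hef hGf heG hfG v t
    have h4 := mu4 hr hGf self_flat hGS hf hfG
    rw [if_pos h2] at h4
    rw [erase_eq_of_notMem hfG, StC_gA_N hGf hf hfG]
    generalize (∑ Z ∈ (lev r S 1).filter (fun Z => ¬ Col r f Z ∧ G ⊆ Z),
      mu r G (Z.erase f) * vA r e f t v (Z.erase f)) = a1 at h3 ⊢
    generalize (if insert f G ∈ flats r S then ∑ Z ∈ (lev r S 1).filter (fun Z => insert f G ⊆ Z),
      mu (con r {f}) G (Z.erase f) * v Z else 0) = a2 at h3 ⊢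
    generalize (if insert f G ∈ flats r S then mu (con r {f}) G (S.erase f) else 0) = a3 at h4 ⊢
    generalize (∑ Z ∈ (lev r S 1).filter (fun Z => G ⊆ Z), mu r G Z * v Z) = a4 at h3 ⊢
    have h5 : a1 = a4 + t * mu r G S - a2 := by linarith
    have h6 : mu r G (S.erase f) = mu r G S - a3 := by linarith
    rw [h5, h6]
    ring
  rw [hQ0, add_zero]
  rw [hQ]
  linarith [hN, hP]

end ACY
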