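import Pool.Agent.ACY.StA
import Pool.Agent.ACY.StB
import Pool.Agent.ACY.StC
import Pool.Agent.ACY.Cv
import Pool.Agent.ACY.Si

/-!
# ACY-St: the deletion-contraction inequality for the quadratic form

The sum of `stepA`, `stepB`, `stepC`; the terms linear in the twist cancel by `cover_swap`, `sid`, `swap` and
`tot`, the quadratic ones by `sid`.
-/

set_option autoImplicit false

namespace ACY

open Finset

variable {α : Type} [DecidableEq α] {r : Finset α → ℕ} {S A B C D F G W X Z : Finset α} {e f x : α} {k j : ℕ}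

/-- for `Z ∋ e, f` the sum over the flats of `Z` containing `e` and not `f` -/
private theorem St_in (hr : RK r) (hZ : Z ∈ lev r S 1) (he : e ∈ Z) (hf : f ∈ Z) (hef : e ≠ f) :
    ∑ F ∈ (flats r S).filter (fun F => (e ∈ F ∧ f ∉ F) ∧ F ⊆ Z), bet r F * mu r F Z =
      ∑ W ∈ (lev r S 2).filter (fun W => (e ∉ W ∧ f ∈ W) ∧ W ⊆ Z), T r W := by
  have h1 := sid hr he hf hef
  rw [swap hr he hf, flats_restrict hr (mem_lev.1 hZ).1, lev_restrict hr hZ (j := 1), filter_filter,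
    filter_filter] at h1
  refine (Finset.sum_congr ?_ fun _ _ => rfl).trans (h1.trans (Finset.sum_congr ?_ fun _ _ => rfl))
  · ext F
    simp only [mem_filter]
    tauto
  · ext F
    simp only [mem_filter]
    tauto

/-- for `Z ∋ e`, `f ∉ Z` the sum over the flats of `Z` containing `e` and not `f` -/
private theorem St_out (hr : RK r) (hZ : Z ∈ lev r S 1) (he : e ∈ Z) (hf : f ∉ Z) :
    ∑ F ∈ (flats r S).filter (fun F => (e ∈ F ∧ f ∉ F) ∧ F ⊆ Z), bet r F * mu r F Z = T r Z := by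
  rw [tot hr he, flats_restrict hr (mem_lev.1 hZ).1, filter_filter]
  refine Finset.sum_congr ?_ fun _ _ => rfl
  ext F
  simp only [mem_filter]
  constructor
  · rintro ⟨h1, ⟨h2, -⟩, h3⟩
    exact ⟨h1, h3, h2⟩
  · rintro ⟨h1, h3, h2⟩
    exact ⟨h1, ⟨h2, fun h => hf (h3 h)⟩, h3⟩

theorem step (hr : RK r) (he : e ∈ S) (hf : f ∈ S) (hef : e ≠ f) (h1 : r {f} = 1) (h2 : r (S.erase f) = r S)
    (v g : Finset α → ℝ) (t : ℝ) :
    Q r S e v g ≤ Q r (S.erase f) e (vA r e f t v) (gA r f t g) +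
      Q (con r {f}) (S.erase f) e (vB e f t v) (gA r f t g) := by
  have hA := stepA hr he hf hef h1 h2 v t
  have hB := stepB hr he hf hef h1 h2 v t
  have hC := stepC hr he hf hef h1 h2 v g t
  have hX : ∑ W ∈ (lev r S 2).filter (fun W => e ∉ W ∧ f ∉ W),
        ∑ _Z ∈ (lev r S 1).filter (fun Z => e ∉ Z ∧ f ∈ Z ∧ W ⊆ Z), T r W * v W =
      ∑ W ∈ (lev r S 2).filter (fun W => e ∉ W ∧ f ∉ W),
        ∑ _Z ∈ (lev r S 1).filter (fun Z => f ∉ Z ∧ e ∈ Z ∧ W ⊆ Z), T r W * v W := by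
    refine Finset.sum_congr rfl fun W hW => ?_
    rw [mem_filter] at hW
    exact cover_swap hr hW.1 he hf hW.2.1 hW.2.2 _
  have hE : ∑ Z ∈ (lev r S 1).filter (fun Z => e ∈ Z), v Z *
          ∑ F ∈ (flats r S).filter (fun F => (e ∈ F ∧ f ∉ F) ∧ F ⊆ Z), bet r F * mu r F Z =
      (∑ Z ∈ (lev r S 1).filter (fun Z => e ∈ Z ∧ f ∈ Z),
        (∑ W ∈ (lev r S 2).filter (fun W => (e ∉ W ∧ f ∈ W) ∧ W ⊆ Z), T r W) * v Z) +
      ∑ Z ∈ (lev r S 1).filter (fun Z => e ∈ Z ∧ f ∉ Z), T r Z * v Z := by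
    rw [← Finset.sum_filter_add_sum_filter_not ((lev r S 1).filter (fun Z => e ∈ Z)) (fun Z => f ∈ Z),
      filter_filter, filter_filter]
    refine congrArg₂ (· + ·) (Finset.sum_congr rfl fun Z hZ => ?_) (Finset.sum_congr rfl fun Z hZ => ?_)
    · rw [mem_filter] at hZ
      rw [St_in hr hZ.1 hZ.2.1 hZ.2.2 hef, mul_comm]
    · rw [mem_filter] at hZ
      rw [St_out hr hZ.1 hZ.2.1 hZ.2.2, mul_comm]
  have hY : ∑ Z ∈ (lev r S 1).filter (fun Z => e ∈ Z ∧ f ∉ Z), T r Z * (2 * t * v Z + t ^ 2) =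
      2 * t * (∑ Z ∈ (lev r S 1).filter (fun Z => e ∈ Z ∧ f ∉ Z), T r Z * v Z) +
        t ^ 2 * ∑ Z ∈ (lev r S 1).filter (fun Z => e ∈ Z ∧ f ∉ Z), T r Z := by
    rw [Finset.mul_sum, Finset.mul_sum, ← Finset.sum_add_distrib]
    exact Finset.sum_congr rfl fun Z _ => by ring
  have hD := sid hr he hf hef
  rw [hX] at hA
  rw [hY] at hB
  rw [hE, hD] at hC
  unfold Q
  linarith

end ACY
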