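import Pool.Agent.ACY.Re
import Pool.Agent.ACY.Tp

/-!
# ACY-StA: the first part of the quadratic form under deletion and contraction

Types of flats `F` of `S` (f ≠ e): N: `f ∉ F`; P: `f ∈ F`, `¬ Col r f F`; Q: `Col r f F`.
The first parts for the deletion and for the contraction are written as sums over the flats of `S`, the coefficients
are compared termwise (`T_del`, `T_col`), and the terms of the hyperplanes through `f` are distributed by Weisner's
theorem. For pairs `W`, `Z` with `f ∉ W` and `Z` of type Q there remains a square.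
-/

set_option autoImplicit false

namespace ACY

open Finset

variable {α : Type} [DecidableEq α] {r : Finset α → ℕ} {S A B C D F G W X Z : Finset α} {e f x : α} {k j : ℕ}

/-- values of the twisted function on the deletion, flats without `f` -/
private theorem StA_vA_N (hf : f ∈ S) (hF : F ∈ flats r S) (hfF : f ∉ F) (heF : e ∉ F)
    (v : Finset α → ℝ) (t : ℝ) : vA r e f t v (F.erase f) = v F := by
  have h := (mem_flats.1 hF).2 f hf hfF
  rw [Finset.erase_eq_of_notMem hfF]
  unfold vA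
  rw [if_neg (by omega), if_neg heF, add_zero]

/-- values of the twisted function on the deletion, flats with `f` -/
private theorem StA_vA_P (hr : RK r) (hfF : f ∈ F) (hc : ¬ Col r f F) (heF : e ∉ F)
    (v : Finset α → ℝ) (t : ℝ) : vA r e f t v (F.erase f) = v F - t := by
  have h := r_erase hc hr
  have he' : e ∉ F.erase f := fun h => heF (Finset.mem_of_mem_erase h)
  unfold vA
  rw [Finset.insert_erase hfF, if_pos h.symm, if_neg he']

/-- values of the twisted function on the contraction -/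
private theorem StA_vB (hfF : f ∈ F) (heF : e ∉ F) (v : Finset α → ℝ) (t : ℝ) :
    vB e f t v (F.erase f) = v F - t := by
  have he' : e ∉ F.erase f := fun h => heF (Finset.mem_of_mem_erase h)
  unfold vB
  rw [Finset.insert_erase hfF, if_neg he']

private theorem StA_col_down (hr : RK r) (hW : f ∈ W) (hWZ : W ⊆ Z) (hc : Col r f Z) : Col r f W := by
  refine ⟨hW, ?_⟩
  by_contra h
  have h1 : r (W.erase f) = r W := le_antisymm (hr.mono _ _ (Finset.erase_subset _ _)) (not_lt.1 h)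
  have h2 : r (insert f (W.erase f)) = r (W.erase f) := by rw [Finset.insert_erase hW, h1]
  have h3 := hr.cl_mono (Finset.erase_subset_erase f hWZ) h2
  rw [Finset.insert_erase hc.1] at h3
  have := hc.2
  omega

/-- coefficients of one hyperplane -/
private theorem StA_single (hr : RK r) (hf : f ∈ S) (h1 : r {f} = 1) (hZ : Z ∈ flats r S) (heZ : e ∉ Z)
    (v : Finset α → ℝ) (t : ℝ) :
    (if ¬ Col r f Z then T r (Z.erase f) * vA r e f t v (Z.erase f) ^ 2 else 0) +
      (if f ∈ Z then T (con r {f}) (Z.erase f) * vB e f t v (Z.erase f) ^ 2 else 0) =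
    T r Z * v Z ^ 2 + (if f ∈ Z then T r Z * (t ^ 2 - 2 * t * v Z) else 0) := by
  by_cases hfZ : f ∈ Z
  · rw [if_pos hfZ, if_pos hfZ, StA_vB hfZ heZ]
    by_cases hc : Col r f Z
    · rw [if_neg (not_not.2 hc), (T_col hr hfZ hc.2).1]
      ring
    · rw [if_pos hc, StA_vA_P hr hfZ hc heZ, T_del hr hfZ h1 (r_erase hc hr)]
      ring
  · have hc : ¬ Col r f Z := fun h => hfZ h.1
    rw [if_pos hc, if_neg hfZ, if_neg hfZ, StA_vA_N hf hZ hfZ heZ, Finset.erase_eq_of_notMem hfZ]

/-- coefficients of one pair -/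
private theorem StA_pair (hr : RK r) (hf : f ∈ S) (h1 : r {f} = 1) (hW : W ∈ flats r S) (hZ : Z ∈ flats r S)
    (hWZ : W ⊆ Z) (heZ : e ∉ Z) (v : Finset α → ℝ) (t : ℝ) :
    (if ¬ Col r f W ∧ ¬ Col r f Z then
        T r (W.erase f) * (vA r e f t v (W.erase f) - vA r e f t v (Z.erase f)) ^ 2 else 0) +
      (if f ∈ W then T (con r {f}) (W.erase f) * (vB e f t v (W.erase f) - vB e f t v (Z.erase f)) ^ 2 else 0) ≤
    T r W * (v W - v Z) ^ 2 +
      (if f ∉ W ∧ f ∈ Z then T r W * (t ^ 2 - 2 * t * v Z) + 2 * t * (T r W * v W) else 0) := by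
  have heW : e ∉ W := fun h => heZ (hWZ h)
  by_cases hfW : f ∈ W
  · have hfZ : f ∈ Z := hWZ hfW
    rw [if_pos hfW, if_neg (fun h : f ∉ W ∧ f ∈ Z => h.1 hfW), StA_vB hfW heW, StA_vB hfZ heZ]
    by_cases hc : Col r f W
    · rw [if_neg (fun h : ¬ Col r f W ∧ ¬ Col r f Z => h.1 hc), (T_col hr hfW hc.2).1]
      apply le_of_eq
      ring
    · have hcZ : ¬ Col r f Z := fun h => hc (StA_col_down hr hfW hWZ h)
      rw [if_pos (show ¬ Col r f W ∧ ¬ Col r f Z from ⟨hc, hcZ⟩), StA_vA_P hr hfW hc heW, StA_vA_P hr hfZ hcZ heZ, T_del hr hfW h1 (r_erase hc hr)]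
      apply le_of_eq
      ring
  · have hc : ¬ Col r f W := fun h => hfW h.1
    rw [if_neg hfW, add_zero, Finset.erase_eq_of_notMem hfW]
    have hvW : vA r e f t v W = v W := by
      have := StA_vA_N hf hW hfW heW v t
      rwa [Finset.erase_eq_of_notMem hfW] at this
    by_cases hfZ : f ∈ Z
    · rw [if_pos (show f ∉ W ∧ f ∈ Z from ⟨hfW, hfZ⟩)]
      by_cases hcZ : Col r f Z
      · rw [if_neg (fun h : ¬ Col r f W ∧ ¬ Col r f Z => h.2 hcZ)]
        have h := mul_nonneg (T_nonneg hr W) (sq_nonneg (v W - v Z + t))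
        nlinarith [h]
      · rw [if_pos (show ¬ Col r f W ∧ ¬ Col r f Z from ⟨hc, hcZ⟩), hvW, StA_vA_P hr hfZ hcZ heZ]
        apply le_of_eq
        ring
    · have hcZ : ¬ Col r f Z := fun h => hfZ h.1
      rw [if_pos (show ¬ Col r f W ∧ ¬ Col r f Z from ⟨hc, hcZ⟩), if_neg (fun h : f ∉ W ∧ f ∈ Z => hfZ h.2), hvW, StA_vA_N hf hZ hfZ heZ, add_zero]

/-- distribution of the hyperplanes through `f` -/
private theorem StA_dist (hr : RK r) (φ : Finset α → ℝ) :
    ∑ Z ∈ (lev r S 1).filter (fun Z => e ∉ Z), (if f ∈ Z then T r Z * φ Z else 0) =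
      ∑ W ∈ (lev r S 2).filter (fun W => e ∉ W), ∑ Z ∈ (lev r S 1).filter (fun Z => e ∉ Z ∧ W ⊆ Z),
        (if f ∉ W ∧ f ∈ Z then T r W * φ Z else 0) := by
  have hin : ∀ Z ∈ (lev r S 1).filter (fun Z => e ∉ Z), (if f ∈ Z then T r Z * φ Z else 0) =
      ∑ W ∈ (lev r S 2).filter (fun W => e ∉ W ∧ W ⊆ Z), (if f ∉ W ∧ f ∈ Z then T r W * φ Z else 0) := by
    intro Z hZ
    rw [Finset.mem_filter] at hZ
    by_cases hfZ : f ∈ Z
    · rw [if_pos hfZ, weisner hr hfZ, Finset.sum_mul, lev_restrict hr hZ.1, Finset.filter_filter,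
        ← Finset.sum_filter, Finset.filter_filter]
      apply Finset.sum_congr _ (fun _ _ => rfl)
      apply Finset.filter_congr
      intro W _
      constructor
      · rintro ⟨h1, h2⟩
        exact ⟨⟨fun h => hZ.2 (h1 h), h1⟩, h2, hfZ⟩
      · rintro ⟨⟨_, h1⟩, h2, _⟩
        exact ⟨h1, h2⟩
    · rw [if_neg hfZ]
      symm
      apply Finset.sum_eq_zero
      intro W _
      rw [if_neg (fun h => hfZ h.2)]
  rw [Finset.sum_congr rfl hin]
  apply Finset.sum_comm'
  intro Z W
  simp only [Finset.mem_filter]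
  constructor
  · rintro ⟨⟨h1, h2⟩, h3, h4, h5⟩
    exact ⟨⟨h1, h2, h5⟩, h3, h4⟩
  · rintro ⟨⟨h1, h2, h5⟩, h3, h4⟩
    exact ⟨⟨h1, h2⟩, h3, h4, h5⟩

theorem stepA (hr : RK r) (he : e ∈ S) (hf : f ∈ S) (hef : e ≠ f) (h1 : r {f} = 1) (h2 : r (S.erase f) = r S)
    (v : Finset α → ℝ) (t : ℝ) :
    Qa r S e v - 2 * t * ∑ W ∈ (lev r S 2).filter (fun W => e ∉ W ∧ f ∉ W),
        ∑ _Z ∈ (lev r S 1).filter (fun Z => e ∉ Z ∧ f ∈ Z ∧ W ⊆ Z), T r W * v W ≤
      Qa r (S.erase f) e (vA r e f t v) + Qa (con r {f}) (S.erase f) e (vB e f t v) := by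
  have hee : ∀ F : Finset α, e ∉ F.erase f ↔ e ∉ F := fun F => by
    simp only [Finset.mem_erase, not_and]
    exact ⟨fun h => h hef, fun h _ => h⟩
  -- the deletion
  have hD : Qa r (S.erase f) e (vA r e f t v) =
      ∑ Z ∈ (lev r S 1).filter (fun Z => e ∉ Z),
        (if ¬ Col r f Z then T r (Z.erase f) * vA r e f t v (Z.erase f) ^ 2 else 0) -
      ∑ W ∈ (lev r S 2).filter (fun W => e ∉ W), ∑ Z ∈ (lev r S 1).filter (fun Z => e ∉ Z ∧ W ⊆ Z),
        (if ¬ Col r f W ∧ ¬ Col r f Z then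
          T r (W.erase f) * (vA r e f t v (W.erase f) - vA r e f t v (Z.erase f)) ^ 2 else 0) := by
    unfold Qa
    congr 1
    · rw [sum_del hr hf h2 1, ← Finset.sum_filter, Finset.filter_filter]
      apply Finset.sum_congr _ (fun _ _ => rfl)
      apply Finset.filter_congr
      intro Z _
      rw [hee]
      exact and_comm
    · rw [sum_del hr hf h2 2]
      have e1 : ∀ W ∈ (lev r S 2).filter (fun W => e ∉ W), ∑ Z ∈ (lev r S 1).filter (fun Z => e ∉ Z ∧ W ⊆ Z),
          (if ¬ Col r f W ∧ ¬ Col r f Z then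
            T r (W.erase f) * (vA r e f t v (W.erase f) - vA r e f t v (Z.erase f)) ^ 2 else 0) =
          (if ¬ Col r f W then ∑ Z ∈ (lev r (S.erase f) 1).filter (fun Z => e ∉ Z ∧ W.erase f ⊆ Z),
            T r (W.erase f) * (vA r e f t v (W.erase f) - vA r e f t v Z) ^ 2 else 0) := by
        intro W hW
        rw [Finset.mem_filter, mem_lev] at hW
        by_cases hc : Col r f W
        · rw [if_neg (not_not.2 hc)]
          apply Finset.sum_eq_zero
          intro Z _
          rw [if_neg (fun h => h.1 hc)]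
        · rw [if_pos hc, sum_del hr hf h2 1, ← Finset.sum_filter, Finset.filter_filter]
          apply Finset.sum_congr _ (fun _ _ => rfl)
          apply Finset.filter_congr
          intro Z hZ
          rw [mem_lev] at hZ
          rw [hee, sub_del hr hW.1.1 hZ.1 hc]
          constructor
          · rintro ⟨⟨a1, a2⟩, _, a4⟩
            exact ⟨a4, a1, a2⟩
          · rintro ⟨a4, a1, a2⟩
            exact ⟨⟨a1, a2⟩, hc, a4⟩
      rw [Finset.sum_congr rfl e1, ← Finset.sum_filter, Finset.filter_filter]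
      apply Finset.sum_congr _ (fun _ _ => rfl)
      apply Finset.filter_congr
      intro Z _
      rw [hee]
      exact and_comm
  -- the contraction
  have hC : Qa (con r {f}) (S.erase f) e (vB e f t v) =
      ∑ Z ∈ (lev r S 1).filter (fun Z => e ∉ Z),
        (if f ∈ Z then T (con r {f}) (Z.erase f) * vB e f t v (Z.erase f) ^ 2 else 0) -
      ∑ W ∈ (lev r S 2).filter (fun W => e ∉ W), ∑ Z ∈ (lev r S 1).filter (fun Z => e ∉ Z ∧ W ⊆ Z),
        (if f ∈ W then
          T (con r {f}) (W.erase f) * (vB e f t v (W.erase f) - vB e f t v (Z.erase f)) ^ 2 else 0) := by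
    unfold Qa
    congr 1
    · rw [sum_con hr hf h1 1, ← Finset.sum_filter, Finset.filter_filter]
      apply Finset.sum_congr _ (fun _ _ => rfl)
      apply Finset.filter_congr
      intro Z _
      rw [hee]
      exact and_comm
    · rw [sum_con hr hf h1 2]
      have e1 : ∀ W ∈ (lev r S 2).filter (fun W => e ∉ W), ∑ Z ∈ (lev r S 1).filter (fun Z => e ∉ Z ∧ W ⊆ Z),
          (if f ∈ W then
            T (con r {f}) (W.erase f) * (vB e f t v (W.erase f) - vB e f t v (Z.erase f)) ^ 2 else 0) =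
          (if f ∈ W then ∑ Z ∈ (lev (con r {f}) (S.erase f) 1).filter (fun Z => e ∉ Z ∧ W.erase f ⊆ Z),
            T (con r {f}) (W.erase f) * (vB e f t v (W.erase f) - vB e f t v Z) ^ 2 else 0) := by
        intro W hW
        by_cases hfW : f ∈ W
        · rw [if_pos hfW, sum_con hr hf h1 1]
          have e2 : (lev r S 1).filter (fun Z => f ∈ Z ∧ e ∉ Z.erase f ∧ W.erase f ⊆ Z.erase f) =
              (lev r S 1).filter (fun Z => e ∉ Z ∧ W ⊆ Z) := by
            apply Finset.filter_congr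
            intro Z hZ
            rw [hee]
            constructor
            · rintro ⟨a1, a2, a3⟩
              exact ⟨a2, (sub_con hfW a1).1 a3⟩
            · rintro ⟨a1, a2⟩
              exact ⟨a2 hfW, a1, (sub_con hfW (a2 hfW)).2 a2⟩
          rw [e2]
          apply Finset.sum_congr rfl
          intro Z _
          rw [if_pos hfW]
        · rw [if_neg hfW]
          apply Finset.sum_eq_zero
          intro Z _
          rw [if_neg hfW]
      rw [Finset.sum_congr rfl e1, ← Finset.sum_filter, Finset.filter_filter]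
      apply Finset.sum_congr _ (fun _ _ => rfl)
      apply Finset.filter_congr
      intro Z _
      rw [hee]
      exact and_comm
  -- the correction
  have hT : 2 * t * ∑ W ∈ (lev r S 2).filter (fun W => e ∉ W ∧ f ∉ W),
        ∑ _Z ∈ (lev r S 1).filter (fun Z => e ∉ Z ∧ f ∈ Z ∧ W ⊆ Z), T r W * v W =
      ∑ W ∈ (lev r S 2).filter (fun W => e ∉ W), ∑ Z ∈ (lev r S 1).filter (fun Z => e ∉ Z ∧ W ⊆ Z),
        (if f ∉ W ∧ f ∈ Z then 2 * t * (T r W * v W) else 0) := by
    have e1 : ∀ W ∈ (lev r S 2).filter (fun W => e ∉ W), ∑ Z ∈ (lev r S 1).filter (fun Z => e ∉ Z ∧ W ⊆ Z),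
        (if f ∉ W ∧ f ∈ Z then 2 * t * (T r W * v W) else 0) =
        (if f ∉ W then ∑ _Z ∈ (lev r S 1).filter (fun Z => e ∉ Z ∧ f ∈ Z ∧ W ⊆ Z), 2 * t * (T r W * v W)
          else 0) := by
      intro W _
      by_cases hfW : f ∈ W
      · rw [if_neg (not_not.2 hfW)]
        apply Finset.sum_eq_zero
        intro Z _
        rw [if_neg (fun h => h.1 hfW)]
      · rw [if_pos hfW, ← Finset.sum_filter, Finset.filter_filter]
        apply Finset.sum_congr _ (fun _ _ => rfl)
        apply Finset.filter_congr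
        intro Z _
        constructor
        · rintro ⟨⟨a1, a2⟩, _, a4⟩
          exact ⟨a1, a4, a2⟩
        · rintro ⟨a1, a4, a2⟩
          exact ⟨⟨a1, a2⟩, hfW, a4⟩
    rw [Finset.sum_congr rfl e1, ← Finset.sum_filter, Finset.filter_filter, Finset.mul_sum]
    apply Finset.sum_congr rfl
    intro W _
    rw [Finset.mul_sum]
  -- single terms
  have hS : ∑ Z ∈ (lev r S 1).filter (fun Z => e ∉ Z),
        (if ¬ Col r f Z then T r (Z.erase f) * vA r e f t v (Z.erase f) ^ 2 else 0) +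
      ∑ Z ∈ (lev r S 1).filter (fun Z => e ∉ Z),
        (if f ∈ Z then T (con r {f}) (Z.erase f) * vB e f t v (Z.erase f) ^ 2 else 0) =
      ∑ Z ∈ (lev r S 1).filter (fun Z => e ∉ Z), T r Z * v Z ^ 2 +
      ∑ W ∈ (lev r S 2).filter (fun W => e ∉ W), ∑ Z ∈ (lev r S 1).filter (fun Z => e ∉ Z ∧ W ⊆ Z),
        (if f ∉ W ∧ f ∈ Z then T r W * (t ^ 2 - 2 * t * v Z) else 0) := by
    rw [← StA_dist hr (fun Z => t ^ 2 - 2 * t * v Z), ← Finset.sum_add_distrib, ← Finset.sum_add_distrib]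
    apply Finset.sum_congr rfl
    intro Z hZ
    rw [Finset.mem_filter, mem_lev] at hZ
    exact StA_single hr hf h1 hZ.1.1 hZ.2 v t
  -- pairs
  have hP : ∑ W ∈ (lev r S 2).filter (fun W => e ∉ W), ∑ Z ∈ (lev r S 1).filter (fun Z => e ∉ Z ∧ W ⊆ Z),
        (if ¬ Col r f W ∧ ¬ Col r f Z then
          T r (W.erase f) * (vA r e f t v (W.erase f) - vA r e f t v (Z.erase f)) ^ 2 else 0) +
      ∑ W ∈ (lev r S 2).filter (fun W => e ∉ W), ∑ Z ∈ (lev r S 1).filter (fun Z => e ∉ Z ∧ W ⊆ Z),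
        (if f ∈ W then
          T (con r {f}) (W.erase f) * (vB e f t v (W.erase f) - vB e f t v (Z.erase f)) ^ 2 else 0) ≤
      ∑ W ∈ (lev r S 2).filter (fun W => e ∉ W), ∑ Z ∈ (lev r S 1).filter (fun Z => e ∉ Z ∧ W ⊆ Z),
        T r W * (v W - v Z) ^ 2 +
      (∑ W ∈ (lev r S 2).filter (fun W => e ∉ W), ∑ Z ∈ (lev r S 1).filter (fun Z => e ∉ Z ∧ W ⊆ Z),
        (if f ∉ W ∧ f ∈ Z then T r W * (t ^ 2 - 2 * t * v Z) else 0) +
      ∑ W ∈ (lev r S 2).filter (fun W => e ∉ W), ∑ Z ∈ (lev r S 1).filter (fun Z => e ∉ Z ∧ W ⊆ Z),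
        (if f ∉ W ∧ f ∈ Z then 2 * t * (T r W * v W) else 0)) := by
    rw [← Finset.sum_add_distrib, ← Finset.sum_add_distrib, ← Finset.sum_add_distrib]
    apply Finset.sum_le_sum
    intro W hW
    rw [← Finset.sum_add_distrib, ← Finset.sum_add_distrib, ← Finset.sum_add_distrib]
    apply Finset.sum_le_sum
    intro Z hZ
    rw [Finset.mem_filter, mem_lev] at hW hZ
    have h := StA_pair hr hf h1 hW.1.1 hZ.1.1 hZ.2.2 hZ.2.1 v t
    refine h.trans (le_of_eq ?_)
    congr 1
    by_cases hc : f ∉ W ∧ f ∈ Z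
    · rw [if_pos hc, if_pos hc, if_pos hc]
    · rw [if_neg hc, if_neg hc, if_neg hc, add_zero]
  rw [hD, hC, hT]
  unfold Qa
  linarith [hS, hP]

end ACY
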