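import Pool.Agent.ACY.Re
import Pool.Agent.ACY.Be
import Pool.Agent.ACY.Mu

/-!
# ACY-To: `T X = ∑ bet F * mu F X` over the flats `F` of `X` containing `e`

Types of flats `F` of `X`: N: `f ∉ F`; P: `f ∈ F`, `¬ Col r f F`; Q: `Col r f F`.
Strong induction on `X.card`, deletion and contraction of an element `f ≠ e`.
-/

set_option autoImplicit false

namespace ACY

open Finset

variable {α : Type} [DecidableEq α] {r : Finset α → ℕ} {S A B C D F G W X Z : Finset α} {e f x : α} {k j : ℕ}

private theorem To_con_eq (hr : RK r) (h1 : r {f} = 1) (hc : Col r f F) (hA : A ⊆ F.erase f) :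
    con r {f} A = r A := by
  have h2 := con_add hr {f} A
  have h3 : A ∪ {f} = insert f A := by
    rw [Finset.union_comm]
    rfl
  rw [h3, h1] at h2
  rcases hr.ins A f with h4 | h4
  · exfalso
    have h5 := hr.cl_mono hA h4
    rw [Finset.insert_erase hc.1] at h5
    exact absurd hc.2 (by omega)
  · omega

private theorem To_main : ∀ (n : ℕ) (r : Finset α → ℕ) (X : Finset α), RK r → X.card = n → e ∈ X →
    T r X = ∑ F ∈ (flats r X).filter (fun F => e ∈ F), bet r F * mu r F X := by
  intro n
  induction n using Nat.strong_induction_on with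
  | _ n ih =>
  intro r X hr hn he
  by_cases hloop : ∃ x ∈ X, r {x} = 0
  · obtain ⟨x, hx, hx0⟩ := hloop
    rw [T_loop hr hx hx0]
    symm
    refine Finset.sum_eq_zero fun F hF => ?_
    have hF1 := (Finset.mem_filter.mp hF).1
    have hxF : x ∈ F := by
      refine mem_of_flat hr hF1 (Finset.empty_subset F) hx ?_
      rw [hr.empty]
      exact hx0
    rw [bet_loop hr hxF hx0, zero_mul]
  have h1 : ∀ x ∈ X, r {x} = 1 := by
    intro x hx
    rcases hr.sing x with h | h
    · exact absurd ⟨x, hx, h⟩ hloop
    · exact h
  by_cases hex : ∃ f ∈ X, f ≠ e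
  swap
  · have hX : X = {e} := by
      rw [Finset.eq_singleton_iff_unique_mem]
      refine ⟨he, fun x hx => ?_⟩
      by_contra hne
      exact hex ⟨x, hx, hne⟩
    have hT : T r X = 1 := by
      have h2 : r (X.erase e) < r X := by
        rw [hX, Finset.erase_singleton, hr.empty]
        have := h1 e he
        omega
      rw [(T_col hr he h2).2, hX, Finset.erase_singleton]
      exact T_empty hr
    have hfil : (flats r X).filter (fun F => e ∈ F) = {X} := by
      ext F
      rw [Finset.mem_filter, Finset.mem_singleton]
      constructor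
      · rintro ⟨hF, heF⟩
        refine Finset.Subset.antisymm (mem_flats.mp hF).1 ?_
        rw [hX]
        exact Finset.singleton_subset_iff.mpr heF
      · rintro rfl
        exact ⟨self_flat, he⟩
    rw [hfil, Finset.sum_singleton, mu_self hr, mul_one, hT, hX]
    exact (bet_sing hr (h1 e he)).symm
  obtain ⟨f, hf, hfe⟩ := hex
  have hef : e ≠ f := fun h => hfe h.symm
  have heX : e ∈ X.erase f := Finset.mem_erase.mpr ⟨hef, he⟩
  have hcard : (X.erase f).card < n := by
    rw [← hn]
    exact Finset.card_erase_lt_of_mem hf
  have hmem : ∀ F : Finset α, e ∈ F.erase f ↔ e ∈ F := by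
    intro F
    rw [Finset.mem_erase]
    exact ⟨fun h => h.2, fun h => ⟨hef, h⟩⟩
  have hIH1 := ih _ hcard r (X.erase f) hr rfl heX
  rcases lt_or_eq_of_le (hr.mono (X.erase f) X (Finset.erase_subset f X)) with h2 | h2
  · -- `f` is a coloop of `X`
    rw [(T_col hr hf h2).2, hIH1, sum_del_flats hr hf (fun G => e ∈ G)
      (fun G => bet r G * mu r G (X.erase f)), Finset.sum_filter, Finset.sum_filter]
    refine Finset.sum_congr rfl fun F hF => ?_
    have hFX := (mem_flats.mp hF).1
    by_cases heF : e ∈ F
    · rw [if_pos heF]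
      by_cases hfF : f ∈ F
      · have hcol : Col r f F := by
          refine ⟨hfF, ?_⟩
          rcases hr.ins (F.erase f) f with h4 | h4
          · exfalso
            have h5 := hr.cl_mono (Finset.erase_subset_erase f hFX) h4
            rw [Finset.insert_erase hf] at h5
            omega
          · rw [Finset.insert_erase hfF] at h4
            omega
        rw [if_neg (fun h => h.1 hcol), bet_col hr hfF heF hef hcol.2, zero_mul]
      · have hncol : ¬ Col r f F := fun h => hfF h.1
        rw [if_pos ⟨hncol, (hmem F).mpr heF⟩, Finset.erase_eq_of_notMem hfF,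
          mu5 hr hFX hf hfF h2]
    · rw [if_neg heF, if_neg (fun h => heF ((hmem F).mp h.2))]
  · -- deletion and contraction
    have hIH2 := ih _ hcard (con r {f}) (X.erase f) (hr.con {f}) rfl heX
    have hcol := sum_col (S := X) hr hf (fun F => e ∈ F)
      (fun F => bet r F * mu (con r {f}) F (X.erase f))
    rw [T_del hr hf (h1 f hf) h2, hIH1, hIH2, sum_del_flats hr hf (fun G => e ∈ G)
      (fun G => bet r G * mu r G (X.erase f)), sum_con_flats hr hf (fun G => e ∈ G)
      (fun G => bet (con r {f}) G * mu (con r {f}) G (X.erase f))]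
    rw [Finset.sum_filter, Finset.sum_filter] at hcol
    rw [Finset.sum_filter, Finset.sum_filter, Finset.sum_filter]
    have hkey : ∀ F ∈ flats r X,
        (if ¬ Col r f F ∧ e ∈ F.erase f then
          bet r (F.erase f) * mu r (F.erase f) (X.erase f) else 0) +
        (if f ∈ F ∧ e ∈ F.erase f then
          bet (con r {f}) (F.erase f) * mu (con r {f}) (F.erase f) (X.erase f) else 0) +
        (if (f ∉ F ∧ insert f F ∈ flats r X) ∧ e ∈ F then
          bet r F * mu (con r {f}) F (X.erase f) else 0) =
        (if e ∈ F then bet r F * mu r F X else 0) +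
        (if Col r f F ∧ e ∈ F.erase f then
          bet r (F.erase f) * mu (con r {f}) (F.erase f) (X.erase f) else 0) := by
      intro F hF
      have hFX := (mem_flats.mp hF).1
      by_cases heF : e ∈ F
      swap
      · have h3 : e ∉ F.erase f := fun h => heF ((hmem F).mp h)
        rw [if_neg (fun h => h3 h.2), if_neg (fun h => h3 h.2), if_neg (fun h => heF h.2),
          if_neg heF, if_neg (fun h => h3 h.2)]
        norm_num
      have heF' : e ∈ F.erase f := (hmem F).mpr heF
      by_cases hfF : f ∈ F
      · by_cases hc : Col r f F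
        · -- type Q
          rw [if_neg (fun h => h.1 hc), if_pos ⟨hfF, heF'⟩, if_neg (fun h => h.1.1 hfF),
            if_pos heF, if_pos ⟨hc, heF'⟩, bet_col hr hfF heF hef hc.2,
            bet_congr (r := con r {f}) (r' := r) (X := F.erase f)
              (fun A hA => To_con_eq hr (h1 f hf) hc hA)]
          ring
        · -- type P
          have hre : r (F.erase f) = r F := r_erase hc hr
          rw [if_pos ⟨hc, heF'⟩, if_pos ⟨hfF, heF'⟩, if_neg (fun h => h.1.1 hfF), if_pos heF,
            if_neg (fun h => hc h.1), mu1 hr hfF hre hFX, mu2 hr hfF hFX,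
            bet_del hr hfF (h1 f hf) hre]
          ring
      · -- type N
        have hnc : ¬ Col r f F := fun h => hfF h.1
        have h4 := mu4 hr hF self_flat hFX hf hfF
        rw [if_pos h2] at h4
        rw [if_pos (show ¬ Col r f F ∧ e ∈ F.erase f from ⟨hnc, heF'⟩),
          if_neg (show ¬ (f ∈ F ∧ e ∈ F.erase f) from fun h => hfF h.1), if_pos heF,
          if_neg (show ¬ (Col r f F ∧ e ∈ F.erase f) from fun h => hnc h.1),
          Finset.erase_eq_of_notMem hfF, h4]
        by_cases hi : insert f F ∈ flats r X
        · rw [if_pos (show (f ∉ F ∧ insert f F ∈ flats r X) ∧ e ∈ F from ⟨⟨hfF, hi⟩, heF⟩),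
            if_pos hi]
          ring
        · rw [if_neg (show ¬ ((f ∉ F ∧ insert f F ∈ flats r X) ∧ e ∈ F) from
            fun h => hi h.1.2), if_neg hi]
          ring
    have hsum := Finset.sum_congr rfl hkey
    rw [Finset.sum_add_distrib, Finset.sum_add_distrib, Finset.sum_add_distrib] at hsum
    linarith

theorem tot (hr : RK r) (he : e ∈ X) :
    T r X = ∑ F ∈ (flats r X).filter (fun F => e ∈ F), bet r F * mu r F X :=
  To_main X.card r X hr rfl he

end ACY
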