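import Pool.Agent.ACY.MAv
import Pool.Agent.TFP.Stmt
import Pool.Agent.Helper22.Lists
import Pool.Agent.HyOrd.Main

/-!
# ACY transfer: randomised approximation schemes along approximation preserving reductions

`fpras_trans`: if approximating `f` reduces to approximating `g` (`APRed f g`) and `g` has a fully
polynomial randomised approximation scheme for all multigraphs, then so has `f`.
`final`: from the schemes for `T(G; x, 0)`, `x ≥ 1` rational, to all rational `x ≥ 1`, `0 ≤ y < 1`.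
-/

set_option autoImplicit false

namespace ACY.Trf

open N487b59b3 N68a2faeb Pool.Agent.Helper22 Pool.Agent.Helper47.TR Pool.Agent.TFP Pool.Agent.Helper6.WB

/-- the code of the output as a list of bits -/
theorem fp_code {α β : Type} [N487b59b3 α] [N487b59b3 β] {f : α → β} (hf : FP f) :
    FP fun a => (bitEncode (f a) : List Bool) :=
  (PT.comp hf PT.quote).mono (by
    rintro x y ⟨a, rfl, rfl⟩
    exact ⟨bitEncode (f a), ⟨a, rfl, rfl⟩, enc_bits _⟩)

theorem fp_un_lin {α : Type} [N487b59b3 α] {f : α → List Bool} (hf : FP f) (k : ℕ) :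
    FP fun a => un (k * ((f a).length + 1)) := by
  have h := FP.un_poly hf (Polynomial.C k * (Polynomial.X + 1))
  refine (congrArg FP (funext fun a => ?_)).mp h
  simp

/-- `Close` along a relative error -/
theorem close_trans {F W c w : ℚ} {ε : ℝ} (hε0 : 0 < ε) (hε1 : ε ≤ 1)
    (h1 : |(F : ℝ) - c * W| ≤ ε / 4 * |(F : ℝ)|) (h2 : Close (ε / 2) W w) :
    Close ε F (c * w) := by
  obtain ⟨s1, s2, l1, l2⟩ := h2
  have hF0 : 0 ≤ |(F : ℝ)| := abs_nonneg _
  have h3 : |(F : ℝ) - c * W| ≤ 1 / 4 * |(F : ℝ)| :=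
    h1.trans (mul_le_mul_of_nonneg_right (by linarith) hF0)
  have hq : |F - c * W| ≤ 1 / 4 * |F| := by
    have : ((|F - c * W| : ℚ) : ℝ) ≤ ((1 / 4 * |F| : ℚ) : ℝ) := by
      push_cast
      exact h3
    exact_mod_cast this
  obtain ⟨q1, q2⟩ := abs_le.1 hq
  have sp : 0 < c * W ↔ 0 < F := by
    constructor
    · intro h
      by_contra hF
      rw [abs_of_nonpos (not_lt.1 hF)] at q1
      linarith [not_lt.1 hF]
    · intro h
      rw [abs_of_pos h] at q2
      linarith
  have sn : c * W < 0 ↔ F < 0 := by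
    constructor
    · intro h
      by_contra hF
      rw [abs_of_nonneg (not_lt.1 hF)] at q2
      linarith [not_lt.1 hF]
    · intro h
      rw [abs_of_neg h] at q1
      linarith
  have e1 : (0 < c * w ↔ 0 < c * W) := by
    rw [mul_pos_iff, mul_pos_iff, s1, s2]
  have e2 : (c * w < 0 ↔ c * W < 0) := by
    rw [mul_neg_iff, mul_neg_iff, s1, s2]
  refine ⟨e1.trans sp, e2.trans sn, ?_, ?_⟩
  · -- lower bound
    have a1 : |(F : ℝ)| * (1 - ε / 4) ≤ |(c : ℝ)| * |(W : ℝ)| := by
      have b1 := abs_sub_abs_le_abs_sub (F : ℝ) (c * W)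
      rw [abs_mul] at b1
      linarith
    have a2 : Real.exp (-(ε / 2)) ≤ 1 - ε / 4 := by
      have b1 : 1 + ε / 2 ≤ Real.exp (ε / 2) := by
        have := Real.add_one_le_exp (ε / 2)
        linarith
      rw [Real.exp_neg, inv_le_comm₀ (Real.exp_pos _) (by linarith)]
      refine le_trans ?_ b1
      rw [inv_le_iff_one_le_mul₀ (by linarith)]
      nlinarith
    have a3 : Real.exp (-ε) = Real.exp (-(ε / 2)) * Real.exp (-(ε / 2)) := by
      rw [← Real.exp_add]
      congr 1
      ring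
    push_cast
    rw [abs_mul, a3]
    have hp := Real.exp_pos (-(ε / 2))
    calc Real.exp (-(ε / 2)) * Real.exp (-(ε / 2)) * |(F : ℝ)|
        = Real.exp (-(ε / 2)) * (|(F : ℝ)| * Real.exp (-(ε / 2))) := by ring
      _ ≤ Real.exp (-(ε / 2)) * (|(F : ℝ)| * (1 - ε / 4)) :=
          mul_le_mul_of_nonneg_left (mul_le_mul_of_nonneg_left a2 hF0) hp.le
      _ ≤ Real.exp (-(ε / 2)) * (|(c : ℝ)| * |(W : ℝ)|) := mul_le_mul_of_nonneg_left a1 hp.le
      _ = |(c : ℝ)| * (Real.exp (-(ε / 2)) * |(W : ℝ)|) := by ring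
      _ ≤ |(c : ℝ)| * |(w : ℝ)| := mul_le_mul_of_nonneg_left l1 (abs_nonneg _)
  · have a1 : |(c : ℝ)| * |(W : ℝ)| ≤ |(F : ℝ)| * (1 + ε / 4) := by
      have b1 := abs_sub_abs_le_abs_sub ((c : ℝ) * W) F
      rw [abs_mul, abs_sub_comm] at b1
      linarith
    have a2 : 1 + ε / 4 ≤ Real.exp (ε / 2) := by
      have := Real.add_one_le_exp (ε / 2)
      linarith
    have a3 : Real.exp ε = Real.exp (ε / 2) * Real.exp (ε / 2) := by
      rw [← Real.exp_add]
      congr 1
      ring
    push_cast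
    rw [abs_mul, a3]
    have hp := Real.exp_pos (ε / 2)
    calc |(c : ℝ)| * |(w : ℝ)| ≤ |(c : ℝ)| * (Real.exp (ε / 2) * |(W : ℝ)|) :=
          mul_le_mul_of_nonneg_left l2 (abs_nonneg _)
      _ = Real.exp (ε / 2) * (|(c : ℝ)| * |(W : ℝ)|) := by ring
      _ ≤ Real.exp (ε / 2) * (|(F : ℝ)| * (1 + ε / 4)) := mul_le_mul_of_nonneg_left a1 hp.le
      _ ≤ Real.exp (ε / 2) * (|(F : ℝ)| * Real.exp (ε / 2)) :=
          mul_le_mul_of_nonneg_left (mul_le_mul_of_nonneg_left a2 hF0) hp.le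
      _ = Real.exp (ε / 2) * Real.exp (ε / 2) * |(F : ℝ)| := by ring

/-- a smaller error is a larger one -/
theorem close_mono {ε δ : ℝ} (h : ε ≤ δ) {f a : ℚ} (h1 : Close ε f a) : Close δ f a := by
  obtain ⟨s1, s2, l1, l2⟩ := h1
  refine ⟨s1, s2, le_trans ?_ l1, l2.trans ?_⟩
  · exact mul_le_mul_of_nonneg_right (Real.exp_le_exp.2 (by linarith)) (abs_nonneg _)
  · exact mul_le_mul_of_nonneg_right (Real.exp_le_exp.2 h) (abs_nonneg _)

/-- the query: the multigraph and the precision for `g` -/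
def qry (h : MG × List Bool → MG × (ℤ × ℕ)) (x : MG × List Bool) : MG × List Bool :=
  ((h (x.1, un (4 * (x.2.length + 1)))).1, un (2 * (x.2.length + 1)))

theorem fp_qry {h : MG × List Bool → MG × (ℤ × ℕ)} (hh : FP h) : FP (qry h) :=
  FP.pair (hh.comp (FP.pair FP.fst (fp_un_lin FP.snd 4))).fst' (fp_un_lin FP.snd 2)

/-- the answer for `g` -/
def ans (h : MG × List Bool → MG × (ℤ × ℕ)) (p : Polynomial ℕ)
    (A : (MG × List Bool) × List Bool → ℤ × ℕ) (x : (MG × List Bool) × List Bool) : ℤ × ℕ :=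
  A (qry h x.1, x.2.take (p.eval (bitEncode (qry h x.1)).length))

theorem fp_ans {h : MG × List Bool → MG × (ℤ × ℕ)} (hh : FP h) (p : Polynomial ℕ)
    {A : (MG × List Bool) × List Bool → ℤ × ℕ} (hA : FP A) : FP (ans h p A) := by
  have h1 : FP fun x : (MG × List Bool) × List Bool => qry h x.1 := (fp_qry hh).comp FP.fst
  have h2 := FP.un_poly (fp_code h1) p
  have h3 : FP fun x : (MG × List Bool) × List Bool =>
      x.2.take (un (p.eval (bitEncode (qry h x.1)).length)).length := FP.take FP.snd h2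
  simp only [Pool.Agent.Helper22.un_length] at h3
  exact hA.comp (FP.pair h1 h3)

/-- the algorithm for `f` -/
def alg (h : MG × List Bool → MG × (ℤ × ℕ)) (p : Polynomial ℕ)
    (A : (MG × List Bool) × List Bool → ℤ × ℕ) (x : (MG × List Bool) × List Bool) : ℤ × ℕ :=
  ((h (x.1.1, un (4 * (x.1.2.length + 1)))).2.1 * (ans h p A x).1,
    (h (x.1.1, un (4 * (x.1.2.length + 1)))).2.2 * (ans h p A x).2)

theorem fp_alg {h : MG × List Bool → MG × (ℤ × ℕ)} (hh : FP h) (p : Polynomial ℕ)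
    {A : (MG × List Bool) × List Bool → ℤ × ℕ} (hA : FP A) : FP (alg h p A) := by
  have h1 : FP fun x : (MG × List Bool) × List Bool =>
      h (x.1.1, un (4 * (x.1.2.length + 1))) :=
    hh.comp (FP.pair FP.fst.fst' (fp_un_lin FP.fst.snd' 4))
  have h2 := fp_ans hh p hA
  exact FP.pair (Pool.Agent.Helper47.TR.FP.intMul h1.snd'.fst' h2.fst') (Pool.Agent.Helper6.WB.FP.natMul h1.snd'.snd' h2.snd')

/-- **Transfer.** A fully polynomial randomised approximation scheme for `g` gives one for `f` if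
approximating `f` reduces to approximating `g`. -/
theorem fpras_trans {f g : MG → ℚ} (h : APRed f g) (hg : HasFPRAS (fun _ => True) g) :
    HasFPRAS (fun _ => True) f := by
  classical
  obtain ⟨h, hh, hspec⟩ := h
  obtain ⟨p, A, hA, hA2⟩ := hg
  rw [isPolyTime_iff] at hh hA
  obtain ⟨B, ⟨P, hP⟩, -, hB⟩ := FP.bound (fp_qry hh)
  refine ⟨p.comp P, alg h p A, ?_, ?_⟩
  · rw [isPolyTime_iff]
    exact fp_alg hh p hA
  intro G hG _ N
  -- the length of the random string for the query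
  have hlen : p.eval (bitEncode (qry h (G, N))).length ≤
      (p.comp P).eval (bitEncode (G, N)).length := by
    rw [Polynomial.eval_comp]
    exact poly_mono p ((hB (G, N)).trans (hP _))
  obtain ⟨k, hk⟩ := Nat.exists_eq_add_of_le hlen
  rw [hk]
  obtain ⟨v1, b1, r1⟩ := hspec G hG (un (4 * (N.length + 1)))
  have hgood := hA2 (qry h (G, N)).1 v1 trivial (qry h (G, N)).2
  rw [Prod.mk.eta] at hgood
  -- the errors
  have hN : (0 : ℝ) < (N.length : ℝ) + 1 := by positivity
  have hε0 : (0 : ℝ) < 1 / ((N.length : ℝ) + 1) := by positivity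
  have hε1 : 1 / ((N.length : ℝ) + 1) ≤ 1 := by
    rw [div_le_one hN]
    have : (0 : ℝ) ≤ N.length := Nat.cast_nonneg _
    linarith
  have hr : |(f G : ℝ) - ((((h (G, un (4 * (N.length + 1)))).2.1 : ℚ) /
      ((h (G, un (4 * (N.length + 1)))).2.2 : ℚ) : ℚ) : ℝ) *
        (g (h (G, un (4 * (N.length + 1)))).1 : ℝ)| ≤
      1 / ((N.length : ℝ) + 1) / 4 * |(f G : ℝ)| := by
    rw [Pool.Agent.Helper22.un_length] at r1
    have r2 : ((((4 * (N.length + 1) : ℕ) : ℚ) * |f G - (h (G, un (4 * (N.length + 1)))).2.1 /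
        (h (G, un (4 * (N.length + 1)))).2.2 * g (h (G, un (4 * (N.length + 1)))).1| : ℚ) : ℝ) ≤
        ((|f G| : ℚ) : ℝ) := by exact_mod_cast r1
    push_cast at r2 ⊢
    have e1 : 1 / ((N.length : ℝ) + 1) / 4 * |(f G : ℝ)| =
        |(f G : ℝ)| / (4 * ((N.length : ℝ) + 1)) := by
      field_simp
    rw [e1, le_div_iff₀ (by positivity), mul_comm]
    exact r2
  -- good strings
  set m := p.eval (bitEncode (qry h (G, N))).length with hm
  let good' : List Bool → Prop := fun r =>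
    (A (qry h (G, N), r)).2 ≠ 0 ∧
      Close (1 / (((qry h (G, N)).2.length : ℝ) + 1)) (g (qry h (G, N)).1)
        ((A (qry h (G, N), r)).1 / (A (qry h (G, N), r)).2)
  let good : List Bool → Prop := fun r =>
    (alg h p A ((G, N), r)).2 ≠ 0 ∧
      Close (1 / ((N.length : ℝ) + 1)) (f G)
        ((alg h p A ((G, N), r)).1 / (alg h p A ((G, N), r)).2)
  have hgg : ∀ r : List Bool, good' (r.take m) → good r := by
    rintro r ⟨g1, g2⟩
    have e : ans h p A ((G, N), r) = A (qry h (G, N), r.take m) := rfl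
    refine ⟨mul_ne_zero b1 (by rw [e]; exact g1), ?_⟩
    have e2 : (((alg h p A ((G, N), r)).1 : ℚ) / ((alg h p A ((G, N), r)).2 : ℚ)) =
        ((h (G, un (4 * (N.length + 1)))).2.1 / (h (G, un (4 * (N.length + 1)))).2.2) *
          ((A (qry h (G, N), r.take m)).1 / (A (qry h (G, N), r.take m)).2) := by
      rw [div_mul_div_comm]
      simp only [alg, e]
      push_cast
      rfl
    rw [e2]
    refine close_trans hε0 hε1 hr (close_mono ?_ g2)
    have e3 : (qry h (G, N)).2.length = 2 * (N.length + 1) := by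
      simp only [qry, Pool.Agent.Helper22.un_length]
    rw [e3]
    push_cast
    rw [div_div, one_div_le_one_div (by positivity) (by positivity)]
    linarith
  have c1 : (3 / 4 : ℝ) ≤ ACY.M.pr m good' := by
    rw [ACY.M.pr_count, le_div_iff₀ (by positivity)]
    have c2 : (((3 / 4 : ℚ) * 2 ^ m : ℚ) : ℝ) ≤ (((Finset.univ.filter fun r : Fin m → Bool =>
        good' (List.ofFn r)).card : ℚ) : ℝ) := by
      have c3 : (3 / 4 : ℚ) * 2 ^ m ≤ ((Finset.univ.filter fun r : Fin m → Bool =>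
          good' (List.ofFn r)).card : ℚ) := by convert hgood
      exact_mod_cast c3
    push_cast at c2
    exact c2
  have c4 : (3 / 4 : ℝ) ≤ ACY.M.pr (m + k) good := by
    refine c1.trans ?_
    rw [← ACY.M.pr_take (n := k) good']
    exact ACY.M.pr_mono fun l _ => hgg l
  rw [ACY.M.pr_count, le_div_iff₀ (by positivity)] at c4
  have c5 : (((3 / 4 : ℚ) * 2 ^ (m + k) : ℚ) : ℝ) ≤
      (((Finset.univ.filter fun r : Fin (m + k) → Bool =>
        good (List.ofFn r)).card : ℚ) : ℝ) := by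
    push_cast
    exact c4
  have c6 : ((3 / 4 : ℚ) * 2 ^ (m + k) : ℚ) ≤
      ((Finset.univ.filter fun r : Fin (m + k) → Bool => good (List.ofFn r)).card : ℚ) := by
    exact_mod_cast c5
  convert c6

/-- from the line `y = 0` to the strip `0 ≤ y < 1` -/
theorem final (h0 : ∀ x : ℚ, 1 ≤ x → HasFPRAS (fun _ => True) (tutte x 0)) {x y : ℚ}
    (hx : 1 ≤ x) (hy0 : 0 ≤ y) (hy1 : y < 1) : HasFPRAS (fun _ => True) (tutte x y) := by
  have h1 : (1 : ℚ) ≤ 1 + (x - 1) * (1 - y) := by
    have : 0 ≤ (x - 1) * (1 - y) := mul_nonneg (by linarith) (by linarith)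
    linarith
  refine fpras_trans (Pool.Agent.HyOrd.Main.result (1 + (x - 1) * (1 - y)) 0 x y 0 h1 ?_ ?_ ?_ ?_)
    (h0 _ h1)
  · rw [abs_zero]; exact one_pos
  · rw [abs_of_nonneg hy0]; exact hy1
  · push_cast; ring
  · rw [min_self]; exact hy0

end ACY.Trf
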